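import Pool.Agent.Work.MP_0b5d1f_al.Tor3

set_option autoImplicit false
set_option linter.unusedSectionVars false
set_option linter.style.haveILetI false

/-!
# The main theorem with the information on the elements of order `p`
-/

namespace Pool.Agent.Serre

variable {F : Type} [Group F] [TopologicalSpace F] [IsTopologicalGroup F] [CompactSpace F]
  [T2Space F] [TotallyDisconnectedSpace F]

variable {p : ℕ} {X : Type} {ι : X → F}

/-- reduction of the invariant character -/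
theorem theta_red {v : F} {k : ℕ} {θ : F → ZMod (p ^ (k + 1))}
    (hθ : IsChar (ncl v) (p ^ (k + 1)) θ) (h1 : ∀ g, θ (g⁻¹ * v * g) = 1)
    (hdvd : p ^ k ∣ p ^ (k + 1)) :
    IsChar (ncl v) (p ^ k) (fun a => ZMod.castHom hdvd (ZMod (p ^ k)) (θ a)) ∧
      ∀ g, ZMod.castHom hdvd (ZMod (p ^ k)) (θ (g⁻¹ * v * g)) = 1 :=
  ⟨hθ.map (ZMod.castHom hdvd (ZMod (p ^ k))).toAddMonoidHom, fun g => by rw [h1, map_one]⟩

/-- elements `x` with `x^p ∈ R` outside `R [N, N]` satisfy `(x^p)^F = R` -/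
theorem torsion_bad (hp : p.Prime) (hF : FreeProP p ι) {v r x : F} {k : ℕ} (hk : 1 ≤ k)
    (hgood : Good p (ncl v)) {ψ0 : F → ZMod p} (hψ0 : IsChar (ncl v) p ψ0) (hne : ψ0 v ≠ 0)
    (hr : r ∈ ncl v) (hrc : (v ^ (p ^ k))⁻¹ * r ∈ cder (ncl v))
    (hxv : x ∈ ncl v) (hxp : x ^ p ∈ ncl r) (hbad : ncl (x ^ p) ≠ ncl r) :
    x ∈ ncl r ⊔ cder (ncl v) := by
  by_contra hcon
  have := Fact.mk hp
  obtain ⟨θ, hθ, h1⟩ := exists_theta hp hF hgood hψ0 hne (k + 1)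
  have hN := ncl_normal v
  have hpx := step1 hp hF hθ h1 hr hrc hxv hxp hbad
  obtain ⟨f, hf, hfN, hfx⟩ := step3 hp hF hN hr (ncl_closed v) hxv hxp hcon
  have hdvd : p ^ k ∣ p ^ (k + 1) := pow_dvd_pow p (Nat.le_succ k)
  obtain ⟨hθ', h1'⟩ := theta_red hθ h1 hdvd
  obtain ⟨inc, hinc, hinj, hsurj, hinc0⟩ := exists_inc hp k
  have hEN : kerC hθ' ≤ ncl v := fun y hy => hy.1
  have hθr := theta_r hθ h1 hrc
  have hpr : (p : ZMod (p ^ (k + 1))) * θ r = 0 := by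
    rw [hθr]
    have e : (p : ZMod (p ^ (k + 1))) * (p : ZMod (p ^ (k + 1))) ^ k
      = (p : ZMod (p ^ (k + 1))) ^ (k + 1) := by ring
    rw [e, ppow_zero]
  have hrE : r ∈ kerC hθ' := ⟨hr, (mul_cast_zero hp hdvd _).1 hpr⟩
  have hxE : x ∈ kerC hθ' := ⟨hxv, (mul_cast_zero hp hdvd _).1 hpx⟩
  obtain ⟨e0, he0, he0e⟩ := div_char hinj hsurj (hθ.mono hEN)
    (fun a ha => (mul_cast_zero hp hdvd _).2 ha.2)
  have he0r : e0 r ≠ 0 := by
    intro h
    have h2 := he0e r hrE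
    rw [h, map_zero, hθr] at h2
    exact ppow_ne_zero hp k h2.symm
  obtain ⟨χ, hχ, hχf⟩ := step2 hp hF hk hgood hθ' h1' hr hrc he0 he0r hrE hf hfN
  apply hfx
  rw [← hχf _ hxp, hχ.pow hxE, CharP.cast_eq_zero, zero_mul]

/-- elements `x` of `R [N, N]` do not satisfy `(x^p)^F = R` -/
theorem torsion_good (hp : p.Prime) (hF : FreeProP p ι) {v r x : F} {k : ℕ}
    (hgood : Good p (ncl v)) {ψ0 : F → ZMod p} (hψ0 : IsChar (ncl v) p ψ0) (hne : ψ0 v ≠ 0)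
    (hr : r ∈ ncl v) (hrc : (v ^ (p ^ k))⁻¹ * r ∈ cder (ncl v))
    (hx : x ∈ ncl r ⊔ cder (ncl v)) : ncl (x ^ p) ≠ ncl r := by
  intro heq
  obtain ⟨θ, hθ, h1⟩ := exists_theta hp hF hgood hψ0 hne (k + 1)
  have hinv := theta_inv hθ h1
  have hN := ncl_normal v
  have hRn := ncl_normal r
  have hle : ncl r ≤ ncl v := ncl_mono hr
  have hθr := theta_r hθ h1 hrc
  have hχ : IsChar (ncl r) (p ^ (k + 1)) (fun a => (p : ZMod (p ^ (k + 1))) * θ a) :=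
    (hθ.mono hle).map (AddMonoidHom.mulLeft (p : ZMod (p ^ (k + 1))))
  have hpr : ∀ a ∈ ncl r, (p : ZMod (p ^ (k + 1))) * θ a = 0 := by
    refine ConjInv.sub_ext hχ (fun g a ha => by simp only [hinv g a (hle ha)]) ?_
    rw [hθr]
    have e : (p : ZMod (p ^ (k + 1))) * (p : ZMod (p ^ (k + 1))) ^ k
      = (p : ZMod (p ^ (k + 1))) ^ (k + 1) := by ring
    rw [e, ppow_zero]
  obtain ⟨a, ha, b, hb, rfl⟩ := Subgroup.mem_sup_of_normal_left.1 hx
  have hbN : b ∈ ncl v := cder_le hN (ncl_closed v) hb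
  have hxv : a * b ∈ ncl v := (ncl v).mul_mem (hle ha) hbN
  have hxp : θ ((a * b) ^ p) = 0 := by
    rw [hθ.pow hxv, hθ.1 a (hle ha) b hbN, hθ.kill_cder (ncl_closed v) hb, add_zero]
    exact hpr a ha
  have hle2 : ncl ((a * b) ^ p) ≤ ncl v := ncl_mono ((ncl v).pow_mem hxv _)
  have h2 := ConjInv.sub_ext (hθ.mono hle2) (hinv.mono hle2) hxp r (heq ▸ mem_ncl r)
  rw [hθr] at h2
  exact ppow_ne_zero hp k h2

/-- the main theorem -/
theorem main2 (hp : p.Prime) (hF : FreeProP p ι) (r : F) :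
    (NoZeroDiv p (ncl r) ∧ TorsionFreeMod (ncl r)) ∨
    ∃ (v : F) (k : ℕ), 1 ≤ k ∧
      r ∈ ncl v ∧
      (v ^ (p ^ k))⁻¹ * r ∈ (⁅ncl v, ncl v⁆ : Subgroup F).topologicalClosure ∧
      NoZeroDiv p (ncl v) ∧ TorsionFreeMod (ncl v) ∧
      (∀ L : Subgroup F, PolyTF L → r ∈ L → v ∈ L) ∧
      (∀ i : ℕ, r ∈ cds F i → v ∈ cds F i) ∧
      ∀ x : F, x ∉ ncl r → x ^ p ∈ ncl r →
        (ncl (x ^ p) = ncl r ↔ r ∈ ncl x) ∧
        (ncl (x ^ p) = ncl r ↔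
          x ∉ ncl r ⊔ (⁅ncl v, ncl v⁆ : Subgroup F).topologicalClosure) := by
  have := Fact.mk hp
  obtain ⟨v, k, hgood, hr, hrc, hcase, hk0, hmin⟩ := min_struct hp hF r
  have htf : TorsionFreeMod (ncl v) := fun g n hn h =>
    hgood.torsionFree (ncl_normal v) (ncl_closed v) g n hn h
  have hnzd : NoZeroDiv p (ncl v) := hgood.noZeroDiv hp (ncl_normal v)
  rcases Nat.eq_zero_or_pos k with rfl | hk
  · left
    rw [← hk0 rfl]
    exact ⟨hnzd, htf⟩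
  · rcases hcase with rfl | ⟨ψ0, hψ0, hne⟩
    · -- `r = 1`
      left
      have h1 : ncl (1 : F) = ncl r := le_antisymm (ncl_mono (one_mem _)) (ncl_mono hr)
      rw [← h1]
      exact ⟨hnzd, htf⟩
    · right
      refine ⟨v, k, hk, hr, hrc, hnzd, htf, hmin, fun i hi => hmin _ (polyTF_cds hp hF i) hi,
        fun x hx hxp => ?_⟩
      have hxv : x ∈ ncl v := htf x p hp.pos (ncl_mono hr hxp)
      refine ⟨⟨fun h => ?_, fun h => thmA hp hF hx hxp h⟩, ⟨fun h hmem => ?_, fun h => ?_⟩⟩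
      · have h2 : ncl (x ^ p) ≤ ncl x := ncl_mono ((ncl x).pow_mem (mem_ncl x) p)
        exact h2 (h ▸ mem_ncl r)
      · exact torsion_good hp hF hgood hψ0 hne hr hrc hmem h
      · by_contra hbad
        exact h (torsion_bad hp hF hk hgood hψ0 hne hr hrc hxv hxp hbad)

end Pool.Agent.Serre
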