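import Mathlib

set_option autoImplicit false

/-!
# Definitions used in the statement of `PowerModCommutators`
-/

namespace Pool.Agent.Serre

/-- The setting of the problem, word for word as in the frozen statement `S00679`: every open
normal subgroup has index a power of `p` (`F` is pro-`p`), the family `ι` converges to `1`, and `F`
is free on `ι`: a family in a finite `p`-group `P` which is `1` almost everywhere extends uniquely
to a homomorphism `F → P` with open kernel. -/
structure FreeProP (p : ℕ) {X F : Type} [Group F] [TopologicalSpace F] (ι : X → F) : Prop where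
  index : ∀ U : Subgroup F, IsOpen (U : Set F) → U.Normal → ∃ n : ℕ, U.index = p ^ n
  conv : ∀ U : Set F, IsOpen U → (1 : F) ∈ U → {x : X | ι x ∉ U}.Finite
  univ : ∀ (P : Type) [Group P] [Finite P], (∃ n : ℕ, Nat.card P = p ^ n) →
        ∀ f : X → P, {x : X | f x ≠ 1}.Finite →
          ∃! φ : F →* P, IsOpen (φ.ker : Set F) ∧ ∀ x : X, φ (ι x) = f x

/-- the closed normal subgroup `v^F` generated by `v` -/
abbrev ncl {F : Type} [Group F] [TopologicalSpace F] [IsTopologicalGroup F] (v : F) :
    Subgroup F :=
  (Subgroup.normalClosure ({v} : Set F)).topologicalClosure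

/-- `F / N` has no nontrivial element of finite order -/
def TorsionFreeMod {F : Type} [Group F] (N : Subgroup F) : Prop :=
  ∀ g : F, ∀ n : ℕ, 0 < n → g ^ n ∈ N → g ∈ N

/-- the group algebra `(ZMod p)[F/U]` of the finite group `F/U` -/
abbrev GA (p : ℕ) {F : Type} [Group F] [TopologicalSpace F] (U : OpenNormalSubgroup F) : Type :=
  MonoidAlgebra (ZMod p) (F ⧸ U.toSubgroup)

/-- the projection `(ZMod p)[F/U] → (ZMod p)[F/V]` for `U ≤ V` -/
noncomputable def proj (p : ℕ) {F : Type} [Group F] [TopologicalSpace F]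
    {U V : OpenNormalSubgroup F} (h : U.toSubgroup ≤ V.toSubgroup) : GA p U → GA p V :=
  MonoidAlgebra.mapDomain (QuotientGroup.map U.toSubgroup V.toSubgroup (MonoidHom.id F) h)

/-- the product in `(ZMod p)[F/U]` -/
noncomputable def gmul {p : ℕ} {F : Type} [Group F] [TopologicalSpace F]
    {U : OpenNormalSubgroup F} (x y : GA p U) : GA p U := x * y

/-- the open normal subgroups of `F` which contain `N` -/
abbrev OpenOver {F : Type} [Group F] [TopologicalSpace F] (N : Subgroup F) : Type :=
  {U : OpenNormalSubgroup F // N ≤ U.toSubgroup}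

/-- the families `a U ∈ (ZMod p)[F/U]`, `U` open normal containing `N` -/
abbrev Fam (p : ℕ) {F : Type} [Group F] [TopologicalSpace F] (N : Subgroup F) : Type :=
  ∀ U : OpenOver N, GA p U.1

/-- compatibility of a family with the projections: the compatible families are the elements of
the completed group algebra `F_p[[F/N]]`, the inverse limit of the group algebras
`(ZMod p)[F/U]` -/
def Compat {p : ℕ} {F : Type} [Group F] [TopologicalSpace F] {N : Subgroup F} (a : Fam p N) :
    Prop :=
  ∀ (U V : OpenOver N) (h : U.1.toSubgroup ≤ V.1.toSubgroup), proj p h (a U) = a V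

/-- The completed group algebra `F_p[[F/N]]` has no zero divisors: if the product of two
compatible families is zero, one of them is zero. -/
def NoZeroDiv (p : ℕ) {F : Type} [Group F] [TopologicalSpace F] (N : Subgroup F) : Prop :=
  ∀ a b : Fam p N, Compat a → Compat b → (∀ U, gmul (a U) (b U) = 0) →
    (∀ U, a U = 0) ∨ (∀ U, b U = 0)

/-- `PolyTF L`: there is a finite chain `F = L₀ ≥ L₁ ≥ ... ≥ Lₙ = L` of closed normal subgroups of
`F` such that every `Lᵢ / Lᵢ₊₁` is abelian and torsion-free. -/
inductive PolyTF {F : Type} [Group F] [TopologicalSpace F] : Subgroup F → Prop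
  | top : PolyTF ⊤
  | step (L L' : Subgroup F) (hL : PolyTF L) (hle : L' ≤ L) (hn : L'.Normal)
      (hcl : IsClosed (L' : Set F)) (comm : ∀ a ∈ L, ∀ b ∈ L, a * b * a⁻¹ * b⁻¹ ∈ L')
      (htf : ∀ a ∈ L, ∀ n : ℕ, 0 < n → a ^ n ∈ L' → a ∈ L') : PolyTF L'

/-- the closed derived series of a topological group: `F⁽⁰⁾ = F` and `F⁽ⁿ⁺¹⁾` is the closure of
`[F⁽ⁿ⁾, F⁽ⁿ⁾]` -/
def cds (F : Type) [Group F] [TopologicalSpace F] [IsTopologicalGroup F] : ℕ → Subgroup F
  | 0 => ⊤
  | n + 1 => (⁅cds F n, cds F n⁆ : Subgroup F).topologicalClosure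

end Pool.Agent.Serre
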