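import Mathlib

set_option autoImplicit false
set_option linter.unusedSectionVars false
set_option linter.style.haveILetI false

namespace Pool.Agent.Serre

theorem alg1_mod {p : ℕ} [Fact p.Prime] {V : Type} [AddCommGroup V] [Module (ZMod p) V] (x : V)
    (hx : x ≠ 0) : ∃ φ : V →ₗ[ZMod p] ZMod p, φ x ≠ 0 := by
  by_contra hcon
  push Not at hcon
  exact hx ((Module.forall_dual_apply_eq_zero_iff (ZMod p) x).1 hcon)

theorem alg1_add {p : ℕ} [Fact p.Prime] {A : Type} [AddCommGroup A] (x : A)
    (hb : ¬ ∃ c : A, x = p • c) : ∃ φ : A →+ ZMod p, φ x ≠ 0 := by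
  have hmod : ∀ y : A ⧸ (nsmulAddMonoidHom (α := A) p).range, p • y = 0 := by
    intro y
    induction y using QuotientAddGroup.induction_on with
    | H y =>
      rw [← QuotientAddGroup.mk_nsmul, QuotientAddGroup.eq_zero_iff]
      exact ⟨y, rfl⟩
  letI : Module (ZMod p) (A ⧸ (nsmulAddMonoidHom (α := A) p).range) :=
    AddCommGroup.zmodModule hmod
  have hx : ((x : A) : A ⧸ (nsmulAddMonoidHom (α := A) p).range) ≠ 0 := by
    intro h
    rw [QuotientAddGroup.eq_zero_iff] at h
    obtain ⟨c, hc⟩ := h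
    exact hb ⟨c, hc.symm⟩
  obtain ⟨φ, hφ⟩ := alg1_mod (p := p) _ hx
  exact ⟨φ.toAddMonoidHom.comp (QuotientAddGroup.mk' _), hφ⟩

/-- in an abelian group an element which is not a `p`-th power is detected by a homomorphism
to `Z/p` -/
theorem alg1 {p : ℕ} [Fact p.Prime] {B : Type} [CommGroup B] (b : B)
    (hb : ¬ ∃ c : B, b = c ^ p) : ∃ φ : B →* Multiplicative (ZMod p), φ b ≠ 1 := by
  obtain ⟨ψ, hψ⟩ := alg1_add (p := p) (Additive.ofMul b) (by
    rintro ⟨c, hc⟩
    apply hb
    refine ⟨Additive.toMul c, ?_⟩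
    have h3 := congrArg Additive.toMul hc
    rw [toMul_nsmul] at h3
    exact h3)
  refine ⟨AddMonoidHom.toMultiplicativeRight ψ, ?_⟩
  intro h
  apply hψ
  have h5 := congrArg Multiplicative.toAdd h
  exact h5

/-- a nontrivial element of a finite abelian `p`-group is detected by a homomorphism to `Z/p^m` -/
theorem alg2 {p : ℕ} (hp : p.Prime) {B : Type} [CommGroup B] [Finite B] {n : ℕ}
    (hcard : Nat.card B = p ^ n) (b : B) (hb : b ≠ 1) :
    ∃ (m : ℕ) (φ : B →* Multiplicative (ZMod (p ^ m))), φ b ≠ 1 := by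
  classical
  obtain ⟨ι, hι, q, hq, ⟨E⟩⟩ := CommGroup.equiv_prod_multiplicative_zmod_of_finite B
  have h1 : E b ≠ 1 := fun h => hb (by simpa using h)
  obtain ⟨i, hi⟩ := Function.ne_iff.1 h1
  let π : B →* Multiplicative (ZMod (q i)) := (Pi.evalMonoidHom _ i).comp E.toMonoidHom
  have hsurj : Function.Surjective π := by
    intro y
    refine ⟨E.symm (Pi.mulSingle i y), ?_⟩
    simp [π]
  have hdvd : Nat.card (Multiplicative (ZMod (q i))) ∣ Nat.card B :=
    Subgroup.card_dvd_of_surjective π hsurj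
  have hc : Nat.card (Multiplicative (ZMod (q i))) = q i := by
    change Nat.card (ZMod (q i)) = q i
    exact Nat.card_zmod _
  rw [hc, hcard, Nat.dvd_prime_pow hp] at hdvd
  obtain ⟨m, -, hm⟩ := hdvd
  have key : ∀ q' : ℕ, q' = p ^ m → ∀ ψ : B →* Multiplicative (ZMod q'), ψ b ≠ 1 →
      ∃ (m : ℕ) (φ : B →* Multiplicative (ZMod (p ^ m))), φ b ≠ 1 := by
    rintro q' rfl ψ hψ
    exact ⟨m, ψ, hψ⟩
  exact key (q i) hm π hi

/-- a nontrivial finite `p`-group has a nontrivial homomorphism to `Z/p` -/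
theorem alg3 {p : ℕ} [hp : Fact p.Prime] {Q : Type} [Group Q] [Finite Q] {n : ℕ}
    (hcard : Nat.card Q = p ^ n) (hnt : Nontrivial Q) :
    ∃ φ : Q →* Multiplicative (ZMod p), ∃ x, φ x ≠ 1 := by
  have hPG : IsPGroup p Q := IsPGroup.of_card hcard
  have hnil : Group.IsNilpotent Q := hPG.isNilpotent
  have hsol : Group.IsSolvable Q := inferInstance
  have hlt : commutator Q < ⊤ := Group.IsSolvable.commutator_lt_top_of_nontrivial Q
  have hab : Nontrivial (Abelianization Q) := by
    rw [← not_subsingleton_iff_nontrivial]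
    intro hs
    apply hlt.ne
    rw [eq_top_iff]
    intro x _
    have : (QuotientGroup.mk x : Q ⧸ commutator Q) = 1 := hs.elim _ _
    exact (QuotientGroup.eq_one_iff x).1 this
  have hfin : Finite (Abelianization Q) := Quotient.finite _
  have hPA : IsPGroup p (Abelianization Q) := hPG.to_quotient (commutator Q)
  by_contra hcon
  push Not at hcon
  have hall : ∀ b : Abelianization Q, ∃ c, b = c ^ p := by
    intro b
    by_contra hb
    obtain ⟨φ, hφ⟩ := alg1 b hb
    obtain ⟨x, rfl⟩ := QuotientGroup.mk_surjective b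
    exact hφ (hcon (φ.comp Abelianization.of) x)
  have hsurj : Function.Surjective (powMonoidHom p : Abelianization Q →* Abelianization Q) := by
    intro b
    obtain ⟨c, hc⟩ := hall b
    exact ⟨c, hc.symm⟩
  have hinj : Function.Injective (powMonoidHom p : Abelianization Q →* Abelianization Q) :=
    Finite.injective_iff_surjective.2 hsurj
  obtain ⟨x, hx⟩ := exists_ne (1 : Abelianization Q)
  obtain ⟨k, hk⟩ := hPA x
  have hpow : ∀ k : ℕ, ∀ x : Abelianization Q, x ^ (p ^ k) = 1 → x = 1 := by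
    intro k
    induction k with
    | zero => intro x hx; simpa using hx
    | succ k ih =>
      intro x hx
      rw [pow_succ, mul_comm, pow_mul] at hx
      have := ih _ hx
      exact hinj (by simpa [powMonoidHom_apply] using this)
  exact hx (hpow k x hk)

end Pool.Agent.Serre
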