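import Pool.Agent.Work.MP_0b5d1f_al.Defs

set_option autoImplicit false
set_option linter.unusedSectionVars false
set_option linter.style.haveILetI false

namespace Pool.Agent.Serre

variable {F : Type} [Group F] [TopologicalSpace F]

theorem RInv.mono {β : Type} {U V : Subgroup F} (h : U ≤ V) {f : F → β} (hf : RInv V f) :
    RInv U f := fun g u hu => hf g u (h hu)

theorem RInv.left {β : Type} {U : Subgroup F} (hU : U.Normal) {f : F → β} (hf : RInv U f)
    {u : F} (hu : u ∈ U) (g : F) : f (u * g) = f g := by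
  have : u * g = g * (g⁻¹ * u * g) := by group
  rw [this]
  refine hf g _ ?_
  have := hU.conj_mem u hu g⁻¹
  simpa using this

theorem RInv.eq_of {β : Type} {U : Subgroup F} {f : F → β} (hf : RInv U f) {a b : F}
    (h : a⁻¹ * b ∈ U) : f b = f a := by
  have := hf a _ h
  rw [← this]
  congr 1
  group

theorem RInv.out {β : Type} {U : Subgroup F} {f : F → β} (hf : RInv U f) (x : F) :
    f ((x : F ⧸ U).out) = f x := by
  refine hf.eq_of ?_
  rw [← QuotientGroup.eq]
  simp

theorem RInv.sup {β : Type} {U V : Subgroup F} (hV : V.Normal) {f : F → β} (hfU : RInv U f)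
    (hfV : RInv V f) : RInv (U ⊔ V) f := by
  intro g u hu
  obtain ⟨a, ha, b, hb, rfl⟩ := Subgroup.mem_sup_of_normal_right.1 hu
  rw [← mul_assoc, hfV _ b hb, hfU _ a ha]

theorem RInv.rho {β : Type} {U : Subgroup F} (hU : U.Normal) {f : F → β} (hf : RInv U f)
    (g : F) : RInv U (fun h => f (h * g)) := by
  intro h u hu
  have : h * u * g = h * g * (g⁻¹ * u * g) := by group
  simp only [this]
  refine hf _ _ ?_
  have := hU.conj_mem u hu g⁻¹
  simpa using this

theorem RInv.lam {β : Type} {U : Subgroup F} {f : F → β} (hf : RInv U f)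
    (g : F) : RInv U (fun h => f (g * h)) := by
  intro h u hu
  simp only [← mul_assoc]
  exact hf _ _ hu

theorem LC_anti (p : ℕ) {N N' : Subgroup F} (h : N' ≤ N) : LC p N ≤ LC p N' := by
  rintro f ⟨hf, U, hU, hUn, hfU⟩
  exact ⟨hf.mono h, U, hU, hUn, hfU⟩

theorem LC_rho {p : ℕ} {N : Subgroup F} (hN : N.Normal) {f : F → ZMod p} (hf : f ∈ LC p N)
    (g : F) : (fun h => f (h * g)) ∈ LC p N := by
  obtain ⟨hf, U, hU, hUn, hfU⟩ := hf
  exact ⟨hf.rho hN g, U, hU, hUn, hfU.rho hUn g⟩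

theorem LC_lam {p : ℕ} {N : Subgroup F} {f : F → ZMod p} (hf : f ∈ LC p N)
    (g : F) : (fun h => f (g * h)) ∈ LC p N := by
  obtain ⟨hf, U, hU, hUn, hfU⟩ := hf
  exact ⟨hf.lam g, U, hU, hUn, hfU.lam g⟩

theorem LC_mul {p : ℕ} {N : Subgroup F} {f f' : F → ZMod p} (hf : f ∈ LC p N)
    (hf' : f' ∈ LC p N) : f * f' ∈ LC p N := by
  obtain ⟨hf, U, hU, hUn, hfU⟩ := hf
  obtain ⟨hf', U', hU', hUn', hfU'⟩ := hf'
  refine ⟨fun g u hu => ?_, U ⊓ U', hU.inter hU', ?_, fun g u hu => ?_⟩
  · simp only [Pi.mul_apply, hf g u hu, hf' g u hu]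
  · have := hUn; have := hUn'; infer_instance
  · simp only [Pi.mul_apply, hfU g u hu.1, hfU' g u hu.2]

theorem LC_one {p : ℕ} {N : Subgroup F} : (1 : F → ZMod p) ∈ LC p N :=
  ⟨fun _ _ _ => rfl, ⊤, by simp, inferInstance, fun _ _ _ => rfl⟩

theorem LC_const {p : ℕ} {N : Subgroup F} (c : ZMod p) : (fun _ : F => c) ∈ LC p N :=
  ⟨fun _ _ _ => rfl, ⊤, by simp, inferInstance, fun _ _ _ => rfl⟩

/-- indicator functions of cosets of an open normal subgroup containing `N` -/
theorem LC_ind (p : ℕ) {N U : Subgroup F} (hU : IsOpen (U : Set F)) (hUn : U.Normal)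
    (hNU : N ≤ U) (j : F ⧸ U) [DecidableEq (F ⧸ U)] :
    (fun h : F => if (h : F ⧸ U) = j then (1 : ZMod p) else 0) ∈ LC p N := by
  have key : RInv U (fun h : F => if (h : F ⧸ U) = j then (1 : ZMod p) else 0) := by
    intro g u hu
    have : ((g * u : F) : F ⧸ U) = (g : F ⧸ U) := by
      rw [QuotientGroup.eq]
      simpa [mul_assoc] using hu
    simp only [this]
  exact ⟨key.mono hNU, U, hU, hUn, key⟩

section Compact

variable [IsTopologicalGroup F] [CompactSpace F]

/-- a functional on functions invariant under an open subgroup is a finite sum of evaluations -/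
theorem fin_eval {p : ℕ} {U : Subgroup F} (hU : IsOpen (U : Set F))
    (τ : (F → ZMod p) →ₗ[ZMod p] ZMod p) :
    ∃ (J : Finset F) (t : F → ZMod p),
      ∀ f : F → ZMod p, RInv U f → τ f = ∑ j ∈ J, t j * f j := by
  classical
  have : Finite (F ⧸ U) := Subgroup.quotient_finite_of_isOpen U hU
  have := Fintype.ofFinite (F ⧸ U)
  let ind : F ⧸ U → F → ZMod p := fun j h => if (h : F ⧸ U) = j then 1 else 0
  refine ⟨Finset.univ.image (fun j : F ⧸ U => j.out), fun x => τ (ind (x : F ⧸ U)), ?_⟩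
  intro f hf
  have h1 : f = ∑ j : F ⧸ U, f j.out • ind j := by
    funext h
    rw [Finset.sum_apply, Finset.sum_eq_single (h : F ⧸ U)]
    · have h2 : f ((h : F ⧸ U).out) = f h := by
        have h3 : h⁻¹ * (h : F ⧸ U).out ∈ U := by
          rw [← QuotientGroup.eq]
          simp
        have := hf h _ h3
        simpa using this
      simp [ind, h2]
    · intro b _ hb
      simp [ind, Ne.symm hb]
    · simp
  have h4 : τ f = ∑ j : F ⧸ U, f j.out * τ (ind j) := by
    conv_lhs => rw [h1]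
    rw [map_sum]
    refine Finset.sum_congr rfl fun j _ => ?_
    rw [map_smul, smul_eq_mul]
  rw [h4, Finset.sum_image]
  · refine Finset.sum_congr rfl fun j _ => ?_
    simp [mul_comm]
  · intro a _ b _ hab
    have := congrArg (fun x : F => (x : F ⧸ U)) hab
    simpa using this

/-- exchange of two functionals -/
theorem exch {p : ℕ} {U : Subgroup F} (hU : IsOpen (U : Set F))
    (τ τ' : (F → ZMod p) →ₗ[ZMod p] ZMod p) (Φ : F → F → ZMod p)
    (h1 : ∀ g, RInv U (fun h => Φ h g)) (h2 : ∀ h, RInv U (Φ h)) :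
    τ' (fun g => τ (fun h => Φ h g)) = τ (fun h => τ' (fun g => Φ h g)) := by
  obtain ⟨J, t, ht⟩ := fin_eval hU τ
  obtain ⟨J', t', ht'⟩ := fin_eval hU τ'
  have e1 : ∀ g, τ (fun h => Φ h g) = ∑ j ∈ J, t j * Φ j g := fun g => ht _ (h1 g)
  have e2 : ∀ h, τ' (fun g => Φ h g) = ∑ j ∈ J', t' j * Φ h j := fun h => ht' _ (h2 h)
  have i1 : RInv U (fun g => τ (fun h => Φ h g)) := by
    intro g u hu
    have : (fun h => Φ h (g * u)) = fun h => Φ h g := funext fun h => h2 h g u hu
    simp only [this]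
  have i2 : RInv U (fun h => τ' (fun g => Φ h g)) := by
    intro h u hu
    have : (fun g => Φ (h * u) g) = fun g => Φ h g := funext fun g => h1 g h u hu
    simp only [this]
  rw [ht' _ i1, ht _ i2]
  simp only [e1, e2, Finset.mul_sum]
  rw [Finset.sum_comm]
  refine Finset.sum_congr rfl fun i _ => Finset.sum_congr rfl fun j _ => by ring

/-- `g ↦ τ (h ↦ Φ h g)` is invariant when `Φ` is -/
theorem RInv_tau {p : ℕ} {U : Subgroup F}
    (τ : (F → ZMod p) →ₗ[ZMod p] ZMod p) (Φ : F → F → ZMod p)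
    (h2 : ∀ h, RInv U (Φ h)) : RInv U (fun g => τ (fun h => Φ h g)) := by
  intro g u hu
  have : (fun h => Φ h (g * u)) = fun h => Φ h g := funext fun h => h2 h g u hu
  simp only [this]

end Compact

/-- `T τ f g = τ (h ↦ f (h g))` -/
def TT {p : ℕ} (τ : (F → ZMod p) →ₗ[ZMod p] ZMod p) :
    (F → ZMod p) →ₗ[ZMod p] (F → ZMod p) where
  toFun f := fun g => τ (fun h => f (h * g))
  map_add' f f' := by
    funext g
    change τ ((fun h => f (h * g)) + (fun h => f' (h * g))) = _
    rw [map_add]; rfl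
  map_smul' c f := by
    funext g
    change τ (c • (fun h => f (h * g))) = _
    rw [map_smul]; rfl

theorem TT_apply {p : ℕ} (τ : (F → ZMod p) →ₗ[ZMod p] ZMod p) (f : F → ZMod p) (g : F) :
    TT τ f g = τ (fun h => f (h * g)) := rfl

theorem TT_LC {p : ℕ} {N : Subgroup F} (τ : (F → ZMod p) →ₗ[ZMod p] ZMod p)
    {f : F → ZMod p} (hf : f ∈ LC p N) : TT τ f ∈ LC p N := by
  obtain ⟨hf, U, hU, hUn, hfU⟩ := hf
  refine ⟨?_, U, hU, hUn, ?_⟩
  · intro g u hu
    simp only [TT_apply]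
    congr 1
    funext h
    rw [← mul_assoc]
    exact hf _ _ hu
  · intro g u hu
    simp only [TT_apply]
    congr 1
    funext h
    rw [← mul_assoc]
    exact hfU _ _ hu

/-- left multiplication by a nonzero functional is injective, i.e. `T τ` is onto -/
theorem Good.surj {p : ℕ} [Fact p.Prime] {N : Subgroup F} (hN : Good p N)
    (τ : (F → ZMod p) →ₗ[ZMod p] ZMod p) (hτ : ∃ f ∈ LC p N, τ f ≠ 0)
    {f' : F → ZMod p} (hf' : f' ∈ LC p N) :
    ∃ f ∈ LC p N, ∀ g, τ (fun h => f (h * g)) = f' g := by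
  by_contra hcon
  have h1 : f' ∉ (LC p N).map (TT τ) := by
    rintro ⟨f, hf, h⟩
    exact hcon ⟨f, hf, fun g => congrFun h g⟩
  obtain ⟨τ', h2, h3⟩ := Submodule.exists_dual_map_eq_bot_of_notMem h1 inferInstance
  obtain ⟨f, hf, h4⟩ := hN τ τ' hτ ⟨f', hf', h2⟩
  apply h4
  have h5 : τ' (TT τ f) ∈ ((LC p N).map (TT τ)).map τ' :=
    Submodule.mem_map_of_mem (Submodule.mem_map_of_mem hf)
  rw [h3] at h5
  exact (Submodule.mem_bot _).1 h5

end Pool.Agent.Serre
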