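import Pool.Agent.Work.MP_0b5d1f_al.Fil

set_option autoImplicit false
set_option linter.unusedSectionVars false
set_option linter.style.haveILetI false

namespace Pool.Agent.Serre

open Finset

/-! ### binomial coefficients of residue classes -/

/-- the binomial coefficient `z choose n` mod `p`, for a residue class `z` mod `q` -/
def bb (p : ℕ) {q : ℕ} (z : ZMod q) (n : ℕ) : ZMod p := ((z.val.choose n : ℕ) : ZMod p)

theorem bb_zero (p : ℕ) {q : ℕ} (z : ZMod q) : bb p z 0 = 1 := by simp [bb]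

theorem bb_one (p : ℕ) {q : ℕ} (z : ZMod q) : bb p z 1 = ((z.val : ℕ) : ZMod p) := by simp [bb]

theorem bb_of_zero (p : ℕ) {q : ℕ} {n : ℕ} (hn : n ≠ 0) : bb p (0 : ZMod q) n = 0 := by
  simp only [bb]
  have : (0 : ZMod q).val = 0 := ZMod.val_zero
  rw [this, Nat.choose_eq_zero_of_lt (Nat.pos_of_ne_zero hn)]
  simp

theorem choose_add_pow {p : ℕ} (hp : p.Prime) (e x n : ℕ) (hn : n < p ^ e) :
    (((x + p ^ e).choose n : ℕ) : ZMod p) = ((x.choose n : ℕ) : ZMod p) := by
  rw [Nat.add_choose_eq, Nat.cast_sum]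
  rw [Finset.sum_eq_single (n, 0)]
  · simp
  · rintro ⟨i, j⟩ hij hne
    rw [Finset.HasAntidiagonal.mem_antidiagonal] at hij
    simp only at hij ⊢
    have hj : j ≠ 0 := by
      rintro rfl
      apply hne
      simp at hij
      rw [hij]
    have h1 : p ∣ (p ^ e).choose j :=
      hp.dvd_choose_pow hj (by omega)
    rw [Nat.cast_mul, (ZMod.natCast_eq_zero_iff _ _).2 h1, mul_zero]
  · intro h
    exact absurd (Finset.HasAntidiagonal.mem_antidiagonal.2 (add_zero n)) h

theorem choose_mod_pow {p : ℕ} (hp : p.Prime) (e x n : ℕ) (hn : n < p ^ e) :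
    (((x % p ^ e).choose n : ℕ) : ZMod p) = ((x.choose n : ℕ) : ZMod p) := by
  have key : ∀ t y : ℕ, (((y + t * p ^ e).choose n : ℕ) : ZMod p) =
      ((y.choose n : ℕ) : ZMod p) := by
    intro t y
    induction t with
    | zero => simp
    | succ t ih =>
      have : y + (t + 1) * p ^ e = (y + t * p ^ e) + p ^ e := by ring
      rw [this, choose_add_pow hp e _ n hn, ih]
  have h := key (x / p ^ e) (x % p ^ e)
  rw [← h]
  congr 3
  rw [mul_comm]
  exact Nat.mod_add_div x (p ^ e)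

theorem bb_add {p : ℕ} (hp : p.Prime) {e : ℕ} (z w : ZMod (p ^ e)) {n : ℕ} (hn : n < p ^ e) :
    bb p (z + w) n = ∑ j ∈ range (n + 1), bb p z j * bb p w (n - j) := by
  have : NeZero (p ^ e) := ⟨pow_ne_zero _ hp.ne_zero⟩
  simp only [bb]
  rw [ZMod.val_add, choose_mod_pow hp e _ n hn, Nat.add_choose_eq, Nat.cast_sum,
    Finset.Nat.sum_antidiagonal_eq_sum_range_succ_mk]
  simp

variable {d : ℕ}

/-- multi-index version -/
def BB (p : ℕ) {q : ℕ} (x : Fin d → ZMod q) (α : Fin d → ℕ) : ZMod p := ∏ i, bb p (x i) (α i)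

/-- the multi-indices below `α` -/
def box (α : Fin d → ℕ) : Finset (Fin d → ℕ) := Fintype.piFinset fun i => range (α i + 1)

theorem mem_box {α γ : Fin d → ℕ} : γ ∈ box α ↔ ∀ i, γ i ≤ α i := by
  simp only [box, Fintype.mem_piFinset, mem_range]
  exact forall_congr' fun i => by omega

theorem BB_zero (p : ℕ) {q : ℕ} (x : Fin d → ZMod q) : BB p x 0 = 1 := by
  simp [BB, bb_zero]

theorem BB_single (p : ℕ) {q : ℕ} (x : Fin d → ZMod q) (i : Fin d) :
    BB p x (Pi.single i 1) = (((x i).val : ℕ) : ZMod p) := by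
  classical
  rw [BB, Finset.prod_eq_single i]
  · rw [Pi.single_eq_same, bb_one]
  · intro j _ hj
    rw [Pi.single_eq_of_ne hj, bb_zero]
  · simp

theorem BB_add {p : ℕ} (hp : p.Prime) {e : ℕ} (x y : Fin d → ZMod (p ^ e)) {α : Fin d → ℕ}
    (hα : ∀ i, α i < p ^ e) :
    BB p (x + y) α = ∑ γ ∈ box α, BB p x γ * BB p y (α - γ) := by
  simp only [BB, Pi.add_apply, Pi.sub_apply]
  rw [Finset.prod_congr rfl fun i _ => bb_add hp (x i) (y i) (hα i)]
  rw [Finset.prod_univ_sum]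
  simp only [box, Finset.prod_mul_distrib]

/-! ### multi-indices -/

/-- the total degree -/
def deg (α : Fin d → ℕ) : ℕ := ∑ i, α i

theorem deg_zero : deg (0 : Fin d → ℕ) = 0 := by simp [deg]

theorem deg_add (α β : Fin d → ℕ) : deg (α + β) = deg α + deg β := by
  simp [deg, Finset.sum_add_distrib]

theorem deg_single (i : Fin d) : deg (Pi.single i 1 : Fin d → ℕ) = 1 := by
  classical
  simp [deg]

theorem deg_eq_zero {α : Fin d → ℕ} : deg α = 0 ↔ α = 0 := by
  constructor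
  · intro h
    funext i
    exact (Finset.sum_eq_zero_iff.1 h) i (mem_univ i)
  · rintro rfl; exact deg_zero

theorem le_deg (α : Fin d → ℕ) (i : Fin d) : α i ≤ deg α :=
  Finset.single_le_sum (f := α) (fun _ _ => Nat.zero_le _) (mem_univ i)

theorem exists_pred {α : Fin d → ℕ} (i : Fin d) (hi : α i ≠ 0) :
    α = (α - Pi.single i 1) + Pi.single i 1 := by
  classical
  funext j
  by_cases h : j = i
  · subst h; simp; omega
  · simp [h]

theorem deg_box {α γ : Fin d → ℕ} (h : γ ∈ box α) : deg (α - γ) + deg γ = deg α := by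
  rw [← deg_add]
  congr 1
  funext i
  have := mem_box.1 h i
  simp only [Pi.add_apply, Pi.sub_apply]
  omega

theorem exists_single {γ : Fin d → ℕ} (h : deg γ = 1) : ∃ i, γ = Pi.single i 1 := by
  have h0 : γ ≠ 0 := by
    rintro rfl
    rw [deg_zero] at h
    omega
  obtain ⟨i, hi⟩ := Function.ne_iff.1 h0
  have h1 := exists_pred i hi
  refine ⟨i, ?_⟩
  have h2 : deg (γ - Pi.single i 1) = 0 := by
    have := congrArg deg h1
    rw [deg_add, deg_single, h] at this
    omega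
  rw [deg_eq_zero] at h2
  rw [h2, zero_add] at h1
  exact h1

/-- the weight of a multi-index -/
def wt (B : ℕ) (α : Fin d → ℕ) : ℕ := ∑ i, α i * B ^ (i : ℕ)

theorem wt_add (B : ℕ) (α β : Fin d → ℕ) : wt B (α + β) = wt B α + wt B β := by
  simp [wt, Finset.sum_add_distrib, add_mul]

theorem wt_single (B : ℕ) (i : Fin d) : wt B (Pi.single i 1) = B ^ (i : ℕ) := by
  classical
  rw [wt, Finset.sum_eq_single i]
  · simp
  · intro j _ hj
    simp [Pi.single_eq_of_ne hj]
  · simp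

theorem wt_inj (B : ℕ) : ∀ (d : ℕ) (δ δ' : Fin d → ℕ), (∀ i, δ i < B) → (∀ i, δ' i < B) →
    wt B δ = wt B δ' → δ = δ' := by
  intro d
  induction d with
  | zero => intro δ δ' _ _ _; funext i; exact i.elim0
  | succ d ih =>
    intro δ δ' h h' heq
    have e : ∀ ε : Fin (d + 1) → ℕ, wt B ε = ε 0 + B * wt B (Fin.tail ε) := by
      intro ε
      rw [wt, Fin.sum_univ_succ, wt, Finset.mul_sum]
      congr 1
      · simp
      · refine Finset.sum_congr rfl fun i _ => ?_
        simp only [Fin.tail, Fin.val_succ, pow_succ]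
        ring
    rw [e, e] at heq
    have hB : 0 < B := lt_of_le_of_lt (Nat.zero_le _) (h 0)
    have h0 : δ 0 = δ' 0 := by
      have := congrArg (· % B) heq
      simpa [Nat.add_mul_mod_self_left, Nat.mod_eq_of_lt (h 0), Nat.mod_eq_of_lt (h' 0)] using this
    have ht : wt B (Fin.tail δ) = wt B (Fin.tail δ') := by
      rw [h0] at heq
      have := Nat.add_left_cancel heq
      exact Nat.eq_of_mul_eq_mul_left hB this
    have h1 := ih (Fin.tail δ) (Fin.tail δ') (fun i => h i.succ) (fun i => h' i.succ) ht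
    rw [← Fin.cons_self_tail δ, ← Fin.cons_self_tail δ', h0, h1]

/-! ### the functions `κ` and `Ψ` -/

variable {F : Type} [Group F] [TopologicalSpace F] [IsTopologicalGroup F] [CompactSpace F]

/-- `κ_β(h, g)` -/
def kap (p : ℕ) {q : ℕ} (Fi : Fin d → F → ZMod q) (β : Fin d → ℕ) (h g : F) : ZMod p :=
  BB p (fun i => Fi i (h * g) - Fi i h) β

/-- `Ψ_γ(h)` -/
def Psi (p : ℕ) {q : ℕ} (Fi : Fin d → F → ZMod q) (γ : Fin d → ℕ) (h : F) : ZMod p :=
  BB p (fun i => Fi i h) γ

/-- the residue of the `i`-th function mod `p` -/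
def xi (p : ℕ) {q : ℕ} (Fi : Fin d → F → ZMod q) (i : Fin d) (a : F) : ZMod p :=
  (((Fi i a).val : ℕ) : ZMod p)

/-- the data used in the extension theorem -/
structure Sys (p e : ℕ) (N N' W : Subgroup F) (Fi : Fin d → F → ZMod (p ^ e))
    (el : Fin d → F) : Prop where
  hN : N.Normal
  hN' : N'.Normal
  hle : N' ≤ N
  hW : IsOpen (W : Set F)
  hWn : W.Normal
  A1 : ∀ i, ∀ a ∈ N, ∀ h, Fi i (a * h) = Fi i a + Fi i h
  A2 : ∀ i, RInv W (Fi i)
  A3 : ∀ i, ∀ a ∈ N', Fi i a = 0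
  mem : ∀ j, el j ∈ N
  dual : ∀ i j, xi p Fi i (el j) = if i = j then 1 else 0
  conj : ∀ h l, ∀ a ∈ N,
    xi p Fi l (h * a * h⁻¹) = ∑ i, xi p Fi l (h * el i * h⁻¹) * xi p Fi i a
  flag0 : ∀ h l j, l < j → xi p Fi l (h * el j * h⁻¹) = 0
  flag1 : ∀ h l, xi p Fi l (h * el l * h⁻¹) = 1
  comm : ∀ a ∈ N, ∀ b ∈ N, a * b * a⁻¹ * b⁻¹ ∈ N'

variable {p e : ℕ} {N N' W : Subgroup F} {Fi : Fin d → F → ZMod (p ^ e)} {el : Fin d → F}

theorem Sys.one (S : Sys p e N N' W Fi el) (i : Fin d) : Fi i 1 = 0 := by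
  have := S.A1 i 1 (one_mem _) 1
  rw [mul_one] at this
  simpa using this

theorem Sys.left_N' (S : Sys p e N N' W Fi el) (i : Fin d) {a : F} (ha : a ∈ N') (h : F) :
    Fi i (a * h) = Fi i h := by
  rw [S.A1 i a (S.hle ha), S.A3 i a ha, zero_add]

theorem Sys.right_N' (S : Sys p e N N' W Fi el) (i : Fin d) : RInv N' (Fi i) := by
  intro h a ha
  have e : h * a = (h * a * h⁻¹) * h := by group
  rw [e, S.left_N' i (S.hN'.conj_mem a ha h)]

theorem kap_one (S : Sys p e N N' W Fi el) (β : Fin d → ℕ) (g : F) :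
    kap p Fi β 1 g = Psi p Fi β g := by
  simp only [kap, Psi, one_mul, S.one, sub_zero]

theorem Psi_zero (g : F) : Psi p Fi 0 g = 1 := BB_zero p _

theorem kap_zero (h g : F) : kap p Fi 0 h g = 1 := BB_zero p _

theorem Psi_single (i : Fin d) (g : F) : Psi p Fi (Pi.single i 1) g = xi p Fi i g :=
  BB_single p _ i

/-- `Ψ_α(h g) = ∑ Ψ_γ(h) κ_{α-γ}(h,g)` -/
theorem Psi_mul (hp : p.Prime) {α : Fin d → ℕ} (hα : deg α < p ^ e) (h g : F) :
    Psi p Fi α (h * g) = ∑ γ ∈ box α, Psi p Fi γ h * kap p Fi (α - γ) h g := by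
  have : (fun i => Fi i (h * g)) = (fun i => Fi i h) + fun i => Fi i (h * g) - Fi i h := by
    funext i
    simp
  rw [Psi, this, BB_add hp _ _ fun i => lt_of_le_of_lt (le_deg α i) hα]
  rfl

/-- `κ_β(h, a g) = ∑ Ψ_γ(h a h⁻¹) κ_{β-γ}(h,g)` for `a ∈ N` -/
theorem kap_mul (hp : p.Prime) (S : Sys p e N N' W Fi el) {β : Fin d → ℕ} (hβ : deg β < p ^ e)
    (h : F) {a : F} (ha : a ∈ N) (g : F) :
    kap p Fi β h (a * g) =
      ∑ γ ∈ box β, Psi p Fi γ (h * a * h⁻¹) * kap p Fi (β - γ) h g := by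
  have : (fun i => Fi i (h * (a * g)) - Fi i h) =
      (fun i => Fi i (h * a * h⁻¹)) + fun i => Fi i (h * g) - Fi i h := by
    funext i
    have e : h * (a * g) = (h * a * h⁻¹) * (h * g) := by group
    simp only [Pi.add_apply, e, S.A1 i _ (S.hN.conj_mem a ha h)]
    ring
  rw [kap, this, BB_add hp _ _ fun i => lt_of_le_of_lt (le_deg β i) hβ]
  rfl

theorem kap_RInv_N' (S : Sys p e N N' W Fi el) (β : Fin d → ℕ) (h : F) :
    RInv N' (kap p Fi β h) := by
  intro g a ha
  simp only [kap, ← mul_assoc]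
  congr 1
  funext i
  rw [S.right_N' i _ a ha]

theorem kap_RInv_W (S : Sys p e N N' W Fi el) (β : Fin d → ℕ) (h : F) :
    RInv W (kap p Fi β h) := by
  intro g a ha
  simp only [kap, ← mul_assoc]
  congr 1
  funext i
  rw [S.A2 i _ a ha]

theorem kap_LC (S : Sys p e N N' W Fi el) (β : Fin d → ℕ) (h : F) :
    kap p Fi β h ∈ LC p N' :=
  ⟨kap_RInv_N' S β h, W, S.hW, S.hWn, kap_RInv_W S β h⟩

theorem Psi_LC (S : Sys p e N N' W Fi el) (β : Fin d → ℕ) :
    Psi p Fi β ∈ LC p N' := by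
  have : Psi p Fi β = kap p Fi β 1 := funext fun g => (kap_one S β g).symm
  rw [this]
  exact kap_LC S β 1

/-- in the first variable `κ` is `N`-invariant -/
theorem kap_left (S : Sys p e N N' W Fi el) (β : Fin d → ℕ) (g : F) :
    RInv N (fun h => kap p Fi β h g) := by
  intro h a ha
  simp only [kap]
  congr 1
  funext i
  have e1 : h * a * g = (h * a * h⁻¹) * (h * g) := by group
  have e2 : h * a = (h * a * h⁻¹) * h := by group
  rw [e1, S.A1 i _ (S.hN.conj_mem a ha h), e2]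
  conv_lhs => rw [S.A1 i _ (S.hN.conj_mem a ha h)]
  have e3 : h * a * h⁻¹ * h * h⁻¹ = h * a * h⁻¹ := by group
  simp only [e3]
  ring

theorem kap_left_W (S : Sys p e N N' W Fi el) (β : Fin d → ℕ) (g : F) :
    RInv W (fun h => kap p Fi β h g) := by
  intro h a ha
  simp only [kap]
  congr 1
  funext i
  have e1 : h * a * g = (h * g) * (g⁻¹ * a * g) := by group
  have h2 : g⁻¹ * a * g ∈ W := by
    simpa using S.hWn.conj_mem a ha g⁻¹
  rw [e1, S.A2 i _ _ h2, S.A2 i _ _ ha]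

/-- the left difference of `κ` -/
theorem DL_kap (hp : p.Prime) (S : Sys p e N N' W Fi el) {β : Fin d → ℕ} (hβ : deg β < p ^ e)
    (h : F) {a : F} (ha : a ∈ N) :
    DL p a (kap p Fi β h) =
      ∑ γ ∈ (box β).erase 0, Psi p Fi γ (h * a * h⁻¹) • kap p Fi (β - γ) h := by
  classical
  funext g
  have h0 : (0 : Fin d → ℕ) ∈ box β := mem_box.2 fun i => Nat.zero_le _
  rw [DL_apply, kap_mul hp S hβ h ha g, ← Finset.add_sum_erase _ _ h0, Psi_zero, tsub_zero,
    one_mul, add_sub_cancel_left, Finset.sum_apply]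
  rfl

theorem deg_erase {β γ : Fin d → ℕ} (h : γ ∈ (box β).erase 0) :
    1 ≤ deg γ ∧ deg (β - γ) + deg γ = deg β := by
  rw [Finset.mem_erase] at h
  refine ⟨?_, deg_box h.2⟩
  have : deg γ ≠ 0 := fun h0 => h.1 (deg_eq_zero.1 h0)
  omega

theorem kap_Fil (hp : p.Prime) (S : Sys p e N N' W Fi el) (h : F) :
    ∀ n : ℕ, ∀ β : Fin d → ℕ, deg β = n → n < p ^ e → kap p Fi β h ∈ Fil p N N' (n + 1) := by
  intro n
  induction n using Nat.strong_induction_on with
  | _ n ih =>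
    intro β hβ hn
    rw [mem_Fil_succ]
    refine ⟨kap_LC S β h, fun a ha => ?_⟩
    rw [DL_kap hp S (by omega) h ha]
    refine Submodule.sum_mem _ fun γ hγ => Submodule.smul_mem _ _ ?_
    obtain ⟨h1, h2⟩ := deg_erase hγ
    exact Fil_mono (by omega) (ih (deg (β - γ)) (by omega) (β - γ) rfl (by omega))

end Pool.Agent.Serre
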