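import Pool.Agent.Work.MP_0b5d1f_al.Basic
import Pool.Agent.Work.MP_0b5d1f_al.StmtDefs

set_option autoImplicit false
set_option linter.unusedSectionVars false
set_option linter.style.haveILetI false

namespace Pool.Agent.Serre

open MonoidAlgebra

variable {F : Type} [Group F] [TopologicalSpace F] {p : ℕ}

/-- evaluation of an element of a group algebra of `F/U` at a function on `F` -/
noncomputable def ev {U : Subgroup F} (f : F → ZMod p) (x : MonoidAlgebra (ZMod p) (F ⧸ U)) :
    ZMod p :=
  x.coeff.sum fun q c => c * f q.out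

theorem ev_zero {U : Subgroup F} (f : F → ZMod p) :
    ev f (0 : MonoidAlgebra (ZMod p) (F ⧸ U)) = 0 := by
  simp [ev]

theorem ev_add {U : Subgroup F} (f : F → ZMod p) (x y : MonoidAlgebra (ZMod p) (F ⧸ U)) :
    ev f (x + y) = ev f x + ev f y := by
  simp only [ev]
  rw [MonoidAlgebra.coeff_add, Finsupp.sum_add_index']
  · intro q; simp
  · intro q a b; ring

theorem ev_single {U : Subgroup F} (f : F → ZMod p) (q : F ⧸ U) (c : ZMod p) :
    ev f (MonoidAlgebra.single q c) = c * f q.out := by
  simp only [ev]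
  rw [MonoidAlgebra.coeff_single, Finsupp.sum_single_index]
  simp

theorem ev_fun_add {U : Subgroup F} (f f' : F → ZMod p) (x : MonoidAlgebra (ZMod p) (F ⧸ U)) :
    ev (f + f') x = ev f x + ev f' x := by
  simp only [ev]
  rw [← Finsupp.sum_add]
  congr 1
  funext q c
  simp only [Pi.add_apply]
  ring

theorem ev_fun_smul {U : Subgroup F} (r : ZMod p) (f : F → ZMod p)
    (x : MonoidAlgebra (ZMod p) (F ⧸ U)) : ev (r • f) x = r * ev f x := by
  simp only [ev]
  rw [Finsupp.mul_sum]
  congr 1
  funext q c
  simp only [Pi.smul_apply, smul_eq_mul]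
  ring

theorem ev_map {U V : OpenNormalSubgroup F} (h : U.toSubgroup ≤ V.toSubgroup) {f : F → ZMod p}
    (hf : RInv V.toSubgroup f) (x : GA p U) :
    ev f (proj p h x) = ev f x := by
  unfold proj
  induction x using MonoidAlgebra.induction_linear with
  | zero => rw [MonoidAlgebra.mapDomain_zero, ev_zero, ev_zero]
  | add x y hx hy => rw [MonoidAlgebra.mapDomain_add, ev_add, ev_add, hx, hy]
  | single q c =>
    rw [MonoidAlgebra.mapDomain_single, ev_single, ev_single]
    congr 1
    refine hf.eq_of ?_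
    rw [← QuotientGroup.eq, QuotientGroup.out_eq']
    have : q = ((q.out : F) : F ⧸ U.toSubgroup) := by simp
    conv_rhs => rw [this]
    rfl

theorem ev_mul {U : Subgroup F} [U.Normal] {f : F → ZMod p} (hf : RInv U f)
    (x y : MonoidAlgebra (ZMod p) (F ⧸ U)) :
    ev f (x * y) = ev (fun g => ev (fun h => f (h * g)) x) y := by
  induction y using MonoidAlgebra.induction_linear with
  | zero => rw [mul_zero, ev_zero, ev_zero]
  | add y z hy hz => rw [mul_add, ev_add, ev_add, hy, hz]
  | single q c =>
    rw [ev_single]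
    induction x using MonoidAlgebra.induction_linear with
    | zero => rw [zero_mul, ev_zero, ev_zero, mul_zero]
    | add y z hy hz => rw [add_mul, ev_add, ev_add, mul_add, hy, hz]
    | single q' c' =>
      rw [MonoidAlgebra.single_mul_single, ev_single, ev_single]
      have : f (q' * q).out = f (q'.out * q.out) := by
        refine hf.eq_of ?_
        rw [← QuotientGroup.eq]
        simp
      rw [this]
      ring

variable [IsTopologicalGroup F] [CompactSpace F]

/-- the functional attached to an element of the completed group algebra -/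
theorem exists_functional (hp : p.Prime) {N : Subgroup F} (hN : N.Normal) (a : Fam p N)
    (ha : Compat a) :
    ∃ τ : (F → ZMod p) →ₗ[ZMod p] ZMod p, ∀ f ∈ LC p N, ∀ U : OpenOver N,
      RInv U.1.toSubgroup f → τ f = ev f (a U) := by
  classical
  have := Fact.mk hp
  have hex : ∀ f : LC p N, ∃ U : OpenOver N, RInv U.1.toSubgroup f.1 := by
    rintro ⟨f, hf, U, hU, hUn, hfU⟩
    have hopen : IsOpen ((N ⊔ U : Subgroup F) : Set F) := Subgroup.isOpen_mono le_sup_right hU
    exact ⟨⟨⟨⟨N ⊔ U, hopen⟩, inferInstance⟩, le_sup_left⟩, RInv.sup hUn hf hfU⟩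
  have hindep : ∀ (f : F → ZMod p) (U V : OpenOver N), RInv U.1.toSubgroup f →
      RInv V.1.toSubgroup f → ev f (a U) = ev f (a V) := by
    intro f U V hU hV
    let W : OpenOver N := ⟨U.1 ⊓ V.1, le_inf U.2 V.2⟩
    have h1 := ha W U inf_le_left
    have h2 := ha W V inf_le_right
    rw [← h1, ← h2, ev_map _ hU, ev_map _ hV]
  choose Uf hUf using hex
  let L : LC p N →ₗ[ZMod p] ZMod p :=
    { toFun := fun f => ev f.1 (a (Uf f))
      map_add' := by
        intro f f'
        let W : OpenOver N := ⟨(Uf f).1 ⊓ (Uf f').1, le_inf (Uf f).2 (Uf f').2⟩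
        have h1 : RInv W.1.toSubgroup f.1 := (hUf f).mono inf_le_left
        have h2 : RInv W.1.toSubgroup f'.1 := (hUf f').mono inf_le_right
        have h3 : RInv W.1.toSubgroup (f + f').1 := by
          intro g u hu
          change f.1 (g * u) + f'.1 (g * u) = f.1 g + f'.1 g
          rw [h1 g u hu, h2 g u hu]
        rw [hindep _ _ W (hUf _) h3, hindep _ _ W (hUf f) h1, hindep _ _ W (hUf f') h2]
        exact ev_fun_add f.1 f'.1 _
      map_smul' := by
        intro r f
        have h3 : RInv (Uf f).1.toSubgroup (r • f).1 := by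
          intro g u hu
          change r * f.1 (g * u) = r * f.1 g
          rw [hUf f g u hu]
        rw [hindep _ _ (Uf f) (hUf _) h3]
        exact ev_fun_smul r f.1 _ }
  obtain ⟨τ, hτ⟩ := LinearMap.exists_extend L
  refine ⟨τ, fun f hf U hU => ?_⟩
  have h1 : τ f = L ⟨f, hf⟩ := by
    rw [← hτ]; rfl
  rw [h1]
  exact hindep f _ U (hUf ⟨f, hf⟩) hU

/-- the dual description of the completed group algebra: a good subgroup gives an algebra
without zero divisors -/
theorem Good.noZeroDiv (hp : p.Prime) {N : Subgroup F} (hN : N.Normal) (hgood : Good p N) :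
    NoZeroDiv p N := by
  classical
  have := Fact.mk hp
  have hnz : ∀ a : Fam p N, ¬ (∀ U, a U = 0) → ∀ τ : (F → ZMod p) →ₗ[ZMod p] ZMod p,
      (∀ f ∈ LC p N, ∀ U : OpenOver N, RInv U.1.toSubgroup f → τ f = ev f (a U)) →
      ∃ f ∈ LC p N, τ f ≠ 0 := by
    intro a ha τ hτ
    by_contra hcon
    push Not at hcon
    apply ha
    intro U
    apply MonoidAlgebra.coeff_injective
    ext q
    change (a U).coeff q = 0
    let f : F → ZMod p := fun h => if (h : F ⧸ U.1.toSubgroup) = q then 1 else 0
    have hf : f ∈ LC p N := LC_ind p U.1.isOpen' inferInstance U.2 q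
    have hfU : RInv U.1.toSubgroup f := by
      intro g u hu
      have : ((g * u : F) : F ⧸ U.1.toSubgroup) = (g : F ⧸ U.1.toSubgroup) := by
        rw [QuotientGroup.eq]
        simpa [mul_assoc] using hu
      simp only [f, this]
    have h1 := hτ f hf U hfU
    rw [hcon f hf] at h1
    rw [ev, Finsupp.sum, Finset.sum_eq_single q] at h1
    · simpa [f] using h1.symm
    · intro q' _ hne
      simp [f, hne]
    · intro hq
      rw [Finsupp.notMem_support_iff] at hq
      rw [hq, zero_mul]
  intro a b ha hb hab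
  by_contra hcon
  rw [not_or] at hcon
  obtain ⟨τ, hτ⟩ := exists_functional hp hN a ha
  obtain ⟨τ', hτ'⟩ := exists_functional hp hN b hb
  obtain ⟨f, hf, hne⟩ := hgood τ τ' (hnz a hcon.1 τ hτ) (hnz b hcon.2 τ' hτ')
  apply hne
  have hf' := hf
  obtain ⟨hfN, U, hU, hUn, hfU⟩ := hf'
  have hopen : IsOpen ((N ⊔ U : Subgroup F) : Set F) := Subgroup.isOpen_mono le_sup_right hU
  let W : OpenOver N := ⟨⟨⟨N ⊔ U, hopen⟩, inferInstance⟩, le_sup_left⟩
  have hfW : RInv W.1.toSubgroup f := RInv.sup hUn hfN hfU
  have hWn : W.1.toSubgroup.Normal := inferInstance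
  have h1 : ∀ g, τ (fun h => f (h * g)) = ev (fun h => f (h * g)) (a W) := fun g =>
    hτ _ (LC_rho hN hf g) W (hfW.rho hWn g)
  have h2 : (fun g => τ (fun h => f (h * g))) = TT τ f := rfl
  have h3 : RInv W.1.toSubgroup (TT τ f) := RInv_tau τ (fun h g => f (h * g))
    (fun h => hfW.lam h)
  rw [h2, hτ' _ (TT_LC τ hf) W h3]
  have h4 : TT τ f = fun g => ev (fun h => f (h * g)) (a W) := funext h1
  have h5 : a W * b W = 0 := hab W
  rw [h4, ← ev_mul hfW, h5, ev_zero]

end Pool.Agent.Serre
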