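import Pool.Agent.Work.MP_0b5d1f_al.Ext

set_option autoImplicit false
set_option linter.unusedSectionVars false
set_option linter.style.haveILetI false

namespace Pool.Agent.Serre

open Finset

variable {F : Type} [Group F] [TopologicalSpace F] [IsTopologicalGroup F] [CompactSpace F]

/-- the characters of `N` with values in `ZMod p` killing `N'` and `N ∩ U`, extended by zero -/
def ChV (p : ℕ) (N N' U : Subgroup F) : Submodule (ZMod p) (F → ZMod p) where
  carrier := {ξ | (∀ a ∈ N, ∀ b ∈ N, ξ (a * b) = ξ a + ξ b) ∧ (∀ a ∈ N', ξ a = 0) ∧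
    (∀ a ∈ N, a ∈ U → ξ a = 0) ∧ ∀ a, a ∉ N → ξ a = 0}
  add_mem' := by
    rintro f f' ⟨h1, h2, h3, h4⟩ ⟨h1', h2', h3', h4'⟩
    refine ⟨fun a ha b hb => ?_, fun a ha => ?_, fun a ha hau => ?_, fun a ha => ?_⟩
    · simp only [Pi.add_apply, h1 a ha b hb, h1' a ha b hb]; ring
    · simp only [Pi.add_apply, h2 a ha, h2' a ha, add_zero]
    · simp only [Pi.add_apply, h3 a ha hau, h3' a ha hau, add_zero]
    · simp only [Pi.add_apply, h4 a ha, h4' a ha, add_zero]
  zero_mem' := by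
    refine ⟨fun a _ b _ => ?_, fun a _ => rfl, fun a _ _ => rfl, fun a _ => rfl⟩
    simp
  smul_mem' := by
    rintro c f ⟨h1, h2, h3, h4⟩
    refine ⟨fun a ha b hb => ?_, fun a ha => ?_, fun a ha hau => ?_, fun a ha => ?_⟩
    · simp only [Pi.smul_apply, h1 a ha b hb, smul_add]
    · simp only [Pi.smul_apply, h2 a ha, smul_zero]
    · simp only [Pi.smul_apply, h3 a ha hau, smul_zero]
    · simp only [Pi.smul_apply, h4 a ha, smul_zero]

variable {p : ℕ} {N N' U : Subgroup F}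

theorem ChV_inv {ξ : F → ZMod p} (h : ξ ∈ ChV p N N' U) {a b : F} (ha : a ∈ N) (hb : b ∈ N)
    (hab : a⁻¹ * b ∈ U) : ξ b = ξ a := by
  have e : b = a * (a⁻¹ * b) := by group
  rw [e, h.1 a ha _ (N.mul_mem (N.inv_mem ha) hb),
    h.2.2.1 _ (N.mul_mem (N.inv_mem ha) hb) hab, add_zero]

theorem ChV_finite [Fact p.Prime] (hU : IsOpen (U : Set F)) : Finite (ChV p N N' U) := by
  classical
  have hfinQ : Finite (F ⧸ U) := Subgroup.quotient_finite_of_isOpen U hU
  let r : F ⧸ U → F := fun j => if h : ∃ a ∈ N, ((a : F) : F ⧸ U) = j then h.choose else 1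
  refine Finite.of_injective (fun (f : ChV p N N' U) (j : F ⧸ U) => f.1 (r j)) ?_
  intro f f' hff
  apply Subtype.ext
  funext a
  by_cases ha : a ∈ N
  · have h : ∃ b ∈ N, ((b : F) : F ⧸ U) = (a : F ⧸ U) := ⟨a, ha, rfl⟩
    have hr : r (a : F ⧸ U) = h.choose := by
      simp only [r]
      rw [dif_pos h]
    have h1 := congrFun hff (a : F ⧸ U)
    simp only [hr] at h1
    have h2 : a⁻¹ * h.choose ∈ U := by
      rw [← QuotientGroup.eq]
      exact h.choose_spec.2.symm
    rw [← ChV_inv f.2 ha h.choose_spec.1 h2, ← ChV_inv f'.2 ha h.choose_spec.1 h2]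
    exact h1
  · rw [f.2.2.2.2 a ha, f'.2.2.2.2 a ha]

theorem ChV_conj (hN : N.Normal) (hN' : N'.Normal) (hU : U.Normal) {ξ : F → ZMod p}
    (h : ξ ∈ ChV p N N' U) (g : F) : (fun a => ξ (g⁻¹ * a * g)) ∈ ChV p N N' U := by
  have hc : ∀ (M : Subgroup F), M.Normal → ∀ a ∈ M, g⁻¹ * a * g ∈ M := fun M hM a ha => by
    simpa using hM.conj_mem a ha g⁻¹
  refine ⟨fun a ha b hb => ?_, fun a ha => ?_, fun a ha hau => ?_, fun a ha => ?_⟩
  · have e : g⁻¹ * (a * b) * g = (g⁻¹ * a * g) * (g⁻¹ * b * g) := by group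
    simp only [e]
    exact h.1 _ (hc N hN a ha) _ (hc N hN b hb)
  · exact h.2.1 _ (hc N' hN' a ha)
  · exact h.2.2.1 _ (hc N hN a ha) (hc U hU a hau)
  · refine h.2.2.2 _ fun hmem => ha ?_
    have := hN.conj_mem _ hmem g
    have e : g * (g⁻¹ * a * g) * g⁻¹ = a := by group
    rwa [e] at this

/-- existence of the data of the extension theorem -/
theorem exists_Sys (hp : p.Prime)
    (hidx : ∀ U : Subgroup F, IsOpen (U : Set F) → U.Normal → ∃ n : ℕ, U.index = p ^ n)
    (hN : N.Normal) (hN' : N'.Normal) (hle : N' ≤ N)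
    (comm : ∀ a ∈ N, ∀ b ∈ N, a * b * a⁻¹ * b⁻¹ ∈ N')
    (hU : IsOpen (U : Set F)) (hUn : U.Normal) (e : ℕ)
    (hlift : ∀ ξ : F → ZMod p, IsChar N p ξ → (∀ a ∈ N', ξ a = 0) →
      ∃ χ : F → ZMod (p ^ e), IsChar N (p ^ e) χ ∧ (∀ a ∈ N', χ a = 0) ∧
        ∀ a ∈ N, (((χ a).val : ℕ) : ZMod p) = ξ a) :
    ∃ (d : ℕ) (W : Subgroup F) (Fi : Fin d → F → ZMod (p ^ e)) (el : Fin d → F),
      Sys p e N N' W Fi el ∧
      ∀ ξ : F → ZMod p, IsChar N p ξ → (∀ a ∈ N', ξ a = 0) →
      (∀ a ∈ N, a ∈ U → ξ a = 0) → ∃ c : Fin d → ZMod p, ∀ a ∈ N, ξ a = ∑ i, c i * xi p Fi i a := by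
  classical
  have := Fact.mk hp
  have hfin : Finite (ChV p N N' U) := ChV_finite hU
  let ρ : F →* Module.End (ZMod p) (ChV p N N' U) :=
    { toFun := fun g =>
        { toFun := fun ξ => ⟨fun a => ξ.1 (g⁻¹ * a * g), ChV_conj hN hN' hUn ξ.2 g⟩
          map_add' := fun f f' => rfl
          map_smul' := fun c f => rfl }
      map_one' := by
        apply LinearMap.ext
        intro ξ
        apply Subtype.ext
        funext a
        change ξ.1 ((1 : F)⁻¹ * a * 1) = ξ.1 a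
        simp
      map_mul' := fun g h => by
        apply LinearMap.ext
        intro ξ
        apply Subtype.ext
        funext a
        change ξ.1 ((g * h)⁻¹ * a * (g * h)) = ξ.1 (h⁻¹ * (g⁻¹ * a * g) * h)
        group }
  have hρa : ∀ (g : F) (ξ : ChV p N N' U) (a : F), (ρ g ξ).1 a = ξ.1 (g⁻¹ * a * g) :=
    fun _ _ _ => rfl
  have hρ : ∀ g, ∃ n : ℕ, ρ g ^ (p ^ n) = 1 := by
    intro g
    obtain ⟨n, hn⟩ := hidx U hU hUn
    refine ⟨n, ?_⟩
    rw [← map_pow, ← hn]
    apply LinearMap.ext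
    intro ξ
    apply Subtype.ext
    funext a
    rw [hρa]
    change _ = ξ.1 a
    set u := g ^ U.index with hu
    have huU : u ∈ U := U.pow_index_mem g
    by_cases ha : a ∈ N
    · refine ChV_inv ξ.2 ha ?_ ?_
      · simpa using hN.conj_mem a ha u⁻¹
      · have := hUn.conj_mem _ (U.inv_mem huU) a⁻¹
        rw [inv_inv] at this
        have e1 : a⁻¹ * (u⁻¹ * a * u) = (a⁻¹ * u⁻¹ * a) * u := by group
        rw [e1]
        exact U.mul_mem this huU
    · rw [ξ.2.2.2.2 a ha]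
      refine ξ.2.2.2.2 _ fun hmem => ha ?_
      have := hN.conj_mem _ hmem u
      have e1 : u * (u⁻¹ * a * u) * u⁻¹ = a := by group
      rwa [e1] at this
  obtain ⟨d, b, hb, hbtop, hflag⟩ := exists_flag ρ hρ
  -- dual elements
  have hdual : ∃ el : Fin d → F, (∀ j, el j ∈ N) ∧
      ∀ i j, (b i).1 (el j) = if i = j then 1 else 0 := by
    let R : Submodule (ZMod p) (Fin d → ZMod p) :=
      { carrier := {x | ∃ a ∈ N, ∀ i, (b i).1 a = x i}
        add_mem' := by
          rintro x y ⟨a, ha, hax⟩ ⟨a', ha', hax'⟩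
          refine ⟨a * a', N.mul_mem ha ha', fun i => ?_⟩
          rw [(b i).2.1 a ha a' ha', hax, hax']; rfl
        zero_mem' := ⟨1, one_mem _, fun i => (b i).2.2.1 1 (one_mem _)⟩
        smul_mem' := by
          rintro c x ⟨a, ha, hax⟩
          refine ⟨a ^ c.val, N.pow_mem ha _, fun i => ?_⟩
          have hpow : ∀ n : ℕ, (b i).1 (a ^ n) = n * (b i).1 a := by
            intro n
            induction n with
            | zero => simp [(b i).2.2.1 1 (one_mem _)]
            | succ n ih =>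
              rw [pow_succ, (b i).2.1 _ (N.pow_mem ha n) _ ha, ih]
              push_cast
              ring
          rw [hpow, hax, ZMod.natCast_zmod_val]
          rfl }
    have hR : R = ⊤ := by
      by_contra hne
      obtain ⟨φ, hφ, hφR⟩ := Submodule.exists_dual_map_eq_bot_of_lt_top (lt_top_iff_ne_top.2 hne)
        inferInstance
      have hφ0 : ∀ x ∈ R, φ x = 0 := by
        intro x hx
        have : φ x ∈ R.map φ := Submodule.mem_map_of_mem hx
        rw [hφR] at this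
        exact (Submodule.mem_bot _).1 this
      have hφx : ∀ x, φ x = ∑ i, x i * φ (Pi.single i 1) := by
        intro x
        conv_lhs => rw [pi_eq_sum_univ' x]
        rw [map_sum]
        refine Finset.sum_congr rfl fun i _ => ?_
        rw [map_smul, smul_eq_mul]
      have hrel : ∑ i, φ (Pi.single i 1) • b i = 0 := by
        apply Subtype.ext
        funext a
        have e1 : (∑ i, φ (Pi.single i 1) • b i).1 a = ∑ i, φ (Pi.single i 1) * (b i).1 a := by
          rw [Submodule.coe_sum, Finset.sum_apply]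
          rfl
        rw [e1]
        change _ = (0 : ZMod p)
        by_cases ha : a ∈ N
        · have h1 := hφ0 (fun i => (b i).1 a) ⟨a, ha, fun i => rfl⟩
          rw [hφx] at h1
          rw [← h1]
          exact Finset.sum_congr rfl fun i _ => mul_comm _ _
        · refine Finset.sum_eq_zero fun i _ => ?_
          rw [(b i).2.2.2.2 a ha, mul_zero]
      have hzero := Fintype.linearIndependent_iff.1 hb _ hrel
      apply hφ
      apply LinearMap.ext
      intro x
      rw [hφx, LinearMap.zero_apply]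
      exact Finset.sum_eq_zero fun i _ => by rw [hzero i, mul_zero]
    have hex : ∀ j : Fin d, ∃ a ∈ N, ∀ i, (b i).1 a = (Pi.single j 1 : Fin d → ZMod p) i := by
      intro j
      have : (Pi.single j 1 : Fin d → ZMod p) ∈ R := by rw [hR]; trivial
      exact this
    choose el hel1 hel2 using hex
    refine ⟨el, hel1, fun i j => ?_⟩
    rw [hel2]
    by_cases h : i = j
    · subst h; simp
    · simp [h]
  obtain ⟨el, helN, held⟩ := hdual
  -- every element of the space in terms of its values at `el`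
  have hrep : ∀ ξ : ChV p N N' U, ∀ a, ξ.1 a = ∑ i, ξ.1 (el i) * (b i).1 a := by
    intro ξ a
    have h1 : ξ ∈ Submodule.span (ZMod p) (Set.range b) := by rw [hbtop]; trivial
    obtain ⟨c, hc⟩ := (Submodule.mem_span_range_iff_exists_fun (ZMod p)).1 h1
    have h2 : ∀ a, ξ.1 a = ∑ i, c i * (b i).1 a := by
      intro a
      rw [← hc, Submodule.coe_sum, Finset.sum_apply]
      rfl
    have h3 : ∀ j, ξ.1 (el j) = c j := by
      intro j
      rw [h2]
      simp only [held]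
      simp
    rw [h2 a]
    exact Finset.sum_congr rfl fun i _ => by rw [h3]
  have hspan0 : ∀ (j : Fin d) (l : Fin d), j ≤ l →
      ∀ x ∈ Submodule.span (ZMod p) (b '' {i | i < j}), x.1 (el l) = 0 := by
    intro j l hjl x hx
    let K : Submodule (ZMod p) (ChV p N N' U) :=
      { carrier := {x | x.1 (el l) = 0}
        add_mem' := by
          intro x y hx hy
          change x.1 (el l) + y.1 (el l) = 0
          rw [hx, hy, add_zero]
        zero_mem' := rfl
        smul_mem' := by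
          intro c x hx
          change c * x.1 (el l) = 0
          rw [hx, mul_zero] }
    have hle : Submodule.span (ZMod p) (b '' {i | i < j}) ≤ K := by
      rw [Submodule.span_le]
      rintro _ ⟨i, hi, rfl⟩
      change (b i).1 (el l) = 0
      rw [held, if_neg]
      exact ne_of_lt (lt_of_lt_of_le hi hjl)
    exact hle hx
  -- lifts
  have hchar : ∀ i, IsChar N p (b i).1 := fun i =>
    ⟨(b i).2.1, U, hU, hUn, (b i).2.2.2.1⟩
  choose χ hχ1 hχ2 hχ3 using fun i => hlift (b i).1 (hchar i) (b i).2.2.1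
  have hext : ∀ i, ∃ (V : Subgroup F) (G : F → ZMod (p ^ e)), IsOpen (V : Set F) ∧ V.Normal ∧
      (∀ a ∈ N, ∀ h, G (a * h) = χ i a + G h) ∧ RInv V G ∧ G 1 = 0 := by
    intro i
    obtain ⟨h1, V, hV, hVn, h2⟩ := hχ1 i
    obtain ⟨G, hG1, hG2, hG3⟩ := ext_fun hN hVn (χ i) h1 h2
    exact ⟨V, G, hV, hVn, hG1, hG2, hG3⟩
  choose V Fi hV hVn hF1 hF2 hF3 using hext
  have hFχ : ∀ i, ∀ a ∈ N, Fi i a = χ i a := by
    intro i a ha
    have := hF1 i a ha 1
    rw [mul_one, hF3, add_zero] at this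
    exact this
  have hxi : ∀ i, ∀ a ∈ N, xi p Fi i a = (b i).1 a := by
    intro i a ha
    rw [xi, hFχ i a ha, hχ3 i a ha]
  have hWopen : IsOpen ((⨅ i, V i : Subgroup F) : Set F) := by
    rw [Subgroup.coe_iInf]
    exact isOpen_iInter_of_finite hV
  have hcN : ∀ (h a : F), a ∈ N → h * a * h⁻¹ ∈ N := fun h a ha => hN.conj_mem a ha h
  have hconjval : ∀ (h : F) (l : Fin d) (a : F),
      (ρ h⁻¹ (b l)).1 a = (b l).1 (h * a * h⁻¹) := by
    intro h l a
    rw [hρa, inv_inv]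
  refine ⟨d, ⨅ i, V i, Fi, el, ⟨hN, hN', hle, hWopen, Subgroup.normal_iInf_normal hVn, ?_, ?_,
    ?_, helN, ?_, ?_, ?_, ?_, comm⟩, ?_⟩
  · intro i a ha h
    rw [hFχ i a ha]
    exact hF1 i a ha h
  · intro i
    exact (hF2 i).mono (iInf_le V i)
  · intro i a ha
    rw [hFχ i a (hle ha), hχ2 i a ha]
  · intro i j
    rw [hxi i _ (helN j), held]
  · intro h l a ha
    rw [hxi l _ (hcN h a ha), ← hconjval, hrep]
    refine Finset.sum_congr rfl fun i _ => ?_
    rw [hxi l _ (hcN h _ (helN i)), hxi i a ha, hconjval]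
  · intro h l j hlj
    rw [hxi l _ (hcN h _ (helN j)), ← hconjval]
    have h1 := hspan0 l j hlj.le _ (hflag l h⁻¹)
    have h2 : (ρ h⁻¹ (b l) - b l).1 (el j) = (ρ h⁻¹ (b l)).1 (el j) - (b l).1 (el j) := rfl
    rw [h2, held, if_neg hlj.ne, sub_zero] at h1
    exact h1
  · intro h l
    rw [hxi l _ (hcN h _ (helN l)), ← hconjval]
    have h1 := hspan0 l l le_rfl _ (hflag l h⁻¹)
    have h2 : (ρ h⁻¹ (b l) - b l).1 (el l) = (ρ h⁻¹ (b l)).1 (el l) - (b l).1 (el l) := rfl
    rw [h2, held, if_pos rfl] at h1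
    exact sub_eq_zero.1 h1
  · intro ξ hξ h1 h2
    let ξ' : F → ZMod p := fun a => if a ∈ N then ξ a else 0
    have hξ' : ξ' ∈ ChV p N N' U := by
      refine ⟨fun a ha b hb => ?_, fun a ha => ?_, fun a ha hau => ?_, fun a ha => ?_⟩
      · simp only [ξ', ha, hb, N.mul_mem ha hb, if_true]
        exact hξ.1 a ha b hb
      · simp only [ξ', hle ha, if_true, h1 a ha]
      · simp only [ξ', ha, if_true, h2 a ha hau]
      · simp only [ξ', ha, if_false]
    refine ⟨fun i => ξ' (el i), fun a ha => ?_⟩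
    have h3 := hrep ⟨ξ', hξ'⟩ a
    simp only at h3
    have h4 : ξ' a = ξ a := by simp only [ξ', ha, if_true]
    rw [← h4, h3]
    exact Finset.sum_congr rfl fun i _ => by rw [hxi i a ha]

/-- order of a functional -/
theorem exists_order (hp : p.Prime)
    (hidx : ∀ U : Subgroup F, IsOpen (U : Set F) → U.Normal → ∃ n : ℕ, U.index = p ^ n)
    (τ : (F → ZMod p) →ₗ[ZMod p] ZMod p) (hτ : ∃ f ∈ LC p N', τ f ≠ 0) :
    ∃ m, (∀ f ∈ Fil p N N' m, τ f = 0) ∧ ∃ f ∈ Fil p N N' (m + 1), τ f ≠ 0 := by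
  classical
  have := Fact.mk hp
  obtain ⟨f, hf, hne⟩ := hτ
  obtain ⟨n, hn⟩ := Fil_exhaust (N := N) hidx hf
  have hex : ∃ n, ∃ f ∈ Fil p N N' n, τ f ≠ 0 := ⟨n, f, hn, hne⟩
  have h0 : Nat.find hex ≠ 0 := by
    intro h0
    obtain ⟨g, hg, hgne⟩ := Nat.find_spec hex
    rw [h0, mem_Fil_zero] at hg
    apply hgne
    rw [hg, map_zero]
  obtain ⟨m, hm⟩ := Nat.exists_eq_succ_of_ne_zero h0
  refine ⟨m, fun g hg => ?_, ?_⟩
  · by_contra hgne
    have := Nat.find_min' hex ⟨g, hg, hgne⟩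
    omega
  · have := Nat.find_spec hex
    rw [hm] at this
    exact this

/-- the extension theorem -/
theorem good_ext (hp : p.Prime)
    (hidx : ∀ U : Subgroup F, IsOpen (U : Set F) → U.Normal → ∃ n : ℕ, U.index = p ^ n)
    (hN : N.Normal) (hN' : N'.Normal) (hle : N' ≤ N)
    (comm : ∀ a ∈ N, ∀ b ∈ N, a * b * a⁻¹ * b⁻¹ ∈ N')
    (hgood : Good p N)
    (hlift : ∀ e : ℕ, 1 ≤ e → ∀ ξ : F → ZMod p, IsChar N p ξ → (∀ a ∈ N', ξ a = 0) →
      ∃ χ : F → ZMod (p ^ e), IsChar N (p ^ e) χ ∧ (∀ a ∈ N', χ a = 0) ∧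
        ∀ a ∈ N, (((χ a).val : ℕ) : ZMod p) = ξ a) : Good p N' := by
  have := Fact.mk hp
  intro τ τ' hτ hτ'
  obtain ⟨m, hm, f1, hf1, hne1⟩ := exists_order (N := N) hp hidx τ hτ
  obtain ⟨m', hm', f2, hf2, hne2⟩ := exists_order (N := N) hp hidx τ' hτ'
  obtain ⟨-, U1, hU1, hU1n, hf1U⟩ := Fil_le_LC _ hf1
  obtain ⟨-, U2, hU2, hU2n, hf2U⟩ := Fil_le_LC _ hf2
  have hopen : IsOpen ((U1 ⊓ U2 : Subgroup F) : Set F) := hU1.inter hU2
  have hlt : m + m' < p ^ (m + m' + 1) :=
    lt_of_lt_of_le (Nat.lt_succ_self _) (Nat.lt_pow_self hp.one_lt).le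
  obtain ⟨d, W, Fi, el, S, hspan⟩ := exists_Sys (U := U1 ⊓ U2) hp hidx hN hN' hle comm hopen
    inferInstance (m + m' + 1) (hlift (m + m' + 1) (by omega))
  exact ext_core hp S hgood hlt τ τ' hm hm'
    (QQ_of_RInv S hopen inferInstance hspan hf1 (hf1U.mono inf_le_left)) hne1
    (QQ_of_RInv S hopen inferInstance hspan hf2 (hf2U.mono inf_le_right)) hne2

end Pool.Agent.Serre
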