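import Pool.Agent.Work.MP_0b5d1f_al.Struct
import Pool.Agent.Work.MP_0b5d1f_al.SysEx

set_option autoImplicit false
set_option linter.unusedSectionVars false
set_option linter.style.haveILetI false

namespace Pool.Agent.Serre

variable {F : Type} [Group F] [TopologicalSpace F] [IsTopologicalGroup F] [CompactSpace F]

/-- pulling back a homomorphism from the image of `N` in a finite quotient -/
theorem pull_char {N K : Subgroup F} (hK : IsOpen (K : Set F)) [hKn : K.Normal] (q : ℕ)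
    (φ : ↥(N.map (QuotientGroup.mk' K)) →* Multiplicative (ZMod q)) :
    ∃ ψ : F → ZMod q, IsChar N q ψ ∧ (∀ a ∈ N, a ∈ K → ψ a = 0) ∧
      ∀ a (ha : a ∈ N), ψ a =
        Multiplicative.toAdd (φ ⟨QuotientGroup.mk' K a, Subgroup.mem_map_of_mem _ ha⟩) := by
  classical
  let ψ : F → ZMod q := fun a => if ha : a ∈ N then
    Multiplicative.toAdd (φ ⟨QuotientGroup.mk' K a, Subgroup.mem_map_of_mem _ ha⟩) else 0
  have h1 : ∀ a (ha : a ∈ N), ψ a =
        Multiplicative.toAdd (φ ⟨QuotientGroup.mk' K a, Subgroup.mem_map_of_mem _ ha⟩) := by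
    intro a ha
    simp only [ψ, dif_pos ha]
  have h2 : ∀ a ∈ N, a ∈ K → ψ a = 0 := by
    intro a ha haK
    rw [h1 a ha]
    have e : (⟨QuotientGroup.mk' K a, Subgroup.mem_map_of_mem _ ha⟩ :
        ↥(N.map (QuotientGroup.mk' K))) = 1 := by
      apply Subtype.ext
      exact (QuotientGroup.eq_one_iff a).2 haK
    rw [e, map_one]
    rfl
  refine ⟨ψ, ⟨fun a ha b hb => ?_, K, hK, hKn, h2⟩, h2, h1⟩
  rw [h1 a ha, h1 b hb, h1 _ (N.mul_mem ha hb), ← toAdd_mul, ← map_mul]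
  rfl

/-- the closed commutator subgroup -/
abbrev cder (N : Subgroup F) : Subgroup F := (⁅N, N⁆ : Subgroup F).topologicalClosure

theorem comm_mem_cder {N : Subgroup F} {a b : F} (ha : a ∈ N) (hb : b ∈ N) :
    a * b * a⁻¹ * b⁻¹ ∈ cder N :=
  Subgroup.le_topologicalClosure _ (Subgroup.commutator_mem_commutator ha hb)

theorem cder_normal {N : Subgroup F} (hN : N.Normal) : (cder N).Normal := by
  have := hN
  exact Subgroup.is_normal_topologicalClosure _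

theorem cder_le {N : Subgroup F} (hN : N.Normal) (hcl : IsClosed (N : Set F)) : cder N ≤ N := by
  have := hN
  exact Subgroup.topologicalClosure_minimal _ (Subgroup.commutator_le_right N N) hcl

theorem cder_closed (N : Subgroup F) : IsClosed ((cder N : Subgroup F) : Set F) :=
  Subgroup.isClosed_topologicalClosure _

/-- the kernel of a character as a subgroup of `F` -/
def kerC {N : Subgroup F} {q : ℕ} {χ : F → ZMod q} (h : IsChar N q χ) : Subgroup F where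
  carrier := {x | x ∈ N ∧ χ x = 0}
  mul_mem' := by
    rintro a b ⟨ha, ha0⟩ ⟨hb, hb0⟩
    exact ⟨N.mul_mem ha hb, by rw [h.1 a ha b hb, ha0, hb0, add_zero]⟩
  one_mem' := ⟨one_mem _, h.one⟩
  inv_mem' := by
    rintro a ⟨ha, ha0⟩
    exact ⟨N.inv_mem ha, by rw [h.inv ha, ha0, neg_zero]⟩

theorem mem_kerC {N : Subgroup F} {q : ℕ} {χ : F → ZMod q} (h : IsChar N q χ) {x : F} :
    x ∈ kerC h ↔ x ∈ N ∧ χ x = 0 := Iff.rfl

theorem kerC_closed {N : Subgroup F} (hcl : IsClosed (N : Set F)) {q : ℕ} {χ : F → ZMod q}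
    (h : IsChar N q χ) : IsClosed ((kerC h : Subgroup F) : Set F) := by
  obtain ⟨h1, U, hU, hUn, h2⟩ := id h
  rw [← closure_subset_iff_isClosed]
  intro x hx
  have hxN : x ∈ N := hcl.closure_subset_iff.2 (fun y hy => hy.1) hx
  refine ⟨hxN, ?_⟩
  rw [mem_closure_iff] at hx
  obtain ⟨y, hy1, hy2⟩ := hx ((fun y => x⁻¹ * y) ⁻¹' (U : Set F))
    (hU.preimage (continuous_const_mul _)) (by simp)
  have hy3 : x⁻¹ * y ∈ U := hy1
  have e : y = x * (x⁻¹ * y) := by group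
  have h3 := h1 x hxN _ (N.mul_mem (N.inv_mem hxN) hy2.1)
  rw [← e, h2 _ (N.mul_mem (N.inv_mem hxN) hy2.1) hy3, add_zero, hy2.2] at h3
  exact h3.symm

theorem IsChar.kill_cder {N : Subgroup F} (hcl : IsClosed (N : Set F)) {q : ℕ} {χ : F → ZMod q}
    (h : IsChar N q χ) {x : F} (hx : x ∈ cder N) : χ x = 0 := by
  have hle : cder N ≤ kerC h := by
    refine Subgroup.topologicalClosure_minimal _ ?_ (kerC_closed hcl h)
    rw [Subgroup.commutator_le]
    intro a ha b hb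
    rw [commutatorElement_def, mem_kerC]
    refine ⟨N.mul_mem (N.mul_mem (N.mul_mem ha hb) (N.inv_mem ha)) (N.inv_mem hb), ?_⟩
    rw [h.1 _ (N.mul_mem (N.mul_mem ha hb) (N.inv_mem ha)) _ (N.inv_mem hb),
      h.1 _ (N.mul_mem ha hb) _ (N.inv_mem ha), h.1 a ha b hb, h.inv ha, h.inv hb]
    ring
  exact (hle hx).2

theorem IsChar.conjF {N : Subgroup F} (hN : N.Normal) {q : ℕ} {χ : F → ZMod q}
    (h : IsChar N q χ) (g : F) : IsChar N q (fun a => χ (g⁻¹ * a * g)) := by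
  have hc : ∀ a ∈ N, g⁻¹ * a * g ∈ N := fun a ha => by simpa using hN.conj_mem a ha g⁻¹
  obtain ⟨h1, U, hU, hUn, h2⟩ := id h
  refine ⟨fun a ha b hb => ?_, U, hU, hUn, fun a ha haU => ?_⟩
  · have e : g⁻¹ * (a * b) * g = (g⁻¹ * a * g) * (g⁻¹ * b * g) := by group
    simp only [e]
    exact h.1 _ (hc a ha) _ (hc b hb)
  · exact h2 _ (hc a ha) (by simpa using hUn.conj_mem a haU g⁻¹)

section Closed

variable [T2Space F] [TotallyDisconnectedSpace F]

theorem comm_image {N K : Subgroup F} [K.Normal]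
    (hK : ∀ a ∈ N, ∀ b ∈ N, a * b * a⁻¹ * b⁻¹ ∈ K) (x y : ↥(N.map (QuotientGroup.mk' K))) :
    x * y = y * x := by
  obtain ⟨x, a, ha, rfl⟩ := x
  obtain ⟨y, b, hb, rfl⟩ := y
  apply Subtype.ext
  change ((a : F ⧸ K)) * (b : F ⧸ K) = (b : F ⧸ K) * (a : F ⧸ K)
  rw [← QuotientGroup.mk_mul, ← QuotientGroup.mk_mul, eq_comm, QuotientGroup.eq]
  have h1 := hK a⁻¹ (N.inv_mem ha) b⁻¹ (N.inv_mem hb)
  have e : (b * a)⁻¹ * (a * b) = a⁻¹ * b⁻¹ * a⁻¹⁻¹ * b⁻¹⁻¹ := by group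
  rw [e]
  exact h1

/-- elements of `N` on which all characters to `Z/p` vanish -/
theorem phi_lemma {p : ℕ} (hp : p.Prime) {N : Subgroup F} (hN : N.Normal)
    (hcl : IsClosed (N : Set F)) {v : F} (hv : v ∈ N)
    (hψ : ∀ ψ : F → ZMod p, IsChar N p ψ → ψ v = 0) :
    ∃ w ∈ N, ∃ c ∈ cder N, v = w ^ p * c := by
  classical
  have := Fact.mk hp
  by_contra hcon
  push Not at hcon
  let A : Set F := (fun x : F × F => x.1 ^ p * x.2) '' ((N : Set F) ×ˢ (cder N : Set F))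
  have hA : IsClosed A := by
    refine IsCompact.isClosed (IsCompact.image ?_ ?_)
    · exact hcl.isCompact.prod (cder_closed N).isCompact
    · exact (continuous_fst.pow p).mul continuous_snd
  have hvA : v ∉ A := by
    rintro ⟨⟨w, c⟩, ⟨hw, hc⟩, h⟩
    exact hcon w hw c hc h.symm
  obtain ⟨U, hU, hUn, hav⟩ := exists_open_avoid hA {v} (by
    intro x hx
    rw [Finset.mem_singleton] at hx
    rw [hx]
    exact hvA)
  have hDn := cder_normal hN
  have hKn : (cder N ⊔ U).Normal := inferInstance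
  have hK : IsOpen ((cder N ⊔ U : Subgroup F) : Set F) := Subgroup.isOpen_mono le_sup_right hU
  have hcomm : ∀ a ∈ N, ∀ b ∈ N, a * b * a⁻¹ * b⁻¹ ∈ cder N ⊔ U := fun a ha b hb =>
    (le_sup_left : cder N ≤ cder N ⊔ U) (comm_mem_cder ha hb)
  letI : CommGroup ↥(N.map (QuotientGroup.mk' (cder N ⊔ U))) :=
    { (inferInstance : Group ↥(N.map (QuotientGroup.mk' (cder N ⊔ U)))) with
      mul_comm := comm_image hcomm }
  obtain ⟨φ, hφ⟩ := alg1 (p := p)
    (⟨QuotientGroup.mk' (cder N ⊔ U) v, Subgroup.mem_map_of_mem _ hv⟩ :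
      ↥(N.map (QuotientGroup.mk' (cder N ⊔ U)))) (by
    rintro ⟨⟨x, w, hw, rfl⟩, hx⟩
    have hx2 := congrArg Subtype.val hx
    have hx3 : ((v : F) : F ⧸ (cder N ⊔ U)) = ((w ^ p : F) : F ⧸ (cder N ⊔ U)) := hx2
    rw [eq_comm, QuotientGroup.eq] at hx3
    obtain ⟨c, hc, u, hu, hcu⟩ := Subgroup.mem_sup_of_normal_right.1 hx3
    have e : v * u⁻¹ = w ^ p * c := by
      have : v = w ^ p * (c * u) := by rw [hcu]; group
      rw [this]; group
    apply hav v (Finset.mem_singleton_self v) u⁻¹ (U.inv_mem hu)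
    rw [e]
    exact ⟨(w, c), ⟨hw, hc⟩, rfl⟩)
  obtain ⟨ψ, hψ1, -, hψ3⟩ := pull_char hK p φ
  apply hφ
  have h1 := hψ ψ hψ1
  rw [hψ3 v hv] at h1
  exact h1

/-- elements of `N` outside the closed commutator subgroup are detected by characters -/
theorem sep_cder {p : ℕ} (hp : p.Prime)
    (hidx : ∀ U : Subgroup F, IsOpen (U : Set F) → U.Normal → ∃ n : ℕ, U.index = p ^ n)
    {N : Subgroup F} (hN : N.Normal)
    {x : F} (hx : x ∈ N) (hxD : x ∉ cder N) :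
    ∃ (m : ℕ) (χ : F → ZMod (p ^ m)), IsChar N (p ^ m) χ ∧ χ x ≠ 0 := by
  classical
  have := Fact.mk hp
  have hDn := cder_normal hN
  obtain ⟨U, hU, hUn, hav⟩ := exists_open_avoid_sup (cder_closed N) {x} (by
    intro y hy
    rw [Finset.mem_singleton] at hy
    rw [hy]
    exact hxD)
  have hKn : (cder N ⊔ U).Normal := inferInstance
  have hK : IsOpen ((cder N ⊔ U : Subgroup F) : Set F) := Subgroup.isOpen_mono le_sup_right hU
  have hcomm : ∀ a ∈ N, ∀ b ∈ N, a * b * a⁻¹ * b⁻¹ ∈ cder N ⊔ U := fun a ha b hb =>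
    (le_sup_left : cder N ≤ cder N ⊔ U) (comm_mem_cder ha hb)
  have hfin : Finite (F ⧸ (cder N ⊔ U)) := Subgroup.quotient_finite_of_isOpen _ hK
  obtain ⟨n, hn⟩ := hidx _ hK hKn
  have hdvd : Nat.card ↥(N.map (QuotientGroup.mk' (cder N ⊔ U))) ∣ p ^ n := by
    rw [← hn]
    exact Subgroup.card_subgroup_dvd_card _
  obtain ⟨n', -, hn'⟩ := (Nat.dvd_prime_pow hp).1 hdvd
  letI : CommGroup ↥(N.map (QuotientGroup.mk' (cder N ⊔ U))) :=
    { (inferInstance : Group ↥(N.map (QuotientGroup.mk' (cder N ⊔ U)))) with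
      mul_comm := comm_image hcomm }
  obtain ⟨m, φ, hφ⟩ := alg2 hp hn'
    (⟨QuotientGroup.mk' (cder N ⊔ U) x, Subgroup.mem_map_of_mem _ hx⟩ :
      ↥(N.map (QuotientGroup.mk' (cder N ⊔ U)))) (by
    intro h
    have h2 : ((x : F) : F ⧸ (cder N ⊔ U)) = 1 := congrArg Subtype.val h
    exact hav x (Finset.mem_singleton_self x) ((QuotientGroup.eq_one_iff x).1 h2))
  obtain ⟨ψ, hψ1, -, hψ3⟩ := pull_char hK (p ^ m) φ
  refine ⟨m, ψ, hψ1, fun h => hφ ?_⟩
  rw [hψ3 x hx] at h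
  exact h

/-- a proper closed normal subgroup is killed by a nonzero character -/
theorem sep_proper {p : ℕ} (hp : p.Prime)
    (hidx : ∀ U : Subgroup F, IsOpen (U : Set F) → U.Normal → ∃ n : ℕ, U.index = p ^ n)
    {N M : Subgroup F} (hM : M.Normal)
    (hMcl : IsClosed (M : Set F)) (hNM : ¬ N ≤ M) :
    ∃ ψ : F → ZMod p, IsChar N p ψ ∧ (∀ a ∈ N, a ∈ M → ψ a = 0) ∧ ∃ a ∈ N, ψ a ≠ 0 := by
  classical
  have := Fact.mk hp
  obtain ⟨n0, hn0, hn0M⟩ := SetLike.not_le_iff_exists.1 hNM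
  obtain ⟨U, hU, hUn, hav⟩ := exists_open_avoid_sup hMcl {n0} (by
    intro y hy
    rw [Finset.mem_singleton] at hy
    rw [hy]
    exact hn0M)
  have hKn : (M ⊔ U).Normal := inferInstance
  have hK : IsOpen ((M ⊔ U : Subgroup F) : Set F) := Subgroup.isOpen_mono le_sup_right hU
  have hfin : Finite (F ⧸ (M ⊔ U)) := Subgroup.quotient_finite_of_isOpen _ hK
  obtain ⟨n, hn⟩ := hidx _ hK hKn
  have hdvd : Nat.card ↥(N.map (QuotientGroup.mk' (M ⊔ U))) ∣ p ^ n := by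
    rw [← hn]
    exact Subgroup.card_subgroup_dvd_card _
  obtain ⟨n', -, hn'⟩ := (Nat.dvd_prime_pow hp).1 hdvd
  have hnt : Nontrivial ↥(N.map (QuotientGroup.mk' (M ⊔ U))) := by
    refine ⟨⟨QuotientGroup.mk' (M ⊔ U) n0, Subgroup.mem_map_of_mem _ hn0⟩, 1, ?_⟩
    intro h
    have h2 : ((n0 : F) : F ⧸ (M ⊔ U)) = 1 := congrArg Subtype.val h
    exact hav n0 (Finset.mem_singleton_self n0) ((QuotientGroup.eq_one_iff n0).1 h2)
  obtain ⟨φ, ⟨x, a, ha, rfl⟩, hx⟩ := alg3 hn' hnt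
  obtain ⟨ψ, hψ1, hψ2, hψ3⟩ := pull_char hK p φ
  refine ⟨ψ, hψ1, fun a ha haM => hψ2 a ha ((le_sup_left : M ≤ M ⊔ U) haM), a, ha, fun h => hx ?_⟩
  rw [hψ3 a ha] at h
  exact h

/-- writing `r` as a `p^k`-th power modulo commutators -/
theorem exists_root {p : ℕ} (hp : p.Prime)
    (hidx : ∀ U : Subgroup F, IsOpen (U : Set F) → U.Normal → ∃ n : ℕ, U.index = p ^ n)
    {N : Subgroup F} (hN : N.Normal)
    (hcl : IsClosed (N : Set F)) {r : F} (hr : r ∈ N) (hrD : r ∉ cder N) :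
    ∃ v ∈ N, ∃ (k : ℕ), ∃ c ∈ cder N, r = v ^ (p ^ k) * c ∧
      ∃ ψ : F → ZMod p, IsChar N p ψ ∧ ψ v ≠ 0 := by
  classical
  have hDn := cder_normal hN
  obtain ⟨U, hU, hUn, hav⟩ := exists_open_avoid_sup (cder_closed N) {r} (by
    intro y hy
    rw [Finset.mem_singleton] at hy
    rw [hy]
    exact hrD)
  obtain ⟨n, hn⟩ := hidx U hU hUn
  let P : ℕ → Prop := fun k => ∃ v ∈ N, ∃ c ∈ cder N, r = v ^ (p ^ k) * c
  have h0 : P 0 := ⟨r, hr, 1, one_mem _, by simp⟩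
  have hbound : ∀ k, P k → k < n := by
    rintro k ⟨v, hv, c, hc, h⟩
    by_contra hlt
    have hk : k = n + (k - n) := by omega
    have h1 : v ^ (p ^ k) ∈ U := by
      rw [hk, pow_add, pow_mul, ← hn]
      exact U.pow_mem (U.pow_index_mem v) _
    apply hav r (Finset.mem_singleton_self r)
    rw [h]
    exact Subgroup.mul_mem _ ((le_sup_right : U ≤ cder N ⊔ U) h1)
      ((le_sup_left : cder N ≤ cder N ⊔ U) hc)
  let k := Nat.findGreatest P n
  have hk : P k := Nat.findGreatest_spec (P := P) (Nat.zero_le n) h0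
  have hkmax : ¬ P (k + 1) := by
    intro h
    have h1 := hbound _ h
    have h2 := Nat.le_findGreatest (P := P) h1.le h
    change k + 1 ≤ k at h2
    omega
  obtain ⟨v, hv, c, hc, h⟩ := hk
  refine ⟨v, hv, k, c, hc, h, ?_⟩
  by_contra hcon
  push Not at hcon
  obtain ⟨w, hw, c', hc', hvw⟩ := phi_lemma hp hN hcl hv hcon
  apply hkmax
  -- `v ^ (p^k) ≡ w ^ (p^(k+1))`
  have h1 : (w ^ (p ^ (k + 1)))⁻¹ * v ^ (p ^ k) ∈ cder N := by
    rw [← QuotientGroup.eq]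
    have e : ((v : F) : F ⧸ cder N) = ((w ^ p : F) : F ⧸ cder N) := by
      rw [eq_comm, QuotientGroup.eq, hvw]
      have e2 : (w ^ p)⁻¹ * (w ^ p * c') = c' := by group
      rw [e2]
      exact hc'
    rw [QuotientGroup.mk_pow, QuotientGroup.mk_pow, e, QuotientGroup.mk_pow, ← pow_mul, pow_succ,
      mul_comm]
  refine ⟨w, hw, (w ^ (p ^ (k + 1)))⁻¹ * v ^ (p ^ k) * c, Subgroup.mul_mem _ h1 hc, ?_⟩
  rw [h]
  group

/-! ### the next term -/

/-- the intersection of the kernels of all characters killing the conjugates of `v` -/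
def nxt (p : ℕ) {N : Subgroup F} (v : F) (hN : N.Normal) : Subgroup F where
  carrier := {x | x ∈ N ∧ ∀ (m : ℕ) (χ : F → ZMod (p ^ m)), IsChar N (p ^ m) χ →
    (∀ g, χ (g⁻¹ * v * g) = 0) → χ x = 0}
  mul_mem' := by
    rintro a b ⟨ha, ha0⟩ ⟨hb, hb0⟩
    exact ⟨N.mul_mem ha hb, fun m χ hχ h0 => by
      rw [hχ.1 a ha b hb, ha0 m χ hχ h0, hb0 m χ hχ h0, add_zero]⟩
  one_mem' := ⟨one_mem _, fun m χ hχ _ => hχ.one⟩
  inv_mem' := by
    rintro a ⟨ha, ha0⟩
    exact ⟨N.inv_mem ha, fun m χ hχ h0 => by rw [hχ.inv ha, ha0 m χ hχ h0, neg_zero]⟩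

variable {p : ℕ} {N : Subgroup F}

theorem mem_nxt {v : F} {hN : N.Normal} {x : F} : x ∈ nxt p v hN ↔ x ∈ N ∧
    ∀ (m : ℕ) (χ : F → ZMod (p ^ m)), IsChar N (p ^ m) χ →
    (∀ g, χ (g⁻¹ * v * g) = 0) → χ x = 0 := Iff.rfl

theorem nxt_le {v : F} {hN : N.Normal} : nxt p v hN ≤ N := fun _ hx => hx.1

theorem nxt_normal {v : F} (hN : N.Normal) : (nxt p v hN).Normal := by
  constructor
  intro n hn g
  refine ⟨hN.conj_mem n hn.1 g, fun m χ hχ h0 => ?_⟩
  have h1 := hn.2 m _ (hχ.conjF hN g⁻¹) (fun h => by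
    have e : g⁻¹⁻¹ * (h⁻¹ * v * h) * g⁻¹ = (h * g⁻¹)⁻¹ * v * (h * g⁻¹) := by group
    simp only [e]
    exact h0 _)
  simpa using h1

theorem nxt_closed {v : F} {_hN : N.Normal} (hcl : IsClosed (N : Set F)) :
    IsClosed ((nxt p v _hN : Subgroup F) : Set F) := by
  rw [← closure_subset_iff_isClosed]
  intro x hx
  have hxN : x ∈ N := hcl.closure_subset_iff.2 (fun y hy => hy.1) hx
  refine ⟨hxN, fun m χ hχ h0 => ?_⟩
  have h1 : closure ((nxt p v _hN : Subgroup F) : Set F) ⊆ (kerC hχ : Set F) :=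
    (kerC_closed hcl hχ).closure_subset_iff.2 fun y hy => ⟨hy.1, hy.2 m χ hχ h0⟩
  exact (h1 hx).2

theorem nxt_comm {v : F} {hN : N.Normal} (a : F) (ha : a ∈ N) (b : F) (hb : b ∈ N) :
    a * b * a⁻¹ * b⁻¹ ∈ nxt p v hN := by
  refine ⟨N.mul_mem (N.mul_mem (N.mul_mem ha hb) (N.inv_mem ha)) (N.inv_mem hb),
    fun m χ h _ => ?_⟩
  rw [h.1 _ (N.mul_mem (N.mul_mem ha hb) (N.inv_mem ha)) _ (N.inv_mem hb),
      h.1 _ (N.mul_mem ha hb) _ (N.inv_mem ha), h.1 a ha b hb, h.inv ha, h.inv hb]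
  ring

/-- the next term is good -/
theorem good_nxt {X : Type} {ι : X → F} (hp : p.Prime) (hF : FreeProP p ι) (hN : N.Normal)
    (hgood : Good p N) {v : F} (hv : v ∈ N)
    (hcase : v = 1 ∨ ∃ ψ0 : F → ZMod p, IsChar N p ψ0 ∧ ψ0 v ≠ 0) :
    Good p (nxt p v hN) := by
  refine good_ext hp hF.index hN (nxt_normal hN) nxt_le nxt_comm hgood ?_
  intro e he ξ hξ hξ0
  have hconj : ∀ g, g⁻¹ * v * g ∈ nxt p v hN := by
    intro g
    refine ⟨by simpa using hN.conj_mem v hv g⁻¹, fun m χ hχ h0 => h0 g⟩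
  have key : ∀ e : ℕ, 1 ≤ e → ∀ q : ℕ, q = p ^ e → ∃ χ : F → ZMod q, IsChar N q χ ∧
      (∀ g, χ (g⁻¹ * v * g) = 0) ∧ ∀ a ∈ N, (((χ a).val : ℕ) : ZMod p) = ξ a := by
    intro e he
    induction e, he using Nat.le_induction with
    | base =>
      intro q hq
      rw [pow_one] at hq
      subst hq
      have hne : NeZero q := ⟨hp.ne_zero⟩
      exact ⟨ξ, hξ, fun g => hξ0 _ (hconj g), fun a _ => ZMod.natCast_zmod_val _⟩
    | succ e he ih =>
      intro q' hq'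
      obtain ⟨χ, hχ1, hχ2, hχ3⟩ := ih (p ^ e) rfl
      have hdvd : p ^ e ∣ q' := by
        rw [hq', pow_succ]
        exact Dvd.intro _ rfl
      obtain ⟨χ', h1, h2, h3⟩ := lift_D hp hF hN hgood hv hcase rfl hq' hdvd hχ1 hχ2
      refine ⟨χ', h1, h3, fun a ha => ?_⟩
      rw [← hχ3 a ha, ← h2 a ha]
      have hne : NeZero (p ^ e) := ⟨pow_ne_zero _ hp.ne_zero⟩
      have hne' : NeZero q' := ⟨by rw [hq']; exact pow_ne_zero _ hp.ne_zero⟩
      rw [ZMod.castHom_apply, ZMod.cast_eq_val, ZMod.val_natCast]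
      rw [ZMod.natCast_eq_natCast_iff]
      have hpe : p ∣ p ^ e := dvd_pow_self p (by omega)
      exact ((Nat.mod_modEq _ _).of_dvd hpe).symm
  obtain ⟨χ, h1, h2, h3⟩ := key e he (p ^ e) rfl
  exact ⟨χ, h1, fun a ha => ha.2 e χ h1 h2, h3⟩

end Closed

end Pool.Agent.Serre
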