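import Pool.Agent.Work.MP_0b5d1f_al.StmtDefs

set_option autoImplicit false
set_option linter.unusedSectionVars false
set_option linter.style.haveILetI false

/-!
# One-relator pro-`p` groups: definitions

`LC p N`: the locally constant functions `F → ZMod p` which are right invariant under `N`
(the dual of the completed group algebra of `F / N`).  A functional on it is represented by a
functional on all functions `F → ZMod p`.  `Good p N`: the completed group algebra of `F/N` over
`ZMod p` has no zero divisors.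
-/

namespace Pool.Agent.Serre

variable {F : Type} [Group F] [TopologicalSpace F]

/-- invariance of a function under right translation by a subgroup -/
def RInv {β : Type} (U : Subgroup F) (f : F → β) : Prop := ∀ g, ∀ u ∈ U, f (g * u) = f g

/-- locally constant functions on `F / N` -/
def LC (p : ℕ) (N : Subgroup F) : Submodule (ZMod p) (F → ZMod p) where
  carrier := {f | RInv N f ∧ ∃ U : Subgroup F, IsOpen (U : Set F) ∧ U.Normal ∧ RInv U f}
  add_mem' := by
    rintro f f' ⟨hf, U, hU, hUn, hfU⟩ ⟨hf', U', hU', hUn', hfU'⟩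
    refine ⟨fun g u hu => ?_, U ⊓ U', hU.inter hU', ?_, fun g u hu => ?_⟩
    · simp only [Pi.add_apply, hf g u hu, hf' g u hu]
    · haveI := hUn; haveI := hUn'; infer_instance
    · simp only [Pi.add_apply, hfU g u hu.1, hfU' g u hu.2]
  zero_mem' := ⟨fun _ _ _ => rfl, ⊤, by simp, inferInstance, fun _ _ _ => rfl⟩
  smul_mem' := by
    rintro c f ⟨hf, U, hU, hUn, hfU⟩
    refine ⟨fun g u hu => ?_, U, hU, hUn, fun g u hu => ?_⟩
    · simp only [Pi.smul_apply, hf g u hu]
    · simp only [Pi.smul_apply, hfU g u hu]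

theorem mem_LC {p : ℕ} {N : Subgroup F} {f : F → ZMod p} :
    f ∈ LC p N ↔ RInv N f ∧ ∃ U : Subgroup F, IsOpen (U : Set F) ∧ U.Normal ∧ RInv U f :=
  Iff.rfl

/-- the completed group algebra of `F / N` over `ZMod p` is a domain (dual formulation) -/
def Good (p : ℕ) (N : Subgroup F) : Prop :=
  ∀ τ τ' : (F → ZMod p) →ₗ[ZMod p] ZMod p,
    (∃ f ∈ LC p N, τ f ≠ 0) → (∃ f ∈ LC p N, τ' f ≠ 0) →
    ∃ f ∈ LC p N, τ' (fun g => τ (fun h => f (h * g))) ≠ 0

/-- `χ` restricts to a continuous homomorphism `N → ZMod q` (its values outside `N` are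
irrelevant) -/
def IsChar (N : Subgroup F) (q : ℕ) (χ : F → ZMod q) : Prop :=
  (∀ a ∈ N, ∀ b ∈ N, χ (a * b) = χ a + χ b) ∧
  ∃ U : Subgroup F, IsOpen (U : Set F) ∧ U.Normal ∧ ∀ a ∈ N, a ∈ U → χ a = 0

/-- derivations `F → Functions(F / H, ZMod q)` -/
structure IsDer (H : Subgroup F) (q : ℕ) (δ : F → F → ZMod q) : Prop where
  mul : ∀ g h x, δ (g * h) x = δ g x + δ h (g⁻¹ * x)
  inv : ∀ g, RInv H (δ g)
  cont : ∃ W : Subgroup F, IsOpen (W : Set F) ∧ W.Normal ∧ ∀ w ∈ W, ∀ x, δ w x = 0

end Pool.Agent.Serre
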