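import Pool.Agent.Work.MP_0b5d1f_al.Basic

set_option autoImplicit false
set_option linter.unusedSectionVars false
set_option linter.style.haveILetI false

namespace Pool.Agent.Serre

variable {F : Type} [Group F] [TopologicalSpace F] [IsTopologicalGroup F] [CompactSpace F]

section Semi

variable {Q : Type} [Group Q] (q : ℕ)

/-- the action of `Q` on functions `Q → ZMod q` by left translation -/
def actHom : Q →* MulAut (Multiplicative (Q → ZMod q)) where
  toFun g :=
    { toFun := fun f => Multiplicative.ofAdd (fun x => (Multiplicative.toAdd f) (g⁻¹ * x))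
      invFun := fun f => Multiplicative.ofAdd (fun x => (Multiplicative.toAdd f) (g * x))
      left_inv := by
        intro f
        apply Multiplicative.toAdd.injective
        funext x
        simp
      right_inv := by
        intro f
        apply Multiplicative.toAdd.injective
        funext x
        simp
      map_mul' := by
        intro f f'
        rfl }
  map_one' := by
    apply MulEquiv.ext
    intro f
    apply Multiplicative.toAdd.injective
    funext x
    simp
  map_mul' g h := by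
    apply MulEquiv.ext
    intro f
    apply Multiplicative.toAdd.injective
    funext x
    simp [mul_assoc]

theorem actHom_apply (g : Q) (f : Multiplicative (Q → ZMod q)) (x : Q) :
    Multiplicative.toAdd (actHom q g f) x = Multiplicative.toAdd f (g⁻¹ * x) := rfl

end Semi

theorem quot_card {p : ℕ} {X : Type} {ι : X → F} (hF : FreeProP p ι) (H : Subgroup F)
    (hH : IsOpen (H : Set F)) (hHn : H.Normal) : ∃ n : ℕ, Nat.card (F ⧸ H) = p ^ n := by
  obtain ⟨n, hn⟩ := hF.index H hH hHn
  exact ⟨n, hn⟩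

variable {p : ℕ} {X : Type} {ι : X → F}

theorem semi_card (hp : p.Prime) (hF : FreeProP p ι) (H : Subgroup F)
    (hH : IsOpen (H : Set F)) [H.Normal] (m : ℕ) :
    Finite (Multiplicative (F ⧸ H → ZMod (p ^ m)) ⋊[actHom (p ^ m)] (F ⧸ H)) ∧
    ∃ n : ℕ, Nat.card (Multiplicative (F ⧸ H → ZMod (p ^ m)) ⋊[actHom (p ^ m)] (F ⧸ H)) =
      p ^ n := by
  have : NeZero (p ^ m) := ⟨pow_ne_zero _ hp.ne_zero⟩
  have hfin : Finite (F ⧸ H) := Subgroup.quotient_finite_of_isOpen H hH
  obtain ⟨n, hn⟩ := quot_card hF H hH inferInstance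
  have hfin2 : Finite (Multiplicative (F ⧸ H → ZMod (p ^ m)) ⋊[actHom (p ^ m)] (F ⧸ H)) :=
    Finite.of_equiv _ (SemidirectProduct.equivProd).symm
  refine ⟨hfin2, m * (p ^ n) + n, ?_⟩
  rw [Nat.card_congr SemidirectProduct.equivProd, Nat.card_prod, hn]
  have : Nat.card (Multiplicative (F ⧸ H → ZMod (p ^ m))) = (p ^ m) ^ (p ^ n) := by
    change Nat.card (F ⧸ H → ZMod (p ^ m)) = _
    rw [Nat.card_fun, hn, Nat.card_zmod]
  rw [this, pow_add, pow_mul]

/-- a derivation as a homomorphism to the semidirect product -/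
noncomputable def derHom (H : Subgroup F) [H.Normal] (q : ℕ) (δ : F → F → ZMod q) (hδ : IsDer H q δ) :
    F →* Multiplicative (F ⧸ H → ZMod q) ⋊[actHom q] (F ⧸ H) where
  toFun g := ⟨Multiplicative.ofAdd (fun x => δ g x.out), (g : F ⧸ H)⟩
  map_one' := by
    have h1 : ∀ x, δ 1 x = 0 := by
      intro x
      have := hδ.mul 1 1 x
      simp only [mul_one, inv_one, one_mul] at this
      simpa using this
    ext1
    · apply Multiplicative.toAdd.injective
      funext x
      simp [h1]
    · simp
  map_mul' g h := by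
    ext1
    · apply Multiplicative.toAdd.injective
      funext x
      rw [SemidirectProduct.mul_left, toAdd_mul]
      rw [Pi.add_apply, actHom_apply]
      simp only [toAdd_ofAdd]
      rw [hδ.mul]
      congr 1
      have h2 : (g⁻¹ * x.out)⁻¹ * ((g : F ⧸ H)⁻¹ * x).out ∈ H := by
        rw [← QuotientGroup.eq]
        simp
      exact ((hδ.inv h).eq_of h2).symm
    · simp

theorem derHom_left (H : Subgroup F) [H.Normal] (q : ℕ) (δ : F → F → ZMod q)
    (hδ : IsDer H q δ) (g : F) (x : F) :
    Multiplicative.toAdd (derHom H q δ hδ g).left (x : F ⧸ H) = δ g x := by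
  exact (hδ.inv g).out x

theorem isOpen_ker_of_le {G : Type} [Group G] (φ : F →* G) {W : Subgroup F}
    (hW : IsOpen (W : Set F)) (h : ∀ w ∈ W, φ w = 1) : IsOpen (φ.ker : Set F) :=
  Subgroup.isOpen_mono (H₁ := W) (fun w hw => (MonoidHom.mem_ker).2 (h w hw)) hW

theorem derHom_ker (H : Subgroup F) (hH : IsOpen (H : Set F)) [H.Normal] (q : ℕ)
    (δ : F → F → ZMod q) (hδ : IsDer H q δ) : IsOpen ((derHom H q δ hδ).ker : Set F) := by
  obtain ⟨W, hW, hWn, hW0⟩ := hδ.cont
  refine isOpen_ker_of_le (W := W ⊓ H) _ (hW.inter hH) ?_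
  rintro w ⟨hw1, hw2⟩
  ext1
  · apply Multiplicative.toAdd.injective
    funext x
    change δ w x.out = 0
    exact hW0 w hw1 _
  · change (w : F ⧸ H) = 1
    exact (QuotientGroup.eq_one_iff w).2 hw2

/-- uniqueness of derivations with given values on the basis -/
theorem der_unique (hp : p.Prime) (hF : FreeProP p ι) {H : Subgroup F}
    (hH : IsOpen (H : Set F)) (hHn : H.Normal) {m : ℕ} {δ δ' : F → F → ZMod (p ^ m)}
    (hδ : IsDer H (p ^ m) δ) (hδ' : IsDer H (p ^ m) δ')
    (h : ∀ x, δ (ι x) = δ' (ι x)) : δ = δ' := by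
  obtain ⟨hfin, hcard⟩ := semi_card hp hF H hH m
  let P := Multiplicative (F ⧸ H → ZMod (p ^ m)) ⋊[actHom (p ^ m)] (F ⧸ H)
  let φ : F →* P := derHom H (p ^ m) δ hδ
  let φ' : F →* P := derHom H (p ^ m) δ' hδ'
  have hker : IsOpen (φ.ker : Set F) := derHom_ker H hH _ δ hδ
  have hfin2 : {x : X | φ (ι x) ≠ 1}.Finite := by
    refine (hF.conv (φ.ker : Set F) hker (one_mem _)).subset ?_
    intro x hx hx2
    exact hx (MonoidHom.mem_ker.1 hx2)
  obtain ⟨ψ, -, huniq⟩ := hF.univ P hcard (fun x => φ (ι x)) hfin2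
  have h1 : φ = ψ := huniq φ ⟨hker, fun x => rfl⟩
  have h2 : φ' = ψ := by
    refine huniq φ' ⟨derHom_ker H hH _ δ' hδ', fun x => ?_⟩
    ext1
    · apply Multiplicative.toAdd.injective
      funext y
      change δ' (ι x) y.out = δ (ι x) y.out
      rw [h]
    · rfl
  funext g x
  rw [← derHom_left H _ δ hδ g x, ← derHom_left H _ δ' hδ' g x]
  change Multiplicative.toAdd (φ g).left _ = Multiplicative.toAdd (φ' g).left _
  rw [h1, h2]

/-- existence of derivations with given values on the basis -/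
theorem der_exists (hp : p.Prime) (hF : FreeProP p ι) {H : Subgroup F}
    (hH : IsOpen (H : Set F)) (hHn : H.Normal) {m : ℕ} (a : X → F → ZMod (p ^ m))
    (ha : ∀ x, RInv H (a x)) (hfin0 : {x | a x ≠ 0}.Finite) :
    ∃ δ : F → F → ZMod (p ^ m), IsDer H (p ^ m) δ ∧ ∀ x, δ (ι x) = a x := by
  obtain ⟨hfin, hcard⟩ := semi_card hp hF H hH m
  let P := Multiplicative (F ⧸ H → ZMod (p ^ m)) ⋊[actHom (p ^ m)] (F ⧸ H)
  let f : X → P := fun x => ⟨Multiplicative.ofAdd (fun y => a x y.out), (ι x : F ⧸ H)⟩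
  have hf : {x : X | f x ≠ 1}.Finite := by
    refine (hfin0.union (hF.conv (H : Set F) hH (one_mem _))).subset ?_
    intro x hx
    by_contra hcon
    simp only [Set.mem_union, Set.mem_ofPred_eq, not_or, not_not] at hcon
    apply hx
    ext1
    · apply Multiplicative.toAdd.injective
      funext y
      change a x y.out = 0
      rw [hcon.1]; rfl
    · change (ι x : F ⧸ H) = 1
      exact (QuotientGroup.eq_one_iff _).2 hcon.2
  obtain ⟨φ, ⟨hφ, hφx⟩, -⟩ := hF.univ P hcard f hf
  have hfin3 : Finite (F ⧸ H) := Subgroup.quotient_finite_of_isOpen H hH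
  -- the right component is the projection
  have hright : ∀ g, (φ g).right = (g : F ⧸ H) := by
    have hfx : {x : X | ((ι x : F) : F ⧸ H) ≠ 1}.Finite := by
      refine (hF.conv (H : Set F) hH (one_mem _)).subset ?_
      intro x hx hx2
      exact hx ((QuotientGroup.eq_one_iff _).2 hx2)
    obtain ⟨ψ, -, huniq⟩ := hF.univ (F ⧸ H) (quot_card hF H hH hHn)
      (fun x => ((ι x : F) : F ⧸ H)) hfx
    have h1 : SemidirectProduct.rightHom.comp φ = ψ := by
      refine huniq _ ⟨?_, fun x => ?_⟩
      · refine isOpen_ker_of_le _ hφ (fun w hw => ?_)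
        rw [MonoidHom.comp_apply, MonoidHom.mem_ker.1 hw, map_one]
      · rw [MonoidHom.comp_apply, hφx]; rfl
    have h2 : QuotientGroup.mk' H = ψ := by
      refine huniq _ ⟨?_, fun x => rfl⟩
      rw [QuotientGroup.ker_mk']; exact hH
    intro g
    have := congrArg (fun θ : F →* F ⧸ H => θ g) (h1.trans h2.symm)
    exact this
  let δ : F → F → ZMod (p ^ m) := fun g x => Multiplicative.toAdd (φ g).left (x : F ⧸ H)
  refine ⟨δ, ⟨?_, ?_, ?_⟩, ?_⟩
  · intro g h x
    change Multiplicative.toAdd (φ (g * h)).left (x : F ⧸ H) = _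
    rw [map_mul, SemidirectProduct.mul_left, toAdd_mul, Pi.add_apply, actHom_apply, hright]
    rfl
  · intro g x y hy
    change Multiplicative.toAdd (φ g).left ((x * y : F) : F ⧸ H) = _
    have : ((x * y : F) : F ⧸ H) = (x : F ⧸ H) := by
      rw [QuotientGroup.eq]
      simpa [mul_assoc] using hy
    rw [this]
  · refine ⟨φ.ker, hφ, inferInstance, fun w hw x => ?_⟩
    change Multiplicative.toAdd (φ w).left (x : F ⧸ H) = 0
    rw [MonoidHom.mem_ker.1 hw]
    rfl
  · intro x
    funext y
    change Multiplicative.toAdd (φ (ι x)).left (y : F ⧸ H) = _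
    rw [hφx]
    exact (ha x).out y

end Pool.Agent.Serre
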