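import Pool.Agent.Work.MP_0b5d1f_al.Shap

set_option autoImplicit false
set_option linter.unusedSectionVars false
set_option linter.style.haveILetI false

namespace Pool.Agent.Serre

variable {F : Type} [Group F] [TopologicalSpace F] [IsTopologicalGroup F] [CompactSpace F]

/-! ### characters -/

theorem IsChar.one {N : Subgroup F} {q : ℕ} {χ : F → ZMod q} (h : IsChar N q χ) : χ 1 = 0 := by
  have := h.1 1 (one_mem _) 1 (one_mem _)
  rw [mul_one] at this
  simpa using this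

theorem IsChar.inv {N : Subgroup F} {q : ℕ} {χ : F → ZMod q} (h : IsChar N q χ) {a : F}
    (ha : a ∈ N) : χ a⁻¹ = - χ a := by
  have := h.1 a ha a⁻¹ (N.inv_mem ha)
  rw [mul_inv_cancel, h.one] at this
  exact (neg_eq_of_add_eq_zero_right this.symm).symm

theorem IsChar.conj {N : Subgroup F} {q : ℕ} {χ : F → ZMod q} (h : IsChar N q χ) {a y : F}
    (ha : a ∈ N) (hy : y ∈ N) : χ (a⁻¹ * y * a) = χ y := by
  rw [h.1 _ (N.mul_mem (N.inv_mem ha) hy) _ ha, h.1 _ (N.inv_mem ha) _ hy, h.inv ha]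
  ring

theorem IsChar.pow {N : Subgroup F} {q : ℕ} {χ : F → ZMod q} (h : IsChar N q χ) {a : F}
    (ha : a ∈ N) (n : ℕ) : χ (a ^ n) = n * χ a := by
  induction n with
  | zero => simp [h.one]
  | succ n ih =>
    rw [pow_succ, h.1 _ (N.pow_mem ha n) _ ha, ih]
    push_cast
    ring

theorem IsChar.map {N : Subgroup F} {q q' : ℕ} {χ : F → ZMod q} (h : IsChar N q χ)
    (θ : ZMod q →+ ZMod q') : IsChar N q' (fun n => θ (χ n)) := by
  obtain ⟨h1, U, hU, hUn, h2⟩ := h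
  exact ⟨fun a ha b hb => by simp only [h1 a ha b hb, map_add], U, hU, hUn,
    fun a ha hau => by simp only [h2 a ha hau, map_zero]⟩

theorem IsChar.sub {N : Subgroup F} {q : ℕ} {χ χ' : F → ZMod q} (h : IsChar N q χ)
    (h' : IsChar N q χ') : IsChar N q (fun n => χ n - χ' n) := by
  obtain ⟨h1, U, hU, hUn, h2⟩ := h
  obtain ⟨h1', U', hU', hUn', h2'⟩ := h'
  refine ⟨fun a ha b hb => ?_, U ⊓ U', hU.inter hU', inferInstance, fun a ha hau => ?_⟩
  · simp only [h1 a ha b hb, h1' a ha b hb]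
    ring
  · simp only [h2 a ha hau.1, h2' a ha hau.2, sub_zero]

/-- invariance of `g ↦ χ (g⁻¹ v g)` -/
theorem IsChar.fun_inv {N : Subgroup F} (hN : N.Normal) {q : ℕ} {χ : F → ZMod q}
    (h : IsChar N q χ) {v : F} (hv : v ∈ N) :
    RInv N (fun g => χ (g⁻¹ * v * g)) ∧
    ∃ U : Subgroup F, IsOpen (U : Set F) ∧ U.Normal ∧ RInv U (fun g => χ (g⁻¹ * v * g)) := by
  have hc : ∀ g, g⁻¹ * v * g ∈ N := fun g => by
    simpa using hN.conj_mem v hv g⁻¹
  obtain ⟨h1, U, hU, hUn, h2⟩ := id h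
  refine ⟨fun g n hn => ?_, U, hU, hUn, fun g u hu => ?_⟩
  · have e : (g * n)⁻¹ * v * (g * n) = n⁻¹ * (g⁻¹ * v * g) * n := by group
    simp only [e]
    exact h.conj hn (hc g)
  · have e : (g * u)⁻¹ * v * (g * u) =
      (g⁻¹ * v * g) * ((g⁻¹ * v * g)⁻¹ * u⁻¹ * (g⁻¹ * v * g) * u) := by group
    simp only [e]
    have hm : (g⁻¹ * v * g)⁻¹ * u⁻¹ * (g⁻¹ * v * g) * u ∈ N := by
      have := hN.conj_mem _ (hc g) u⁻¹
      rw [inv_inv] at this
      have e : (g⁻¹ * v * g)⁻¹ * u⁻¹ * (g⁻¹ * v * g) * u =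
        (g⁻¹ * v * g)⁻¹ * (u⁻¹ * (g⁻¹ * v * g) * u) := by group
      rw [e]
      exact N.mul_mem (N.inv_mem (hc g)) this
    have hm2 : (g⁻¹ * v * g)⁻¹ * u⁻¹ * (g⁻¹ * v * g) * u ∈ U := by
      have := hUn.conj_mem _ (U.inv_mem hu) (g⁻¹ * v * g)⁻¹
      rw [inv_inv] at this
      exact U.mul_mem this hu
    rw [h1 _ (hc g) _ hm, h2 _ hm hm2, add_zero]

/-! ### derivations -/

theorem IsDer.mono {H H' : Subgroup F} (hH : H' ≤ H) {q : ℕ} {δ : F → F → ZMod q}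
    (hδ : IsDer H q δ) : IsDer H' q δ :=
  ⟨hδ.mul, fun g => (hδ.inv g).mono hH, hδ.cont⟩

theorem IsDer.add {H : Subgroup F} {q : ℕ} {δ δ' : F → F → ZMod q}
    (hδ : IsDer H q δ) (hδ' : IsDer H q δ') : IsDer H q (δ + δ') where
  mul g h x := by simp only [Pi.add_apply, hδ.mul, hδ'.mul]; ring
  inv g x y hy := by simp only [Pi.add_apply, hδ.inv g x y hy, hδ'.inv g x y hy]
  cont := by
    obtain ⟨W, hW, hWn, hW0⟩ := hδ.cont
    obtain ⟨W', hW', hWn', hW0'⟩ := hδ'.cont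
    exact ⟨W ⊓ W', hW.inter hW', inferInstance, fun w hw x => by
      simp only [Pi.add_apply, hW0 w hw.1 x, hW0' w hw.2 x, add_zero]⟩

theorem IsDer.zero {H : Subgroup F} {q : ℕ} : IsDer H q (0 : F → F → ZMod q) where
  mul g h x := by simp
  inv g x y hy := by simp
  cont := ⟨⊤, by simp, inferInstance, fun w _ x => rfl⟩

theorem IsDer.smul {H : Subgroup F} {q : ℕ} (c : ZMod q) {δ : F → F → ZMod q}
    (hδ : IsDer H q δ) : IsDer H q (c • δ) where
  mul g h x := by simp only [Pi.smul_apply, hδ.mul, smul_add]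
  inv g x y hy := by simp only [Pi.smul_apply, hδ.inv g x y hy]
  cont := by
    obtain ⟨W, hW, hWn, hW0⟩ := hδ.cont
    exact ⟨W, hW, hWn, fun w hw x => by simp only [Pi.smul_apply, hW0 w hw x, smul_zero]⟩

theorem IsDer.sum {H : Subgroup F} {q : ℕ} {ι : Type} (s : Finset ι) (δ : ι → F → F → ZMod q)
    (hδ : ∀ i ∈ s, IsDer H q (δ i)) : IsDer H q (∑ i ∈ s, δ i) := by
  classical
  induction s using Finset.induction_on with
  | empty => simpa using IsDer.zero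
  | insert a s ha ih =>
    rw [Finset.sum_insert ha]
    exact (hδ a (Finset.mem_insert_self a s)).add
      (ih fun i hi => hδ i (Finset.mem_insert_of_mem hi))

theorem IsDer.rho {H : Subgroup F} (hH : H.Normal) {q : ℕ} {δ : F → F → ZMod q}
    (hδ : IsDer H q δ) (y : F) : IsDer H q (fun g x => δ g (x * y)) where
  mul g h x := by simp only [hδ.mul, mul_assoc]
  inv g := (hδ.inv g).rho hH y
  cont := by
    obtain ⟨W, hW, hWn, hW0⟩ := hδ.cont
    exact ⟨W, hW, hWn, fun w hw x => hW0 w hw _⟩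

theorem IsDer.conj_val {N H : Subgroup F} (hN : N.Normal) (hNH : N ≤ H) {q : ℕ}
    {δ : F → F → ZMod q} (hδ : IsDer H q δ) {v : F} (hv : v ∈ N) (g : F) :
    δ (g⁻¹ * v * g) 1 = δ v g := by
  have h1 : δ 1 1 = 0 := by
    have := hδ.mul 1 1 1
    simp only [mul_one, inv_one] at this
    simpa using this
  have h2 : δ g⁻¹ 1 + δ g g = 0 := by
    have := hδ.mul g⁻¹ g 1
    rw [inv_mul_cancel, h1, inv_inv, mul_one] at this
    exact this.symm
  have h3 : δ g (v⁻¹ * g) = δ g g := by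
    have e : v⁻¹ * g = g * (g⁻¹ * v⁻¹ * g) := by group
    rw [e]
    refine hδ.inv g g _ (hNH ?_)
    simpa using hN.conj_mem _ (N.inv_mem hv) g⁻¹
  rw [mul_assoc, hδ.mul, inv_inv, mul_one, hδ.mul, h3]
  linear_combination h2

variable {p : ℕ} {X : Type} {ι : X → F}

theorem der_unique' (hp : p.Prime) (hF : FreeProP p ι) {H : Subgroup F}
    (hH : IsOpen (H : Set F)) (hHn : H.Normal) {δ δ' : F → F → ZMod p}
    (hδ : IsDer H p δ) (hδ' : IsDer H p δ')
    (h : ∀ x, δ (ι x) = δ' (ι x)) : δ = δ' := by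
  have key : ∀ q, q = p ^ 1 → ∀ δ δ' : F → F → ZMod q, IsDer H q δ → IsDer H q δ' →
      (∀ x, δ (ι x) = δ' (ι x)) → δ = δ' := by
    rintro q rfl δ δ' hδ hδ' h
    exact der_unique hp hF hH hHn hδ hδ' h
  exact key p (pow_one p).symm δ δ' hδ hδ' h

theorem der_exists' (hp : p.Prime) (hF : FreeProP p ι) {H : Subgroup F}
    (hH : IsOpen (H : Set F)) (hHn : H.Normal) (a : X → F → ZMod p)
    (ha : ∀ x, RInv H (a x)) (hfin0 : {x | a x ≠ 0}.Finite) :
    ∃ δ : F → F → ZMod p, IsDer H p δ ∧ ∀ x, δ (ι x) = a x := by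
  have key : ∀ q, q = p ^ 1 → ∀ a : X → F → ZMod q, (∀ x, RInv H (a x)) →
      {x | a x ≠ 0}.Finite → ∃ δ : F → F → ZMod q, IsDer H q δ ∧ ∀ x, δ (ι x) = a x := by
    rintro q rfl a ha hfin
    exact der_exists hp hF hH hHn a ha hfin
  exact key p (pow_one p).symm a ha hfin0

open Classical in
/-- the derivation which takes the value `f` at `ι x` and `0` at the other basis elements -/
def DD (p : ℕ) (ι : X → F) (N : Subgroup F) (x : X) (f : F → ZMod p) (δ : F → F → ZMod p) :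
    Prop :=
  ∃ H : Subgroup F, IsOpen (H : Set F) ∧ H.Normal ∧ N ≤ H ∧ IsDer H p δ ∧
    ∀ y, δ (ι y) = if y = x then f else 0

theorem DD.exists_of (hp : p.Prime) (hF : FreeProP p ι) {H : Subgroup F}
    (hH : IsOpen (H : Set F)) (hHn : H.Normal) (x : X) {f : F → ZMod p}
    (hf : RInv H f) : ∃ δ, IsDer H p δ ∧ ∀ y, δ (ι y) = open Classical in if y = x then f else 0 := by
  classical
  refine der_exists' hp hF hH hHn (fun y => if y = x then f else 0) (fun y => ?_) ?_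
  · by_cases h : y = x
    · simp only [h, if_true]; exact hf
    · simp only [h, if_false]; intro _ _ _; rfl
  · refine (Set.finite_singleton x).subset ?_
    intro y hy
    by_contra hne
    apply hy
    have : y ≠ x := hne
    simp [this]

theorem DD.exists (hp : p.Prime) (hF : FreeProP p ι) {N : Subgroup F} (hN : N.Normal) (x : X)
    {f : F → ZMod p} (hf : f ∈ LC p N) : ∃ δ, DD p ι N x f δ := by
  obtain ⟨hf, U, hU, hUn, hfU⟩ := hf
  have hopen : IsOpen ((N ⊔ U : Subgroup F) : Set F) := Subgroup.isOpen_mono le_sup_right hU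
  obtain ⟨δ, h1, h2⟩ := DD.exists_of hp hF hopen inferInstance x (RInv.sup hUn hf hfU)
  exact ⟨δ, N ⊔ U, hopen, inferInstance, le_sup_left, h1, h2⟩

theorem DD.unique (hp : p.Prime) (hF : FreeProP p ι) {N : Subgroup F} {x : X}
    {f : F → ZMod p} {δ δ' : F → F → ZMod p} (h : DD p ι N x f δ) (h' : DD p ι N x f δ') :
    δ = δ' := by
  obtain ⟨H, hH, hHn, -, h1, h2⟩ := h
  obtain ⟨H', hH', hHn', -, h1', h2'⟩ := h'
  exact der_unique' (H := H ⊓ H') hp hF (hH.inter hH') inferInstance (h1.mono inf_le_left)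
    (h1'.mono inf_le_right) fun y => by rw [h2, h2']

theorem DD.add {N : Subgroup F} {x : X}
    {f f' : F → ZMod p} {δ δ' : F → F → ZMod p} (h : DD p ι N x f δ) (h' : DD p ι N x f' δ') :
    DD p ι N x (f + f') (δ + δ') := by
  obtain ⟨H, hH, hHn, hN, h1, h2⟩ := h
  obtain ⟨H', hH', hHn', hN', h1', h2'⟩ := h'
  refine ⟨H ⊓ H', hH.inter hH', inferInstance, le_inf hN hN', (h1.mono inf_le_left).add
    (h1'.mono inf_le_right), fun y => ?_⟩
  rw [Pi.add_apply, h2, h2']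
  by_cases h : y = x <;> simp [h]

theorem DD.smul {N : Subgroup F} {x : X} (c : ZMod p)
    {f : F → ZMod p} {δ : F → F → ZMod p} (h : DD p ι N x f δ) :
    DD p ι N x (c • f) (c • δ) := by
  obtain ⟨H, hH, hHn, hN, h1, h2⟩ := h
  refine ⟨H, hH, hHn, hN, h1.smul c, fun y => ?_⟩
  rw [Pi.smul_apply, h2]
  by_cases h : y = x <;> simp [h]

theorem DD.rho {N : Subgroup F} {x : X} (z : F)
    {f : F → ZMod p} {δ : F → F → ZMod p} (h : DD p ι N x f δ) :
    DD p ι N x (fun h => f (h * z)) (fun g y => δ g (y * z)) := by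
  obtain ⟨H, hH, hHn, hN, h1, h2⟩ := h
  refine ⟨H, hH, hHn, hN, h1.rho hHn z, fun y => ?_⟩
  funext w
  change δ (ι y) (w * z) = _
  rw [h2]
  by_cases h : y = x <;> simp [h]

/-- the functional `f ↦ δ_{x,f}(v)(1)` -/
theorem exists_tau (hp : p.Prime) (hF : FreeProP p ι) {N : Subgroup F} (hN : N.Normal) (x : X)
    (v : F) : ∃ τ : (F → ZMod p) →ₗ[ZMod p] ZMod p,
      ∀ f ∈ LC p N, ∀ δ, DD p ι N x f δ → τ f = δ v 1 := by
  have := Fact.mk hp
  have hex : ∀ f : LC p N, ∃ δ, DD p ι N x f δ := fun f => DD.exists hp hF hN x f.2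
  choose D hD using hex
  let L : LC p N →ₗ[ZMod p] ZMod p :=
    { toFun := fun f => D f v 1
      map_add' := fun f f' => by
        have := DD.unique hp hF (hD (f + f')) ((hD f).add (hD f'))
        rw [this]; rfl
      map_smul' := fun c f => by
        have := DD.unique hp hF (hD (c • f)) ((hD f).smul c)
        rw [this]; rfl }
  obtain ⟨τ, hτ⟩ := LinearMap.exists_extend L
  refine ⟨τ, fun f hf δ hδ => ?_⟩
  have h1 : τ f = L ⟨f, hf⟩ := by
    rw [← hτ]; rfl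
  rw [h1]
  change D ⟨f, hf⟩ v 1 = _
  rw [DD.unique hp hF (hD ⟨f, hf⟩) hδ]

/-- the conjugates of `v` can be given arbitrary locally constant values by characters -/
theorem surj_conj (hp : p.Prime) (hF : FreeProP p ι) {N : Subgroup F} (hN : N.Normal)
    (hgood : Good p N) {v : F} (hv : v ∈ N) {ψ0 : F → ZMod p} (hψ0 : IsChar N p ψ0)
    (hne : ψ0 v ≠ 0) {f' : F → ZMod p} (hf' : f' ∈ LC p N) :
    ∃ ψ : F → ZMod p, IsChar N p ψ ∧ ∀ g, ψ (g⁻¹ * v * g) = f' g := by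
  have := Fact.mk hp
  classical
  obtain ⟨H, hH, hHn, hNH, δ0, hδ0, hδψ⟩ := shapiro hN hψ0
  have hex : ∀ x, ∃ δ, IsDer H p δ ∧ ∀ y, δ (ι y) = if y = x then δ0 (ι x) else 0 :=
    fun x => DD.exists_of hp hF hH hHn x (hδ0.inv _)
  choose e he1 he2 using hex
  obtain ⟨S, hS⟩ : ∃ S : Finset X, ∀ x, x ∈ S ↔ δ0 (ι x) ≠ 0 :=
    ⟨(hδ0.supp hF).toFinset, fun x => by simp⟩
  have h1 : δ0 = ∑ x ∈ S, e x := by
    refine der_unique' hp hF hH hHn hδ0 (IsDer.sum _ _ fun x _ => he1 x) fun y => ?_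
    rw [Finset.sum_apply]
    simp only [he2]
    rw [Finset.sum_ite_eq]
    by_cases hy : δ0 (ι y) = 0
    · simp [hS, hy]
    · simp [hS, hy]
  have h2 : ψ0 v = ∑ x ∈ S, e x v 1 := by
    rw [← hδψ v hv, h1]
    rw [Finset.sum_apply, Finset.sum_apply]
  rw [h2] at hne
  obtain ⟨x, hx, hxne⟩ := Finset.exists_ne_zero_of_sum_ne_zero hne
  obtain ⟨τ, hτ⟩ := exists_tau hp hF hN x v
  have hDx : DD p ι N x (δ0 (ι x)) (e x) := ⟨H, hH, hHn, hNH, he1 x, fun y => by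
    rw [he2 x y]⟩
  have hLC : δ0 (ι x) ∈ LC p N := ⟨(hδ0.inv _).mono hNH, H, hH, hHn, hδ0.inv _⟩
  obtain ⟨f, hf, hff'⟩ := hgood.surj τ ⟨δ0 (ι x), hLC, by rw [hτ _ hLC _ hDx]; exact hxne⟩ hf'
  obtain ⟨δ, hδ⟩ := DD.exists hp hF hN x hf
  have hδ' := hδ
  obtain ⟨H', hH', hHn', hNH', h3, h4⟩ := hδ'
  refine ⟨fun n => δ n 1, h3.char hNH', fun g => ?_⟩
  change δ (g⁻¹ * v * g) 1 = f' g
  rw [h3.conj_val hN hNH' hv g, ← hff' g, hτ _ (LC_rho hN hf g) _ (hδ.rho g), one_mul]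

/-- lifting of the characters which kill the conjugates of `v` -/
theorem lift_D (hp : p.Prime) (hF : FreeProP p ι) {N : Subgroup F} (hN : N.Normal)
    (hgood : Good p N) {v : F} (hv : v ∈ N)
    (hcase : v = 1 ∨ ∃ ψ0 : F → ZMod p, IsChar N p ψ0 ∧ ψ0 v ≠ 0)
    {m : ℕ} {q q' : ℕ} (hq : q = p ^ m)
    (hq' : q' = p ^ (m + 1)) (hdvd : q ∣ q') {χ : F → ZMod q} (hχ : IsChar N q χ)
    (h0 : ∀ g, χ (g⁻¹ * v * g) = 0) :
    ∃ χ' : F → ZMod q', IsChar N q' χ' ∧ (∀ n ∈ N, ZMod.castHom hdvd (ZMod q) (χ' n) = χ n) ∧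
      ∀ g, χ' (g⁻¹ * v * g) = 0 := by
  obtain ⟨χ1, hχ1, hlift⟩ := char_lift hp hF hN hq hq' hdvd hχ
  rcases hcase with rfl | ⟨ψ0, hψ0, hne⟩
  · refine ⟨χ1, hχ1, hlift, fun g => ?_⟩
    have : g⁻¹ * 1 * g = 1 := by group
    rw [this, hχ1.one]
  subst hq hq'
  have hne1 : NeZero (p ^ m) := ⟨pow_ne_zero _ hp.ne_zero⟩
  have hne2 : NeZero (p ^ (m + 1)) := ⟨pow_ne_zero _ hp.ne_zero⟩
  let inc : ZMod p →+ ZMod (p ^ (m + 1)) :=
    ZMod.lift p ⟨zmultiplesHom _ ((p ^ m : ℕ) : ZMod (p ^ (m + 1))), by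
      have : ((p : ℤ) • ((p ^ m : ℕ) : ZMod (p ^ (m + 1)))) =
        ((p ^ (m + 1) : ℕ) : ZMod (p ^ (m + 1))) := by
        simp only [zsmul_eq_mul]
        push_cast
        ring
      rw [zmultiplesHom_apply, this]
      exact ZMod.natCast_self _⟩
  have hinc : ∀ t : ℕ, inc (t : ZMod p) = ((p ^ m * t : ℕ) : ZMod (p ^ (m + 1))) := by
    intro t
    have : ((t : ℕ) : ZMod p) = ((t : ℤ) : ZMod p) := by simp
    rw [this]
    simp only [inc, ZMod.lift_coe]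
    rw [zmultiplesHom_apply]
    simp only [zsmul_eq_mul]
    push_cast
    ring
  have hc : ∀ g, g⁻¹ * v * g ∈ N := fun g => by
    simpa using hN.conj_mem v hv g⁻¹
  let f' : F → ZMod p := fun g => (((χ1 (g⁻¹ * v * g)).val / p ^ m : ℕ) : ZMod p)
  have hf'1 : ∀ g, inc (f' g) = χ1 (g⁻¹ * v * g) := by
    intro g
    have h1 := hlift _ (hc g)
    rw [h0 g] at h1
    have h2 : (((χ1 (g⁻¹ * v * g)).val : ℕ) : ZMod (p ^ m)) = 0 := by
      rw [ZMod.castHom_apply, ZMod.cast_eq_val] at h1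
      exact h1
    rw [ZMod.natCast_eq_zero_iff] at h2
    rw [hinc, Nat.mul_div_cancel' h2]
    exact ZMod.natCast_zmod_val _
  have hf'2 : f' ∈ LC p N := by
    obtain ⟨i1, U, hU, hUn, i2⟩ := hχ1.fun_inv hN hv
    refine ⟨fun g n hn => ?_, U, hU, hUn, fun g n hn => ?_⟩
    · have := i1 g n hn
      simp only at this
      simp only [f', this]
    · have := i2 g n hn
      simp only at this
      simp only [f', this]
  obtain ⟨ψ, hψ, hψ2⟩ := surj_conj hp hF hN hgood hv hψ0 hne hf'2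
  refine ⟨fun n => χ1 n - inc (ψ n), hχ1.sub (hψ.map inc), fun n hn => ?_, fun g => ?_⟩
  · rw [map_sub, hlift n hn]
    have : ZMod.castHom hdvd (ZMod (p ^ m)) (inc (ψ n)) = 0 := by
      have hpne : NeZero p := ⟨hp.ne_zero⟩
      have e : ψ n = ((ψ n).val : ZMod p) := (ZMod.natCast_zmod_val _).symm
      rw [e, hinc, map_natCast, ZMod.natCast_eq_zero_iff]
      exact Dvd.intro _ rfl
    rw [this, sub_zero]
  · simp only [hψ2, hf'1, sub_self]

end Pool.Agent.Serre
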