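import Pool.Agent.Work.MP_0b5d1f_al.Taylor
import Pool.Agent.Work.MP_0b5d1f_al.Surj

set_option autoImplicit false
set_option linter.unusedSectionVars false
set_option linter.style.haveILetI false

namespace Pool.Agent.Serre

open Finset

variable {d : ℕ}
variable {F : Type} [Group F] [TopologicalSpace F] [IsTopologicalGroup F] [CompactSpace F]
variable {p e : ℕ} {N N' W : Subgroup F} {Fi : Fin d → F → ZMod (p ^ e)} {el : Fin d → F}
variable {Δ : (Fin d → ℕ) → ((F → ZMod p) →ₗ[ZMod p] (F → ZMod p))}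

/-- a functional of order `m` has a leading multi-index -/
theorem exists_lead (hp : p.Prime) (S : Sys p e N N' W Fi el) (hΔ : IsDelta p N' el Δ) (B : ℕ)
    {m : ℕ} (hm : m < p ^ e) (τ : (F → ZMod p) →ₗ[ZMod p] ZMod p)
    (hτ : ∀ f ∈ Fil p N N' m, τ f = 0) {f : F → ZMod p} (hf : f ∈ QQ p N N' Fi el (m + 1))
    (hne : τ f ≠ 0) :
    ∃ γ : Fin d → ℕ, deg γ = m ∧ (∃ c ∈ LC p N, τ (Psi p Fi γ * c) ≠ 0) ∧
      ∀ γ', deg γ' = m → wt B γ' < wt B γ → ∀ c ∈ LC p N, τ (Psi p Fi γ' * c) = 0 := by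
  classical
  let T : Finset (Fin d → ℕ) :=
    (simp' d m).filter (fun γ => ∃ c ∈ LC p N, τ (Psi p Fi γ * c) ≠ 0)
  have hT : T.Nonempty := by
    by_contra hcon
    rw [Finset.not_nonempty_iff_eq_empty] at hcon
    apply hne
    have h1 := hτ _ (taylor hp S hΔ m hm f hf)
    rw [map_sub, map_sum, sub_eq_zero] at h1
    rw [h1]
    refine Finset.sum_eq_zero fun δ hδ => ?_
    by_contra h2
    have h3 : δ ∈ T := by
      rw [Finset.mem_filter]
      refine ⟨hδ, Δ δ f, ?_, h2⟩
      rw [← Fil_one S.hN S.hle]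
      exact hΔ.lower S.mem m δ (mem_simp'.1 hδ) 1 f (QQ_le_Fil _ hf)
    rw [hcon] at h3
    exact absurd h3 (Finset.notMem_empty _)
  obtain ⟨γ, hγ, hmin⟩ := Finset.exists_min_image T (wt B) hT
  rw [Finset.mem_filter, mem_simp'] at hγ
  refine ⟨γ, hγ.1, hγ.2, fun γ' hγ' hlt c hc => ?_⟩
  by_contra h2
  have : γ' ∈ T := by
    rw [Finset.mem_filter, mem_simp']
    exact ⟨hγ', c, hc, h2⟩
  exact absurd (hmin γ' this) (not_le.2 hlt)

/-- value of a functional on `κ_β(h,·) c` -/
theorem tau_kap (hp : p.Prime) (S : Sys p e N N' W Fi el) (hΔ : IsDelta p N' el Δ) {B : ℕ}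
    (hB : 2 ≤ B) {m : ℕ} (hm : m < p ^ e) (hmB : m < B) (τ : (F → ZMod p) →ₗ[ZMod p] ZMod p)
    (hτ : ∀ f ∈ Fil p N N' m, τ f = 0) {β0 : Fin d → ℕ} (hβ0 : deg β0 = m)
    (hmin : ∀ γ', deg γ' = m → wt B γ' < wt B β0 → ∀ c ∈ LC p N, τ (Psi p Fi γ' * c) = 0)
    {β : Fin d → ℕ} (hβ : deg β = m) {c : F → ZMod p} (hc : c ∈ LC p N) (h : F) :
    (wt B β < wt B β0 → τ (kap p Fi β h * c) = 0) ∧
    (β = β0 → τ (kap p Fi β h * c) = τ (Psi p Fi β0 * c)) := by
  classical
  have hQ : kap p Fi β h ∈ QQ p N N' Fi el (m + 1) := kap_QQ hp S h m β hβ hm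
  have h1 := taylor hp S hΔ m hm _ hQ
  have h2 := hτ _ (Fil_mul S.hN S.hle h1 hc)
  rw [sub_mul, map_sub, sub_eq_zero, Finset.sum_mul, map_sum] at h2
  have hLC : ∀ δ ∈ simp' d m, Δ δ (kap p Fi β h) * c ∈ LC p N := by
    intro δ hδ
    refine LC_mul ?_ hc
    rw [← Fil_one S.hN S.hle]
    exact hΔ.lower S.mem m δ (mem_simp'.1 hδ) 1 _ (QQ_le_Fil _ hQ)
  constructor
  · intro hlt
    rw [h2]
    refine Finset.sum_eq_zero fun δ hδ => ?_
    rw [mul_assoc]
    rcases lt_or_ge (wt B δ) (wt B β0) with h3 | h3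
    · exact hmin δ (mem_simp'.1 hδ) h3 _ (hLC δ hδ)
    · rw [((Delta_kap hp S hΔ hB h) m hm β δ hβ (mem_simp'.1 hδ)).1 (by omega), zero_mul, mul_zero,
        map_zero]
  · rintro rfl
    rw [h2, Finset.sum_eq_single β]
    · rw [((Delta_kap hp S hΔ hB h) m hm β β hβ hβ).2 rfl, mul_one]
    · intro δ hδ hne
      rw [mul_assoc]
      rcases lt_trichotomy (wt B δ) (wt B β) with h3 | h3 | h3
      · exact hmin δ (mem_simp'.1 hδ) h3 _ (hLC δ hδ)
      · exfalso
        apply hne
        refine wt_inj B d δ β (fun i => ?_) (fun i => ?_) h3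
        · have := le_deg δ i
          rw [mem_simp'.1 hδ] at this
          omega
        · have := le_deg β i
          omega
      · rw [((Delta_kap hp S hΔ hB h) m hm β δ hβ (mem_simp'.1 hδ)).1 h3, zero_mul, mul_zero,
          map_zero]
    · intro hnot
      exact absurd (mem_simp'.2 hβ) hnot

/-- multiplication by a function, as a linear map -/
def mulL {p : ℕ} (c : F → ZMod p) : (F → ZMod p) →ₗ[ZMod p] (F → ZMod p) where
  toFun f := c * f
  map_add' f f' := by rw [mul_add]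
  map_smul' a f := by
    funext h
    simp only [Pi.mul_apply, Pi.smul_apply, smul_eq_mul, RingHom.id_apply]
    ring

/-- the main computation -/
theorem ext_core (hp : p.Prime) (S : Sys p e N N' W Fi el) (hgood : Good p N) {m m' : ℕ}
    (hmm : m + m' < p ^ e) (τ τ' : (F → ZMod p) →ₗ[ZMod p] ZMod p)
    (hτ : ∀ f ∈ Fil p N N' m, τ f = 0) (hτ' : ∀ f ∈ Fil p N N' m', τ' f = 0)
    {f1 : F → ZMod p} (hf1 : f1 ∈ QQ p N N' Fi el (m + 1)) (hne1 : τ f1 ≠ 0)
    {f2 : F → ZMod p} (hf2 : f2 ∈ QQ p N N' Fi el (m' + 1)) (hne2 : τ' f2 ≠ 0) :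
    ∃ f ∈ LC p N', τ' (fun g => τ (fun h => f (h * g))) ≠ 0 := by
  classical
  have := Fact.mk hp
  obtain ⟨Δ, hΔ0, hΔ1⟩ := exists_Delta (p := p) S.hN' S.comm S.mem
  have hΔ : IsDelta p N' el Δ := ⟨hΔ0, hΔ1⟩
  set B := m + m' + 2 with hB
  obtain ⟨γ0, hγ0, ⟨c1, hc1, hc1ne⟩, hγmin⟩ :=
    exists_lead hp S hΔ B (by omega) τ hτ hf1 hne1
  obtain ⟨β0, hβ0, ⟨c2, hc2, hc2ne⟩, hβmin⟩ :=
    exists_lead hp S hΔ B (by omega) τ' hτ' hf2 hne2
  -- apply goodness of `N`
  obtain ⟨c, hc, hcne⟩ := hgood (τ ∘ₗ mulL (Psi p Fi γ0)) (τ' ∘ₗ mulL (Psi p Fi β0))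
    ⟨c1, hc1, hc1ne⟩ ⟨c2, hc2, hc2ne⟩
  have hc' := hc
  obtain ⟨hcN, V, hV, hVn, hcV⟩ := hc'
  have hα : deg (β0 + γ0) < p ^ e := by rw [deg_add]; omega
  let α := β0 + γ0
  have hcLC : ∀ h : F, (fun g => c (h * g)) ∈ LC p N := fun h => LC_lam hc h
  let y : (Fin d → ℕ) → F → ZMod p := fun β h => τ' (kap p Fi β h * fun g => c (h * g))
  have hopen : IsOpen ((W ⊓ V : Subgroup F) : Set F) := S.hW.inter hV
  have hWn := S.hWn
  have hy : ∀ β, y β ∈ LC p N := by
    intro β
    refine ⟨fun h n hn => ?_, W ⊓ V, hopen, inferInstance, fun h n hn => ?_⟩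
    · simp only [y]
      congr 1
      funext g
      simp only [Pi.mul_apply]
      have e0 : kap p Fi β (h * n) g = kap p Fi β h g := kap_left S β g h n hn
      rw [e0]
      congr 1
      have e1 : h * n * g = h * g * (g⁻¹ * n * g) := by group
      rw [e1]
      exact hcN _ _ (by simpa using S.hN.conj_mem n hn g⁻¹)
    · simp only [y]
      congr 1
      funext g
      simp only [Pi.mul_apply]
      have e0 : kap p Fi β (h * n) g = kap p Fi β h g := kap_left_W S β g h n hn.1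
      rw [e0]
      congr 1
      have e1 : h * n * g = h * g * (g⁻¹ * n * g) := by group
      rw [e1]
      exact hcV _ _ (by simpa using hVn.conj_mem n hn.2 g⁻¹)
  refine ⟨Psi p Fi α * c, LC_mul (Psi_LC S α) (LC_anti p S.hle hc), ?_⟩
  -- exchange the functionals
  have hPsiW : RInv W (Psi p Fi α) := by
    have : Psi p Fi α = kap p Fi α 1 := funext fun g => (kap_one S α g).symm
    rw [this]
    exact kap_RInv_W S α 1
  have hfinv : RInv (W ⊓ V) (Psi p Fi α * c) := by
    intro g u hu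
    simp only [Pi.mul_apply, hPsiW g u hu.1, hcV g u hu.2]
  have hn2 : (W ⊓ V).Normal := inferInstance
  have hex := exch (U := W ⊓ V) hopen τ τ' (fun h g => (Psi p Fi α * c) (h * g))
    (fun g => hfinv.rho hn2 g) (fun h => hfinv.lam h)
  rw [hex]
  -- expand
  have hexp : (fun h => τ' (fun g => (Psi p Fi α * c) (h * g))) =
      ∑ γ ∈ box α, Psi p Fi γ * y (α - γ) := by
    funext h
    have e1 : (fun g => (Psi p Fi α * c) (h * g)) =
        ∑ γ ∈ box α, Psi p Fi γ h • (kap p Fi (α - γ) h * fun g => c (h * g)) := by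
      funext g
      rw [Pi.mul_apply, Psi_mul hp hα h g, Finset.sum_mul, Finset.sum_apply]
      refine Finset.sum_congr rfl fun γ _ => ?_
      simp only [Pi.smul_apply, Pi.mul_apply, smul_eq_mul]
      ring
    rw [e1, map_sum, Finset.sum_apply]
    refine Finset.sum_congr rfl fun γ _ => ?_
    rw [map_smul, smul_eq_mul, Pi.mul_apply]
  rw [hexp, map_sum, Finset.sum_eq_single γ0]
  · -- the main term
    have e1 : α - γ0 = β0 := by
      simp only [α]
      exact add_tsub_cancel_right β0 γ0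
    have e2 : y (α - γ0) = fun h => (τ' ∘ₗ mulL (Psi p Fi β0)) (fun g => c (h * g)) := by
      funext h
      simp only [y]
      rw [e1]
      exact (tau_kap hp S hΔ (by omega) (by omega) (by omega) τ' hτ' hβ0 hβmin hβ0 (hcLC h) h).2
        rfl
    have e3 : τ (Psi p Fi γ0 * y (α - γ0)) =
        (τ ∘ₗ mulL (Psi p Fi γ0)) (fun h => (τ' ∘ₗ mulL (Psi p Fi β0)) (fun g => c (h * g))) := by
      rw [e2]; rfl
    rw [e3]
    have hex2 := exch (U := V) hV (τ ∘ₗ mulL (Psi p Fi γ0)) (τ' ∘ₗ mulL (Psi p Fi β0))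
      (fun h g => c (h * g)) (fun g => hcV.rho hVn g) (fun h => hcV.lam h)
    rw [← hex2]
    exact hcne
  · intro γ hγ hne
    have hdeg := deg_box hγ
    have hdα : deg α = m' + m := by
      simp only [α]
      rw [deg_add, hβ0, hγ0]
    rcases lt_trichotomy (deg γ) m with h3 | h3 | h3
    · -- low degree of `γ`
      apply hτ
      refine Fil_mul S.hN S.hle ?_ (hy _)
      have : Psi p Fi γ = kap p Fi γ 1 := funext fun g => (kap_one S γ g).symm
      rw [this]
      exact Fil_mono (by omega) (kap_Fil hp S 1 (deg γ) γ rfl (by omega))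
    · have hdβ : deg (α - γ) = m' := by omega
      have hwt : wt B (α - γ) + wt B γ = wt B β0 + wt B γ0 := by
        rw [← wt_add, ← wt_add]
        congr 1
        funext i
        have := mem_box.1 hγ i
        simp only [Pi.add_apply, Pi.sub_apply, α] at this ⊢
        omega
      rcases lt_trichotomy (wt B γ) (wt B γ0) with h4 | h4 | h4
      · exact hγmin γ h3 h4 _ (hy _)
      · exfalso
        apply hne
        refine wt_inj B d γ γ0 (fun i => ?_) (fun i => ?_) h4
        · have := le_deg γ i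
          omega
        · have := le_deg γ0 i
          omega
      · have e2 : y (α - γ) = 0 := by
          funext h
          simp only [y]
          exact (tau_kap hp S hΔ (by omega) (by omega) (by omega) τ' hτ' hβ0 hβmin hdβ (hcLC h)
            h).1 (by omega)
        rw [e2, mul_zero, map_zero]
    · -- low degree of `α - γ`
      have e2 : y (α - γ) = 0 := by
        funext h
        simp only [y]
        apply hτ'
        refine Fil_mul S.hN S.hle ?_ (hcLC h)
        exact Fil_mono (by omega) (kap_Fil hp S h (deg (α - γ)) _ rfl (by omega))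
      rw [e2, mul_zero, map_zero]
  · intro hnot
    exfalso
    apply hnot
    rw [mem_box]
    intro i
    simp only [α, Pi.add_apply]
    omega

end Pool.Agent.Serre
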