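import Mathlib

set_option autoImplicit false
set_option linter.unusedSectionVars false
set_option linter.style.haveILetI false

namespace Pool.Agent.Serre

variable {p : ℕ} [Fact p.Prime] {V : Type} [AddCommGroup V] [Module (ZMod p) V] [Finite V]
  {G : Type} [Group G]

/-- a `p`-group acting on a finite nonzero `ZMod p`-module has a nonzero fixed vector -/
theorem exists_fixed (ρ : G →* Module.End (ZMod p) V)
    (hρ : ∀ g, ∃ n : ℕ, ρ g ^ (p ^ n) = 1) [Nontrivial V] :
    ∃ v : V, v ≠ 0 ∧ ∀ g, ρ g v = v := by
  letI : MulAction G V := MulAction.compHom V ρ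
  have hsm : ∀ (g : G) (v : V), g • v = ρ g v := fun g v => rfl
  have hP : IsPGroup p (MulAction.toPermHom G V).range := by
    rintro ⟨x, g, rfl⟩
    obtain ⟨n, hn⟩ := hρ g
    refine ⟨n, ?_⟩
    apply Subtype.ext
    rw [Subgroup.coe_pow, Subgroup.coe_one]
    change (MulAction.toPermHom G V g) ^ (p ^ n) = 1
    rw [← map_pow]
    ext v
    change g ^ (p ^ n) • v = v
    rw [hsm, map_pow, hn]
    rfl
  have hcard : p ∣ Nat.card V := by
    have : Module.Finite (ZMod p) V := Module.Finite.of_finite
    have h1 : Nat.card V = p ^ Module.finrank (ZMod p) V := by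
      have := Fintype.ofFinite V
      rw [Nat.card_eq_fintype_card, Module.card_eq_pow_finrank (K := ZMod p), ZMod.card]
    rw [h1]
    exact dvd_pow_self p (Module.finrank_pos).ne'
  have h0 : (0 : V) ∈ MulAction.fixedPoints (MulAction.toPermHom G V).range V := by
    rintro ⟨x, g, rfl⟩
    change g • (0 : V) = 0
    rw [hsm, map_zero]
  obtain ⟨b, hb, hne⟩ := hP.exists_fixed_point_of_prime_dvd_card_of_fixed_point V hcard h0
  refine ⟨b, hne.symm, fun g => ?_⟩
  exact hb ⟨MulAction.toPermHom G V g, g, rfl⟩

/-- relative version -/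
theorem exists_fixed_mod (ρ : G →* Module.End (ZMod p) V)
    (hρ : ∀ g, ∃ n : ℕ, ρ g ^ (p ^ n) = 1) (W : Submodule (ZMod p) V) (hW : W ≠ ⊤)
    (hs : ∀ g, ∀ w ∈ W, ρ g w ∈ W) : ∃ v, v ∉ W ∧ ∀ g, ρ g v - v ∈ W := by
  have hnt : Nontrivial (V ⧸ W) := Submodule.Quotient.nontrivial_iff.2 hW
  have hfin : Finite (V ⧸ W) := Quotient.finite _
  let θ : G →* Module.End (ZMod p) (V ⧸ W) :=
    { toFun := fun g => W.mapQ W (ρ g) (fun w hw => hs g w hw)
      map_one' := by
        apply LinearMap.ext
        intro x
        induction x using Submodule.Quotient.induction_on with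
        | _ v => simp
      map_mul' := fun g h => by
        apply LinearMap.ext
        intro x
        induction x using Submodule.Quotient.induction_on with
        | _ v => simp [Module.End.mul_apply] }
  have hθ : ∀ g v, θ g (Submodule.Quotient.mk v) = Submodule.Quotient.mk (ρ g v) :=
    fun g v => rfl
  have hθ2 : ∀ g, ∃ n : ℕ, θ g ^ (p ^ n) = 1 := by
    intro g
    obtain ⟨n, hn⟩ := hρ g
    refine ⟨n, ?_⟩
    rw [← map_pow]
    apply LinearMap.ext
    intro x
    induction x using Submodule.Quotient.induction_on with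
    | _ v =>
      rw [hθ, map_pow, hn]
      rfl
  obtain ⟨x, hx, hfix⟩ := exists_fixed θ hθ2
  induction x using Submodule.Quotient.induction_on with
  | _ v =>
    refine ⟨v, fun hv => hx ((Submodule.Quotient.mk_eq_zero W).2 hv), fun g => ?_⟩
    rw [← Submodule.Quotient.eq]
    exact hfix g

/-- a unipotent flag -/
theorem exists_flag (ρ : G →* Module.End (ZMod p) V)
    (hρ : ∀ g, ∃ n : ℕ, ρ g ^ (p ^ n) = 1) :
    ∃ (d : ℕ) (b : Fin d → V), LinearIndependent (ZMod p) b ∧
      Submodule.span (ZMod p) (Set.range b) = ⊤ ∧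
      ∀ i g, ρ g (b i) - b i ∈ Submodule.span (ZMod p) (b '' {j | j < i}) := by
  by_contra hcon
  have key : ∀ n : ℕ, ∃ b : Fin n → V, LinearIndependent (ZMod p) b ∧
      ∀ i g, ρ g (b i) - b i ∈ Submodule.span (ZMod p) (b '' {j | j < i}) := by
    intro n
    induction n with
    | zero => exact ⟨Fin.elim0, linearIndependent_empty_type, fun i => i.elim0⟩
    | succ n ih =>
      obtain ⟨b, hb1, hb2⟩ := ih
      have htop : Submodule.span (ZMod p) (Set.range b) ≠ ⊤ :=
        fun h => hcon ⟨n, b, hb1, h, hb2⟩
      have hst : ∀ g, ∀ w ∈ Submodule.span (ZMod p) (Set.range b),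
          ρ g w ∈ Submodule.span (ZMod p) (Set.range b) := by
        intro g w hw
        have hle : Submodule.span (ZMod p) (Set.range b) ≤
            (Submodule.span (ZMod p) (Set.range b)).comap (ρ g) := by
          rw [Submodule.span_le]
          rintro _ ⟨i, rfl⟩
          change ρ g (b i) ∈ Submodule.span (ZMod p) (Set.range b)
          have h1 := Submodule.span_mono (Set.image_subset_range b {j | j < i}) (hb2 i g)
          have h2 : b i ∈ Submodule.span (ZMod p) (Set.range b) :=
            Submodule.subset_span ⟨i, rfl⟩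
          have := Submodule.add_mem _ h1 h2
          simpa using this
        exact hle hw
      obtain ⟨v, hv, hv2⟩ := exists_fixed_mod ρ hρ _ htop hst
      refine ⟨Fin.snoc b v, ?_, ?_⟩
      · exact linearIndependent_finSnoc.2 ⟨hb1, hv⟩
      · intro i g
        refine Fin.lastCases ?_ (fun i => ?_) i
        · rw [Fin.snoc_last]
          refine Submodule.span_mono ?_ (hv2 g)
          rintro _ ⟨j, rfl⟩
          exact ⟨j.castSucc, Fin.castSucc_lt_last j, by rw [Fin.snoc_castSucc]⟩
        · rw [Fin.snoc_castSucc]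
          refine Submodule.span_mono ?_ (hb2 i g)
          rintro _ ⟨j, hj, rfl⟩
          refine ⟨j.castSucc, ?_, by rw [Fin.snoc_castSucc]⟩
          exact Fin.castSucc_lt_castSucc_iff.2 hj
  obtain ⟨b, hb, -⟩ := key (Module.finrank (ZMod p) V + 1)
  have : Module.Finite (ZMod p) V := Module.Finite.of_finite
  have := hb.fintype_card_le_finrank
  simp at this

end Pool.Agent.Serre
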