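import Pool.Agent.Work.MP_0b5d1f_al.Basic
import Pool.Agent.Work.MP_0b5d1f_al.Flag

set_option autoImplicit false
set_option linter.unusedSectionVars false
set_option linter.style.haveILetI false

namespace Pool.Agent.Serre

variable {F : Type} [Group F] [TopologicalSpace F] [IsTopologicalGroup F] [CompactSpace F]

/-- left difference -/
def DL (p : ℕ) (a : F) : (F → ZMod p) →ₗ[ZMod p] (F → ZMod p) where
  toFun f := fun h => f (a * h) - f h
  map_add' f f' := by
    funext h
    simp only [Pi.add_apply]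
    ring
  map_smul' c f := by
    funext h
    simp only [Pi.smul_apply, smul_sub, RingHom.id_apply]

theorem DL_apply (p : ℕ) (a : F) (f : F → ZMod p) (h : F) : DL p a f h = f (a * h) - f h := rfl

theorem DL_mul (p : ℕ) (x y : F) (f : F → ZMod p) :
    DL p (y * x) f = DL p x f + DL p y f + DL p x (DL p y f) := by
  funext h
  simp only [DL_apply, Pi.add_apply, mul_assoc]
  ring

theorem DL_LC {p : ℕ} {N : Subgroup F} (a : F) {f : F → ZMod p} (hf : f ∈ LC p N) :
    DL p a f ∈ LC p N := by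
  have : DL p a f = (fun h => f (a * h)) - f := rfl
  rw [this]
  exact Submodule.sub_mem _ (LC_lam hf a) hf

theorem DL_RInv {p : ℕ} {U : Subgroup F} (a : F) {f : F → ZMod p} (hf : RInv U f) :
    RInv U (DL p a f) := by
  intro h u hu
  simp only [DL_apply, ← mul_assoc, hf (a * h) u hu, hf h u hu]

/-- functions on `F / N'` of degree `< n` along `N / N'` -/
def Fil (p : ℕ) (N N' : Subgroup F) : ℕ → Submodule (ZMod p) (F → ZMod p)
  | 0 => ⊥
  | n + 1 => LC p N' ⊓ ⨅ a ∈ N, (Fil p N N' n).comap (DL p a)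

variable {p : ℕ} {N N' : Subgroup F}

theorem mem_Fil_zero {f : F → ZMod p} : f ∈ Fil p N N' 0 ↔ f = 0 := Submodule.mem_bot _

theorem mem_Fil_succ {n : ℕ} {f : F → ZMod p} :
    f ∈ Fil p N N' (n + 1) ↔ f ∈ LC p N' ∧ ∀ a ∈ N, DL p a f ∈ Fil p N N' n := by
  simp [Fil, Submodule.mem_inf, Submodule.mem_iInf]

theorem Fil_one (hN : N.Normal) (hNN : N' ≤ N) : Fil p N N' 1 = LC p N := by
  ext f
  rw [mem_Fil_succ]
  constructor
  · rintro ⟨⟨h1, U, hU, hUn, hfU⟩, h2⟩
    refine ⟨fun g n hn => ?_, U, hU, hUn, hfU⟩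
    have h3 := h2 (g * n * g⁻¹) (hN.conj_mem n hn g)
    rw [mem_Fil_zero] at h3
    have h4 := congrFun h3 g
    rw [DL_apply] at h4
    have e : g * n * g⁻¹ * g = g * n := by group
    rw [e] at h4
    exact sub_eq_zero.1 h4
  · intro hf
    refine ⟨LC_anti p hNN hf, fun a ha => ?_⟩
    rw [mem_Fil_zero]
    funext h
    rw [DL_apply, hf.1.left hN ha h, sub_self]
    rfl

theorem Fil_succ_le (n : ℕ) : Fil p N N' n ≤ Fil p N N' (n + 1) := by
  induction n with
  | zero =>
    intro f hf
    rw [mem_Fil_zero] at hf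
    subst hf
    exact Submodule.zero_mem _
  | succ n ih =>
    intro f hf
    rw [mem_Fil_succ] at hf ⊢
    exact ⟨hf.1, fun a ha => ih (hf.2 a ha)⟩

theorem Fil_mono : Monotone (Fil p N N') := monotone_nat_of_le_succ Fil_succ_le

theorem Fil_le_LC (n : ℕ) : Fil p N N' n ≤ LC p N' := by
  intro f hf
  cases n with
  | zero =>
    rw [mem_Fil_zero] at hf
    subst hf
    exact Submodule.zero_mem _
  | succ n => exact (mem_Fil_succ.1 hf).1

theorem Fil_mul (hN : N.Normal) (hNN : N' ≤ N) {n : ℕ} {f c : F → ZMod p}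
    (hf : f ∈ Fil p N N' n) (hc : c ∈ LC p N) : f * c ∈ Fil p N N' n := by
  induction n generalizing f with
  | zero =>
    rw [mem_Fil_zero] at hf ⊢
    rw [hf, zero_mul]
  | succ n ih =>
    rw [mem_Fil_succ] at hf ⊢
    refine ⟨LC_mul hf.1 (LC_anti p hNN hc), fun a ha => ?_⟩
    have e : DL p a (f * c) = DL p a f * c := by
      funext h
      simp only [DL_apply, Pi.mul_apply, hc.1.left hN ha h]
      ring
    rw [e]
    exact ih (hf.2 a ha)

/-- every locally constant function has finite degree -/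
theorem Fil_exhaust [Fact p.Prime] (hidx : ∀ U : Subgroup F, IsOpen (U : Set F) → U.Normal →
      ∃ n : ℕ, U.index = p ^ n)
    {f : F → ZMod p} (hf : f ∈ LC p N') : ∃ n, f ∈ Fil p N N' n := by
  classical
  have hf' := hf
  obtain ⟨-, U, hU, hUn, hfU⟩ := hf'
  -- the finite module of functions on `F / N' U`
  let V : Submodule (ZMod p) (F → ZMod p) :=
    { carrier := {f | f ∈ LC p N' ∧ RInv U f}
      add_mem' := by
        rintro a b ⟨ha1, ha2⟩ ⟨hb1, hb2⟩
        exact ⟨Submodule.add_mem _ ha1 hb1, fun g u hu => by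
          simp only [Pi.add_apply, ha2 g u hu, hb2 g u hu]⟩
      zero_mem' := ⟨Submodule.zero_mem _, fun _ _ _ => rfl⟩
      smul_mem' := by
        rintro c a ⟨ha1, ha2⟩
        exact ⟨Submodule.smul_mem _ c ha1, fun g u hu => by
          simp only [Pi.smul_apply, ha2 g u hu]⟩ }
  have hVmem : ∀ f, f ∈ V ↔ f ∈ LC p N' ∧ RInv U f := fun f => Iff.rfl
  have hfinQ : Finite (F ⧸ U) := Subgroup.quotient_finite_of_isOpen U hU
  have hfinV : Finite V := by
    refine Finite.of_injective (fun (f : V) (j : F ⧸ U) => f.1 j.out) ?_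
    intro f f' hff
    apply Subtype.ext
    funext h
    have := congrFun hff (h : F ⧸ U)
    simp only at this
    rwa [f.2.2.out h, f'.2.2.out h] at this
  -- the action
  have hlam : ∀ a : F, ∀ f ∈ V, (fun h => f (a⁻¹ * h)) ∈ V := fun a f hf =>
    ⟨LC_lam hf.1 a⁻¹, hf.2.lam a⁻¹⟩
  let ρ : N →* Module.End (ZMod p) V :=
    { toFun := fun a =>
        { toFun := fun f => ⟨fun h => f.1 ((a : F)⁻¹ * h), hlam a f.1 f.2⟩
          map_add' := fun f f' => rfl
          map_smul' := fun c f => rfl }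
      map_one' := by
        apply LinearMap.ext
        intro f
        apply Subtype.ext
        funext h
        change f.1 ((1 : F)⁻¹ * h) = f.1 h
        simp
      map_mul' := fun a b => by
        apply LinearMap.ext
        intro f
        apply Subtype.ext
        funext h
        change f.1 ((a * b : F)⁻¹ * h) = f.1 ((b : F)⁻¹ * ((a : F)⁻¹ * h))
        rw [mul_inv_rev, mul_assoc] }
  have hρa : ∀ (a : N) (f : V) (h : F), (ρ a f).1 h = f.1 ((a : F)⁻¹ * h) := fun _ _ _ => rfl
  have hρ : ∀ a : N, ∃ n : ℕ, ρ a ^ (p ^ n) = 1 := by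
    intro a
    obtain ⟨n, hn⟩ := hidx U hU hUn
    refine ⟨n, ?_⟩
    rw [← map_pow, ← hn]
    apply LinearMap.ext
    intro f
    apply Subtype.ext
    funext h
    rw [hρa]
    change _ = f.1 h
    refine f.2.2.left hUn ?_ h
    refine U.inv_mem ?_
    rw [Subgroup.coe_pow]
    exact U.pow_index_mem (a : F)
  -- the chain of intersections
  let A : ℕ → Submodule (ZMod p) V := fun n => (Fil p N N' n).comap V.subtype
  have hA : ∀ n (f : V), f ∈ A n ↔ f.1 ∈ Fil p N N' n := fun n f => Iff.rfl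
  by_contra hcon
  push Not at hcon
  have hproper : ∀ n, A n ≠ ⊤ := by
    intro n hn
    have : (⟨f, hf, hfU⟩ : V) ∈ A n := by rw [hn]; trivial
    exact hcon n this
  have hstep : ∀ n, A n < A (n + 1) := by
    intro n
    refine lt_of_le_of_ne (fun f hf => Fil_succ_le n hf) ?_
    intro heq
    obtain ⟨v, hv, hv2⟩ := exists_fixed_mod ρ hρ (A n) (hproper n) (by
      intro a w hw
      have h1 : w ∈ A (n + 1) := by rw [← heq]; exact hw
      rw [hA, mem_Fil_succ] at h1
      have h2 := h1.2 (a : F)⁻¹ (N.inv_mem a.2)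
      rw [hA] at hw ⊢
      have h3 : (ρ a w).1 = DL p (a : F)⁻¹ w.1 + w.1 := by
        funext h
        rw [hρa, Pi.add_apply, DL_apply]
        ring
      rw [h3]
      exact Submodule.add_mem _ h2 hw)
    apply hv
    rw [heq, hA, mem_Fil_succ]
    refine ⟨v.2.1, fun a ha => ?_⟩
    have h4 := hv2 ⟨a⁻¹, N.inv_mem ha⟩
    rw [hA] at h4
    have h5 : (ρ ⟨a⁻¹, N.inv_mem ha⟩ v - v).1 = DL p a v.1 := by
      funext h
      change (ρ ⟨a⁻¹, N.inv_mem ha⟩ v).1 h - v.1 h = _
      rw [hρa, DL_apply, inv_inv]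
    rw [h5] at h4
    exact h4
  have hinj : StrictMono A := strictMono_nat_of_lt_succ hstep
  have hfinS : Finite (Submodule (ZMod p) V) :=
    Finite.of_injective (fun S : Submodule (ZMod p) V => (S : Set V)) SetLike.coe_injective
  exact not_injective_infinite_finite A hinj.injective

end Pool.Agent.Serre
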