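import Pool.Agent.Work.MP_0b5d1f_al.TF
import Pool.Agent.Work.MP_0b5d1f_al.CGAGood

set_option autoImplicit false
set_option linter.unusedSectionVars false
set_option linter.style.haveILetI false

namespace Pool.Agent.Serre

variable {F : Type} [Group F] [TopologicalSpace F] [IsTopologicalGroup F] [CompactSpace F]
  [T2Space F] [TotallyDisconnectedSpace F]

theorem ncl_normal (v : F) : (ncl v).Normal := Subgroup.is_normal_topologicalClosure _

theorem ncl_closed (v : F) : IsClosed ((ncl v : Subgroup F) : Set F) :=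
  Subgroup.isClosed_topologicalClosure _

theorem mem_ncl (v : F) : v ∈ ncl v :=
  Subgroup.le_topologicalClosure _ (Subgroup.subset_normalClosure (Set.mem_singleton v))

theorem ncl_le {v : F} {N : Subgroup F} (hN : N.Normal) (hcl : IsClosed (N : Set F))
    (hv : v ∈ N) : ncl v ≤ N := by
  have := hN
  exact Subgroup.topologicalClosure_minimal _
    (Subgroup.normalClosure_le_normal (Set.singleton_subset_iff.2 hv)) hcl

variable {p : ℕ}

theorem nxt_kill {N : Subgroup F} {hN : N.Normal} {v x : F} (hx : x ∈ nxt p v hN)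
    {ψ : F → ZMod p} (hψ : IsChar N p ψ) (h0 : ∀ g, ψ (g⁻¹ * v * g) = 0) : ψ x = 0 := by
  have key : ∀ q : ℕ, q = p ^ 1 → ∀ ψ : F → ZMod q, IsChar N q ψ →
      (∀ g, ψ (g⁻¹ * v * g) = 0) → ψ x = 0 := by
    rintro q rfl ψ hψ h0
    exact hx.2 1 ψ hψ h0
  exact key p (pow_one p).symm ψ hψ h0

/-- if the next term is everything, then `N` is generated by `v` -/
theorem eq_ncl_of_nxt (hp : p.Prime)
    (hidx : ∀ U : Subgroup F, IsOpen (U : Set F) → U.Normal → ∃ n : ℕ, U.index = p ^ n)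
    {N : Subgroup F} (hN : N.Normal) (hcl : IsClosed (N : Set F)) {v : F} (hv : v ∈ N)
    (heq : nxt p v hN = N) : N = ncl v := by
  refine le_antisymm ?_ (ncl_le hN hcl hv)
  by_contra hnot
  obtain ⟨ψ, hψ, h1, a, ha, hne⟩ := sep_proper hp hidx (ncl_normal v) (ncl_closed v) hnot
  apply hne
  have hmem : a ∈ nxt p v hN := by rw [heq]; exact ha
  refine nxt_kill hmem hψ fun g => ?_
  refine h1 _ (by simpa using hN.conj_mem v hv g⁻¹) ?_
  simpa using (ncl_normal v).conj_mem v (mem_ncl v) g⁻¹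

/-- the main theorem -/
theorem main (hp : p.Prime) {X : Type} {ι : X → F} (hF : FreeProP p ι) (r : F) :
    (NoZeroDiv p (ncl r) ∧ TorsionFreeMod (ncl r)) ∨
    ∃ (v : F) (k : ℕ), 1 ≤ k ∧
      r ∈ ncl v ∧
      (v ^ (p ^ k))⁻¹ * r ∈ (⁅ncl v, ncl v⁆ : Subgroup F).topologicalClosure ∧
      NoZeroDiv p (ncl v) ∧ TorsionFreeMod (ncl v) ∧
      (∀ L : Subgroup F, PolyTF L → r ∈ L → v ∈ L) ∧
      ∀ i : ℕ, r ∈ cds F i → v ∈ cds F i := by
  have := Fact.mk hp
  let c : Set (Subgroup F) := {L | PolyTF L ∧ r ∈ L}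
  have hne : c.Nonempty := ⟨⊤, PolyTF.top, trivial⟩
  have hLgood : Good p (sInf c) := by
    refine good_sInf hne ?_ (fun L hL => hL.1.normal) (fun L hL => hL.1.closed)
      (fun L hL => hL.1.good hp hF.index)
    rintro L ⟨hL, hrL⟩ M ⟨hM, hrM⟩
    exact ⟨L ⊓ M, ⟨hL.inf hM, hrL, hrM⟩, inf_le_left, inf_le_right⟩
  have hLn : (sInf c).Normal := by
    constructor
    intro n hn g
    rw [Subgroup.mem_sInf] at hn ⊢
    intro L hL
    exact hL.1.normal.conj_mem n (hn L hL) g
  have hLcl : IsClosed ((sInf c : Subgroup F) : Set F) := by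
    rw [Subgroup.coe_sInf]
    exact isClosed_biInter fun L hL => hL.1.closed
  have hrL : r ∈ sInf c := by
    rw [Subgroup.mem_sInf]
    intro L hL
    exact hL.2
  obtain ⟨N, hNL, hN, hNcl, hgood, hrN, hmin⟩ := exists_min_good r hLn hLcl hLgood hrL
  have hlast : ∀ v ∈ N, (∀ L : Subgroup F, PolyTF L → r ∈ L → v ∈ L) ∧
      ∀ i : ℕ, r ∈ cds F i → v ∈ cds F i := by
    intro v hv
    have h1 : ∀ L : Subgroup F, PolyTF L → r ∈ L → v ∈ L := fun L hL hrL =>
      (sInf_le (show L ∈ c from ⟨hL, hrL⟩)) (hNL hv)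
    exact ⟨h1, fun i hi => h1 _ (polyTF_cds hp hF i) hi⟩
  have htf : TorsionFreeMod N := fun g n hn h => hgood.torsionFree hN hNcl g n hn h
  have hnzd : NoZeroDiv p N := hgood.noZeroDiv hp hN
  -- the key step
  have hstep : ∀ v ∈ N, (v = 1 ∨ ∃ ψ0 : F → ZMod p, IsChar N p ψ0 ∧ ψ0 v ≠ 0) →
      r ∈ nxt p v hN → N = ncl v := by
    intro v hv hcase hr
    have h1 := hmin (nxt p v hN) nxt_le (nxt_normal hN) (nxt_closed hNcl)
      (good_nxt hp hF hN hgood hv hcase) hr
    exact eq_ncl_of_nxt hp hF.index hN hNcl hv h1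
  by_cases hA : ∃ ψ0 : F → ZMod p, IsChar N p ψ0 ∧ ψ0 r ≠ 0
  · -- `r` is part of a minimal system of generators: `R` is good
    left
    have hNr : N = ncl r := by
      refine hstep r hrN (Or.inr hA) ⟨hrN, fun m χ _ h0 => ?_⟩
      have := h0 1
      simpa using this
    rw [← hNr]
    exact ⟨hnzd, htf⟩
  · push Not at hA
    by_cases hrD : r ∈ cder N
    · left
      have hN1 : N = ncl 1 := by
        refine hstep 1 (one_mem _) (Or.inl rfl) ⟨hrN, fun m χ hχ _ => ?_⟩
        exact hχ.kill_cder hNcl hrD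
      have hNr : N = ncl r := by
        refine le_antisymm ?_ (ncl_le hN hNcl hrN)
        rw [hN1]
        exact ncl_le (ncl_normal r) (ncl_closed r) (one_mem _)
      rw [← hNr]
      exact ⟨hnzd, htf⟩
    · right
      obtain ⟨v, hv, k, c', hc', hr, ψ, hψ, hψv⟩ := exists_root hp hF.index hN hNcl hrN hrD
      have hcN : c' ∈ N := cder_le hN hNcl hc'
      have hk : 1 ≤ k := by
        by_contra hk0
        have hk0' : k = 0 := by omega
        subst hk0'
        rw [pow_zero, pow_one] at hr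
        apply hψv
        have h1 := hA ψ hψ
        rw [hr, hψ.1 v hv c' hcN, hψ.kill_cder hNcl hc', add_zero] at h1
        exact h1
      have hNv : N = ncl v := by
        refine hstep v hv (Or.inr ⟨ψ, hψ, hψv⟩) ⟨hrN, fun m χ hχ h0 => ?_⟩
        have h1 : χ v = 0 := by simpa using h0 1
        rw [hr, hχ.1 _ (N.pow_mem hv _) c' hcN, hχ.kill_cder hNcl hc', hχ.pow hv, h1, mul_zero,
          add_zero]
      refine ⟨v, k, hk, ?_, ?_, ?_, ?_, hlast v hv⟩
      · rw [← hNv]; exact hrN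
      · rw [← hNv, hr]
        have e : (v ^ p ^ k)⁻¹ * (v ^ p ^ k * c') = c' := by group
        rw [e]
        exact hc'
      · rw [← hNv]; exact hnzd
      · rw [← hNv]; exact htf

end Pool.Agent.Serre
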