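import Pool.Agent.Work.MP_0b5d1f_al.Final

set_option autoImplicit false
set_option linter.unusedSectionVars false
set_option linter.style.haveILetI false

/-!
# Invariant characters
-/

namespace Pool.Agent.Serre

variable {F : Type} [Group F] [TopologicalSpace F] [IsTopologicalGroup F] [CompactSpace F]
  [T2Space F] [TotallyDisconnectedSpace F]

/-- invariance of a function on `N` under conjugation by `F` -/
def ConjInv (N : Subgroup F) {q : ℕ} (χ : F → ZMod q) : Prop := ∀ g, ∀ a ∈ N, χ (g⁻¹ * a * g) = χ a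

/-- the inclusion `Z/p → Z/p^(m+1)` -/
theorem exists_inc {p : ℕ} (hp : p.Prime) (m : ℕ) : ∃ inc : ZMod p →+ ZMod (p ^ (m + 1)),
    (∀ t : ℕ, inc (t : ZMod p) = ((p ^ m * t : ℕ) : ZMod (p ^ (m + 1)))) ∧
    Function.Injective inc ∧
    (∀ z : ZMod (p ^ (m + 1)), (p : ZMod (p ^ (m + 1))) * z = 0 → ∃ t, inc t = z) ∧
    ∀ t, (p : ZMod (p ^ (m + 1))) * inc t = 0 := by
  have hne2 : NeZero (p ^ (m + 1)) := ⟨pow_ne_zero _ hp.ne_zero⟩
  have hpne : NeZero p := ⟨hp.ne_zero⟩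
  let inc : ZMod p →+ ZMod (p ^ (m + 1)) :=
    ZMod.lift p ⟨zmultiplesHom _ ((p ^ m : ℕ) : ZMod (p ^ (m + 1))), by
      have : ((p : ℤ) • ((p ^ m : ℕ) : ZMod (p ^ (m + 1)))) =
        ((p ^ (m + 1) : ℕ) : ZMod (p ^ (m + 1))) := by
        simp only [zsmul_eq_mul]
        push_cast
        ring
      rw [zmultiplesHom_apply, this]
      exact ZMod.natCast_self _⟩
  have hinc : ∀ t : ℕ, inc (t : ZMod p) = ((p ^ m * t : ℕ) : ZMod (p ^ (m + 1))) := by
    intro t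
    have : ((t : ℕ) : ZMod p) = ((t : ℤ) : ZMod p) := by simp
    rw [this]
    simp only [inc, ZMod.lift_coe]
    rw [zmultiplesHom_apply]
    simp only [zsmul_eq_mul]
    push_cast
    ring
  refine ⟨inc, hinc, ?_, ?_, ?_⟩
  · rw [injective_iff_map_eq_zero]
    intro t ht
    have e : t = ((t.val : ℕ) : ZMod p) := (ZMod.natCast_zmod_val _).symm
    rw [e, hinc, ZMod.natCast_eq_zero_iff, pow_succ] at ht
    have h2 : p ∣ t.val := Nat.dvd_of_mul_dvd_mul_left (pow_pos hp.pos m) ht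
    rw [e, ZMod.natCast_eq_zero_iff]
    exact h2
  · intro z hz
    have e : z = ((z.val : ℕ) : ZMod (p ^ (m + 1))) := (ZMod.natCast_zmod_val _).symm
    rw [e, ← Nat.cast_mul, ZMod.natCast_eq_zero_iff] at hz
    have h2 : p ^ m ∣ z.val := by
      have h3 : p ^ m * p ∣ z.val * p := by
        rw [← pow_succ, mul_comm z.val p]
        exact hz
      exact Nat.dvd_of_mul_dvd_mul_right hp.pos h3
    refine ⟨((z.val / p ^ m : ℕ) : ZMod p), ?_⟩
    rw [hinc, Nat.mul_div_cancel' h2]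
    exact e.symm
  · intro t
    have e : t = ((t.val : ℕ) : ZMod p) := (ZMod.natCast_zmod_val _).symm
    rw [e, hinc, ← Nat.cast_mul, ZMod.natCast_eq_zero_iff]
    exact ⟨t.val, by ring⟩

/-- division of a character by `p^m` -/
theorem div_char {p : ℕ} {m : ℕ} {R : Subgroup F}
    {inc : ZMod p →+ ZMod (p ^ (m + 1))} (hinj : Function.Injective inc)
    (hsurj : ∀ z : ZMod (p ^ (m + 1)), (p : ZMod (p ^ (m + 1))) * z = 0 → ∃ t, inc t = z)
    {χ : F → ZMod (p ^ (m + 1))} (hχ : IsChar R (p ^ (m + 1)) χ)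
    (h0 : ∀ a ∈ R, (p : ZMod (p ^ (m + 1))) * χ a = 0) :
    ∃ f : F → ZMod p, IsChar R p f ∧ ∀ a ∈ R, inc (f a) = χ a := by
  classical
  let f : F → ZMod p := fun a => if h : a ∈ R then (hsurj (χ a) (h0 a h)).choose else 0
  have hf : ∀ a ∈ R, inc (f a) = χ a := by
    intro a ha
    simp only [f, dif_pos ha]
    exact (hsurj (χ a) (h0 a ha)).choose_spec
  refine ⟨f, ⟨fun a ha b hb => hinj ?_, ?_⟩, hf⟩
  · rw [map_add, hf a ha, hf b hb, hf _ (R.mul_mem ha hb), hχ.1 a ha b hb]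
  · obtain ⟨-, U, hU, hUn, h2⟩ := hχ
    refine ⟨U, hU, hUn, fun a ha haU => hinj ?_⟩
    rw [hf a ha, h2 a ha haU, map_zero]

/-- characters of `r^F` are determined by their values at the conjugates of `r` -/
theorem char_ext_ncl {q : ℕ} {r : F} {χ χ' : F → ZMod q} (h : IsChar (ncl r) q χ)
    (h' : IsChar (ncl r) q χ') (heq : ∀ g, χ (g⁻¹ * r * g) = χ' (g⁻¹ * r * g)) :
    ∀ x ∈ ncl r, χ x = χ' x := by
  have hd := h.sub h'
  have hle : ncl r ≤ kerC hd := by
    refine Subgroup.topologicalClosure_minimal _ ?_ (kerC_closed (ncl_closed r) hd)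
    rw [Subgroup.normalClosure, Subgroup.closure_le]
    intro y hy
    obtain ⟨s, hs, hsy⟩ := Group.mem_conjugatesOfSet_iff.1 hy
    rw [Set.mem_singleton_iff] at hs
    subst hs
    obtain ⟨c, hc⟩ := isConj_iff.1 hsy
    have e : y = c⁻¹⁻¹ * s * c⁻¹ := by rw [inv_inv, hc]
    rw [SetLike.mem_coe, mem_kerC, e]
    refine ⟨?_, ?_⟩
    · simpa using (ncl_normal s).conj_mem s (mem_ncl s) c
    · rw [heq c⁻¹, sub_self]
  intro x hx
  exact sub_eq_zero.1 (hle hx).2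

theorem ConjInv.sub_ext {q : ℕ} {r : F} {χ : F → ZMod q} (h : IsChar (ncl r) q χ)
    (hc : ConjInv (ncl r) χ) (h0 : χ r = 0) : ∀ x ∈ ncl r, χ x = 0 := by
  have hz : IsChar (ncl r) q (fun _ => (0 : ZMod q)) :=
    ⟨fun _ _ _ _ => by simp, ⊤, by simp, inferInstance, fun _ _ _ => rfl⟩
  exact char_ext_ncl h hz fun g => by rw [hc g r (mem_ncl r), h0]

theorem ncl_mono {x y : F} (h : y ∈ ncl x) : ncl y ≤ ncl x := ncl_le (ncl_normal x) (ncl_closed x) h

theorem IsChar.mono {N N' : Subgroup F} (hle : N' ≤ N) {q : ℕ} {χ : F → ZMod q}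
    (h : IsChar N q χ) : IsChar N' q χ := by
  obtain ⟨h1, U, hU, hUn, h2⟩ := h
  exact ⟨fun a ha b hb => h1 a (hle ha) b (hle hb), U, hU, hUn, fun a ha => h2 a (hle ha)⟩

theorem ConjInv.mono {N N' : Subgroup F} (hle : N' ≤ N) {q : ℕ} {χ : F → ZMod q}
    (h : ConjInv N χ) : ConjInv N' χ := fun g a ha => h g a (hle ha)

variable {p : ℕ}

/-- an invariant character which kills a given smaller normal subgroup -/
theorem exists_inv_char (hp : p.Prime)
    (hidx : ∀ U : Subgroup F, IsOpen (U : Set F) → U.Normal → ∃ n : ℕ, U.index = p ^ n)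
    {L M : Subgroup F} (hL : L.Normal) (hM : M.Normal) (hMcl : IsClosed (M : Set F))
    (hLM : ¬ L ≤ M) :
    ∃ f : F → ZMod p, IsChar L p f ∧ ConjInv L f ∧ (∀ a ∈ L, a ∈ M → f a = 0) ∧
      ∃ a ∈ L, f a ≠ 0 := by
  classical
  have := Fact.mk hp
  obtain ⟨ψ, hψ, hψM, a0, ha0, hne⟩ := sep_proper hp hidx hM hMcl hLM
  obtain ⟨h1, U, hU, hUn, h2⟩ := hψ
  have hLMn : (L ⊓ M).Normal := inferInstance
  let ψ' : F → ZMod p := fun a => if a ∈ L then ψ a else 0
  have hψ' : ∀ a ∈ L, ψ' a = ψ a := fun a ha => if_pos ha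
  have hmem : ψ' ∈ ChV p L (L ⊓ M) U := by
    refine ⟨fun a ha b hb => ?_, fun a ha => ?_, fun a ha haU => ?_, fun a ha => if_neg ha⟩
    · rw [hψ' a ha, hψ' b hb, hψ' _ (L.mul_mem ha hb), h1 a ha b hb]
    · rw [hψ' a ha.1, hψM a ha.1 ha.2]
    · rw [hψ' a ha, h2 a ha haU]
  have hfin : Finite (ChV p L (L ⊓ M) U) := ChV_finite hU
  have hnt : Nontrivial (ChV p L (L ⊓ M) U) := by
    refine ⟨⟨ψ', hmem⟩, 0, fun h => hne ?_⟩
    have h3 := congrFun (congrArg Subtype.val h) a0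
    simp only [hψ' a0 ha0] at h3
    exact h3
  let ρ : F →* Module.End (ZMod p) (ChV p L (L ⊓ M) U) :=
    { toFun := fun g =>
        { toFun := fun ξ => ⟨fun a => ξ.1 (g⁻¹ * a * g), ChV_conj hL hLMn hUn ξ.2 g⟩
          map_add' := fun ξ ξ' => rfl
          map_smul' := fun c ξ => rfl }
      map_one' := by
        apply LinearMap.ext
        intro ξ
        apply Subtype.ext
        funext a
        change ξ.1 (1⁻¹ * a * 1) = ξ.1 a
        rw [inv_one, one_mul, mul_one]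
      map_mul' := fun g h => by
        apply LinearMap.ext
        intro ξ
        apply Subtype.ext
        funext a
        change ξ.1 ((g * h)⁻¹ * a * (g * h)) = ξ.1 (h⁻¹ * (g⁻¹ * a * g) * h)
        group }
  have hρ : ∀ g, ∃ n : ℕ, ρ g ^ (p ^ n) = 1 := by
    intro g
    obtain ⟨n, hn⟩ := hidx U hU hUn
    refine ⟨n, ?_⟩
    rw [← map_pow]
    have hgU : g ^ (p ^ n) ∈ U := by rw [← hn]; exact U.pow_index_mem g
    apply LinearMap.ext
    intro ξ
    apply Subtype.ext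
    funext a
    change ξ.1 ((g ^ (p ^ n))⁻¹ * a * g ^ (p ^ n)) = ξ.1 a
    by_cases ha : a ∈ L
    · have hb : (g ^ (p ^ n))⁻¹ * a * g ^ (p ^ n) ∈ L := by
        simpa using hL.conj_mem a ha (g ^ (p ^ n))⁻¹
      refine ChV_inv ξ.2 ha hb ?_
      have e : a⁻¹ * ((g ^ (p ^ n))⁻¹ * a * g ^ (p ^ n)) =
        (a⁻¹ * (g ^ (p ^ n))⁻¹ * a) * g ^ (p ^ n) := by group
      rw [e]
      refine U.mul_mem ?_ hgU
      simpa using hUn.conj_mem _ (U.inv_mem hgU) a⁻¹
    · have hb : (g ^ (p ^ n))⁻¹ * a * g ^ (p ^ n) ∉ L := by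
        intro hb
        apply ha
        have := hL.conj_mem _ hb (g ^ (p ^ n))
        have e : g ^ (p ^ n) * ((g ^ (p ^ n))⁻¹ * a * g ^ (p ^ n)) * (g ^ (p ^ n))⁻¹ = a := by
          group
        rwa [e] at this
      rw [ξ.2.2.2.2 a ha, ξ.2.2.2.2 _ hb]
  obtain ⟨ξ, hξ0, hξ⟩ := exists_fixed ρ hρ
  refine ⟨ξ.1, ⟨ξ.2.1, U, hU, hUn, ξ.2.2.2.1⟩, fun g a _ => ?_, fun a ha haM => ξ.2.2.1 a ⟨ha, haM⟩,
    ?_⟩
  · have := congrFun (congrArg Subtype.val (hξ g)) a
    exact this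
  · by_contra hcon
    push Not at hcon
    apply hξ0
    apply Subtype.ext
    funext a
    by_cases ha : a ∈ L
    · exact hcon a ha
    · exact ξ.2.2.2.2 a ha

/-- a criterion for `y` to generate `r^F` -/
theorem ncl_eq_of_char (hp : p.Prime)
    (hidx : ∀ U : Subgroup F, IsOpen (U : Set F) → U.Normal → ∃ n : ℕ, U.index = p ^ n)
    {r y : F} (hy : y ∈ ncl r) {f : F → ZMod p} (hf : IsChar (ncl r) p f)
    (hc : ConjInv (ncl r) f) (hfy : f y ≠ 0) : ncl y = ncl r := by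
  have := Fact.mk hp
  refine le_antisymm (ncl_mono hy) ?_
  by_contra hnot
  obtain ⟨f', hf', hc', hM, a, ha, hne⟩ := exists_inv_char hp hidx (ncl_normal r) (ncl_normal y)
    (ncl_closed y) hnot
  have hfr : f r ≠ 0 := by
    intro h0
    exact hfy (ConjInv.sub_ext hf hc h0 y hy)
  have h1 : ∀ x ∈ ncl r, f' x = (f' r / f r) * f x := by
    have hs : IsChar (ncl r) p (fun x => (f' r / f r) * f x) :=
      hf.map (AddMonoidHom.mulLeft (f' r / f r))
    refine char_ext_ncl hf' hs fun g => ?_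
    rw [hc' g r (mem_ncl r), hc g r (mem_ncl r)]
    field_simp
  have h2 : f' r ≠ 0 := by
    intro h0
    apply hne
    rw [h1 a ha, h0]
    simp
  have h3 := h1 y hy
  rw [hM y hy (mem_ncl y)] at h3
  have h4 : f' r / f r ≠ 0 := div_ne_zero h2 hfr
  exact (mul_ne_zero h4 hfy) h3.symm

end Pool.Agent.Serre
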