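import Pool.Agent.Work.MP_0b5d1f_al.TorQuot

set_option autoImplicit false
set_option linter.unusedSectionVars false
set_option linter.style.haveILetI false

/-!
# The central extension `F / [R, F]` of a one-relator pro-`p` group
-/

namespace Pool.Agent.Serre

variable {F : Type} [Group F] [TopologicalSpace F] [IsTopologicalGroup F] [CompactSpace F]
  [T2Space F] [TotallyDisconnectedSpace F]

variable {p : ℕ} {X : Type} {ι : X → F}

/-- the closure of `[r^F, F]` -/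
abbrev cen (r : F) : Subgroup F := (⁅ncl r, (⊤ : Subgroup F)⁆ : Subgroup F).topologicalClosure

theorem cen_normal (r : F) : (cen r).Normal := by
  have := ncl_normal r
  exact Subgroup.is_normal_topologicalClosure _

theorem cen_closed (r : F) : IsClosed ((cen r : Subgroup F) : Set F) :=
  Subgroup.isClosed_topologicalClosure _

theorem cen_le (r : F) : cen r ≤ ncl r := by
  have := ncl_normal r
  exact Subgroup.topologicalClosure_minimal _ (Subgroup.commutator_le_left _ _) (ncl_closed r)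

theorem comm_mem_cen {r a : F} (ha : a ∈ ncl r) (g : F) : a * g * a⁻¹ * g⁻¹ ∈ cen r :=
  Subgroup.le_topologicalClosure _ (Subgroup.commutator_mem_commutator ha (Subgroup.mem_top g))

theorem cder_mono {A B : Subgroup F} (h : A ≤ B) : cder A ≤ cder B :=
  Subgroup.topologicalClosure_minimal _
    ((Subgroup.commutator_mono h h).trans (Subgroup.le_topologicalClosure _)) (cder_closed B)

theorem cder_ncl_le_cen (r : F) : cder (ncl r) ≤ cen r :=
  Subgroup.topologicalClosure_minimal _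
    ((Subgroup.commutator_mono le_rfl le_top).trans (Subgroup.le_topologicalClosure _))
    (cen_closed r)

/-- characters of `R` which kill `[R, F]` are invariant -/
theorem conjInv_of_kill {r : F} {q : ℕ} {χ : F → ZMod q} (h : IsChar (ncl r) q χ)
    (hk : ∀ a ∈ ncl r, a ∈ cen r → χ a = 0) : ConjInv (ncl r) χ := by
  intro g a ha
  have hga : g⁻¹ * a * g ∈ ncl r := by simpa using (ncl_normal r).conj_mem a ha g⁻¹
  have h3 : a⁻¹ * (g⁻¹ * a * g) ∈ cen r := by
    have h4 := comm_mem_cen ((ncl r).inv_mem ha) g⁻¹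
    simpa [mul_assoc] using h4
  have e : g⁻¹ * a * g = a * (a⁻¹ * (g⁻¹ * a * g)) := by group
  rw [e, h.1 a ha _ (cen_le r h3), hk _ (cen_le r h3) h3, add_zero]

/-- invariant characters kill `[R, F]` -/
theorem IsChar.kill_cen {r : F} {q : ℕ} {χ : F → ZMod q} (h : IsChar (ncl r) q χ)
    (hc : ConjInv (ncl r) χ) {x : F} (hx : x ∈ cen r) : χ x = 0 := by
  have hle : cen r ≤ kerC h := by
    refine Subgroup.topologicalClosure_minimal _ ?_ (kerC_closed (ncl_closed r) h)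
    rw [Subgroup.commutator_le]
    intro a ha g _
    rw [commutatorElement_def, mem_kerC]
    have hga : g * a⁻¹ * g⁻¹ ∈ ncl r := (ncl_normal r).conj_mem _ ((ncl r).inv_mem ha) g
    have e : a * g * a⁻¹ * g⁻¹ = a * (g * a⁻¹ * g⁻¹) := by group
    rw [e]
    refine ⟨(ncl r).mul_mem ha hga, ?_⟩
    have h1 := hc g⁻¹ a⁻¹ ((ncl r).inv_mem ha)
    rw [inv_inv] at h1
    rw [h.1 a ha _ hga, h1, h.inv ha, add_neg_cancel]
  exact (hle hx).2

/-- torsion-freeness of a pro-`p` quotient can be tested on `p`-th powers -/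
theorem tf_of_p (hp : p.Prime)
    (hidx : ∀ U : Subgroup F, IsOpen (U : Set F) → U.Normal → ∃ n : ℕ, U.index = p ^ n)
    {C : Subgroup F} (hC : C.Normal) (hcl : IsClosed (C : Set F))
    (h : ∀ x : F, x ^ p ∈ C → x ∈ C) : TorsionFreeMod C := by
  intro g n
  induction n using Nat.strong_induction_on with
  | _ n ih =>
    intro hn hgn
    by_cases hdvd : p ∣ n
    · obtain ⟨m, rfl⟩ := hdvd
      have hm : 0 < m := Nat.pos_of_mul_pos_left hn
      have hlt : m < p * m := by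
        have := hp.two_le
        nlinarith
      refine ih m hlt hm (h _ ?_)
      rwa [← pow_mul, mul_comm]
    · by_contra hg
      obtain ⟨U, hU, hUn, hav⟩ := exists_open_avoid_sup hcl {g} (by
        intro y hy
        rw [Finset.mem_singleton] at hy
        rw [hy]
        exact hg)
      have hKn : (C ⊔ U).Normal := inferInstance
      have hK : IsOpen ((C ⊔ U : Subgroup F) : Set F) := Subgroup.isOpen_mono le_sup_right hU
      obtain ⟨a, ha⟩ := hidx _ hK hKn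
      have h1 : g ^ (p ^ a) ∈ C ⊔ U := by rw [← ha]; exact (C ⊔ U).pow_index_mem g
      have h2 : g ^ n ∈ C ⊔ U := (le_sup_left : C ≤ C ⊔ U) hgn
      have hco : Nat.Coprime (p ^ a) n := Nat.Coprime.pow_left a ((Nat.Prime.coprime_iff_not_dvd hp).2 hdvd)
      apply hav g (Finset.mem_singleton_self g)
      have h3 : (g : F ⧸ (C ⊔ U)) ^ (p ^ a) = 1 := by
        rw [← QuotientGroup.mk_pow]
        exact (QuotientGroup.eq_one_iff _).2 h1
      have h4 : (g : F ⧸ (C ⊔ U)) ^ n = 1 := by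
        rw [← QuotientGroup.mk_pow]
        exact (QuotientGroup.eq_one_iff _).2 h2
      have h5 : (g : F ⧸ (C ⊔ U)) = 1 := by
        have := pow_gcd_eq_one.2 ⟨h3, h4⟩
        rwa [hco, pow_one] at this
      exact (QuotientGroup.eq_one_iff _).1 h5

/-- multiplication by `p^k` as an injection `Z/p^m → Z/p^(m+k)` -/
theorem exists_mulinc (hp : p.Prime) (m k : ℕ) : ∃ inc : ZMod (p ^ m) →+ ZMod (p ^ (m + k)),
    Function.Injective inc ∧ ∀ n : ℕ, inc (n : ZMod (p ^ m)) = (p : ZMod (p ^ (m + k))) ^ k * n := by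
  have h0 : (zmultiplesHom (ZMod (p ^ (m + k))) ((p : ZMod (p ^ (m + k))) ^ k)) ((p ^ m : ℕ) : ℤ) = 0 := by
    rw [zmultiplesHom_apply, zsmul_eq_mul]
    have : ((((p ^ m : ℕ) : ℤ) : ZMod (p ^ (m + k))) * (p : ZMod (p ^ (m + k))) ^ k) =
        ((p ^ (m + k) : ℕ) : ZMod (p ^ (m + k))) := by
      push_cast
      ring
    rw [this, ZMod.natCast_self]
  refine ⟨ZMod.lift (p ^ m) ⟨_, h0⟩, ?_, ?_⟩
  · rw [ZMod.lift_injective]
    intro z hz
    change (zmultiplesHom (ZMod (p ^ (m + k))) ((p : ZMod (p ^ (m + k))) ^ k)) z = 0 at hz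
    rw [zmultiplesHom_apply, zsmul_eq_mul] at hz
    have h1 : ((z * (p : ℤ) ^ k : ℤ) : ZMod (p ^ (m + k))) = 0 := by
      push_cast
      exact hz
    rw [ZMod.intCast_zmod_eq_zero_iff_dvd] at h1 ⊢
    push_cast at h1 ⊢
    rw [pow_add] at h1
    exact Int.dvd_of_mul_dvd_mul_right (pow_ne_zero k (by exact_mod_cast hp.ne_zero)) h1
  · intro n
    have h1 : ((n : ℕ) : ZMod (p ^ m)) = ((n : ℤ) : ZMod (p ^ m)) := by push_cast; rfl
    rw [h1, ZMod.lift_coe]
    change (zmultiplesHom (ZMod (p ^ (m + k))) ((p : ZMod (p ^ (m + k))) ^ k)) (n : ℤ) = _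
    rw [zmultiplesHom_apply, zsmul_eq_mul]
    push_cast
    ring


/-- the elements of `v^F` killed by all characters `θ : v^F → Z/p^m` with `θ (v^g) = 1` -/
def thetaKer (p : ℕ) (v : F) : Subgroup F where
  carrier := {x | x ∈ ncl v ∧ ∀ (m : ℕ) (θ : F → ZMod (p ^ m)), IsChar (ncl v) (p ^ m) θ →
    (∀ g, θ (g⁻¹ * v * g) = 1) → θ x = 0}
  one_mem' := ⟨one_mem _, fun m θ hθ _ => hθ.one⟩
  mul_mem' := fun {a b} ha hb => ⟨(ncl v).mul_mem ha.1 hb.1, fun m θ hθ h1 => by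
    rw [hθ.1 a ha.1 b hb.1, ha.2 m θ hθ h1, hb.2 m θ hθ h1, add_zero]⟩
  inv_mem' := fun {a} ha => ⟨(ncl v).inv_mem ha.1, fun m θ hθ h1 => by
    rw [hθ.inv ha.1, ha.2 m θ hθ h1, neg_zero]⟩

theorem mem_thetaKer {v x : F} : x ∈ thetaKer p v ↔ x ∈ ncl v ∧
    ∀ (m : ℕ) (θ : F → ZMod (p ^ m)), IsChar (ncl v) (p ^ m) θ →
      (∀ g, θ (g⁻¹ * v * g) = 1) → θ x = 0 := Iff.rfl

theorem thetaKer_normal (v : F) : (thetaKer p v).Normal := by
  constructor
  intro n hn g
  refine ⟨(ncl_normal v).conj_mem n hn.1 g, fun m θ hθ h1 => ?_⟩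
  have h2 := theta_inv hθ h1 g⁻¹ n hn.1
  rw [inv_inv] at h2
  rw [h2]
  exact hn.2 m θ hθ h1

theorem thetaKer_closed (v : F) : IsClosed ((thetaKer p v : Subgroup F) : Set F) := by
  refine isClosed_of_closure_subset fun x hx => ?_
  have hxv : x ∈ ncl v := (ncl_closed v).closure_subset_iff.2 (fun y hy => hy.1) hx
  refine ⟨hxv, fun m θ hθ h1 => ?_⟩
  have h2 : closure ((thetaKer p v : Subgroup F) : Set F) ⊆ ((kerC hθ : Subgroup F) : Set F) :=
    (kerC_closed (ncl_closed v) hθ).closure_subset_iff.2 fun y hy => ⟨hy.1, hy.2 m θ hθ h1⟩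
  exact (h2 hx).2

/-- `v^F / thetaKer` is torsion-free -/
theorem thetaKer_tf (hp : p.Prime) (hF : FreeProP p ι) {v : F} (hgood : Good p (ncl v))
    {ψ0 : F → ZMod p} (hψ0 : IsChar (ncl v) p ψ0) (hne : ψ0 v ≠ 0) {x : F} (hx : x ∈ ncl v)
    (hxp : x ^ p ∈ thetaKer p v) : x ∈ thetaKer p v := by
  refine ⟨hx, fun m θ hθ h1 => ?_⟩
  obtain ⟨θ', hθ', h1'⟩ := exists_theta hp hF hgood hψ0 hne (m + 1)
  have hdvd : p ^ m ∣ p ^ (m + 1) := pow_dvd_pow p (Nat.le_succ m)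
  obtain ⟨h2, h3⟩ := theta_red hθ' h1' hdvd
  have h4 := char_ext_ncl hθ h2 (fun g => by rw [h1, h3]) x hx
  rw [h4]
  have h5 := hxp.2 (m + 1) θ' hθ' h1'
  rw [hθ'.pow hx] at h5
  exact (mul_cast_zero hp hdvd _).1 h5

theorem cen_le_thetaKer {v r : F} (hr : r ∈ ncl v) : cen r ≤ thetaKer p v := by
  intro x hx
  have hle : ncl r ≤ ncl v := ncl_mono hr
  refine ⟨hle (cen_le r hx), fun m θ hθ h1 => ?_⟩
  exact (hθ.mono hle).kill_cen ((theta_inv hθ h1).mono hle) hx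

/-- `thetaKer ∩ R = [R, F]` -/
theorem thetaKer_inf (hp : p.Prime) (hF : FreeProP p ι) {v r : F} {k : ℕ}
    (hgood : Good p (ncl v)) {ψ0 : F → ZMod p} (hψ0 : IsChar (ncl v) p ψ0) (hne : ψ0 v ≠ 0)
    (hr : r ∈ ncl v) (hrc : (v ^ (p ^ k))⁻¹ * r ∈ cder (ncl v)) {x : F} (hx : x ∈ thetaKer p v)
    (hxr : x ∈ ncl r) : x ∈ cen r := by
  by_contra hcon
  obtain ⟨m, χ, hχ, hχC, hχx⟩ := sep_above hp hF.index (cen_normal r) (cen_closed r)
    (fun a ha b _ => comm_mem_cen ha b) hxr hcon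
  have hχi := conjInv_of_kill hχ hχC
  have hle : ncl r ≤ ncl v := ncl_mono hr
  obtain ⟨θ, hθ, h1⟩ := exists_theta hp hF hgood hψ0 hne (m + k)
  have hθi := theta_inv hθ h1
  have hθr : θ r = (p : ZMod (p ^ (m + k))) ^ k := theta_r hθ h1 hrc
  obtain ⟨inc, hinj, hinc⟩ := exists_mulinc hp m k
  have hne1 : NeZero (p ^ m) := ⟨pow_ne_zero _ hp.ne_zero⟩
  have h2 : ∀ a ∈ ncl r, inc (χ a) = (((χ r).val : ℕ) : ZMod (p ^ (m + k))) * θ a := by
    have hs : IsChar (ncl r) (p ^ (m + k))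
        (fun a => (((χ r).val : ℕ) : ZMod (p ^ (m + k))) * θ a) :=
      (hθ.mono hle).map (AddMonoidHom.mulLeft (((χ r).val : ℕ) : ZMod (p ^ (m + k))))
    refine char_ext_ncl (hχ.map inc) hs fun g => ?_
    have e1 : χ (g⁻¹ * r * g) = χ r := hχi g r (mem_ncl r)
    have e2 : θ (g⁻¹ * r * g) = θ r := hθi g r (hle (mem_ncl r))
    simp only [e1, e2]
    have e3 : χ r = ((χ r).val : ZMod (p ^ m)) := (ZMod.natCast_zmod_val _).symm
    conv_lhs => rw [e3]
    rw [hinc, hθr]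
    ring
  apply hχx
  apply hinj
  rw [h2 x hxr, hx.2 _ θ hθ h1, mul_zero, map_zero]

/-- the normal form of a relator `r ≠ 1` -/
theorem struct_ne_one (hp : p.Prime) (hF : FreeProP p ι) {r : F} (hr1 : r ≠ 1) :
    ∃ (v : F) (k : ℕ), Good p (ncl v) ∧ r ∈ ncl v ∧ (v ^ (p ^ k))⁻¹ * r ∈ cder (ncl v) ∧
      ∃ ψ0 : F → ZMod p, IsChar (ncl v) p ψ0 ∧ ψ0 v ≠ 0 := by
  obtain ⟨v, k, hgood, hr, hrc, hcase, -, -⟩ := min_struct hp hF r
  rcases hcase with rfl | h
  · exfalso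
    have h1 : ncl (1 : F) ≤ ⊥ := ncl_le inferInstance (by simp) (by simp)
    exact hr1 (by simpa using h1 hr)
  · exact ⟨v, k, hgood, hr, hrc, h⟩

/-- `R / [R, F]` is torsion-free -/
theorem center_tf (hp : p.Prime) (hF : FreeProP p ι) {r : F} (hr1 : r ≠ 1) {x : F}
    (hx : x ∈ ncl r) (hxp : x ^ p ∈ cen r) : x ∈ cen r := by
  obtain ⟨v, k, hgood, hr, hrc, ψ0, hψ0, hne⟩ := struct_ne_one hp hF hr1
  refine thetaKer_inf hp hF hgood hψ0 hne hr hrc ?_ hx
  exact thetaKer_tf hp hF hgood hψ0 hne (ncl_mono hr hx) (cen_le_thetaKer hr hxp)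

theorem not_ncl_le_cen (hp : p.Prime) (hF : FreeProP p ι) {r : F} (hr1 : r ≠ 1) :
    ¬ ncl r ≤ cen r := by
  intro h
  obtain ⟨f, hf, hfi, -, a, ha, hfa⟩ := exists_inv_char hp hF.index (ncl_normal r)
    (inferInstance : (⊥ : Subgroup F).Normal) (by simp) (by
      intro h1
      exact hr1 (by simpa using h1 (mem_ncl r)))
  exact hfa (hf.kill_cen hfi (h ha))

/-- elements of `R` which do not generate `R` are `p`-th powers modulo `[R, F]` -/
theorem root_mod_cen (hp : p.Prime)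
    (hidx : ∀ U : Subgroup F, IsOpen (U : Set F) → U.Normal → ∃ n : ℕ, U.index = p ^ n)
    {r w : F} (hw : w ∈ ncl r) (hbad : ncl w ≠ ncl r) : ∃ s ∈ ncl r, w * (s ^ p)⁻¹ ∈ cen r := by
  have := Fact.mk hp
  have hRn := ncl_normal r
  have hCn := cen_normal r
  -- `s ↦ s^p` is multiplicative modulo `[R, F]`
  have hcen : ∀ a ∈ ncl r, ∀ g : F, (a : F ⧸ cen r) * (g : F ⧸ cen r) = g * a := by
    intro a ha g
    rw [← QuotientGroup.mk_mul, ← QuotientGroup.mk_mul, QuotientGroup.eq]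
    have h1 := comm_mem_cen ((ncl r).inv_mem ha) g⁻¹
    have h2 := hCn.conj_mem _ (comm_mem_cen ((ncl r).inv_mem ha) g⁻¹) 1
    have h3 : (a * g)⁻¹ * (g * a) = g⁻¹ * (a⁻¹ * g * a * g⁻¹) * g := by group
    have h4 : a⁻¹ * g * a * g⁻¹ ∈ cen r := by
      have := comm_mem_cen ((ncl r).inv_mem ha) g
      simpa using this
    rw [h3]
    simpa using hCn.conj_mem _ h4 g⁻¹
  let M : Subgroup F :=
    { carrier := {y | ∃ s ∈ ncl r, (y : F ⧸ cen r) = (s : F ⧸ cen r) ^ p}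
      one_mem' := ⟨1, one_mem _, by simp⟩
      mul_mem' := by
        rintro a b ⟨s, hs, h1⟩ ⟨t, ht, h2⟩
        refine ⟨s * t, (ncl r).mul_mem hs ht, ?_⟩
        rw [QuotientGroup.mk_mul, QuotientGroup.mk_mul, h1, h2]
        exact ((show Commute (s : F ⧸ cen r) t from hcen s hs t).mul_pow p).symm
      inv_mem' := by
        rintro a ⟨s, hs, h1⟩
        refine ⟨s⁻¹, (ncl r).inv_mem hs, ?_⟩
        rw [QuotientGroup.mk_inv, QuotientGroup.mk_inv, h1, inv_pow] }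
  have hMmem : ∀ y, y ∈ M ↔ ∃ s ∈ ncl r, (y : F ⧸ cen r) = (s : F ⧸ cen r) ^ p := fun y => Iff.rfl
  have hMn : M.Normal := by
    constructor
    rintro y ⟨s, hs, h1⟩ g
    refine ⟨g * s * g⁻¹, hRn.conj_mem s hs g, ?_⟩
    simp only [QuotientGroup.mk_mul, QuotientGroup.mk_inv, h1, conj_pow]
  have hMcl : IsClosed (M : Set F) := by
    have e : (M : Set F) = (fun x : F × F => x.1 ^ p * x.2) '' ((ncl r : Set F) ×ˢ (cen r : Set F)) := by
      ext y
      constructor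
      · rintro ⟨s, hs, h1⟩
        refine ⟨(s, (s ^ p)⁻¹ * y), ⟨hs, ?_⟩, by simp⟩
        rw [SetLike.mem_coe, ← QuotientGroup.eq, QuotientGroup.mk_pow]
        exact h1.symm
      · rintro ⟨⟨s, c⟩, ⟨hs, hc⟩, rfl⟩
        refine ⟨s, hs, ?_⟩
        rw [QuotientGroup.mk_mul, (QuotientGroup.eq_one_iff c).2 hc, mul_one, QuotientGroup.mk_pow]
    rw [e]
    refine IsCompact.isClosed (IsCompact.image ((ncl_closed r).isCompact.prod
      (cen_closed r).isCompact) ?_)
    exact (continuous_fst.pow p).mul continuous_snd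
  by_contra hcon
  have hwM : w ∉ M := by
    rintro ⟨s, hs, h1⟩
    refine hcon ⟨s, hs, ?_⟩
    rw [← QuotientGroup.mk_pow, QuotientGroup.eq] at h1
    have h2 := hCn.conj_mem _ ((cen r).inv_mem h1) w
    have e : w * (w⁻¹ * s ^ p)⁻¹ * w⁻¹ = w * (s ^ p)⁻¹ := by group
    rwa [e] at h2
  have hCM : cen r ≤ M := by
    intro c hc
    refine ⟨1, one_mem _, ?_⟩
    rw [(QuotientGroup.eq_one_iff c).2 hc]
    simp
  obtain ⟨m, χ, hχ, hχM, hχw⟩ := sep_above hp hidx hMn hMcl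
    (fun a ha b _ => hCM (comm_mem_cen ha b)) hw hwM
  have hχi := conjInv_of_kill hχ fun a ha hac => hχM a ha (hCM hac)
  cases m with
  | zero =>
    apply hχw
    have hs : Subsingleton (ZMod (p ^ 0)) := by
      rw [pow_zero]; infer_instance
    exact Subsingleton.elim _ _
  | succ m =>
    obtain ⟨inc, hinc, hinj, hsurj, hinc0⟩ := exists_inc hp m
    obtain ⟨f, hf, hfe⟩ := div_char hinj hsurj hχ fun a ha => by
      rw [← hχ.pow ha]
      exact hχM _ ((ncl r).pow_mem ha p) ⟨a, ha, QuotientGroup.mk_pow _ _ _⟩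
    have hfi : ConjInv (ncl r) f := fun g a ha => hinj (by
      have hga : g⁻¹ * a * g ∈ ncl r := by simpa using hRn.conj_mem a ha g⁻¹
      rw [hfe a ha, hfe _ hga]
      exact hχi g a ha)
    refine hbad (ncl_eq_of_char hp hidx hw hf hfi fun h0 => hχw ?_)
    rw [← hfe w hw, h0, map_zero]

/-- a torsion element `x` with `(x^p)^F ≠ R` lifts to a torsion element of `F / [R, F]` -/
theorem torsion_lift (hp : p.Prime)
    (hidx : ∀ U : Subgroup F, IsOpen (U : Set F) → U.Normal → ∃ n : ℕ, U.index = p ^ n)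
    {r x : F} (hxp : x ^ p ∈ ncl r) (hbad : ncl (x ^ p) ≠ ncl r) :
    ∃ s ∈ ncl r, (x * s⁻¹) ^ p ∈ cen r := by
  have hCn := cen_normal r
  obtain ⟨s, hs, h1⟩ := root_mod_cen hp hidx hxp hbad
  refine ⟨s, hs, ?_⟩
  have hcomm : Commute (x : F ⧸ cen r) ((s : F ⧸ cen r)⁻¹) := by
    refine Commute.inv_right ?_
    show (x : F ⧸ cen r) * s = s * x
    rw [← QuotientGroup.mk_mul, ← QuotientGroup.mk_mul, QuotientGroup.eq]
    have h4 : s⁻¹ * x⁻¹ * s * x ∈ cen r := by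
      have := comm_mem_cen ((ncl r).inv_mem hs) x⁻¹
      simpa using this
    have e : (x * s)⁻¹ * (s * x) = s⁻¹ * x⁻¹ * s * x := by group
    rw [e]
    exact h4
  rw [← QuotientGroup.eq_one_iff, QuotientGroup.mk_pow, QuotientGroup.mk_mul, QuotientGroup.mk_inv,
    hcomm.mul_pow, inv_pow, ← QuotientGroup.mk_pow, ← QuotientGroup.mk_pow, ← QuotientGroup.mk_inv,
    ← QuotientGroup.mk_mul]
  exact (QuotientGroup.eq_one_iff _).2 h1

/-- torsion-freeness of `F / [R, F]` -/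
theorem tf_cen_iff (hp : p.Prime) (hF : FreeProP p ι) {r : F} (hr1 : r ≠ 1) :
    TorsionFreeMod (cen r) ↔ ∀ x : F, x ∉ ncl r → x ^ p ∈ ncl r → ncl (x ^ p) = ncl r := by
  constructor
  · intro htf x hx hxp
    by_contra hbad
    obtain ⟨s, hs, h1⟩ := torsion_lift hp hF.index hxp hbad
    have h2 := cen_le r (htf _ p hp.pos h1)
    apply hx
    have h3 := (ncl r).mul_mem h2 hs
    simpa using h3
  · intro h
    refine tf_of_p hp hF.index (cen_normal r) (cen_closed r) fun x hxp => ?_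
    by_cases hx : x ∈ ncl r
    · exact center_tf hp hF hr1 hx hxp
    · exfalso
      refine not_ncl_le_cen hp hF hr1 ?_
      rw [← h x hx (cen_le r hxp)]
      exact ncl_le (cen_normal r) (cen_closed r) hxp

/-! ### nice subgroups -/

/-- closed normal subgroups `L ≥ [R, F]` such that `x^p ∈ [L, L] [R, F]` implies `x ∈ L` -/
def Nice (p : ℕ) (r : F) (L : Subgroup F) : Prop :=
  L.Normal ∧ IsClosed (L : Set F) ∧ cen r ≤ L ∧ ∀ x : F, x ^ p ∈ cder L ⊔ cen r → x ∈ L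

theorem nice_top (r : F) : Nice p r ⊤ :=
  ⟨inferInstance, by simp, le_top, fun x _ => Subgroup.mem_top x⟩

theorem nice_sInf (r : F) : Nice p r (sInf {L | Nice p r L}) := by
  refine ⟨⟨fun n hn g => ?_⟩, ?_, le_sInf fun L hL => hL.2.2.1, fun x hx => ?_⟩
  · rw [Subgroup.mem_sInf] at hn ⊢
    exact fun L hL => hL.1.conj_mem n (hn L hL) g
  · rw [Subgroup.coe_sInf]
    exact isClosed_biInter fun L hL => hL.2.1
  · rw [Subgroup.mem_sInf]
    intro L hL
    refine hL.2.2.2 x ?_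
    exact sup_le_sup_right (cder_mono (sInf_le hL)) (cen r) hx

theorem nice_step {r : F} {L L' : Subgroup F} (hL : Nice p r L) (hn : L'.Normal)
    (hcl : IsClosed (L' : Set F)) (hC : cen r ≤ L') (hle : L' ≤ L)
    (h : ∀ x ∈ L, x ^ p ∈ cder L' ⊔ cen r → x ∈ L') : Nice p r L' :=
  ⟨hn, hcl, hC, fun x hx =>
    h x (hL.2.2.2 x (sup_le_sup_right (cder_mono hle) (cen r) hx)) hx⟩

theorem nice_tf {r : F} {L L' : Subgroup F} (hL : Nice p r L) (hn : L'.Normal)
    (hcl : IsClosed (L' : Set F)) (hC : cen r ≤ L') (hle : L' ≤ L)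
    (h : ∀ x ∈ L, x ^ p ∈ L' → x ∈ L') : Nice p r L' :=
  nice_step hL hn hcl hC hle fun x hx hxp => h x hx (sup_le (cder_le hn hcl) hC hxp)

/-- the elements of `L` whose `p`-th power lies in `[L, L] [R, F]` -/
def powSub (p : ℕ) (r : F) (L : Subgroup F) (hL : L.Normal) : Subgroup F where
  carrier := {x | x ∈ L ∧ x ^ p ∈ cder L ⊔ cen r}
  one_mem' := ⟨one_mem _, by rw [one_pow]; exact one_mem _⟩
  mul_mem' := by
    rintro a b ⟨ha, ha'⟩ ⟨hb, hb'⟩
    have h1 := cder_normal hL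
    have h2 := cen_normal r
    have hD : (cder L ⊔ cen r).Normal := inferInstance
    refine ⟨L.mul_mem ha hb, ?_⟩
    have hcomm : Commute (a : F ⧸ (cder L ⊔ cen r)) b := by
      show (a : F ⧸ (cder L ⊔ cen r)) * b = b * a
      rw [← QuotientGroup.mk_mul, ← QuotientGroup.mk_mul, QuotientGroup.eq]
      have h3 := (le_sup_left : cder L ≤ cder L ⊔ cen r)
        (comm_mem_cder (L.inv_mem hb) (L.inv_mem ha))
      have e : (a * b)⁻¹ * (b * a) = b⁻¹ * a⁻¹ * b⁻¹⁻¹ * a⁻¹⁻¹ := by group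
      rw [e]
      exact h3
    rw [← QuotientGroup.eq_one_iff, QuotientGroup.mk_pow, QuotientGroup.mk_mul, hcomm.mul_pow,
      ← QuotientGroup.mk_pow, ← QuotientGroup.mk_pow, (QuotientGroup.eq_one_iff _).2 ha',
      (QuotientGroup.eq_one_iff _).2 hb', mul_one]
  inv_mem' := by
    rintro a ⟨ha, ha'⟩
    refine ⟨L.inv_mem ha, ?_⟩
    rw [inv_pow]
    exact inv_mem ha'

theorem powSub_nice {r : F} {L : Subgroup F} (hL : Nice p r L) : Nice p r (powSub p r L hL.1) := by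
  have h1 := cder_normal hL.1
  have h2 := cen_normal r
  have hD : (cder L ⊔ cen r).Normal := inferInstance
  have hDcl : IsClosed ((cder L ⊔ cen r : Subgroup F) : Set F) :=
    isClosed_sup h1 (cder_closed L) (cen_closed r)
  refine nice_step hL ⟨?_⟩ ?_ ?_ (fun x hx => hx.1) fun x hx hxp => ⟨hx, ?_⟩
  · rintro n ⟨hn, hn'⟩ g
    refine ⟨hL.1.conj_mem n hn g, ?_⟩
    rw [conj_pow]
    exact hD.conj_mem _ hn' g
  · exact hL.2.1.inter (hDcl.preimage (continuous_pow p))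
  · intro x hx
    exact ⟨hL.2.2.1 hx, (le_sup_right : cen r ≤ cder L ⊔ cen r) ((cen r).pow_mem hx p)⟩
  · have hle : powSub p r L hL.1 ≤ L := fun y hy => hy.1
    exact sup_le_sup_right (cder_mono hle) (cen r) hxp

/-- the least nice subgroup -/
theorem nice_main (hp : p.Prime) (hF : FreeProP p ι) {r : F} (hr1 : r ≠ 1) :
    ∃ L : Subgroup F, L.Normal ∧ IsClosed (L : Set F) ∧ cen r ≤ L ∧ L ⊓ ncl r = cen r ∧
      (∀ x : F, x ^ p ∈ cen r → x ∈ L) ∧
      (∀ x : F, x ^ p ∈ ncl r → ncl (x ^ p) ≠ ncl r → x ∈ L ⊔ ncl r) ∧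
      (∀ x ∈ L, x ^ p ∈ cder L ⊔ cen r) ∧
      (∀ L' : Subgroup F, L'.Normal → IsClosed (L' : Set F) → cen r ≤ L' → L' ≤ L →
        (∀ x ∈ L, x ^ p ∈ L' → x ∈ L') → L' = L) ∧
      (L = cen r ↔ TorsionFreeMod (cen r)) := by
  have := Fact.mk hp
  set L := sInf {L : Subgroup F | Nice p r L} with hLdef
  have hL : Nice p r L := nice_sInf r
  have hmin : ∀ M : Subgroup F, Nice p r M → L ≤ M := fun M hM => sInf_le hM
  have hCn := cen_normal r
  have htor : ∀ x : F, x ^ p ∈ cen r → x ∈ L := fun x hx =>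
    hL.2.2.2 x ((le_sup_right : cen r ≤ cder L ⊔ cen r) hx)
  refine ⟨L, hL.1, hL.2.1, hL.2.2.1, ?_, htor, fun x hxp hbad => ?_, fun x hx => ?_,
    fun L' hn hcl hC hle h => ?_, ⟨fun h => ?_, fun h => ?_⟩⟩
  · obtain ⟨v, k, hgood, hr, hrc, ψ0, hψ0, hne⟩ := struct_ne_one hp hF hr1
    have hle : ncl r ≤ ncl v := ncl_mono hr
    have h1 : Nice p r (ncl v) := nice_tf (nice_top r) (ncl_normal v) (ncl_closed v)
      ((cen_le r).trans hle) le_top fun x _ hx =>
        hgood.torsionFree (ncl_normal v) (ncl_closed v) x p hp.pos hx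
    have h2 : Nice p r (thetaKer p v) := nice_tf h1 (thetaKer_normal v) (thetaKer_closed v)
      (cen_le_thetaKer hr) (fun x hx => hx.1) fun x hx hxp =>
        thetaKer_tf hp hF hgood hψ0 hne hx hxp
    refine le_antisymm (fun x hx => ?_) (le_inf hL.2.2.1 (cen_le r))
    exact thetaKer_inf hp hF hgood hψ0 hne hr hrc (hmin _ h2 hx.1) hx.2
  · obtain ⟨s, hs, h1⟩ := torsion_lift hp hF.index hxp hbad
    have h2 := (le_sup_left : L ≤ L ⊔ ncl r) (htor _ h1)
    have h3 := (le_sup_right : ncl r ≤ L ⊔ ncl r) hs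
    have h4 := (L ⊔ ncl r).mul_mem h2 h3
    simpa using h4
  · exact (hmin _ (powSub_nice hL) hx).2
  · exact le_antisymm hle (hmin _ (nice_tf hL hn hcl hC hle h))
  · refine tf_of_p hp hF.index hCn (cen_closed r) fun x hx => ?_
    rw [← h]
    exact htor x hx
  · refine le_antisymm (hmin _ ?_) hL.2.2.1
    exact nice_tf (nice_top r) hCn (cen_closed r) le_rfl le_top fun x _ hx => h x p hp.pos hx

end Pool.Agent.Serre
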