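import Pool.Agent.Work.MP_0b5d1f_al.Der

set_option autoImplicit false
set_option linter.unusedSectionVars false
set_option linter.style.haveILetI false

namespace Pool.Agent.Serre

variable {F : Type} [Group F] [TopologicalSpace F] [IsTopologicalGroup F] [CompactSpace F]

/-- extension of a homomorphism `N → B` to an `N`-equivariant function on `F` -/
theorem ext_fun {B : Type} [AddCommGroup B] {N U : Subgroup F} (hN : N.Normal) (hU : U.Normal)
    (χ : F → B) (h1 : ∀ a ∈ N, ∀ b ∈ N, χ (a * b) = χ a + χ b)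
    (h2 : ∀ a ∈ N, a ∈ U → χ a = 0) :
    ∃ G : F → B, (∀ a ∈ N, ∀ h, G (a * h) = χ a + G h) ∧ RInv U G ∧ G 1 = 0 := by
  let s : F → F := fun h => (h : F ⧸ (N ⊔ U)).out
  have hs : ∀ h, ∃ a ∈ N, (s h)⁻¹ * a⁻¹ * h ∈ U := by
    intro h
    have h3 : (s h)⁻¹ * h ∈ N ⊔ U := by
      rw [← QuotientGroup.eq]
      simp [s]
    obtain ⟨n, hn, u, hu, h4⟩ := Subgroup.mem_sup_of_normal_right.1 h3
    refine ⟨s h * n * (s h)⁻¹, hN.conj_mem n hn _, ?_⟩
    have : (s h)⁻¹ * (s h * n * (s h)⁻¹)⁻¹ * h = n⁻¹ * ((s h)⁻¹ * h) := by group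
    rw [this, ← h4]
    simpa using hu
  choose A hA1 hA2 using hs
  have key : ∀ h x, x ∈ N → (s h)⁻¹ * x⁻¹ * h ∈ U → χ x = χ (A h) := by
    intro h x hx hxU
    have h3 : (s h)⁻¹ * ((A h)⁻¹ * x) * s h ∈ U := by
      have := U.mul_mem (hA2 h) (U.inv_mem hxU)
      have e : (s h)⁻¹ * (A h)⁻¹ * h * ((s h)⁻¹ * x⁻¹ * h)⁻¹ =
        (s h)⁻¹ * ((A h)⁻¹ * x) * s h := by group
      rwa [e] at this
    have h4 : (A h)⁻¹ * x ∈ U := by
      have := hU.conj_mem _ h3 (s h)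
      have e : s h * ((s h)⁻¹ * ((A h)⁻¹ * x) * s h) * (s h)⁻¹ = (A h)⁻¹ * x := by group
      rwa [e] at this
    have h5 : (A h)⁻¹ * x ∈ N := N.mul_mem (N.inv_mem (hA1 h)) hx
    have h6 : x = A h * ((A h)⁻¹ * x) := by group
    rw [h6, h1 _ (hA1 h) _ h5, h2 _ h5 h4, add_zero]
  have hsN : ∀ a ∈ N, ∀ h, s (a * h) = s h := by
    intro a ha h
    have : ((a * h : F) : F ⧸ (N ⊔ U)) = (h : F ⧸ (N ⊔ U)) := by
      rw [QuotientGroup.eq]
      have e : (a * h)⁻¹ * h = h⁻¹ * a⁻¹ * h := by group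
      rw [e]
      have := hN.conj_mem _ (N.inv_mem ha) h⁻¹
      rw [inv_inv] at this
      exact (le_sup_left : N ≤ N ⊔ U) this
    simp only [s, this]
  have hsU : ∀ u ∈ U, ∀ h, s (h * u) = s h := by
    intro u hu h
    have : ((h * u : F) : F ⧸ (N ⊔ U)) = (h : F ⧸ (N ⊔ U)) := by
      rw [QuotientGroup.eq]
      have e : (h * u)⁻¹ * h = u⁻¹ := by group
      rw [e]
      exact (le_sup_right : U ≤ N ⊔ U) (U.inv_mem hu)
    simp only [s, this]
  have g1 : ∀ a ∈ N, ∀ h, χ (A (a * h)) = χ a + χ (A h) := by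
    intro a ha h
    rw [← h1 a ha _ (hA1 h)]
    symm
    refine key (a * h) (a * A h) (N.mul_mem ha (hA1 h)) ?_
    rw [hsN a ha h]
    have e : (s h)⁻¹ * (a * A h)⁻¹ * (a * h) = (s h)⁻¹ * (A h)⁻¹ * h := by group
    rw [e]
    exact hA2 h
  have g2 : ∀ h, ∀ u ∈ U, χ (A (h * u)) = χ (A h) := by
    intro h u hu
    refine key h (A (h * u)) (hA1 _) ?_
    have h3 := hA2 (h * u)
    rw [hsU u hu h] at h3
    have := U.mul_mem h3 (U.inv_mem hu)
    have e : (s h)⁻¹ * (A (h * u))⁻¹ * (h * u) * u⁻¹ = (s h)⁻¹ * (A (h * u))⁻¹ * h := by group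
    rwa [e] at this
  refine ⟨fun h => χ (A h) - χ (A 1), ?_, ?_, ?_⟩
  · intro a ha h
    simp only [g1 a ha h]
    abel
  · intro h u hu
    simp only [g2 h u hu]
  · simp

/-- Shapiro's lemma: a character of `N` comes from a derivation with values in the functions on
`F / (N U)` -/
theorem shapiro {N : Subgroup F} (hN : N.Normal) {q : ℕ} {χ : F → ZMod q}
    (hχ : IsChar N q χ) :
    ∃ H : Subgroup F, IsOpen (H : Set F) ∧ H.Normal ∧ N ≤ H ∧
      ∃ δ : F → F → ZMod q, IsDer H q δ ∧ ∀ n ∈ N, δ n 1 = χ n := by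
  obtain ⟨h1, U, hU, hUn, h2⟩ := hχ
  obtain ⟨G, hG1, hG2, hG3⟩ := ext_fun hN hUn χ h1 h2
  refine ⟨N ⊔ U, Subgroup.isOpen_mono le_sup_right hU, inferInstance, le_sup_left,
    fun g x => G (x⁻¹ * g) - G x⁻¹, ⟨?_, ?_, ?_⟩, ?_⟩
  · intro g h x
    have e1 : x⁻¹ * (g * h) = (g⁻¹ * x)⁻¹ * h := by group
    have e2 : (g⁻¹ * x)⁻¹ = x⁻¹ * g := by group
    rw [e1, e2]
    ring
  · intro g
    refine RInv.sup hUn ?_ ?_
    · intro x n hn
      have e1 : (x * n)⁻¹ * g = n⁻¹ * (x⁻¹ * g) := by group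
      have e2 : (x * n)⁻¹ = n⁻¹ * x⁻¹ := by group
      change G ((x * n)⁻¹ * g) - G (x * n)⁻¹ = G (x⁻¹ * g) - G x⁻¹
      rw [e1, e2, hG1 _ (N.inv_mem hn), hG1 _ (N.inv_mem hn)]
      ring
    · intro x u hu
      have e1 : (x * u)⁻¹ * g = u⁻¹ * (x⁻¹ * g) := by group
      have e2 : (x * u)⁻¹ = u⁻¹ * x⁻¹ := by group
      change G ((x * u)⁻¹ * g) - G (x * u)⁻¹ = G (x⁻¹ * g) - G x⁻¹
      rw [e1, e2, RInv.left hUn hG2 (U.inv_mem hu), RInv.left hUn hG2 (U.inv_mem hu)]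
  · refine ⟨U, hU, hUn, fun w hw x => ?_⟩
    simp only [hG2 _ w hw, sub_self]
  · intro n hn
    have e : (1 : F)⁻¹ * n = n * 1 := by group
    simp only [e, hG1 n hn]
    simp [hG3]

/-- from a derivation back to a character -/
theorem IsDer.char {N H : Subgroup F} (hNH : N ≤ H) {q : ℕ} {δ : F → F → ZMod q}
    (hδ : IsDer H q δ) : IsChar N q (fun n => δ n 1) := by
  obtain ⟨W, hW, hWn, hW0⟩ := hδ.cont
  refine ⟨fun a ha b _ => ?_, W, hW, hWn, fun a _ ha => hW0 a ha 1⟩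
  simp only [hδ.mul a b]
  congr 1
  have := hδ.inv b 1 a⁻¹ (H.inv_mem (hNH ha))
  rw [one_mul] at this
  rw [mul_one, this]

/-- reduction of a derivation -/
theorem IsDer.map {H : Subgroup F} {q q' : ℕ} {δ : F → F → ZMod q}
    (hδ : IsDer H q δ) (θ : ZMod q →+ ZMod q') : IsDer H q' (fun g x => θ (δ g x)) where
  mul g h x := by simp only [hδ.mul, map_add]
  inv g x y hy := by simp only [hδ.inv g x y hy]
  cont := by
    obtain ⟨W, hW, hWn, hW0⟩ := hδ.cont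
    exact ⟨W, hW, hWn, fun w hw x => by simp only [hW0 w hw x, map_zero]⟩

theorem IsDer.supp {p : ℕ} {X : Type} {ι : X → F} (hF : FreeProP p ι) {H : Subgroup F} {q : ℕ}
    {δ : F → F → ZMod q} (hδ : IsDer H q δ) : {x | δ (ι x) ≠ 0}.Finite := by
  obtain ⟨W, hW, hWn, hW0⟩ := hδ.cont
  refine (hF.conv (W : Set F) hW (one_mem _)).subset ?_
  intro x hx hx2
  exact hx (funext fun y => hW0 _ hx2 y)

/-- every character of `N` with values in `Z/p^m` lifts to `Z/p^(m+1)` -/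
theorem char_lift {p : ℕ} (hp : p.Prime) {X : Type} {ι : X → F} (hF : FreeProP p ι)
    {N : Subgroup F} (hN : N.Normal) {m : ℕ} {q q' : ℕ} (hq : q = p ^ m)
    (hq' : q' = p ^ (m + 1)) (hdvd : q ∣ q') {χ : F → ZMod q} (hχ : IsChar N q χ) :
    ∃ χ' : F → ZMod q', IsChar N q' χ' ∧ ∀ n ∈ N, ZMod.castHom hdvd (ZMod q) (χ' n) = χ n := by
  subst hq hq'
  have hne : NeZero (p ^ m) := ⟨pow_ne_zero _ hp.ne_zero⟩
  obtain ⟨H, hH, hHn, hNH, δ, hδ, hδχ⟩ := shapiro hN hχ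
  let lift : ZMod (p ^ m) → ZMod (p ^ (m + 1)) := fun z => ((z.val : ℕ) : ZMod (p ^ (m + 1)))
  have hlift0 : lift 0 = 0 := by simp [lift]
  have hlift : ∀ z, ZMod.castHom hdvd (ZMod (p ^ m)) (lift z) = z := by
    intro z
    simp [lift]
  obtain ⟨Δ, hΔ, hΔx⟩ := der_exists hp hF hH hHn (m := m + 1)
    (fun x y => lift (δ (ι x) y)) (fun x y h hh => by simp only [hδ.inv (ι x) y h hh]) (by
      refine (hδ.supp hF).subset ?_
      intro x hx hx2
      apply hx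
      funext y
      rw [hx2]
      exact hlift0)
  have h1 : (fun g x => (ZMod.castHom hdvd (ZMod (p ^ m))).toAddMonoidHom (Δ g x)) = δ := by
    refine der_unique hp hF hH hHn (hΔ.map _) hδ ?_
    intro x
    funext y
    rw [hΔx x]
    exact hlift _
  refine ⟨fun n => Δ n 1, hΔ.char hNH, fun n hn => ?_⟩
  rw [← hδχ n hn, ← h1]
  rfl

end Pool.Agent.Serre
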