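import Pool.Agent.Work.MP_0b5d1f_al.Surj
import Pool.Agent.Work.MP_0b5d1f_al.Alg

set_option autoImplicit false
set_option linter.unusedSectionVars false
set_option linter.style.haveILetI false

namespace Pool.Agent.Serre

variable {F : Type} [Group F] [TopologicalSpace F] [IsTopologicalGroup F] [CompactSpace F]

theorem good_top {p : ℕ} [Fact p.Prime] : Good p (⊤ : Subgroup F) := by
  rintro τ τ' ⟨f, hf, hne⟩ ⟨f', hf', hne'⟩
  have hconst : ∀ g ∈ LC p (⊤ : Subgroup F), g = g 1 • (1 : F → ZMod p) := by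
    intro g hg
    funext h
    have := hg.1 1 h trivial
    rw [one_mul] at this
    rw [this]
    simp
  refine ⟨1, LC_one, ?_⟩
  have h1 : τ 1 ≠ 0 := by
    intro h0
    apply hne
    rw [hconst f hf, map_smul, h0, smul_zero]
  have h2 : τ' 1 ≠ 0 := by
    intro h0
    apply hne'
    rw [hconst f' hf', map_smul, h0, smul_zero]
  have h3 : (fun _ : F => τ (fun _ : F => (1 : F → ZMod p) 1)) = τ 1 • (1 : F → ZMod p) := by
    funext g
    simp only [Pi.one_apply, Pi.smul_apply, smul_eq_mul, mul_one]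
    rfl
  have h4 : (fun g : F => τ (fun h : F => (1 : F → ZMod p) (h * g))) =
      τ 1 • (1 : F → ZMod p) := h3
  rw [h4, map_smul, smul_eq_mul]
  exact mul_ne_zero h1 h2

section Closed

variable [T2Space F] [TotallyDisconnectedSpace F]

/-- an open normal subgroup avoiding finitely many cosets -/
theorem exists_open_avoid {A : Set F} (hA : IsClosed A) (s : Finset F)
    (hs : ∀ x ∈ s, x ∉ A) :
    ∃ U : Subgroup F, IsOpen (U : Set F) ∧ U.Normal ∧ ∀ x ∈ s, ∀ u ∈ U, x * u ∉ A := by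
  have hopen : IsOpen (⋂ x ∈ s, {y : F | x * y ∉ A}) := by
    refine isOpen_biInter_finset fun x _ => ?_
    exact (hA.isOpen_compl).preimage (continuous_const_mul x)
  have h1 : (1 : F) ∈ ⋂ x ∈ s, {y : F | x * y ∉ A} := by
    simp only [Set.mem_iInter]
    intro x hx
    change x * 1 ∉ A
    rw [mul_one]
    exact hs x hx
  obtain ⟨H, hH⟩ := ProfiniteGrp.exist_openNormalSubgroup_sub_open_nhds_of_one hopen h1
  refine ⟨H.toSubgroup, H.isOpen', inferInstance, fun x hx u hu => ?_⟩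
  have := hH hu
  simp only [Set.mem_iInter] at this
  exact this x hx

theorem exists_open_avoid_sup {N : Subgroup F} (hN : IsClosed (N : Set F)) (s : Finset F)
    (hs : ∀ x ∈ s, x ∉ N) :
    ∃ U : Subgroup F, IsOpen (U : Set F) ∧ U.Normal ∧ ∀ x ∈ s, x ∉ N ⊔ U := by
  obtain ⟨U, hU, hUn, h⟩ := exists_open_avoid hN s hs
  refine ⟨U, hU, hUn, fun x hx hmem => ?_⟩
  obtain ⟨n, hn, u, hu, rfl⟩ := Subgroup.mem_sup_of_normal_right.1 hmem
  have := h _ hx u⁻¹ (U.inv_mem hu)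
  rw [mul_inv_cancel_right] at this
  exact this hn

/-- `F / N` is torsion-free when `N` is good -/
theorem Good.torsionFree {p : ℕ} [Fact p.Prime] {N : Subgroup F} (hN : N.Normal)
    (hcl : IsClosed (N : Set F)) (hgood : Good p N) (g : F) (n : ℕ) (hn : 0 < n)
    (hg : g ^ n ∈ N) : g ∈ N := by
  classical
  by_contra hgN
  have hex : ∃ n : ℕ, 0 < n ∧ g ^ n ∈ N := ⟨n, hn, hg⟩
  obtain ⟨hn0, hgn0⟩ := Nat.find_spec hex
  have hmin : ∀ m, 0 < m → m < Nat.find hex → g ^ m ∉ N := fun m h1 h2 h3 =>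
    Nat.find_min hex h2 ⟨h1, h3⟩
  set n0 := Nat.find hex with hn0def
  have hn1 : 1 < n0 := by
    by_contra hlt
    have : n0 = 1 := by omega
    rw [this, pow_one] at hgn0
    exact hgN hgn0
  obtain ⟨U, hU, hUn, hUav⟩ := exists_open_avoid_sup hcl ((Finset.Ico 1 n0).image (fun i => g ^ i))
    (by
      intro x hx
      obtain ⟨i, hi, rfl⟩ := Finset.mem_image.1 hx
      rw [Finset.mem_Ico] at hi
      exact hmin i (by omega) hi.2)
  let f : F → ZMod p := fun h => if (h : F ⧸ (N ⊔ U)) = ((1 : F) : F ⧸ (N ⊔ U)) then 1 else 0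
  have hopen : IsOpen ((N ⊔ U : Subgroup F) : Set F) := Subgroup.isOpen_mono le_sup_right hU
  have hf : f ∈ LC p N := LC_ind p hopen inferInstance le_sup_left _
  have hf1 : f 1 = 1 := by simp [f]
  have hfi : ∀ i, 0 < i → i < n0 → f (g ^ i) = 0 := by
    intro i h1 h2
    have : ((g ^ i : F) : F ⧸ (N ⊔ U)) ≠ ((1 : F) : F ⧸ (N ⊔ U)) := by
      intro h
      have h3 : g ^ i ∈ N ⊔ U := (QuotientGroup.eq_one_iff _).1 h
      exact hUav (g ^ i) (Finset.mem_image.2 ⟨i, Finset.mem_Ico.2 ⟨h1, h2⟩, rfl⟩) h3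
    simp only [f, this, if_false]
  let τ : (F → ZMod p) →ₗ[ZMod p] ZMod p :=
    ∑ i ∈ Finset.range n0, (LinearMap.proj (g ^ i) : (F → ZMod p) →ₗ[ZMod p] ZMod p)
  have hτ : ∀ φ : F → ZMod p, τ φ = ∑ i ∈ Finset.range n0, φ (g ^ i) := by
    intro φ
    simp [τ]
  let τ' : (F → ZMod p) →ₗ[ZMod p] ZMod p :=
    (LinearMap.proj g : (F → ZMod p) →ₗ[ZMod p] ZMod p) - LinearMap.proj 1
  have hτ' : ∀ φ : F → ZMod p, τ' φ = φ g - φ 1 := by
    intro φ
    simp [τ']
  have h1 : τ f ≠ 0 := by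
    rw [hτ, Finset.sum_eq_single 0]
    · simp [hf1]
    · intro i hi hi0
      exact hfi i (Nat.pos_of_ne_zero hi0) (Finset.mem_range.1 hi)
    · intro h
      exact absurd (Finset.mem_range.2 hn0) h
  have h2 : τ' f ≠ 0 := by
    rw [hτ', hf1]
    have := hfi 1 one_pos hn1
    rw [pow_one] at this
    rw [this]
    simp
  obtain ⟨φ, hφ, hne⟩ := hgood τ τ' ⟨f, hf, h1⟩ ⟨f, hf, h2⟩
  apply hne
  rw [hτ', hτ, hτ, ← Finset.sum_sub_distrib]
  have h3 : ∀ i, φ (g ^ i * g) - φ (g ^ i * 1) = φ (g ^ (i + 1)) - φ (g ^ i) := by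
    intro i
    rw [pow_succ, mul_one]
  rw [Finset.sum_congr rfl fun i _ => h3 i, Finset.sum_range_sub (fun i => φ (g ^ i))]
  have h4 := hφ.1 1 _ hgn0
  rw [one_mul] at h4
  rw [h4, pow_zero, sub_self]

/-- intersections of directed families of good subgroups are good -/
theorem good_sInf {p : ℕ} {c : Set (Subgroup F)} (hne : c.Nonempty)
    (hdir : ∀ N ∈ c, ∀ M ∈ c, ∃ K ∈ c, K ≤ N ∧ K ≤ M) (hn : ∀ N ∈ c, N.Normal) (hcl : ∀ N ∈ c, IsClosed (N : Set F))
    (hgood : ∀ N ∈ c, Good p N) : Good p (sInf c) := by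
  have hle : ∀ N ∈ c, LC p N ≤ LC p (sInf c) := fun N hN => LC_anti p (sInf_le hN)
  have key : ∀ f ∈ LC p (sInf c), ∃ N ∈ c, f ∈ LC p N := by
    rintro f ⟨hf, U, hU, hUn, hfU⟩
    have hNinf : (sInf c).Normal := by
      constructor
      intro n hn' g
      rw [Subgroup.mem_sInf] at hn' ⊢
      intro N hN
      exact (hn N hN).conj_mem n (hn' N hN) g
    have hopen : IsOpen ((sInf c ⊔ U : Subgroup F) : Set F) := Subgroup.isOpen_mono le_sup_right hU
    have hfsup : RInv (sInf c ⊔ U) f := RInv.sup hUn hf hfU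
    by_contra hcon
    push Not at hcon
    have hnonempty : ∀ N : c, ((N : Set F) ∩ ((sInf c ⊔ U : Subgroup F) : Set F)ᶜ).Nonempty := by
      rintro ⟨N, hN⟩
      by_contra hempty
      rw [Set.not_nonempty_iff_eq_empty] at hempty
      have hNle : N ≤ sInf c ⊔ U := by
        intro x hx
        by_contra hx2
        have : x ∈ ((N : Set F) ∩ ((sInf c ⊔ U : Subgroup F) : Set F)ᶜ) := ⟨hx, hx2⟩
        rw [hempty] at this
        exact this
      exact hcon N hN ⟨hfsup.mono hNle, U, hU, hUn, hfU⟩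
    have : Nonempty c := hne.to_subtype
    obtain ⟨x, hx⟩ := IsCompact.nonempty_iInter_of_directed_nonempty_isCompact_isClosed
      (fun N : c => ((N : Set F) ∩ ((sInf c ⊔ U : Subgroup F) : Set F)ᶜ)) (by
        rintro ⟨N, hN⟩ ⟨M, hM⟩
        obtain ⟨K, hK, h1, h2⟩ := hdir N hN M hM
        exact ⟨⟨K, hK⟩, fun x hx => ⟨h1 hx.1, hx.2⟩, fun x hx => ⟨h2 hx.1, hx.2⟩⟩)
      hnonempty
      (fun N => ((hcl N.1 N.2).inter hopen.isClosed_compl).isCompact)
      (fun N => (hcl N.1 N.2).inter hopen.isClosed_compl)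
    rw [Set.mem_iInter] at hx
    obtain ⟨N0, hN0⟩ := hne
    have h1 : x ∈ sInf c := by
      rw [Subgroup.mem_sInf]
      intro N hN
      exact (hx ⟨N, hN⟩).1
    exact (hx ⟨N0, hN0⟩).2 ((le_sup_left : sInf c ≤ sInf c ⊔ U) h1)
  rintro τ τ' ⟨f, hf, hfne⟩ ⟨f', hf', hfne'⟩
  obtain ⟨N, hN, hfN⟩ := key f hf
  obtain ⟨N', hN', hfN'⟩ := key f' hf'
  obtain ⟨K, hK, h1, h2⟩ := hdir N hN N' hN'
  obtain ⟨φ, hφ, hφne⟩ := hgood K hK τ τ' ⟨f, LC_anti p h1 hfN, hfne⟩
    ⟨f', LC_anti p h2 hfN', hfne'⟩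
  exact ⟨φ, hle K hK hφ, hφne⟩

/-- a minimal good closed normal subgroup containing `r` -/
theorem exists_min_good {p : ℕ} (r : F) {L : Subgroup F} (hL : L.Normal)
    (hLcl : IsClosed (L : Set F)) (hLgood : Good p L) (hr : r ∈ L) :
    ∃ N : Subgroup F, N ≤ L ∧ N.Normal ∧ IsClosed (N : Set F) ∧ Good p N ∧ r ∈ N ∧
      ∀ N' : Subgroup F, N' ≤ N → N'.Normal → IsClosed (N' : Set F) → Good p N' → r ∈ N' →
        N' = N := by
  let S : Set (Subgroup F)ᵒᵈ := {N | (OrderDual.ofDual N).Normal ∧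
    IsClosed ((OrderDual.ofDual N : Subgroup F) : Set F) ∧ Good p (OrderDual.ofDual N) ∧
    r ∈ OrderDual.ofDual N}
  obtain ⟨m, hLm, hm⟩ := zorn_le_nonempty₀ S (by
    intro c hcS hc y hy
    let c' : Set (Subgroup F) := {N | OrderDual.toDual N ∈ c}
    have hc' : IsChain (· ≤ ·) c' := by
      intro a ha b hb hab
      have := hc ha hb (fun h => hab (OrderDual.toDual.injective h))
      rcases this with h | h
      · exact Or.inr h
      · exact Or.inl h
    have hne : c'.Nonempty := ⟨OrderDual.ofDual y, hy⟩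
    refine ⟨OrderDual.toDual (sInf c'), ⟨?_, ?_, ?_, ?_⟩, ?_⟩
    · constructor
      intro n hn g
      change n ∈ sInf c' at hn
      change g * n * g⁻¹ ∈ sInf c'
      rw [Subgroup.mem_sInf] at hn ⊢
      intro N hN
      exact (hcS hN).1.conj_mem n (hn N hN) g
    · change IsClosed ((sInf c' : Subgroup F) : Set F)
      rw [Subgroup.coe_sInf]
      exact isClosed_biInter fun N hN => (hcS hN).2.1
    · exact good_sInf hne (fun N hN M hM => by
          rcases hc'.total hN hM with h | h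
          · exact ⟨N, hN, le_rfl, h⟩
          · exact ⟨M, hM, h, le_rfl⟩) (fun N hN => (hcS hN).1) (fun N hN => (hcS hN).2.1)
        (fun N hN => (hcS hN).2.2.1)
    · change r ∈ sInf c'
      rw [Subgroup.mem_sInf]
      intro N hN
      exact (hcS hN).2.2.2
    · intro z hz
      change sInf c' ≤ OrderDual.ofDual z
      exact sInf_le hz) (OrderDual.toDual L) ⟨hL, hLcl, hLgood, hr⟩
  refine ⟨OrderDual.ofDual m, hLm, hm.1.1, hm.1.2.1, hm.1.2.2.1, hm.1.2.2.2, ?_⟩
  intro N' hN' h1 h2 h3 h4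
  have h5 : (OrderDual.toDual N') ∈ S := ⟨h1, h2, h3, h4⟩
  have h6 : m ≤ OrderDual.toDual N' := hN'
  have h7 := hm.2 h5 h6
  exact le_antisymm hN' h7

end Closed

end Pool.Agent.Serre
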