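import Pool.Agent.Work.MP_0b5d1f_al.Chars
import Pool.Agent.Work.MP_0b5d1f_al.StmtDefs

set_option autoImplicit false
set_option linter.unusedSectionVars false
set_option linter.style.haveILetI false

namespace Pool.Agent.Serre

/-- lifting a character of a finite abelian `p`-group -/
theorem alg4 {p : ℕ} (hp : p.Prime) {B : Type} [CommGroup B] [Finite B] {n : ℕ}
    (hcard : Nat.card B = p ^ n) {e : ℕ} (he : 1 ≤ e) (ξ : B →* Multiplicative (ZMod p))
    (hξ : ∀ b : B, b ^ (p ^ (e - 1)) = 1 → ξ b = 1) :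
    ∃ η : B →* Multiplicative (ZMod (p ^ e)),
      ∀ b, (((Multiplicative.toAdd (η b)).val : ℕ) : ZMod p) = Multiplicative.toAdd (ξ b) := by
  classical
  have hne : NeZero (p ^ e) := ⟨pow_ne_zero _ hp.ne_zero⟩
  have hnep : NeZero p := ⟨hp.ne_zero⟩
  have hdvd : p ∣ p ^ e := dvd_pow_self p (by omega)
  obtain ⟨ι, hι, q, hq, ⟨E⟩⟩ := CommGroup.equiv_prod_multiplicative_zmod_of_finite B
  -- the components of `ξ`
  let ξi : ∀ i, Multiplicative (ZMod (q i)) →* Multiplicative (ZMod p) := fun i =>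
    (ξ.comp E.symm.toMonoidHom).comp (MonoidHom.mulSingle (fun i => Multiplicative (ZMod (q i))) i)
  have hξi : ∀ i x, ξi i x = ξ (E.symm (Pi.mulSingle i x)) := fun i x => rfl
  have hqi : ∀ i, ∃ m, q i = p ^ m := by
    intro i
    let π : B →* Multiplicative (ZMod (q i)) := (Pi.evalMonoidHom _ i).comp E.toMonoidHom
    have hsurj : Function.Surjective π := by
      intro y
      refine ⟨E.symm (Pi.mulSingle i y), ?_⟩
      simp [π]
    have h1 : Nat.card (Multiplicative (ZMod (q i))) ∣ Nat.card B :=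
      Subgroup.card_dvd_of_surjective π hsurj
    have hc : Nat.card (Multiplicative (ZMod (q i))) = q i := by
      change Nat.card (ZMod (q i)) = q i
      exact Nat.card_zmod _
    rw [hc, hcard, Nat.dvd_prime_pow hp] at h1
    obtain ⟨m, -, hm⟩ := h1
    exact ⟨m, hm⟩
  let c : ι → ZMod (p ^ e) := fun i =>
    (((Multiplicative.toAdd (ξi i (Multiplicative.ofAdd 1))).val : ℕ) : ZMod (p ^ e))
  have hc : ∀ i, (q i) • c i = 0 := by
    intro i
    obtain ⟨m, hm⟩ := hqi i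
    rcases le_or_gt e m with hem | hem
    · rw [nsmul_eq_mul]
      have : ((q i : ℕ) : ZMod (p ^ e)) = 0 := by
        rw [ZMod.natCast_eq_zero_iff, hm]
        exact pow_dvd_pow p hem
      rw [this, zero_mul]
    · have h1 : ξi i (Multiplicative.ofAdd 1) = 1 := by
        rw [hξi]
        apply hξ
        rw [← map_pow, ← Pi.mulSingle_pow]
        have h2 : (Multiplicative.ofAdd (1 : ZMod (q i))) ^ (p ^ (e - 1)) = 1 := by
          rw [← ofAdd_nsmul]
          have : (p ^ (e - 1)) • (1 : ZMod (q i)) = 0 := by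
            rw [nsmul_eq_mul, mul_one, ZMod.natCast_eq_zero_iff, hm]
            exact pow_dvd_pow p (by omega)
          rw [this]; rfl
        rw [h2, Pi.mulSingle_one, map_one]
      simp only [c, h1]
      have : Multiplicative.toAdd (1 : Multiplicative (ZMod p)) = 0 := rfl
      rw [this]
      simp
  let ηa : ∀ i, ZMod (q i) →+ ZMod (p ^ e) := fun i =>
    ZMod.lift (q i) ⟨zmultiplesHom _ (c i), by
      rw [zmultiplesHom_apply]
      have := hc i
      rw [← natCast_zsmul] at this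
      exact this⟩
  have hηa : ∀ i (t : ℕ), ηa i (t : ZMod (q i)) = t • c i := by
    intro i t
    have : ((t : ℕ) : ZMod (q i)) = ((t : ℤ) : ZMod (q i)) := by simp
    rw [this]
    simp only [ηa, ZMod.lift_coe]
    rw [zmultiplesHom_apply, natCast_zsmul]
  let red : ZMod (p ^ e) →+ ZMod p := (ZMod.castHom hdvd (ZMod p)).toAddMonoidHom
  have hred : ∀ z : ZMod (p ^ e), red z = ((z.val : ℕ) : ZMod p) := by
    intro z
    change ZMod.castHom hdvd (ZMod p) z = _
    rw [ZMod.castHom_apply, ZMod.cast_eq_val]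
  have hredη : ∀ i (x : ZMod (q i)), red (ηa i x) =
      Multiplicative.toAdd (ξi i (Multiplicative.ofAdd x)) := by
    intro i x
    have hqne : NeZero (q i) := ⟨by have := hq i; omega⟩
    have hx : x = ((x.val : ℕ) : ZMod (q i)) := (ZMod.natCast_zmod_val x).symm
    rw [hx, hηa, map_nsmul]
    have h1 : Multiplicative.ofAdd (((x.val : ℕ) : ZMod (q i))) =
        (Multiplicative.ofAdd (1 : ZMod (q i))) ^ x.val := by
      rw [← ofAdd_nsmul, nsmul_eq_mul, mul_one]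
    rw [h1, map_pow, toAdd_pow]
    congr 1
    rw [hred]
    simp only [c]
    rw [ZMod.val_natCast]
    have h2 : (Multiplicative.toAdd (ξi i (Multiplicative.ofAdd 1))).val % p ^ e =
        (Multiplicative.toAdd (ξi i (Multiplicative.ofAdd 1))).val := by
      apply Nat.mod_eq_of_lt
      refine lt_of_lt_of_le (ZMod.val_lt _) ?_
      exact Nat.le_of_dvd (Nat.pos_of_ne_zero hne.out) hdvd
    rw [h2, ZMod.natCast_zmod_val]
  let η : B →* Multiplicative (ZMod (p ^ e)) :=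
    ∏ i, (AddMonoidHom.toMultiplicative (ηa i)).comp
      ((Pi.evalMonoidHom (fun i => Multiplicative (ZMod (q i))) i).comp E.toMonoidHom)
  have hη : ∀ b, Multiplicative.toAdd (η b) = ∑ i, ηa i (Multiplicative.toAdd (E b i)) := by
    intro b
    simp only [η]
    rw [MonoidHom.finsetProd_apply, toAdd_prod]
    rfl
  refine ⟨η, fun b => ?_⟩
  rw [← hred, hη, map_sum]
  have h3 : ξ b = ∏ i, ξi i (E b i) := by
    simp only [hξi]
    rw [← map_prod, ← map_prod, Finset.univ_prod_mulSingle, MulEquiv.symm_apply_apply]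
  rw [h3, toAdd_prod]
  refine Finset.sum_congr rfl fun i _ => ?_
  rw [hredη]
  rfl

variable {F : Type} [Group F] [TopologicalSpace F] [IsTopologicalGroup F] [CompactSpace F]

/-- a character which kills `N ∩ K` descends to the image of `N` modulo `K` -/
theorem push_char {N K : Subgroup F} [hKn : K.Normal] {q : ℕ} {ξ : F → ZMod q}
    (h1 : ∀ a ∈ N, ∀ b ∈ N, ξ (a * b) = ξ a + ξ b) (h2 : ∀ a ∈ N, a ∈ K → ξ a = 0) :
    ∃ φ : ↥(N.map (QuotientGroup.mk' K)) →* Multiplicative (ZMod q),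
      ∀ a (ha : a ∈ N), φ ⟨QuotientGroup.mk' K a, Subgroup.mem_map_of_mem _ ha⟩ =
        Multiplicative.ofAdd (ξ a) := by
  classical
  have hex : ∀ x : ↥(N.map (QuotientGroup.mk' K)), ∃ a, a ∈ N ∧ QuotientGroup.mk' K a = x.1 := by
    rintro ⟨x, a, ha, rfl⟩
    exact ⟨a, ha, rfl⟩
  choose s hs1 hs2 using hex
  have hinv : ∀ a ∈ N, ξ a⁻¹ = - ξ a := by
    intro a ha
    have h3 := h1 a ha a⁻¹ (N.inv_mem ha)
    have h4 := h1 1 (one_mem _) 1 (one_mem _)
    rw [mul_one] at h4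
    have h5 : ξ 1 = 0 := by simpa using h4
    rw [mul_inv_cancel, h5] at h3
    exact (neg_eq_of_add_eq_zero_right h3.symm).symm
  have hwd : ∀ a ∈ N, ∀ b ∈ N, QuotientGroup.mk' K a = QuotientGroup.mk' K b → ξ a = ξ b := by
    intro a ha b hb hab
    have h3 : a⁻¹ * b ∈ K := QuotientGroup.eq.1 hab
    have h4 := h2 _ (N.mul_mem (N.inv_mem ha) hb) h3
    rw [h1 _ (N.inv_mem ha) _ hb, hinv a ha] at h4
    exact (neg_add_eq_zero.1 h4)
  let φ : ↥(N.map (QuotientGroup.mk' K)) →* Multiplicative (ZMod q) :=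
    MonoidHom.mk' (fun x => Multiplicative.ofAdd (ξ (s x))) (by
      intro x y
      rw [← ofAdd_add, ← h1 _ (hs1 x) _ (hs1 y)]
      congr 1
      refine hwd _ (hs1 _) _ (N.mul_mem (hs1 x) (hs1 y)) ?_
      rw [hs2, map_mul, hs2, hs2]
      rfl)
  refine ⟨φ, fun a ha => ?_⟩
  change Multiplicative.ofAdd (ξ (s _)) = _
  congr 1
  exact hwd _ (hs1 _) _ ha (hs2 _)

section Closed

variable [T2Space F] [TotallyDisconnectedSpace F]

/-- lifting of characters along a torsion-free abelian section -/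
theorem char_lift_tf {p : ℕ} (hp : p.Prime)
    (hidx : ∀ U : Subgroup F, IsOpen (U : Set F) → U.Normal → ∃ n : ℕ, U.index = p ^ n)
    {L L' : Subgroup F} (hLcl : IsClosed (L : Set F)) (hL' : L'.Normal)
    (hL'cl : IsClosed (L' : Set F))
    (comm : ∀ a ∈ L, ∀ b ∈ L, a * b * a⁻¹ * b⁻¹ ∈ L')
    (htf : ∀ a ∈ L, ∀ n : ℕ, 0 < n → a ^ n ∈ L' → a ∈ L')
    {e : ℕ} (he : 1 ≤ e) {ξ : F → ZMod p} (hξ : IsChar L p ξ) (hξ0 : ∀ a ∈ L', ξ a = 0)
    (hle : L' ≤ L) :
    ∃ χ : F → ZMod (p ^ e), IsChar L (p ^ e) χ ∧ (∀ a ∈ L', χ a = 0) ∧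
        ∀ a ∈ L, (((χ a).val : ℕ) : ZMod p) = ξ a := by
  classical
  obtain ⟨h1, V, hV, hVn, h2⟩ := id hξ
  -- find a small open subgroup
  have hU : ∃ U : Subgroup F, IsOpen (U : Set F) ∧ U.Normal ∧ U ≤ V ∧
      ∀ a ∈ L, a ^ (p ^ (e - 1)) ∈ L' ⊔ U → ξ a = 0 := by
    by_contra hcon
    push Not at hcon
    let I := {U : Subgroup F // IsOpen (U : Set F) ∧ U.Normal ∧ U ≤ V}
    let S : I → Set F := fun U => {a | a ∈ L ∧ a ^ (p ^ (e - 1)) ∈ L' ⊔ U.1 ∧ ξ a ≠ 0}
    have hI : Nonempty I := ⟨⟨V, hV, hVn, le_rfl⟩⟩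
    have hSne : ∀ U : I, (S U).Nonempty := by
      rintro ⟨U, hU, hUn, hUV⟩
      obtain ⟨a, ha, h3, h4⟩ := hcon U hU hUn hUV
      exact ⟨a, ha, h3, h4⟩
    have hScl : ∀ U : I, IsClosed (S U) := by
      rintro ⟨U, hU, hUn, hUV⟩
      have hopen : IsOpen ((L' ⊔ U : Subgroup F) : Set F) := Subgroup.isOpen_mono le_sup_right hU
      have hcl2 : IsClosed {a : F | a ^ (p ^ (e - 1)) ∈ L' ⊔ U} :=
        (Subgroup.isClosed_of_isOpen _ hopen).preimage (continuous_pow _)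
      have hcl3 : IsClosed {a : F | a ∈ L ∧ ξ a ≠ 0} := by
        rw [← closure_subset_iff_isClosed]
        intro x hx
        have hxN : x ∈ L := hLcl.closure_subset_iff.2 (fun y hy => hy.1) hx
        refine ⟨hxN, ?_⟩
        rw [mem_closure_iff] at hx
        obtain ⟨y, hy1, hy2⟩ := hx ((fun y => x⁻¹ * y) ⁻¹' (V : Set F))
          (hV.preimage (continuous_const_mul _)) (by simp)
        have hy3 : x⁻¹ * y ∈ V := hy1
        have e : y = x * (x⁻¹ * y) := by group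
        have h3 := h1 x hxN _ (L.mul_mem (L.inv_mem hxN) hy2.1)
        rw [← e, h2 _ (L.mul_mem (L.inv_mem hxN) hy2.1) hy3, add_zero] at h3
        rw [← h3]
        exact hy2.2
      have : S ⟨U, hU, hUn, hUV⟩ = {a : F | a ^ (p ^ (e - 1)) ∈ L' ⊔ U} ∩
          {a : F | a ∈ L ∧ ξ a ≠ 0} := by
        ext a
        exact ⟨fun ⟨h3, h4, h5⟩ => ⟨h4, h3, h5⟩, fun ⟨h4, h3, h5⟩ => ⟨h3, h4, h5⟩⟩
      rw [this]
      exact hcl2.inter hcl3
    obtain ⟨a, ha⟩ := IsCompact.nonempty_iInter_of_directed_nonempty_isCompact_isClosed S (by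
        rintro ⟨U, hU, hUn, hUV⟩ ⟨U', hU', hUn', hUV'⟩
        refine ⟨⟨U ⊓ U', hU.inter hU', inferInstance, inf_le_left.trans hUV⟩, ?_, ?_⟩
        · rintro x ⟨h3, h4, h5⟩
          exact ⟨h3, (sup_le_sup_left inf_le_left L' : L' ⊔ (U ⊓ U') ≤ L' ⊔ U) h4, h5⟩
        · rintro x ⟨h3, h4, h5⟩
          exact ⟨h3, (sup_le_sup_left inf_le_right L' : L' ⊔ (U ⊓ U') ≤ L' ⊔ U') h4, h5⟩)
      hSne (fun U => (hScl U).isCompact) hScl
    rw [Set.mem_iInter] at ha
    obtain ⟨haL, -, hane⟩ := ha ⟨V, hV, hVn, le_rfl⟩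
    have hpow : a ^ (p ^ (e - 1)) ∈ L' := by
      by_contra hnot
      obtain ⟨U, hU, hUn, hav⟩ := exists_open_avoid_sup hL'cl {a ^ (p ^ (e - 1))} (by
        intro y hy
        rw [Finset.mem_singleton] at hy
        rw [hy]
        exact hnot)
      have h3 := (ha ⟨U ⊓ V, hU.inter hV, inferInstance, inf_le_right⟩).2.1
      exact hav _ (Finset.mem_singleton_self _)
        ((sup_le_sup_left inf_le_left L' : L' ⊔ (U ⊓ V) ≤ L' ⊔ U) h3)
    exact hane (hξ0 a (htf a haL _ (pow_pos hp.pos _) hpow))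
  obtain ⟨U, hU, hUn, hUV, hkill⟩ := hU
  have hKn : (L' ⊔ U).Normal := inferInstance
  have hK : IsOpen ((L' ⊔ U : Subgroup F) : Set F) := Subgroup.isOpen_mono le_sup_right hU
  have hcomm : ∀ a ∈ L, ∀ b ∈ L, a * b * a⁻¹ * b⁻¹ ∈ L' ⊔ U := fun a ha b hb =>
    (le_sup_left : L' ≤ L' ⊔ U) (comm a ha b hb)
  have hfin : Finite (F ⧸ (L' ⊔ U)) := Subgroup.quotient_finite_of_isOpen _ hK
  obtain ⟨n, hn⟩ := hidx _ hK hKn
  have hdvd : Nat.card ↥(L.map (QuotientGroup.mk' (L' ⊔ U))) ∣ p ^ n := by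
    rw [← hn]
    exact Subgroup.card_subgroup_dvd_card _
  obtain ⟨n', -, hn'⟩ := (Nat.dvd_prime_pow hp).1 hdvd
  have hξK : ∀ a ∈ L, a ∈ L' ⊔ U → ξ a = 0 := by
    intro a ha haK
    obtain ⟨b, hb, u, hu, rfl⟩ := Subgroup.mem_sup_of_normal_right.1 haK
    have huL : u ∈ L := by
      have := L.mul_mem (L.inv_mem (hle hb)) ha
      have e1 : b⁻¹ * (b * u) = u := by group
      rwa [e1] at this
    rw [h1 b (hle hb) u huL, hξ0 b hb, h2 u huL (hUV hu), add_zero]
  obtain ⟨φ, hφ⟩ := push_char (K := L' ⊔ U) h1 hξK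
  letI : CommGroup ↥(L.map (QuotientGroup.mk' (L' ⊔ U))) :=
    { (inferInstance : Group ↥(L.map (QuotientGroup.mk' (L' ⊔ U)))) with
      mul_comm := comm_image hcomm }
  obtain ⟨η, hη⟩ := alg4 hp hn' he φ (by
    rintro ⟨x, a, ha, rfl⟩ hx
    have hx2 : ((a ^ (p ^ (e - 1)) : F) : F ⧸ (L' ⊔ U)) = 1 := congrArg Subtype.val hx
    have hx3 := (QuotientGroup.eq_one_iff _).1 hx2
    have h5 := hφ a ha
    rw [hkill a ha hx3] at h5
    exact h5)
  obtain ⟨χ, hχ1, hχ2, hχ3⟩ := pull_char hK (p ^ e) η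
  refine ⟨χ, hχ1, fun a ha => hχ2 a (hle ha) ((le_sup_left : L' ≤ L' ⊔ U) ha), fun a ha => ?_⟩
  rw [hχ3 a ha, hη, hφ a ha]
  rfl

theorem PolyTF.normal {L : Subgroup F} (h : PolyTF L) : L.Normal := by
  cases h with
  | top => infer_instance
  | step L _ hL hle hn hcl comm htf => exact hn

theorem PolyTF.closed {L : Subgroup F} (h : PolyTF L) : IsClosed (L : Set F) := by
  cases h with
  | top => simp
  | step L _ hL hle hn hcl comm htf => exact hcl

theorem PolyTF.inf {L M : Subgroup F} (hL : PolyTF L) (hM : PolyTF M) : PolyTF (L ⊓ M) := by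
  induction hM with
  | top => simpa using hL
  | step M M' hM hle hn hcl comm htf ih =>
    have := hL.normal
    have := hn
    refine PolyTF.step (L ⊓ M) (L ⊓ M') ih (inf_le_inf_left L hle) inferInstance ?_ ?_ ?_
    · exact hL.closed.inter hcl
    · rintro a ⟨ha1, ha2⟩ b ⟨hb1, hb2⟩
      exact ⟨L.mul_mem (L.mul_mem (L.mul_mem ha1 hb1) (L.inv_mem ha1)) (L.inv_mem hb1),
        comm a ha2 b hb2⟩
    · rintro a ⟨ha1, ha2⟩ n hn0 ⟨h1, h2⟩
      exact ⟨ha1, htf a ha2 n hn0 h2⟩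

theorem PolyTF.good {p : ℕ} (hp : p.Prime)
    (hidx : ∀ U : Subgroup F, IsOpen (U : Set F) → U.Normal → ∃ n : ℕ, U.index = p ^ n)
    {L : Subgroup F} (h : PolyTF L) : Good p L := by
  have := Fact.mk hp
  induction h with
  | top => exact good_top
  | step L L' hL hle hn hcl comm htf ih =>
    exact good_ext hp hidx hL.normal hn hle comm ih fun e he ξ hξ hξ0 =>
      char_lift_tf hp hidx hL.closed hn hcl comm htf he hξ hξ0 hle

/-- the closed derived subgroup has torsion-free quotient -/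
theorem cder_tf {p : ℕ} (hp : p.Prime) {X : Type} {ι : X → F} (hF : FreeProP p ι)
    {N : Subgroup F} (hN : N.Normal) (hcl : IsClosed (N : Set F)) {a : F} (ha : a ∈ N) {n : ℕ}
    (hn : 0 < n) (hpow : a ^ n ∈ cder N) : a ∈ cder N := by
  by_contra hcon
  obtain ⟨m, χ, hχ, hne⟩ := sep_cder hp hF.index hN ha hcon
  -- lift `χ` further and further
  have key : ∀ s : ℕ, ∃ χ' : F → ZMod (p ^ (m + s)), IsChar N (p ^ (m + s)) χ' ∧
      ((χ' a).val % p ^ m = (χ a).val) := by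
    intro s
    induction s with
    | zero =>
      refine ⟨χ, hχ, ?_⟩
      have : NeZero (p ^ m) := ⟨pow_ne_zero _ hp.ne_zero⟩
      exact Nat.mod_eq_of_lt (ZMod.val_lt _)
    | succ s ih =>
      obtain ⟨χ', h1, h2⟩ := ih
      have hdvd : p ^ (m + s) ∣ p ^ (m + (s + 1)) := pow_dvd_pow p (by omega)
      obtain ⟨χ'', h3, h4⟩ := char_lift hp hF hN (m := m + s) rfl rfl hdvd h1
      refine ⟨χ'', h3, ?_⟩
      have h5 := h4 a ha
      have : NeZero (p ^ (m + s)) := ⟨pow_ne_zero _ hp.ne_zero⟩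
      have : NeZero (p ^ (m + s + 1)) := ⟨pow_ne_zero _ hp.ne_zero⟩
      rw [ZMod.castHom_apply, ZMod.cast_eq_val] at h5
      have h6 : (χ'' a).val % p ^ (m + s) = (χ' a).val := by
        rw [← h5, ZMod.val_natCast]
      rw [← h2, ← h6, Nat.mod_mod_of_dvd _ (pow_dvd_pow p (by omega))]
  -- write `n = p ^ s * n'`
  obtain ⟨s, n', hn', hnn⟩ := Nat.exists_eq_pow_mul_and_not_dvd hn.ne' p hp.ne_one
  obtain ⟨χ', h1, h2⟩ := key s
  have hne1 : NeZero (p ^ (m + s)) := ⟨pow_ne_zero _ hp.ne_zero⟩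
  have hne2 : NeZero (p ^ m) := ⟨pow_ne_zero _ hp.ne_zero⟩
  have h3 := h1.kill_cder hcl hpow
  rw [h1.pow ha] at h3
  have h4 : ((n * (χ' a).val : ℕ) : ZMod (p ^ (m + s))) = 0 := by
    push_cast
    rw [ZMod.natCast_zmod_val]
    exact h3
  rw [ZMod.natCast_eq_zero_iff, hnn] at h4
  generalize (χ' a).val = t at h4 h2
  rw [pow_add, mul_comm (p ^ m), mul_assoc] at h4
  have h5 := Nat.dvd_of_mul_dvd_mul_left (pow_pos hp.pos s) h4
  have hcop : Nat.Coprime (p ^ m) n' := Nat.Coprime.pow_left m ((Nat.Prime.coprime_iff_not_dvd hp).2 hn')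
  have h6 := hcop.dvd_of_dvd_mul_left h5
  apply hne
  have h7 : (χ a).val = 0 := by
    rw [← h2]
    exact Nat.mod_eq_zero_of_dvd h6
  exact (ZMod.val_eq_zero _).1 h7

theorem polyTF_cds {p : ℕ} (hp : p.Prime) {X : Type} {ι : X → F} (hF : FreeProP p ι) (i : ℕ) :
    PolyTF (cds F i) := by
  induction i with
  | zero => exact PolyTF.top
  | succ i ih =>
    have hn := ih.normal
    have hcl := ih.closed
    exact PolyTF.step (cds F i) (cds F (i + 1)) ih (cder_le hn hcl) (cder_normal hn)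
      (cder_closed _) (fun a ha b hb => comm_mem_cder ha hb)
      (fun a ha n hn0 hpow => cder_tf hp hF hn hcl ha hn0 hpow)

end Closed

end Pool.Agent.Serre
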