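import Pool.Agent.Work.MP_0b5d1f_al.Binom

set_option autoImplicit false
set_option linter.unusedSectionVars false
set_option linter.style.haveILetI false

namespace Pool.Agent.Serre

open Finset

variable {d : ℕ}
variable {F : Type} [Group F] [TopologicalSpace F] [IsTopologicalGroup F] [CompactSpace F]
variable {p e : ℕ} {N N' W : Subgroup F} {Fi : Fin d → F → ZMod (p ^ e)} {el : Fin d → F}

theorem DL_comm (hN' : N'.Normal) (comm : ∀ a ∈ N, ∀ b ∈ N, a * b * a⁻¹ * b⁻¹ ∈ N')
    {a b : F} (ha : a ∈ N) (hb : b ∈ N) {f : F → ZMod p} (hf : f ∈ LC p N') :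
    DL p a (DL p b f) = DL p b (DL p a f) := by
  funext h
  simp only [DL_apply]
  have e1 : a * (b * h) = (a * b * a⁻¹ * b⁻¹) * (b * (a * h)) := by group
  have e2 : f (a * (b * h)) = f (b * (a * h)) := by
    rw [e1]
    exact hf.1.left hN' (comm a ha b hb) _
  rw [e2]
  ring

theorem exists_Delta [Fact p.Prime] (hN' : N'.Normal)
    (comm : ∀ a ∈ N, ∀ b ∈ N, a * b * a⁻¹ * b⁻¹ ∈ N') (mem : ∀ j, el j ∈ N) :
    ∃ Δ : (Fin d → ℕ) → ((F → ZMod p) →ₗ[ZMod p] (F → ZMod p)),
      (∀ f ∈ LC p N', Δ 0 f = f) ∧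
      ∀ δ i, ∀ f ∈ LC p N', Δ (δ + Pi.single i 1) f = Δ δ (DL p (el i) f) := by
  classical
  let D : Fin d → Module.End (ZMod p) (LC p N' : Submodule (ZMod p) (F → ZMod p)) :=
    fun i => (DL p (el i)).restrict (fun f hf => DL_LC _ hf)
  have hD : ∀ i (f : LC p N'), (D i f).1 = DL p (el i) f.1 := fun i f => rfl
  have hcomm : ∀ i j, Commute (D i) (D j) := by
    intro i j
    apply LinearMap.ext
    intro f
    apply Subtype.ext
    change DL p (el i) (DL p (el j) f.1) = DL p (el j) (DL p (el i) f.1)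
    exact DL_comm hN' comm (mem i) (mem j) f.2
  have hc2 : Pairwise fun i j => ∀ (x : Multiplicative ℕ) (y : Multiplicative ℕ),
      Commute (powersHom _ (D i) x) (powersHom _ (D j) y) := by
    intro i j _ x y
    simp only [powersHom_apply]
    exact (hcomm i j).pow_pow _ _
  let Θ : (Fin d → Multiplicative ℕ) →* Module.End (ZMod p) (LC p N') :=
    MonoidHom.noncommPiCoprod (fun i => powersHom _ (D i)) hc2
  have hex : ∀ δ : Fin d → ℕ, ∃ T : (F → ZMod p) →ₗ[ZMod p] (F → ZMod p),
      T ∘ₗ (LC p N').subtype =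
        (LC p N').subtype ∘ₗ (Θ (fun i => Multiplicative.ofAdd (δ i))) := fun δ =>
    LinearMap.exists_extend _
  choose Δ hΔ using hex
  have hΔ2 : ∀ δ (f : LC p N'), Δ δ f.1 = (Θ (fun i => Multiplicative.ofAdd (δ i)) f).1 := by
    intro δ f
    exact congrArg (fun T : (LC p N' : Submodule (ZMod p) (F → ZMod p)) →ₗ[ZMod p]
      (F → ZMod p) => T f) (hΔ δ)
  refine ⟨Δ, fun f hf => ?_, fun δ i f hf => ?_⟩
  · have h1 := hΔ2 0 ⟨f, hf⟩
    simp only at h1
    rw [h1]
    have h2 : (fun i : Fin d => Multiplicative.ofAdd ((0 : Fin d → ℕ) i)) = 1 := rfl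
    rw [h2, map_one]
    rfl
  · have h1 := hΔ2 (δ + Pi.single i 1) ⟨f, hf⟩
    have h3 := hΔ2 δ (D i ⟨f, hf⟩)
    simp only at h1
    rw [hD] at h3
    simp only at h3
    rw [h1, h3]
    have h2 : (fun j : Fin d => Multiplicative.ofAdd ((δ + Pi.single i 1 : Fin d → ℕ) j)) =
        (fun j => Multiplicative.ofAdd (δ j)) * Pi.mulSingle i (Multiplicative.ofAdd 1) := by
      funext j
      by_cases h : j = i
      · subst h
        simp
      · simp [h]
    rw [h2, map_mul]
    have h4 : Θ (Pi.mulSingle i (Multiplicative.ofAdd 1)) = D i := by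
      rw [MonoidHom.noncommPiCoprod_mulSingle, powersHom_apply]
      simp
    rw [h4]
    rfl

/-- the defining properties of the iterated differences -/
structure IsDelta (p : ℕ) (N' : Subgroup F) (el : Fin d → F)
    (Δ : (Fin d → ℕ) → ((F → ZMod p) →ₗ[ZMod p] (F → ZMod p))) : Prop where
  zero : ∀ f ∈ LC p N', Δ 0 f = f
  succ : ∀ δ i, ∀ f ∈ LC p N', Δ (δ + Pi.single i 1) f = Δ δ (DL p (el i) f)

variable {Δ : (Fin d → ℕ) → ((F → ZMod p) →ₗ[ZMod p] (F → ZMod p))}

/-- induction principle for multi-indices by degree -/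
theorem exists_pred_deg {n : ℕ} {δ : Fin d → ℕ} (h : deg δ = n + 1) :
    ∃ i, δ i ≠ 0 ∧ δ = (δ - Pi.single i 1) + Pi.single i 1 ∧ deg (δ - Pi.single i 1) = n := by
  have h0 : δ ≠ 0 := by
    rintro rfl
    rw [deg_zero] at h
    omega
  obtain ⟨i, hi⟩ := Function.ne_iff.1 h0
  have h1 := exists_pred i hi
  refine ⟨i, hi, h1, ?_⟩
  have := congrArg deg h1
  rw [deg_add, deg_single, h] at this
  omega

theorem IsDelta.lower (hΔ : IsDelta p N' el Δ) (mem : ∀ j, el j ∈ N) :
    ∀ (n : ℕ) (δ : Fin d → ℕ), deg δ = n → ∀ (m : ℕ) (f : F → ZMod p),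
      f ∈ Fil p N N' (n + m) → Δ δ f ∈ Fil p N N' m := by
  intro n
  induction n with
  | zero =>
    intro δ hδ m f hf
    rw [deg_eq_zero] at hδ
    subst hδ
    rw [hΔ.zero f (Fil_le_LC _ hf)]
    simpa using hf
  | succ n ih =>
    intro δ hδ m f hf
    obtain ⟨i, -, h1, h2⟩ := exists_pred_deg hδ
    rw [h1, hΔ.succ _ i f (Fil_le_LC _ hf)]
    refine ih _ h2 m _ ?_
    have e : n + 1 + m = (n + m) + 1 := by ring
    rw [e, mem_Fil_succ] at hf
    exact hf.2 _ (mem i)

theorem IsDelta.kill (hΔ : IsDelta p N' el Δ) (mem : ∀ j, el j ∈ N) {n : ℕ} {δ : Fin d → ℕ}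
    (hδ : n ≤ deg δ) {f : F → ZMod p} (hf : f ∈ Fil p N N' n) : Δ δ f = 0 := by
  have := hΔ.lower mem (deg δ) δ rfl 0 f (Fil_mono (by omega) hf)
  exact mem_Fil_zero.1 this

theorem DL_Fil {n : ℕ} {a : F} (ha : a ∈ N) {f : F → ZMod p} (hf : f ∈ Fil p N N' n) :
    DL p a f ∈ Fil p N N' (n - 1) := by
  cases n with
  | zero =>
    rw [mem_Fil_zero] at hf
    subst hf
    simp
  | succ n => exact (mem_Fil_succ.1 hf).2 a ha

/-- functions for which the differences are linear combinations of the basic ones -/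
def QQ (p : ℕ) {q : ℕ} (N N' : Subgroup F) (Fi : Fin d → F → ZMod q) (el : Fin d → F) :
    ℕ → Submodule (ZMod p) (F → ZMod p)
  | 0 => ⊥
  | n + 1 => Fil p N N' (n + 1) ⊓ (⨅ i, (QQ p N N' Fi el n).comap (DL p (el i))) ⊓
      ⨅ a ∈ N, (Fil p N N' (n - 1)).comap
        (DL p a - ∑ i, xi p Fi i a • DL p (el i))

theorem mem_QQ_zero {f : F → ZMod p} : f ∈ QQ p N N' Fi el 0 ↔ f = 0 := Submodule.mem_bot _

theorem mem_QQ_succ {n : ℕ} {f : F → ZMod p} :
    f ∈ QQ p N N' Fi el (n + 1) ↔ f ∈ Fil p N N' (n + 1) ∧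
      (∀ i, DL p (el i) f ∈ QQ p N N' Fi el n) ∧
      ∀ a ∈ N, DL p a f - ∑ i, xi p Fi i a • DL p (el i) f ∈ Fil p N N' (n - 1) := by
  simp [QQ, Submodule.mem_inf, Submodule.mem_iInf, and_assoc, LinearMap.sub_apply,
    LinearMap.sum_apply, LinearMap.smul_apply]

theorem QQ_le_Fil (n : ℕ) : QQ p N N' Fi el n ≤ Fil p N N' n := by
  intro f hf
  cases n with
  | zero =>
    rw [mem_QQ_zero] at hf
    subst hf
    exact Submodule.zero_mem _
  | succ n => exact (mem_QQ_succ.1 hf).1

theorem QQ_succ_le (n : ℕ) : QQ p N N' Fi el n ≤ QQ p N N' Fi el (n + 1) := by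
  induction n with
  | zero =>
    intro f hf
    rw [mem_QQ_zero] at hf
    subst hf
    exact Submodule.zero_mem _
  | succ n ih =>
    intro f hf
    rw [mem_QQ_succ] at hf ⊢
    exact ⟨Fil_succ_le _ hf.1, fun i => ih (hf.2.1 i), fun a ha =>
      Fil_mono (by omega) (hf.2.2 a ha)⟩

theorem QQ_mono : Monotone (QQ p N N' Fi el) := monotone_nat_of_le_succ QQ_succ_le

/-- functions invariant under an open subgroup whose characters are known -/
theorem QQ_of_RInv [Fact p.Prime] (S : Sys p e N N' W Fi el) {U : Subgroup F}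
    (hU : IsOpen (U : Set F)) (hUn : U.Normal)
    (hspan : ∀ ξ : F → ZMod p, IsChar N p ξ → (∀ a ∈ N', ξ a = 0) →
      (∀ a ∈ N, a ∈ U → ξ a = 0) → ∃ c : Fin d → ZMod p, ∀ a ∈ N, ξ a = ∑ i, c i * xi p Fi i a)
    {n : ℕ} {f : F → ZMod p} (hf : f ∈ Fil p N N' n) (hfU : RInv U f) :
    f ∈ QQ p N N' Fi el n := by
  induction n generalizing f with
  | zero =>
    rw [mem_Fil_zero] at hf
    subst hf
    exact Submodule.zero_mem _
  | succ n ih =>
    rw [mem_QQ_succ]
    have hf2 := (mem_Fil_succ.1 hf).2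
    refine ⟨hf, fun i => ih (hf2 _ (S.mem i)) (DL_RInv _ hfU), fun a ha => ?_⟩
    by_contra hcon
    obtain ⟨ℓ, h1, h2⟩ := Submodule.exists_dual_map_eq_bot_of_notMem hcon inferInstance
    have h3 : ∀ g ∈ Fil p N N' (n - 1), ℓ g = 0 := by
      intro g hg
      have : ℓ g ∈ (Fil p N N' (n - 1)).map ℓ := Submodule.mem_map_of_mem hg
      rw [h2] at this
      exact (Submodule.mem_bot _).1 this
    have hLC := Fil_le_LC _ hf
    have hadd : ∀ x ∈ N, ∀ y ∈ N, ℓ (DL p (x * y) f) = ℓ (DL p x f) + ℓ (DL p y f) := by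
      intro x hx y hy
      rw [DL_mul, map_add, map_add, h3 _ (DL_Fil hy (hf2 x hx)), add_zero, add_comm]
    have hxi : IsChar N p (fun x => ℓ (DL p x f)) := by
      refine ⟨hadd, U, hU, hUn, fun a ha haU => ?_⟩
      have : DL p a f = 0 := by
        funext h
        rw [DL_apply, hfU.left hUn haU, sub_self]
        rfl
      simp only [this, map_zero]
    obtain ⟨c, hc⟩ := hspan _ hxi
      (fun a ha => by
        have : DL p a f = 0 := by
          funext h
          rw [DL_apply, hLC.1.left S.hN' ha, sub_self]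
          rfl
        simp only [this, map_zero])
      (fun a ha haU => by
        have : DL p a f = 0 := by
          funext h
          rw [DL_apply, hfU.left hUn haU, sub_self]
          rfl
        simp only [this, map_zero])
    have hcj : ∀ j, c j = ℓ (DL p (el j) f) := by
      intro j
      have := hc (el j) (S.mem j)
      simp only [S.dual] at this
      simpa using this.symm
    apply h1
    rw [map_sub, map_sum]
    have h4 := hc a ha
    rw [h4, sub_eq_zero]
    refine Finset.sum_congr rfl fun i _ => ?_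
    rw [map_smul, smul_eq_mul, hcj, mul_comm]

theorem kap_QQ (hp : p.Prime) (S : Sys p e N N' W Fi el) (h : F) :
    ∀ n : ℕ, ∀ β : Fin d → ℕ, deg β = n → n < p ^ e →
      kap p Fi β h ∈ QQ p N N' Fi el (n + 1) := by
  intro n
  induction n using Nat.strong_induction_on with
  | _ n ih =>
    intro β hβ hn
    rw [mem_QQ_succ]
    refine ⟨kap_Fil hp S h n β hβ hn, fun i => ?_, fun a ha => ?_⟩
    · rw [DL_kap hp S (by omega) h (S.mem i)]
      refine Submodule.sum_mem _ fun γ hγ => Submodule.smul_mem _ _ ?_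
      obtain ⟨h1, h2⟩ := deg_erase hγ
      exact QQ_mono (by omega) (ih (deg (β - γ)) (by omega) (β - γ) rfl (by omega))
    · rw [DL_kap hp S (by omega) h ha]
      have e1 : ∑ i, xi p Fi i a • DL p (el i) (kap p Fi β h) =
          ∑ γ ∈ (box β).erase 0, (∑ i, xi p Fi i a * Psi p Fi γ (h * el i * h⁻¹)) •
            kap p Fi (β - γ) h := by
        have : ∀ i, xi p Fi i a • DL p (el i) (kap p Fi β h) =
            ∑ γ ∈ (box β).erase 0, (xi p Fi i a * Psi p Fi γ (h * el i * h⁻¹)) •
            kap p Fi (β - γ) h := by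
          intro i
          rw [DL_kap hp S (by omega) h (S.mem i), Finset.smul_sum]
          refine Finset.sum_congr rfl fun γ _ => ?_
          rw [smul_smul]
        rw [Finset.sum_congr rfl fun i _ => this i, Finset.sum_comm]
        refine Finset.sum_congr rfl fun γ _ => ?_
        rw [Finset.sum_smul]
      rw [e1, ← Finset.sum_sub_distrib]
      refine Submodule.sum_mem _ fun γ hγ => ?_
      rw [← sub_smul]
      obtain ⟨h1, h2⟩ := deg_erase hγ
      by_cases hd : deg γ = 1
      · obtain ⟨l, rfl⟩ := exists_single hd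
        have : Psi p Fi (Pi.single l 1) (h * a * h⁻¹) -
            ∑ i, xi p Fi i a * Psi p Fi (Pi.single l 1) (h * el i * h⁻¹) = 0 := by
          simp only [Psi_single]
          rw [S.conj h l a ha, sub_eq_zero]
          exact Finset.sum_congr rfl fun i _ => mul_comm _ _
        rw [this, zero_smul]
        exact Submodule.zero_mem _
      · refine Submodule.smul_mem _ _ ?_
        exact Fil_mono (by omega) (kap_Fil hp S h (deg (β - γ)) (β - γ) rfl (by omega))

/-- multi-indices of degree `n` -/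
def simp' (d n : ℕ) : Finset (Fin d → ℕ) := Finset.piAntidiag univ n

theorem mem_simp' {n : ℕ} {δ : Fin d → ℕ} : δ ∈ simp' d n ↔ deg δ = n := by
  simp [simp', deg]

theorem reindex {M : Type} [AddCommMonoid M] (n : ℕ) (i : Fin d) (g : (Fin d → ℕ) → M) :
    ∑ δ ∈ (simp' d (n + 1)).filter (fun δ => δ i ≠ 0), g δ =
      ∑ δ ∈ simp' d n, g (δ + Pi.single i 1) := by
  classical
  symm
  refine Finset.sum_bij (fun δ _ => δ + Pi.single i 1) ?_ ?_ ?_ ?_
  · intro δ hδ
    rw [mem_simp'] at hδ
    rw [Finset.mem_filter, mem_simp', deg_add, deg_single, hδ]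
    refine ⟨rfl, ?_⟩
    rw [Pi.add_apply, Pi.single_eq_same]
    omega
  · intro δ _ δ' _ h
    exact add_right_cancel h
  · intro δ hδ
    rw [Finset.mem_filter, mem_simp'] at hδ
    have h1 := exists_pred i hδ.2
    refine ⟨δ - Pi.single i 1, ?_, h1.symm⟩
    rw [mem_simp']
    have := congrArg deg h1
    rw [deg_add, deg_single, hδ.1] at this
    omega
  · intro δ _
    rfl

/-- Taylor's formula -/
theorem taylor (hp : p.Prime) (S : Sys p e N N' W Fi el) (hΔ : IsDelta p N' el Δ) :
    ∀ n : ℕ, n < p ^ e → ∀ f ∈ QQ p N N' Fi el (n + 1),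
      f - ∑ δ ∈ simp' d n, Psi p Fi δ * Δ δ f ∈ Fil p N N' n := by
  classical
  intro n
  induction n with
  | zero =>
    intro _ f hf
    have h1 : simp' d 0 = {0} := by
      ext δ
      rw [mem_simp', deg_eq_zero, Finset.mem_singleton]
    have h2 : (Psi p Fi 0 : F → ZMod p) = 1 := funext fun g => Psi_zero g
    rw [h1, Finset.sum_singleton, h2, one_mul, hΔ.zero f (Fil_le_LC _ (QQ_le_Fil _ hf)), sub_self]
    exact Submodule.zero_mem _
  | succ n ih =>
    intro hn f hf
    have hfF : f ∈ Fil p N N' (n + 1 + 1) := QQ_le_Fil _ hf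
    have hfLC : f ∈ LC p N' := Fil_le_LC _ hfF
    rw [mem_QQ_succ] at hf
    obtain ⟨-, hf1, hf2⟩ := hf
    have hΔLC : ∀ δ ∈ simp' d (n + 1), Δ δ f ∈ LC p N := by
      intro δ hδ
      rw [mem_simp'] at hδ
      rw [← Fil_one S.hN S.hle]
      exact hΔ.lower S.mem (n + 1) δ hδ 1 f hfF
    rw [mem_Fil_succ]
    refine ⟨Submodule.sub_mem _ hfLC (Submodule.sum_mem _ fun δ hδ =>
      LC_mul (Psi_LC S δ) (LC_anti p S.hle (hΔLC δ hδ))), fun a ha => ?_⟩
    -- the difference of the products
    have hprod : ∀ δ ∈ simp' d (n + 1),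
        DL p a (Psi p Fi δ * Δ δ f) - ∑ i ∈ univ.filter (fun i => δ i ≠ 0),
          xi p Fi i a • (Psi p Fi (δ - Pi.single i 1) * Δ δ f) ∈ Fil p N N' n := by
      intro δ hδ
      have hδ' := mem_simp'.1 hδ
      have e1 : DL p a (Psi p Fi δ * Δ δ f) = DL p a (Psi p Fi δ) * Δ δ f := by
        funext h
        simp only [DL_apply, Pi.mul_apply, (hΔLC δ hδ).1.left S.hN ha h]
        ring
      have e2 : Psi p Fi δ = kap p Fi δ 1 := funext fun g => (kap_one S δ g).symm
      have e3 : ∑ i ∈ univ.filter (fun i => δ i ≠ 0),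
          xi p Fi i a • (Psi p Fi (δ - Pi.single i 1) * Δ δ f) =
          (∑ i ∈ univ.filter (fun i => δ i ≠ 0),
            xi p Fi i a • Psi p Fi (δ - Pi.single i 1)) * Δ δ f := by
        rw [Finset.sum_mul]
        refine Finset.sum_congr rfl fun i _ => ?_
        rw [smul_mul_assoc]
      rw [e1, e3, ← sub_mul]
      refine Fil_mul S.hN S.hle ?_ (hΔLC δ hδ)
      rw [e2, DL_kap hp S (by omega) 1 ha]
      -- split off the terms of degree one
      have e4 : ∑ i ∈ univ.filter (fun i => δ i ≠ 0),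
          xi p Fi i a • Psi p Fi (δ - Pi.single i 1) =
          ∑ γ ∈ ((box δ).erase 0).filter (fun γ => deg γ = 1),
            Psi p Fi γ (1 * a * 1⁻¹) • kap p Fi (δ - γ) 1 := by
        refine Finset.sum_bij (fun i _ => Pi.single i 1) ?_ ?_ ?_ ?_
        · intro i hi
          rw [Finset.mem_filter] at hi
          rw [Finset.mem_filter, Finset.mem_erase, mem_box]
          refine ⟨⟨?_, ?_⟩, deg_single i⟩
          · intro h0
            have := congrFun h0 i
            simp at this
          · intro j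
            by_cases hj : j = i
            · subst hj
              simp only [Pi.single_eq_same]
              omega
            · simp [hj]
        · intro i _ j _ hij
          by_contra hne
          have := congrFun hij i
          rw [Pi.single_eq_same, Pi.single_eq_of_ne hne] at this
          omega
        · intro γ hγ
          rw [Finset.mem_filter, Finset.mem_erase, mem_box] at hγ
          obtain ⟨i, rfl⟩ := exists_single hγ.2
          refine ⟨i, ?_, rfl⟩
          rw [Finset.mem_filter]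
          refine ⟨mem_univ _, ?_⟩
          have := hγ.1.2 i
          simp only [Pi.single_eq_same] at this
          omega
        · intro i _
          have e5 : (1 : F) * a * 1⁻¹ = a := by group
          have e6 : Psi p Fi (δ - Pi.single i 1) = kap p Fi (δ - Pi.single i 1) 1 :=
            funext fun g => (kap_one S _ g).symm
          rw [e5, Psi_single, e6]
      rw [e4, ← Finset.sum_filter_add_sum_filter_not ((box δ).erase 0) (fun γ => deg γ = 1),
        add_sub_cancel_left]
      refine Submodule.sum_mem _ fun γ hγ => Submodule.smul_mem _ _ ?_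
      rw [Finset.mem_filter] at hγ
      obtain ⟨h1, h2⟩ := deg_erase hγ.1
      have h3 := hγ.2
      exact Fil_mono (by omega) (kap_Fil hp S 1 (deg (δ - γ)) (δ - γ) rfl (by omega))
    have hsum : (∑ δ ∈ simp' d (n + 1), DL p a (Psi p Fi δ * Δ δ f)) -
        ∑ i, xi p Fi i a • ∑ δ ∈ simp' d n, Psi p Fi δ * Δ δ (DL p (el i) f) ∈
          Fil p N N' n := by
      have e7 : ∑ i, xi p Fi i a • ∑ δ ∈ simp' d n, Psi p Fi δ * Δ δ (DL p (el i) f) =
          ∑ δ ∈ simp' d (n + 1), ∑ i ∈ univ.filter (fun i => δ i ≠ 0),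
            xi p Fi i a • (Psi p Fi (δ - Pi.single i 1) * Δ δ f) := by
        have e8 : ∀ i : Fin d, xi p Fi i a •
            ∑ δ ∈ simp' d n, Psi p Fi δ * Δ δ (DL p (el i) f) =
            ∑ δ ∈ (simp' d (n + 1)).filter (fun δ => δ i ≠ 0),
              xi p Fi i a • (Psi p Fi (δ - Pi.single i 1) * Δ δ f) := by
          intro i
          rw [reindex n i, Finset.smul_sum]
          refine Finset.sum_congr rfl fun δ _ => ?_
          rw [add_tsub_cancel_right, hΔ.succ δ i f hfLC]
        rw [Finset.sum_congr rfl fun i _ => e8 i]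
        simp only [Finset.sum_filter]
        rw [Finset.sum_comm]
      rw [e7, ← Finset.sum_sub_distrib]
      exact Submodule.sum_mem _ fun δ hδ => hprod δ hδ
    have hIH : ∀ i, DL p (el i) f - ∑ δ ∈ simp' d n, Psi p Fi δ * Δ δ (DL p (el i) f) ∈
        Fil p N N' n := fun i => ih (by omega) _ (hf1 i)
    have hlin := hf2 a ha
    have hlin' : DL p a f - ∑ i, xi p Fi i a • DL p (el i) f ∈ Fil p N N' n := hlin
    have hsum2 : ∑ i, xi p Fi i a • (DL p (el i) f -
        ∑ δ ∈ simp' d n, Psi p Fi δ * Δ δ (DL p (el i) f)) ∈ Fil p N N' n :=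
      Submodule.sum_mem _ fun i _ => Submodule.smul_mem _ _ (hIH i)
    have e9 : DL p a (f - ∑ δ ∈ simp' d (n + 1), Psi p Fi δ * Δ δ f) =
        (DL p a f - ∑ i, xi p Fi i a • DL p (el i) f) +
        (∑ i, xi p Fi i a • (DL p (el i) f -
          ∑ δ ∈ simp' d n, Psi p Fi δ * Δ δ (DL p (el i) f))) -
        ((∑ δ ∈ simp' d (n + 1), DL p a (Psi p Fi δ * Δ δ f)) -
          ∑ i, xi p Fi i a • ∑ δ ∈ simp' d n, Psi p Fi δ * Δ δ (DL p (el i) f)) := by
      rw [map_sub, map_sum]
      simp only [smul_sub, Finset.sum_sub_distrib]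
      abel
    rw [e9]
    exact Submodule.sub_mem _ (Submodule.add_mem _ hlin' hsum2) hsum

/-- the top coefficients of `κ_β(h, ·)` -/
theorem Delta_kap (hp : p.Prime) (S : Sys p e N N' W Fi el) (hΔ : IsDelta p N' el Δ) {B : ℕ}
    (hB : 2 ≤ B) (h : F) :
    ∀ n : ℕ, n < p ^ e → ∀ β δ : Fin d → ℕ, deg β = n → deg δ = n →
      (wt B β < wt B δ → Δ δ (kap p Fi β h) = 0) ∧
      (δ = β → Δ δ (kap p Fi β h) = 1) := by
  classical
  intro n
  induction n with
  | zero =>
    intro _ β δ hβ hδ
    rw [deg_eq_zero] at hβ hδ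
    subst hβ hδ
    refine ⟨fun h => absurd h (lt_irrefl _), fun _ => ?_⟩
    rw [hΔ.zero _ (kap_LC S _ _)]
    funext g
    exact kap_zero h g
  | succ n ih =>
    intro hn β δ hβ hδ
    obtain ⟨j, hj, h1, h2⟩ := exists_pred_deg hδ
    have hwj : wt B δ = wt B (δ - Pi.single j 1) + B ^ (j : ℕ) := by
      conv_lhs => rw [h1]
      rw [wt_add, wt_single]
    have e1 : Δ δ (kap p Fi β h) = ∑ γ ∈ (box β).erase 0, Psi p Fi γ (h * el j * h⁻¹) •
        Δ (δ - Pi.single j 1) (kap p Fi (β - γ) h) := by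
      conv_lhs => rw [h1]
      rw [hΔ.succ _ j _ (kap_LC S _ _), DL_kap hp S (by omega) h (S.mem j), map_sum]
      exact Finset.sum_congr rfl fun γ _ => map_smul _ _ _
    -- all terms except possibly `γ = single j` vanish when `wt β ≤ wt δ`
    have hterm : wt B β ≤ wt B δ → ∀ γ ∈ (box β).erase 0, γ ≠ Pi.single j 1 →
        Psi p Fi γ (h * el j * h⁻¹) • Δ (δ - Pi.single j 1) (kap p Fi (β - γ) h) = 0 := by
      intro hw γ hγ hne
      obtain ⟨h3, h4⟩ := deg_erase hγ
      by_cases hd : deg γ = 1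
      · obtain ⟨i, rfl⟩ := exists_single hd
        have hij : i ≠ j := by
          rintro rfl
          exact hne rfl
        rcases lt_or_gt_of_ne hij with hlt | hgt
        · rw [Psi_single, S.flag0 h i j hlt, zero_smul]
        · have hβi : β i ≠ 0 := by
            rw [Finset.mem_erase, mem_box] at hγ
            have := hγ.2 i
            simp only [Pi.single_eq_same] at this
            omega
          have hwi : wt B β = wt B (β - Pi.single i 1) + B ^ (i : ℕ) := by
            conv_lhs => rw [exists_pred i hβi]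
            rw [wt_add, wt_single]
          have hpow : B ^ (j : ℕ) < B ^ (i : ℕ) := Nat.pow_lt_pow_right hB hgt
          rw [(ih (by omega) (β - Pi.single i 1) (δ - Pi.single j 1) (by omega) h2).1 (by omega),
            smul_zero]
      · rw [hΔ.kill S.mem (n := deg (β - γ) + 1) (by omega)
          (kap_Fil hp S h _ (β - γ) rfl (by omega)), smul_zero]
    constructor
    · intro hlt
      rw [e1]
      refine Finset.sum_eq_zero fun γ hγ => ?_
      by_cases hγj : γ = Pi.single j 1
      · subst hγj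
        have hβj : β j ≠ 0 := by
          rw [Finset.mem_erase, mem_box] at hγ
          have := hγ.2 j
          simp only [Pi.single_eq_same] at this
          omega
        have hwβ : wt B β = wt B (β - Pi.single j 1) + B ^ (j : ℕ) := by
          conv_lhs => rw [exists_pred j hβj]
          rw [wt_add, wt_single]
        obtain ⟨h3, h4⟩ := deg_erase hγ
        rw [deg_single] at h4
        rw [(ih (by omega) (β - Pi.single j 1) (δ - Pi.single j 1) (by omega) h2).1 (by omega),
          smul_zero]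
      · exact hterm hlt.le γ hγ hγj
    · intro heq
      subst heq
      rw [e1, Finset.sum_eq_single (Pi.single j 1)]
      · rw [Psi_single, S.flag1, one_smul]
        exact (ih (by omega) _ _ h2 h2).2 rfl
      · intro γ hγ hne
        exact hterm le_rfl γ hγ hne
      · intro hnot
        exfalso
        apply hnot
        rw [Finset.mem_erase, mem_box]
        refine ⟨?_, ?_⟩
        · intro h0
          have := congrFun h0 j
          simp at this
        · intro i
          by_cases hi : i = j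
          · subst hi
            simp only [Pi.single_eq_same]
            omega
          · simp [hi]

end Pool.Agent.Serre
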