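import Pool.Agent.Work.MP_0b5d1f_al.Inv

set_option autoImplicit false
set_option linter.unusedSectionVars false
set_option linter.style.haveILetI false

/-!
# The invariant characters of a good subgroup `v^F`
-/

namespace Pool.Agent.Serre

variable {F : Type} [Group F] [TopologicalSpace F] [IsTopologicalGroup F] [CompactSpace F]
  [T2Space F] [TotallyDisconnectedSpace F]

variable {p : ℕ} {X : Type} {ι : X → F}

theorem exists_theta (hp : p.Prime) (hF : FreeProP p ι) {v : F} (hgood : Good p (ncl v))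
    {ψ0 : F → ZMod p} (hψ0 : IsChar (ncl v) p ψ0) (hne : ψ0 v ≠ 0) (m : ℕ) :
    ∃ θ : F → ZMod (p ^ m), IsChar (ncl v) (p ^ m) θ ∧ ∀ g, θ (g⁻¹ * v * g) = 1 := by
  classical
  have hN := ncl_normal v
  have hv := mem_ncl v
  induction m with
  | zero =>
    have hs : Subsingleton (ZMod (p ^ 0)) := by
      rw [pow_zero]; infer_instance
    exact ⟨fun _ => 0, ⟨fun _ _ _ _ => Subsingleton.elim _ _, ⊤, by simp, inferInstance,
      fun _ _ _ => rfl⟩, fun g => Subsingleton.elim _ _⟩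
  | succ m ih =>
    obtain ⟨θ, hθ, hθ1⟩ := ih
    have hne1 : NeZero (p ^ m) := ⟨pow_ne_zero _ hp.ne_zero⟩
    have hne2 : NeZero (p ^ (m + 1)) := ⟨pow_ne_zero _ hp.ne_zero⟩
    have hdvd : p ^ m ∣ p ^ (m + 1) := pow_dvd_pow p (Nat.le_succ m)
    obtain ⟨χ1, hχ1, hlift⟩ := char_lift hp hF hN rfl rfl hdvd hθ
    obtain ⟨inc, hinc, hinj, hsurj, hinc0⟩ := exists_inc hp m
    have hc : ∀ g, g⁻¹ * v * g ∈ ncl v := fun g => by simpa using hN.conj_mem v hv g⁻¹
    have hp0 : ∀ g, (p : ZMod (p ^ (m + 1))) * (χ1 (g⁻¹ * v * g) - 1) = 0 := by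
      intro g
      have h1 : ZMod.castHom hdvd (ZMod (p ^ m)) (χ1 (g⁻¹ * v * g) - 1) = 0 := by
        rw [map_sub, hlift _ (hc g), hθ1 g, map_one, sub_self]
      generalize χ1 (g⁻¹ * v * g) - 1 = z at h1 ⊢
      have h2 : ((z.val : ℕ) : ZMod (p ^ m)) = 0 := by
        rw [ZMod.castHom_apply, ZMod.cast_eq_val] at h1
        exact h1
      rw [ZMod.natCast_eq_zero_iff] at h2
      have e : z = ((z.val : ℕ) : ZMod (p ^ (m + 1))) := (ZMod.natCast_zmod_val _).symm
      rw [e, ← Nat.cast_mul, ZMod.natCast_eq_zero_iff]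
      have h3 : p * p ^ m ∣ p * z.val := mul_dvd_mul_left p h2
      rwa [← pow_succ'] at h3
    choose f' hf' using fun g => hsurj _ (hp0 g)
    have hf'2 : f' ∈ LC p (ncl v) := by
      obtain ⟨i1, U, hU, hUn, i2⟩ := hχ1.fun_inv hN hv
      refine ⟨fun g n hn => hinj ?_, U, hU, hUn, fun g n hn => hinj ?_⟩
      · have := i1 g n hn
        simp only at this
        rw [hf', hf', this]
      · have := i2 g n hn
        simp only at this
        rw [hf', hf', this]
    obtain ⟨ψ, hψ, hψ2⟩ := surj_conj hp hF hN hgood hv hψ0 hne hf'2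
    refine ⟨fun n => χ1 n - inc (ψ n), hχ1.sub (hψ.map inc), fun g => ?_⟩
    simp only [hψ2, hf', sub_sub_cancel]

theorem theta_inv {v : F} {m : ℕ} {θ : F → ZMod (p ^ m)}
    (hθ : IsChar (ncl v) (p ^ m) θ) (h1 : ∀ g, θ (g⁻¹ * v * g) = 1) : ConjInv (ncl v) θ := by
  intro g a ha
  have h2 := hθ.conjF (ncl_normal v) g
  refine char_ext_ncl h2 hθ (fun h => ?_) a ha
  have e : g⁻¹ * (h⁻¹ * v * h) * g = (h * g)⁻¹ * v * (h * g) := by group
  simp only [e, h1]

/-- the structure of the minimal good subgroup containing `r` -/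
theorem min_struct (hp : p.Prime) (hF : FreeProP p ι) (r : F) :
    ∃ (v : F) (k : ℕ), Good p (ncl v) ∧ r ∈ ncl v ∧ (v ^ (p ^ k))⁻¹ * r ∈ cder (ncl v) ∧
      (v = 1 ∨ ∃ ψ0 : F → ZMod p, IsChar (ncl v) p ψ0 ∧ ψ0 v ≠ 0) ∧
      (k = 0 → ncl v = ncl r) ∧
      (∀ L : Subgroup F, PolyTF L → r ∈ L → v ∈ L) := by
  have := Fact.mk hp
  let c : Set (Subgroup F) := {L | PolyTF L ∧ r ∈ L}
  have hne : c.Nonempty := ⟨⊤, PolyTF.top, trivial⟩
  have hLgood : Good p (sInf c) := by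
    refine good_sInf hne ?_ (fun L hL => hL.1.normal) (fun L hL => hL.1.closed)
      (fun L hL => hL.1.good hp hF.index)
    rintro L ⟨hL, hrL⟩ M ⟨hM, hrM⟩
    exact ⟨L ⊓ M, ⟨hL.inf hM, hrL, hrM⟩, inf_le_left, inf_le_right⟩
  have hLn : (sInf c).Normal := by
    constructor
    intro n hn g
    rw [Subgroup.mem_sInf] at hn ⊢
    intro L hL
    exact hL.1.normal.conj_mem n (hn L hL) g
  have hLcl : IsClosed ((sInf c : Subgroup F) : Set F) := by
    rw [Subgroup.coe_sInf]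
    exact isClosed_biInter fun L hL => hL.1.closed
  have hrL : r ∈ sInf c := by
    rw [Subgroup.mem_sInf]
    intro L hL
    exact hL.2
  obtain ⟨N, hNL, hN, hNcl, hgood, hrN, hmin⟩ := exists_min_good r hLn hLcl hLgood hrL
  have hlast : ∀ v ∈ N, (∀ L : Subgroup F, PolyTF L → r ∈ L → v ∈ L) := by
    intro v hv L hL hrL
    exact (sInf_le (show L ∈ c from ⟨hL, hrL⟩)) (hNL hv)
  have hstep : ∀ v ∈ N, (v = 1 ∨ ∃ ψ0 : F → ZMod p, IsChar N p ψ0 ∧ ψ0 v ≠ 0) →
      r ∈ nxt p v hN → N = ncl v := by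
    intro v hv hcase hr
    have h1 := hmin (nxt p v hN) nxt_le (nxt_normal hN) (nxt_closed hNcl)
      (good_nxt hp hF hN hgood hv hcase) hr
    exact eq_ncl_of_nxt hp hF.index hN hNcl hv h1
  by_cases hA : ∃ ψ0 : F → ZMod p, IsChar N p ψ0 ∧ ψ0 r ≠ 0
  · have hNr : N = ncl r := by
      refine hstep r hrN (Or.inr hA) ⟨hrN, fun m χ _ h0 => ?_⟩
      have := h0 1
      simpa using this
    subst hNr
    refine ⟨r, 0, hgood, hrN, ?_, Or.inr hA, fun _ => rfl, hlast r hrN⟩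
    rw [pow_zero, pow_one, inv_mul_cancel]
    exact one_mem _
  · push Not at hA
    by_cases hrD : r ∈ cder N
    · have hN1 : N = ncl 1 := by
        refine hstep 1 (one_mem _) (Or.inl rfl) ⟨hrN, fun m χ hχ _ => ?_⟩
        exact hχ.kill_cder hNcl hrD
      have hNr : N = ncl r := by
        refine le_antisymm ?_ (ncl_le hN hNcl hrN)
        rw [hN1]
        exact ncl_le (ncl_normal r) (ncl_closed r) (one_mem _)
      refine ⟨1, 0, hN1 ▸ hgood, hN1 ▸ hrN, ?_, Or.inl rfl, fun _ => by rw [← hN1, hNr],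
        fun L _ _ => one_mem L⟩
      rw [← hN1]
      simpa using hrD
    · obtain ⟨v, hv, k, c', hc', hr, ψ, hψ, hψv⟩ := exists_root hp hF.index hN hNcl hrN hrD
      have hcN : c' ∈ N := cder_le hN hNcl hc'
      have hNv : N = ncl v := by
        refine hstep v hv (Or.inr ⟨ψ, hψ, hψv⟩) ⟨hrN, fun m χ hχ h0 => ?_⟩
        have h1 : χ v = 0 := by simpa using h0 1
        rw [hr, hχ.1 _ (N.pow_mem hv _) c' hcN, hχ.kill_cder hNcl hc', hχ.pow hv, h1, mul_zero,
          add_zero]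
      subst hNv
      refine ⟨v, k, hgood, hrN, ?_, Or.inr ⟨ψ, hψ, hψv⟩, ?_, hlast v hv⟩
      · rw [hr]
        have e : (v ^ p ^ k)⁻¹ * (v ^ p ^ k * c') = c' := by group
        rw [e]
        exact hc'
      · intro hk0
        exfalso
        subst hk0
        rw [pow_zero, pow_one] at hr
        apply hψv
        have h1 := hA ψ hψ
        rw [hr, hψ.1 v hv c' hcN, hψ.kill_cder hNcl hc', add_zero] at h1
        exact h1

end Pool.Agent.Serre
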