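import Pool.Agent.Work.MP_0b5d1f_al.Theta

set_option autoImplicit false
set_option linter.unusedSectionVars false
set_option linter.style.haveILetI false

/-!
# Elements of order `p` of `F / r^F`, first part
-/

namespace Pool.Agent.Serre

variable {F : Type} [Group F] [TopologicalSpace F] [IsTopologicalGroup F] [CompactSpace F]
  [T2Space F] [TotallyDisconnectedSpace F]

variable {p : ℕ} {X : Type} {ι : X → F}

theorem ppow_ne_zero (hp : p.Prime) (m : ℕ) : ((p : ZMod (p ^ (m + 1))) ^ m) ≠ 0 := by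
  rw [← Nat.cast_pow, Ne, ZMod.natCast_eq_zero_iff]
  intro h
  have h1 := Nat.le_of_dvd (pow_pos hp.pos m) h
  have h2 : p ^ m < p ^ (m + 1) := Nat.pow_lt_pow_right hp.one_lt (Nat.lt_succ_self m)
  omega

theorem ppow_zero (m : ℕ) : ((p : ZMod (p ^ m)) ^ m) = 0 := by
  rw [← Nat.cast_pow, ZMod.natCast_self]

theorem mul_cast_zero (hp : p.Prime) {m : ℕ} (hdvd : p ^ m ∣ p ^ (m + 1)) (z : ZMod (p ^ (m + 1))) :
    (p : ZMod (p ^ (m + 1))) * z = 0 ↔ ZMod.castHom hdvd (ZMod (p ^ m)) z = 0 := by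
  have hne1 : NeZero (p ^ m) := ⟨pow_ne_zero _ hp.ne_zero⟩
  have hne2 : NeZero (p ^ (m + 1)) := ⟨pow_ne_zero _ hp.ne_zero⟩
  have e : z = ((z.val : ℕ) : ZMod (p ^ (m + 1))) := (ZMod.natCast_zmod_val _).symm
  rw [e, ← Nat.cast_mul, ZMod.natCast_eq_zero_iff, map_natCast, ZMod.natCast_eq_zero_iff]
  generalize z.val = a
  constructor
  · intro h
    rw [pow_succ'] at h
    exact Nat.dvd_of_mul_dvd_mul_left hp.pos h
  · intro h
    rw [pow_succ']
    exact mul_dvd_mul_left p h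

theorem theta_r {v r : F} {k m : ℕ} {θ : F → ZMod (p ^ m)}
    (hθ : IsChar (ncl v) (p ^ m) θ) (h1 : ∀ g, θ (g⁻¹ * v * g) = 1)
    (hrc : (v ^ (p ^ k))⁻¹ * r ∈ cder (ncl v)) : θ r = (p : ZMod (p ^ m)) ^ k := by
  have hv1 : θ v = 1 := by simpa using h1 1
  have hvN := mem_ncl v
  have e : r = v ^ (p ^ k) * ((v ^ (p ^ k))⁻¹ * r) := by group
  rw [e, hθ.1 _ ((ncl v).pow_mem hvN _) _ (cder_le (ncl_normal v) (ncl_closed v) hrc),
    hθ.kill_cder (ncl_closed v) hrc, hθ.pow hvN, hv1]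
  push_cast
  ring

/-- if `r` lies in `x^F` then `r^F = (x^p)^F` -/
theorem thmA (hp : p.Prime) (hF : FreeProP p ι) {r x : F} (hx : x ∉ ncl r)
    (hxp : x ^ p ∈ ncl r) (hr : r ∈ ncl x) : ncl (x ^ p) = ncl r := by
  obtain ⟨v, k, hgood, hxv, hxc, hcase, -, -⟩ := min_struct hp hF x
  rcases hcase with rfl | ⟨ψ0, hψ0, hne⟩
  · exact absurd (ncl_mono (one_mem (ncl r)) hxv) hx
  obtain ⟨θ, hθ, h1⟩ := exists_theta hp hF hgood hψ0 hne (k + 1 + 1)
  have hinv := theta_inv hθ h1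
  have hle : ncl x ≤ ncl v := ncl_mono hxv
  have hle2 : ncl r ≤ ncl x := ncl_mono hr
  have hθx : θ x = (p : ZMod (p ^ (k + 1 + 1))) ^ k := theta_r hθ h1 hxc
  obtain ⟨inc, hinc, hinj, hsurj, hinc0⟩ := exists_inc hp (k + 1)
  have hθL := hθ.mono hle
  have hinvL : ConjInv (ncl x) θ := hinv.mono hle
  -- `p θ` on `ncl x`
  have hχ : IsChar (ncl x) (p ^ (k + 1 + 1)) (fun a => (p : ZMod (p ^ (k + 1 + 1))) * θ a) :=
    hθL.map (AddMonoidHom.mulLeft (p : ZMod (p ^ (k + 1 + 1))))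
  have hχc : ConjInv (ncl x) (fun a => (p : ZMod (p ^ (k + 1 + 1))) * θ a) := fun g a ha => by
    simp only [hinvL g a ha]
  have hχ2 : IsChar (ncl x) (p ^ (k + 1 + 1))
      (fun a => (p : ZMod (p ^ (k + 1 + 1))) * ((p : ZMod (p ^ (k + 1 + 1))) * θ a)) :=
    hχ.map (AddMonoidHom.mulLeft (p : ZMod (p ^ (k + 1 + 1))))
  have h0 : ∀ a ∈ ncl x, (p : ZMod (p ^ (k + 1 + 1))) * ((p : ZMod (p ^ (k + 1 + 1))) * θ a) = 0 := by
    refine ConjInv.sub_ext hχ2 (fun g a ha => by simp only [hinvL g a ha]) ?_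
    rw [hθx]
    have e : (p : ZMod (p ^ (k + 1 + 1))) * ((p : ZMod (p ^ (k + 1 + 1))) * (p : ZMod (p ^ (k + 1 + 1))) ^ k)
      = (p : ZMod (p ^ (k + 1 + 1))) ^ (k + 1 + 1) := by ring
    rw [e, ppow_zero]
  obtain ⟨f1, hf1, hf1e⟩ := div_char hinj hsurj hχ h0
  have hf1c : ConjInv (ncl x) f1 := fun g a ha => hinj (by
    have hga : g⁻¹ * a * g ∈ ncl x := by simpa using (ncl_normal x).conj_mem a ha g⁻¹
    rw [hf1e a ha, hf1e _ hga]
    simp only [hinvL g a ha])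
  have hpk : (p : ZMod (p ^ (k + 1 + 1))) * θ x ≠ 0 := by
    rw [hθx]
    have e : (p : ZMod (p ^ (k + 1 + 1))) * (p : ZMod (p ^ (k + 1 + 1))) ^ k
      = (p : ZMod (p ^ (k + 1 + 1))) ^ (k + 1) := by ring
    rw [e]
    exact ppow_ne_zero hp (k + 1)
  have hf1r : f1 r = 0 := by
    by_contra hne1
    have := ncl_eq_of_char hp hF.index hr hf1 hf1c hne1
    exact hx (this ▸ mem_ncl x)
  have hpr : ∀ a ∈ ncl r, (p : ZMod (p ^ (k + 1 + 1))) * θ a = 0 := by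
    refine ConjInv.sub_ext (hχ.mono hle2) (hχc.mono hle2) ?_
    rw [← hf1e r hr, hf1r, map_zero]
  obtain ⟨f2, hf2, hf2e⟩ := div_char hinj hsurj (hθL.mono hle2) hpr
  have hf2c : ConjInv (ncl r) f2 := fun g a ha => hinj (by
    have hga : g⁻¹ * a * g ∈ ncl r := by simpa using (ncl_normal r).conj_mem a ha g⁻¹
    rw [hf2e a ha, hf2e _ hga]
    exact hinvL g a (hle2 ha))
  refine ncl_eq_of_char hp hF.index hxp hf2 hf2c fun h => hpk ?_
  have h2 := hf2e _ hxp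
  rw [h, map_zero, hθ.pow hxv] at h2
  exact h2.symm

/-- first step: a torsion element with `(x^p)^F ≠ r^F` is killed by `p θ` -/
theorem step1 (hp : p.Prime) (hF : FreeProP p ι) {r x v : F} {k : ℕ}
    {θ : F → ZMod (p ^ (k + 1))} (hθ : IsChar (ncl v) (p ^ (k + 1)) θ)
    (h1 : ∀ g, θ (g⁻¹ * v * g) = 1) (hr : r ∈ ncl v)
    (hrc : (v ^ (p ^ k))⁻¹ * r ∈ cder (ncl v)) (hxv : x ∈ ncl v) (hxp : x ^ p ∈ ncl r)
    (hbad : ncl (x ^ p) ≠ ncl r) : (p : ZMod (p ^ (k + 1))) * θ x = 0 := by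
  have hinv := theta_inv hθ h1
  have hle : ncl r ≤ ncl v := ncl_mono hr
  have hθr := theta_r hθ h1 hrc
  obtain ⟨inc, hinc, hinj, hsurj, hinc0⟩ := exists_inc hp k
  have hχ : IsChar (ncl r) (p ^ (k + 1)) (fun a => (p : ZMod (p ^ (k + 1))) * θ a) :=
    (hθ.mono hle).map (AddMonoidHom.mulLeft (p : ZMod (p ^ (k + 1))))
  have hpr : ∀ a ∈ ncl r, (p : ZMod (p ^ (k + 1))) * θ a = 0 := by
    refine ConjInv.sub_ext hχ (fun g a ha => by simp only [hinv g a (hle ha)]) ?_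
    rw [hθr]
    have e : (p : ZMod (p ^ (k + 1))) * (p : ZMod (p ^ (k + 1))) ^ k
      = (p : ZMod (p ^ (k + 1))) ^ (k + 1) := by ring
    rw [e, ppow_zero]
  obtain ⟨f2, hf2, hf2e⟩ := div_char hinj hsurj (hθ.mono hle) hpr
  have hf2c : ConjInv (ncl r) f2 := fun g a ha => hinj (by
    have hga : g⁻¹ * a * g ∈ ncl r := by simpa using (ncl_normal r).conj_mem a ha g⁻¹
    rw [hf2e a ha, hf2e _ hga]
    exact hinv g a (hle ha))
  have h2 : f2 (x ^ p) = 0 := by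
    by_contra hne
    exact hbad (ncl_eq_of_char hp hF.index hxp hf2 hf2c hne)
  have h3 := hf2e _ hxp
  rw [h2, map_zero, hθ.pow hxv] at h3
  exact h3.symm

theorem isClosed_sup {A B : Subgroup F} (hA : A.Normal) (hAcl : IsClosed (A : Set F))
    (hBcl : IsClosed (B : Set F)) : IsClosed ((A ⊔ B : Subgroup F) : Set F) := by
  have e : ((A ⊔ B : Subgroup F) : Set F) = (fun x : F × F => x.1 * x.2) '' ((A : Set F) ×ˢ (B : Set F)) := by
    ext y
    constructor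
    · intro hy
      obtain ⟨a, ha, b, hb, h⟩ := Subgroup.mem_sup_of_normal_left.1 hy
      exact ⟨(a, b), ⟨ha, hb⟩, h⟩
    · rintro ⟨⟨a, b⟩, ⟨ha, hb⟩, rfl⟩
      exact Subgroup.mul_mem _ ((le_sup_left : A ≤ A ⊔ B) ha) ((le_sup_right : B ≤ A ⊔ B) hb)
  rw [e]
  refine IsCompact.isClosed (IsCompact.image (hAcl.isCompact.prod hBcl.isCompact) ?_)
  exact continuous_fst.mul continuous_snd

/-- elements of `N` outside a closed normal subgroup containing the commutators are detected by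
characters which kill this subgroup -/
theorem sep_above (hp : p.Prime)
    (hidx : ∀ U : Subgroup F, IsOpen (U : Set F) → U.Normal → ∃ n : ℕ, U.index = p ^ n)
    {N M : Subgroup F} (hM : M.Normal) (hMcl : IsClosed (M : Set F))
    (hcomm0 : ∀ a ∈ N, ∀ b ∈ N, a * b * a⁻¹ * b⁻¹ ∈ M)
    {x : F} (hx : x ∈ N) (hxM : x ∉ M) :
    ∃ (m : ℕ) (χ : F → ZMod (p ^ m)), IsChar N (p ^ m) χ ∧ (∀ a ∈ N, a ∈ M → χ a = 0) ∧
      χ x ≠ 0 := by
  classical
  have := Fact.mk hp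
  obtain ⟨U, hU, hUn, hav⟩ := exists_open_avoid_sup hMcl {x} (by
    intro y hy
    rw [Finset.mem_singleton] at hy
    rw [hy]
    exact hxM)
  have hKn : (M ⊔ U).Normal := inferInstance
  have hK : IsOpen ((M ⊔ U : Subgroup F) : Set F) := Subgroup.isOpen_mono le_sup_right hU
  have hcomm : ∀ a ∈ N, ∀ b ∈ N, a * b * a⁻¹ * b⁻¹ ∈ M ⊔ U := fun a ha b hb =>
    (le_sup_left : M ≤ M ⊔ U) (hcomm0 a ha b hb)
  have hfin : Finite (F ⧸ (M ⊔ U)) := Subgroup.quotient_finite_of_isOpen _ hK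
  obtain ⟨n, hn⟩ := hidx _ hK hKn
  have hdvd : Nat.card ↥(N.map (QuotientGroup.mk' (M ⊔ U))) ∣ p ^ n := by
    rw [← hn]
    exact Subgroup.card_subgroup_dvd_card _
  obtain ⟨n', -, hn'⟩ := (Nat.dvd_prime_pow hp).1 hdvd
  letI : CommGroup ↥(N.map (QuotientGroup.mk' (M ⊔ U))) :=
    { (inferInstance : Group ↥(N.map (QuotientGroup.mk' (M ⊔ U)))) with
      mul_comm := comm_image hcomm }
  obtain ⟨m, φ, hφ⟩ := alg2 hp hn'
    (⟨QuotientGroup.mk' (M ⊔ U) x, Subgroup.mem_map_of_mem _ hx⟩ :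
      ↥(N.map (QuotientGroup.mk' (M ⊔ U)))) (by
    intro h
    have h2 : ((x : F) : F ⧸ (M ⊔ U)) = 1 := congrArg Subtype.val h
    exact hav x (Finset.mem_singleton_self x) ((QuotientGroup.eq_one_iff x).1 h2))
  obtain ⟨ψ, hψ1, hψ2, hψ3⟩ := pull_char hK (p ^ m) φ
  refine ⟨m, ψ, hψ1, fun a ha haM => hψ2 a ha ((le_sup_left : M ≤ M ⊔ U) haM), fun h => hφ ?_⟩
  rw [hψ3 x hx] at h
  exact h

/-- third step: if `x` is not in `R [N, N]` then `x^p` is detected by an `N`-invariant character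
of `R` -/
theorem step3 (hp : p.Prime) (hF : FreeProP p ι) {r x : F} {N : Subgroup F} (hN : N.Normal)
    (hr : r ∈ N) (hNcl : IsClosed (N : Set F)) (hx : x ∈ N) (hxp : x ^ p ∈ ncl r)
    (hxM : x ∉ ncl r ⊔ cder N) :
    ∃ f : F → ZMod p, IsChar (ncl r) p f ∧ (∀ n ∈ N, ∀ a ∈ ncl r, f (n⁻¹ * a * n) = f a) ∧
      f (x ^ p) ≠ 0 := by
  have hRn := ncl_normal r
  have hDn := cder_normal hN
  have hMn : (ncl r ⊔ cder N).Normal := inferInstance
  have hMcl : IsClosed ((ncl r ⊔ cder N : Subgroup F) : Set F) :=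
    isClosed_sup hRn (ncl_closed r) (cder_closed N)
  have hle : ncl r ≤ N := ncl_le hN hNcl hr
  obtain ⟨m, χ, hχ, hχM, hχx⟩ := sep_above hp hF.index hMn hMcl
    (fun a ha b hb => (le_sup_right : cder N ≤ ncl r ⊔ cder N) (comm_mem_cder ha hb)) hx hxM
  have hdvd : p ^ m ∣ p ^ (m + 1) := pow_dvd_pow p (Nat.le_succ m)
  obtain ⟨χ', hχ', hlift⟩ := char_lift hp hF hN rfl rfl hdvd hχ
  obtain ⟨inc, hinc, hinj, hsurj, hinc0⟩ := exists_inc hp m
  have h0 : ∀ a ∈ ncl r, (p : ZMod (p ^ (m + 1))) * χ' a = 0 := by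
    intro a ha
    rw [mul_cast_zero hp hdvd, hlift a (hle ha)]
    exact hχM a (hle ha) ((le_sup_left : ncl r ≤ ncl r ⊔ cder N) ha)
  obtain ⟨f, hf, hfe⟩ := div_char hinj hsurj (hχ'.mono hle) h0
  refine ⟨f, hf, fun n hn a ha => hinj ?_, fun h => hχx ?_⟩
  · have hna : n⁻¹ * a * n ∈ ncl r := by simpa using hRn.conj_mem a ha n⁻¹
    rw [hfe a ha, hfe _ hna, hχ'.1 _ (N.mul_mem (N.inv_mem hn) (hle ha)) _ hn,
      hχ'.1 _ (N.inv_mem hn) _ (hle ha), hχ'.inv hn]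
    ring
  · have h2 := hfe _ hxp
    rw [h, map_zero, hχ'.pow hx] at h2
    have h3 := (mul_cast_zero hp hdvd (χ' x)).1 h2.symm
    rw [hlift x hx] at h3
    exact h3

end Pool.Agent.Serre
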