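import Pool.Agent.Work.MP_0b5d1f_al.Tor1

set_option autoImplicit false
set_option linter.unusedSectionVars false
set_option linter.style.haveILetI false

/-!
# Elements of order `p` of `F / r^F`, second part
-/

namespace Pool.Agent.Serre

open Finset

variable {F : Type} [Group F] [TopologicalSpace F] [IsTopologicalGroup F] [CompactSpace F]
  [T2Space F] [TotallyDisconnectedSpace F]

variable {p : ℕ} {X : Type} {ι : X → F}

/-- right translation by `v` -/
def RR (p : ℕ) (v : F) : Module.End (ZMod p) (F → ZMod p) where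
  toFun φ := fun x => φ (x * v)
  map_add' _ _ := rfl
  map_smul' _ _ := rfl

/-- the difference operator of the right translation by `v` -/
def TV (p : ℕ) (v : F) : Module.End (ZMod p) (F → ZMod p) := RR p v - 1

theorem RR_apply (v : F) (φ : F → ZMod p) (x : F) : RR p v φ x = φ (x * v) := rfl

theorem TV_apply (v : F) (φ : F → ZMod p) (x : F) : TV p v φ x = φ (x * v) - φ x := rfl

theorem RInv_TV {H : Subgroup F} (hH : H.Normal) (v : F) {φ : F → ZMod p} (hφ : RInv H φ) :
    RInv H (TV p v φ) := by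
  intro x u hu
  rw [TV_apply, TV_apply, hφ x u hu]
  have := hφ.rho hH v x u hu
  simp only at this
  rw [this]

theorem RInv_TVpow {H : Subgroup F} (hH : H.Normal) (v : F) {φ : F → ZMod p} (hφ : RInv H φ)
    (i : ℕ) : RInv H ((TV p v ^ i) φ) := by
  induction i with
  | zero => simpa using hφ
  | succ i ih =>
    rw [pow_succ', Module.End.mul_apply]
    exact RInv_TV hH v ih

theorem TV_mul_inv (v : F) (φ : F → ZMod p) {f : F → ZMod p} (hf : ∀ x, f (x * v) = f x) :
    TV p v (φ * f) = TV p v φ * f := by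
  funext x
  simp only [TV_apply, Pi.mul_apply, hf]
  ring

theorem TVpow_mul_inv (v : F) (φ : F → ZMod p) {f : F → ZMod p} (hf : ∀ x, f (x * v) = f x)
    (i : ℕ) : (TV p v ^ i) (φ * f) = (TV p v ^ i) φ * f := by
  induction i with
  | zero => simp
  | succ i ih =>
    rw [pow_succ', Module.End.mul_apply, Module.End.mul_apply, ih, TV_mul_inv v _ hf]

theorem TV_RR {E : Subgroup F} {v g : F} (hvg : v⁻¹ * (g⁻¹ * v * g) ∈ E)
    {φ : F → ZMod p} (hφ : RInv E φ) : TV p v (RR p g φ) = RR p g (TV p v φ) := by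
  funext x
  simp only [TV_apply, RR_apply]
  have e : x * v * g = x * g * v * (v⁻¹ * (g⁻¹ * v * g)) := by group
  rw [e, hφ _ _ hvg]

theorem TVpow_RR {E : Subgroup F} (hE : E.Normal) {v g : F} (hvg : v⁻¹ * (g⁻¹ * v * g) ∈ E)
    {φ : F → ZMod p} (hφ : RInv E φ) (i : ℕ) :
    (TV p v ^ i) (RR p g φ) = RR p g ((TV p v ^ i) φ) := by
  induction i with
  | zero => simp
  | succ i ih =>
    rw [pow_succ', Module.End.mul_apply, Module.End.mul_apply, ih,
      TV_RR hvg (RInv_TVpow hE v hφ i)]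

theorem TV_pow_zero (hp : p.Prime) {k : ℕ} {v : F} {φ : F → ZMod p}
    (hφ : ∀ x, φ (x * v ^ (p ^ k)) = φ x) : (TV p v ^ (p ^ k)) φ = 0 := by
  have := Fact.mk hp
  have hch : CharP (Module.End (ZMod p) (F → ZMod p)) p := by
    refine charP_of_injective_algebraMap (R := ZMod p) ?_ p
    exact (algebraMap (ZMod p) (Module.End (ZMod p) (F → ZMod p))).injective
  have hpow : ∀ n : ℕ, (RR p v) ^ n = RR p (v ^ n) := by
    intro n
    induction n with
    | zero =>
      rw [pow_zero, pow_zero]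
      apply LinearMap.ext
      intro ψ
      funext x
      rw [RR_apply, mul_one]
      rfl
    | succ n ih =>
      rw [pow_succ, ih]
      apply LinearMap.ext
      intro ψ
      funext x
      rw [Module.End.mul_apply, RR_apply, RR_apply, RR_apply, pow_succ, mul_assoc]
  have h1 : TV p v ^ (p ^ k) = RR p (v ^ (p ^ k)) - 1 := by
    rw [TV, sub_pow_expChar_pow_of_commute _ _ (Commute.one_right _), one_pow, hpow]
  rw [h1]
  funext x
  rw [LinearMap.sub_apply, Pi.sub_apply, RR_apply, hφ]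
  simp

/-- derivations with values in the functions on `F / H`, `H` open normal containing `E` -/
def IsDE (p : ℕ) (E : Subgroup F) (δ : F → F → ZMod p) : Prop :=
  ∃ H : Subgroup F, IsOpen (H : Set F) ∧ H.Normal ∧ E ≤ H ∧ IsDer H p δ

theorem IsDE.ext (hp : p.Prime) (hF : FreeProP p ι) {E : Subgroup F} {δ δ' : F → F → ZMod p}
    (h : IsDE p E δ) (h' : IsDE p E δ') (heq : ∀ x, δ (ι x) = δ' (ι x)) : δ = δ' := by
  obtain ⟨H, hH, hHn, -, h1⟩ := h
  obtain ⟨H', hH', hHn', -, h1'⟩ := h'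
  exact der_unique' (H := H ⊓ H') hp hF (hH.inter hH') inferInstance (h1.mono inf_le_left)
    (h1'.mono inf_le_right) heq

theorem IsDE.zero {E : Subgroup F} : IsDE p E (0 : F → F → ZMod p) :=
  ⟨⊤, by simp, inferInstance, le_top, IsDer.zero⟩

theorem IsDE.add {E : Subgroup F} {δ δ' : F → F → ZMod p}
    (h : IsDE p E δ) (h' : IsDE p E δ') : IsDE p E (δ + δ') := by
  obtain ⟨H, hH, hHn, hE, h1⟩ := h
  obtain ⟨H', hH', hHn', hE', h1'⟩ := h'
  exact ⟨H ⊓ H', hH.inter hH', inferInstance, le_inf hE hE', (h1.mono inf_le_left).add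
    (h1'.mono inf_le_right)⟩

theorem IsDE.smul {E : Subgroup F} {δ : F → F → ZMod p} (c : ZMod p)
    (h : IsDE p E δ) : IsDE p E (c • δ) := by
  obtain ⟨H, hH, hHn, hE, h1⟩ := h
  exact ⟨H, hH, hHn, hE, h1.smul c⟩

theorem IsDE.sub {E : Subgroup F} {δ δ' : F → F → ZMod p}
    (h : IsDE p E δ) (h' : IsDE p E δ') : IsDE p E (δ - δ') := by
  have h1 := h.add (h'.smul (-1))
  have e : δ + (-1 : ZMod p) • δ' = δ - δ' := by
    rw [neg_one_smul, ← sub_eq_add_neg]
  rwa [e] at h1

theorem IsDE.TV {E : Subgroup F} {δ : F → F → ZMod p} (v : F)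
    (h : IsDE p E δ) : IsDE p E (fun g => TV p v (δ g)) := by
  obtain ⟨H, hH, hHn, hE, h1⟩ := h
  refine ⟨H, hH, hHn, hE, ⟨fun g h x => ?_, fun g => RInv_TV hHn v (h1.inv g), ?_⟩⟩
  · simp only [TV_apply, h1.mul, mul_assoc]
    ring
  · obtain ⟨W, hW, hWn, hW0⟩ := h1.cont
    refine ⟨W, hW, hWn, fun w hw x => ?_⟩
    rw [TV_apply, hW0 w hw, hW0 w hw, sub_zero]

theorem IsDE.TVpow {E : Subgroup F} {δ : F → F → ZMod p} (v : F)
    (h : IsDE p E δ) (i : ℕ) : IsDE p E (fun g => (Serre.TV p v ^ i) (δ g)) := by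
  induction i with
  | zero => simpa using h
  | succ i ih =>
    have := ih.TV v
    have e : (fun g => (Serre.TV p v ^ (i + 1)) (δ g)) =
        fun g => Serre.TV p v ((Serre.TV p v ^ i) (δ g)) := by
      funext g
      rw [pow_succ', Module.End.mul_apply]
    rw [e]
    exact this

theorem DD.isDE {E : Subgroup F} {x : X} {f : F → ZMod p} {δ : F → F → ZMod p}
    (h : DD p ι E x f δ) : IsDE p E δ := by
  obtain ⟨H, hH, hHn, hE, h1, -⟩ := h
  exact ⟨H, hH, hHn, hE, h1⟩

/-! ### binomial functions -/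

theorem TV_bb (hp : p.Prime) {k : ℕ} {v : F} {a : F → ZMod (p ^ k)}
    (ha : ∀ x, a (x * v) = a x + 1) {i : ℕ} (hi : i + 1 < p ^ k) :
    TV p v (fun x => bb p (a x) (i + 1)) = fun x => bb p (a x) i := by
  funext x
  have hne : NeZero (p ^ k) := ⟨pow_ne_zero _ hp.ne_zero⟩
  have hlt : 1 < p ^ k := by omega
  have hval : (1 : ZMod (p ^ k)).val = 1 := by
    have : Fact (1 < p ^ k) := ⟨hlt⟩
    exact ZMod.val_one (p ^ k)
  have hb : ∀ m, bb p (1 : ZMod (p ^ k)) m = ((Nat.choose 1 m : ℕ) : ZMod p) := by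
    intro m
    simp only [bb, hval]
  rw [TV_apply]
  simp only [ha]
  rw [bb_add hp _ _ hi, Finset.sum_range_succ, Finset.sum_range_succ, Finset.sum_eq_zero]
  · have e1 : i + 1 - i = 1 := by omega
    rw [e1, Nat.sub_self, hb, hb]
    simp
  · intro j hj
    rw [Finset.mem_range] at hj
    rw [hb, Nat.choose_eq_zero_of_lt (by omega)]
    simp

theorem TVpow_bb (hp : p.Prime) {k : ℕ} {v : F} {a : F → ZMod (p ^ k)}
    (ha : ∀ x, a (x * v) = a x + 1) {i : ℕ} (hi : i < p ^ k) :
    (TV p v ^ i) (fun x => bb p (a x) i) = 1 := by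
  induction i with
  | zero =>
    funext x
    rw [pow_zero, Module.End.one_apply, bb_zero]
    rfl
  | succ i ih =>
    rw [pow_succ, Module.End.mul_apply, TV_bb hp ha hi]
    exact ih (by omega)

end Pool.Agent.Serre
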