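import Pool.Agent.Work.MP_0b5d1f_al.Tor2

set_option autoImplicit false
set_option linter.unusedSectionVars false
set_option linter.style.haveILetI false

/-!
# Elements of order `p` of `F / r^F`, third part
-/

namespace Pool.Agent.Serre

open Finset

variable {F : Type} [Group F] [TopologicalSpace F] [IsTopologicalGroup F] [CompactSpace F]
  [T2Space F] [TotallyDisconnectedSpace F]

variable {p : ℕ} {X : Type} {ι : X → F}

section

variable {v : F} {k : ℕ} {θ : F → ZMod (p ^ k)} (hθ : IsChar (ncl v) (p ^ k) θ)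

include hθ

theorem kerC_normal (h1 : ∀ g, θ (g⁻¹ * v * g) = 1) : (kerC hθ).Normal := by
  have hinv := theta_inv hθ h1
  constructor
  rintro n ⟨hn, hn0⟩ g
  refine ⟨(ncl_normal v).conj_mem n hn g, ?_⟩
  have := hinv g⁻¹ n hn
  rw [inv_inv] at this
  rw [this, hn0]

theorem conj_v_mem (h1 : ∀ g, θ (g⁻¹ * v * g) = 1) (g : F) :
    v⁻¹ * (g⁻¹ * v * g) ∈ kerC hθ := by
  have hc : g⁻¹ * v * g ∈ ncl v := by simpa using (ncl_normal v).conj_mem v (mem_ncl v) g⁻¹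
  have hv1 : θ v = 1 := by simpa using h1 1
  refine ⟨(ncl v).mul_mem ((ncl v).inv_mem (mem_ncl v)) hc, ?_⟩
  rw [hθ.1 _ ((ncl v).inv_mem (mem_ncl v)) _ hc, hθ.inv (mem_ncl v), h1 g, hv1]
  ring

theorem vpow_mem (h1 : ∀ g, θ (g⁻¹ * v * g) = 1) : v ^ (p ^ k) ∈ kerC hθ := by
  have hv1 : θ v = 1 := by simpa using h1 1
  refine ⟨(ncl v).pow_mem (mem_ncl v) _, ?_⟩
  rw [hθ.pow (mem_ncl v), hv1, mul_one, ZMod.natCast_self]

theorem RInv_ncl (hp : p.Prime) (h1 : ∀ g, θ (g⁻¹ * v * g) = 1) {φ : F → ZMod p} (hφ : RInv (kerC hθ) φ)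
    (hφv : ∀ x, φ (x * v) = φ x) : RInv (ncl v) φ := by
  have hne : NeZero (p ^ k) := ⟨pow_ne_zero _ hp.ne_zero⟩
  have hv1 : θ v = 1 := by simpa using h1 1
  have hpow : ∀ (m : ℕ) x, φ (x * v ^ m) = φ x := by
    intro m
    induction m with
    | zero => intro x; simp
    | succ m ih =>
      intro x
      rw [pow_succ, ← mul_assoc, hφv, ih]
  intro x n hn
  have hmem : (v ^ (θ n).val)⁻¹ * n ∈ kerC hθ := by
    have h2 : v ^ (θ n).val ∈ ncl v := (ncl v).pow_mem (mem_ncl v) _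
    refine ⟨(ncl v).mul_mem ((ncl v).inv_mem h2) hn, ?_⟩
    rw [hθ.1 _ ((ncl v).inv_mem h2) _ hn, hθ.inv h2, hθ.pow (mem_ncl v), hv1, mul_one,
      ZMod.natCast_zmod_val]
    ring
  have e : x * n = x * v ^ (θ n).val * ((v ^ (θ n).val)⁻¹ * n) := by group
  rw [e, hφ _ _ hmem, hpow]

theorem exists_afun : ∃ a : F → ZMod (p ^ k),
    (∀ x, ∀ n ∈ ncl v, a (x * n) = a x + θ n) ∧
    ∃ U : Subgroup F, IsOpen (U : Set F) ∧ U.Normal ∧ RInv U a := by
  obtain ⟨g1, U, hU, hUn, g2⟩ := id hθ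
  obtain ⟨G, hG1, hG2, -⟩ := ext_fun (ncl_normal v) hUn θ g1 g2
  refine ⟨fun x => -G x⁻¹, fun x n hn => ?_, U, hU, hUn, fun x u hu => ?_⟩
  · have e : (x * n)⁻¹ = n⁻¹ * x⁻¹ := by group
    simp only [e, hG1 _ ((ncl v).inv_mem hn), hθ.inv hn]
    ring
  · have e : (x * u)⁻¹ = u⁻¹ * x⁻¹ := by group
    simp only [e, RInv.left hUn hG2 (U.inv_mem hu)]

/-- derivations which are invariant under `v` vanish at `r` -/
theorem der_r_zero (hp : p.Prime) (hk : 1 ≤ k) (h1 : ∀ g, θ (g⁻¹ * v * g) = 1)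
    {r : F} (hr : r ∈ ncl v) (hrc : (v ^ (p ^ k))⁻¹ * r ∈ cder (ncl v))
    {δ : F → F → ZMod p} (hδ : IsDE p (kerC hθ) δ) (h0 : ∀ g, TV p v (δ g) = 0) : δ r = 0 := by
  have hN := ncl_normal v
  obtain ⟨H, hH, hHn, hE, hd⟩ := hδ
  have hinv : ∀ g, RInv (ncl v) (δ g) := by
    intro g
    refine RInv_ncl hθ hp h1 ((hd.inv g).mono hE) fun x => ?_
    have := congrFun (h0 g) x
    rw [TV_apply] at this
    exact sub_eq_zero.1 this
  have hd2 : IsDer (ncl v ⊔ H) p δ := ⟨hd.mul, fun g => RInv.sup hHn (hinv g) (hd.inv g), hd.cont⟩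
  have hχ : IsChar (ncl v) p (fun n => δ n 1) := hd2.char le_sup_left
  have hcl := ncl_closed v
  funext g
  have h2 := hd2.conj_val hN le_sup_left hr g
  rw [← h2]
  have e : g⁻¹ * r * g = (g⁻¹ * v * g) ^ (p ^ k) * (g⁻¹ * ((v ^ (p ^ k))⁻¹ * r) * g) := by
    have : (g⁻¹ * v * g) ^ (p ^ k) = g⁻¹ * v ^ (p ^ k) * g := by
      have := conj_pow (i := p ^ k) (a := g⁻¹) (b := v)
      simpa using this
    rw [this]
    group
  have hc1 : g⁻¹ * v * g ∈ ncl v := by simpa using hN.conj_mem v (mem_ncl v) g⁻¹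
  have hc2 : g⁻¹ * ((v ^ (p ^ k))⁻¹ * r) * g ∈ cder (ncl v) := by
    simpa using (cder_normal hN).conj_mem _ hrc g⁻¹
  have h3 := hχ.1 _ ((ncl v).pow_mem hc1 (p ^ k)) _ (cder_le hN hcl hc2)
  rw [← e] at h3
  have hpk : ((p ^ k : ℕ) : ZMod p) = 0 := by
    rw [ZMod.natCast_eq_zero_iff]
    exact dvd_pow_self p (by omega)
  have h4 := hχ.kill_cder hcl hc2
  have h5 := hχ.pow hc1 (p ^ k)
  rw [hpk, zero_mul] at h5
  refine h3.trans ?_
  change δ ((g⁻¹ * v * g) ^ p ^ k) 1 + δ (g⁻¹ * ((v ^ p ^ k)⁻¹ * r) * g) 1 = 0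
  rw [h5, h4, add_zero]

end

/-- every `N`-invariant character of `R` kills `x ^ p` -/
theorem step2 (hp : p.Prime) (hF : FreeProP p ι) {v r : F} {k : ℕ} (hk : 1 ≤ k)
    (hgood : Good p (ncl v)) {θ : F → ZMod (p ^ k)} (hθ : IsChar (ncl v) (p ^ k) θ)
    (h1 : ∀ g, θ (g⁻¹ * v * g) = 1) (hr : r ∈ ncl v)
    (hrc : (v ^ (p ^ k))⁻¹ * r ∈ cder (ncl v))
    {e0 : F → ZMod p} (he0 : IsChar (kerC hθ) p e0) (he0r : e0 r ≠ 0) (hrE : r ∈ kerC hθ)
    {f : F → ZMod p} (hf : IsChar (ncl r) p f)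
    (hfN : ∀ n ∈ ncl v, ∀ a ∈ ncl r, f (n⁻¹ * a * n) = f a) :
    ∃ χ : F → ZMod p, IsChar (kerC hθ) p χ ∧ ∀ a ∈ ncl r, χ a = f a := by
  classical
  have := Fact.mk hp
  have hN := ncl_normal v
  have hEn : (kerC hθ).Normal := kerC_normal hθ h1
  have hEN : kerC hθ ≤ ncl v := fun x hx => hx.1
  have hEcl : IsClosed ((kerC hθ : Subgroup F) : Set F) := kerC_closed (ncl_closed v) hθ
  have hv1 : θ v = 1 := by simpa using h1 1
  have hvE := vpow_mem hθ h1
  -- the binomial functions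
  obtain ⟨a, ha, Ua, hUa, hUan, haU⟩ := exists_afun hθ
  have hav : ∀ x, a (x * v) = a x + 1 := fun x => by rw [ha x v (mem_ncl v), hv1]
  have haE : RInv (kerC hθ) a := fun x e he => by rw [ha x e he.1, he.2, add_zero]
  have hbLC : ∀ i, (fun x => bb p (a x) i) ∈ LC p (kerC hθ) := fun i =>
    ⟨fun x e he => by simp only [haE x e he], Ua, hUa, hUan, fun x u hu => by
      simp only [haU x u hu]⟩
  have hvinv : ∀ g ∈ LC p (ncl v), ∀ x, g (x * v) = g x := fun g hg x => hg.1 x v (mem_ncl v)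
  have hbf : ∀ i, ∀ g ∈ LC p (ncl v), (fun x => bb p (a x) i) * g ∈ LC p (kerC hθ) := fun i g hg =>
    LC_mul (hbLC i) (LC_anti p hEN hg)
  -- the property `P`
  let P : ℕ → Prop := fun i => ∀ δ : F → F → ZMod p, IsDE p (kerC hθ) δ →
    (∀ g, (TV p v ^ i) (δ g) = 0) → δ r = 0
  have hP1 : P 1 := by
    intro δ hδ h0
    exact der_r_zero hθ hp hk h1 hr hrc hδ fun g => by simpa using h0 g
  have hP0 : P 0 := by
    intro δ hδ h0
    simpa using h0 r
  have hPk : ¬ P (p ^ k) := by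
    intro hP
    obtain ⟨H, hH, hHn, hEH, δ, hδ, hδe⟩ := shapiro hEn he0
    have h2 := hP δ ⟨H, hH, hHn, hEH, hδ⟩ fun g =>
      TV_pow_zero hp fun x => (hδ.inv g).mono hEH x _ hvE
    apply he0r
    rw [← hδe r hrE, h2]
    rfl
  have hex : ∃ i, ¬ P i := ⟨_, hPk⟩
  obtain ⟨j, hj1, hPj, hPj1, hjk⟩ : ∃ j, 1 ≤ j ∧ P j ∧ ¬ P (j + 1) ∧ j < p ^ k := by
    have h3 := Nat.find_spec hex
    have h4 : Nat.find hex ≤ p ^ k := Nat.find_min' hex hPk
    have h5 : 2 ≤ Nat.find hex := by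
      by_contra hlt
      have h6 : Nat.find hex = 0 ∨ Nat.find hex = 1 := by omega
      rcases h6 with h6 | h6
      · rw [h6] at h3; exact h3 hP0
      · rw [h6] at h3; exact h3 hP1
    refine ⟨Nat.find hex - 1, by omega, ?_, ?_, by omega⟩
    · by_contra hcon
      exact Nat.find_min hex (by omega : Nat.find hex - 1 < Nat.find hex) hcon
    · have e : Nat.find hex - 1 + 1 = Nat.find hex := by omega
      rw [e]
      exact h3
  have hbj : (TV p v ^ j) (fun x => bb p (a x) j) = 1 := TVpow_bb hp hav hjk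
  have hTbf : ∀ g ∈ LC p (ncl v), (TV p v ^ j) ((fun x => bb p (a x) j) * g) = g := by
    intro g hg
    rw [TVpow_mul_inv v _ (hvinv g hg), hbj, one_mul]
  -- a derivation which does not vanish at `r`
  simp only [P] at hPj1
  push Not at hPj1
  obtain ⟨δ, hδ, hδ0, hδr⟩ := hPj1
  let fx : X → F → ZMod p := fun x => (TV p v ^ j) (δ (ι x))
  obtain ⟨H, hH, hHn, hEH, hd⟩ := id hδ
  have hfx : ∀ x, fx x ∈ LC p (ncl v) := by
    intro x
    have hi : RInv H (fx x) := RInv_TVpow hHn v (hd.inv _) j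
    refine ⟨RInv_ncl hθ hp h1 (hi.mono hEH) fun y => ?_, H, hH, hHn, hi⟩
    have h2 := congrFun (hδ0 (ι x)) y
    rw [pow_succ', Module.End.mul_apply, TV_apply] at h2
    exact sub_eq_zero.1 h2
  obtain ⟨S, hS⟩ : ∃ S : Finset X, ∀ x, x ∈ S ↔ δ (ι x) ≠ 0 :=
    ⟨(hd.supp hF).toFinset, fun x => by simp⟩
  have hfx0 : ∀ x, x ∉ S → fx x = 0 := by
    intro x hx
    have : δ (ι x) = 0 := by
      by_contra hne
      exact hx ((hS x).2 hne)
    simp only [fx, this, map_zero]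
  -- the elementary derivations
  have hex2 : ∀ (x : X) (g : F → ZMod p), g ∈ LC p (kerC hθ) → ∃ δ', DD p ι (kerC hθ) x g δ' :=
    fun x g hg => DD.exists hp hF hEn x hg
  choose D hD using fun x => hex2 x _ (hbf j _ (hfx x))
  have hDE : ∀ x, IsDE p (kerC hθ) (D x) := fun x => (hD x).isDE
  have hsumE : IsDE p (kerC hθ) (∑ x ∈ S, D x) := by
    have : ∀ T : Finset X, IsDE p (kerC hθ) (∑ x ∈ T, D x) := by
      intro T
      induction T using Finset.induction_on with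
      | empty => simpa using (IsDE.zero (p := p) (E := kerC hθ))
      | insert x T hx ih =>
        rw [Finset.sum_insert hx]
        exact (hDE x).add ih
    exact this S
  have hDval : ∀ x y, D x (ι y) = if y = x then (fun z => bb p (a z) j) * fx x else 0 := by
    intro x y
    obtain ⟨H', -, -, -, -, h⟩ := hD x
    exact h y
  have hsumval : ∀ y, (∑ x ∈ S, D x) (ι y) = (fun z => bb p (a z) j) * fx y := by
    intro y
    rw [Finset.sum_apply]
    simp only [hDval]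
    rw [Finset.sum_ite_eq]
    by_cases hy : y ∈ S
    · rw [if_pos hy]
    · rw [if_neg hy, hfx0 y hy, mul_zero]
  have hcmp : (fun g => (TV p v ^ j) ((∑ x ∈ S, D x) g)) = fun g => (TV p v ^ j) (δ g) := by
    refine IsDE.ext hp hF (hsumE.TVpow v j) (hδ.TVpow v j) fun y => ?_
    simp only [hsumval]
    exact hTbf _ (hfx y)
  have hDr : (∑ x ∈ S, D x) r = δ r := by
    have h2 := hPj (δ - ∑ x ∈ S, D x) (hδ.sub hsumE) fun g => by
      rw [Pi.sub_apply, map_sub, ← congrFun hcmp g, sub_self]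
    rw [Pi.sub_apply] at h2
    exact (sub_eq_zero.1 h2).symm
  obtain ⟨x, hxS, y, hxy⟩ : ∃ x ∈ S, ∃ y, D x r y ≠ 0 := by
    by_contra hcon
    push Not at hcon
    apply hδr
    rw [← hDr, Finset.sum_apply]
    refine Finset.sum_eq_zero fun x hx => ?_
    funext y
    exact hcon x hx y
  -- the functional
  obtain ⟨τ0, hτ0⟩ := exists_tau hp hF hEn x r
  let τ : (F → ZMod p) →ₗ[ZMod p] ZMod p := τ0 ∘ₗ mulL (fun z => bb p (a z) j)
  have hτ : ∀ g, τ g = τ0 ((fun z => bb p (a z) j) * g) := by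
    intro g
    rfl
  -- equivariance
  have hequiv : ∀ g ∈ LC p (ncl v), ∀ δ', DD p ι (kerC hθ) x ((fun z => bb p (a z) j) * g) δ' →
      ∀ y, δ' r y = τ (fun h => g (h * y)) := by
    intro g hg δ' hδ' y
    have hgy : (fun h => g (h * y)) ∈ LC p (ncl v) := LC_rho hN hg y
    have hb : (fun h => bb p (a (h * y)) j) ∈ LC p (kerC hθ) := LC_rho hEn (hbLC j) y
    have h2 := hτ0 _ (LC_rho hEn (hbf j g hg) y) _ (hδ'.rho y)
    rw [one_mul] at h2
    rw [← h2, hτ]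
    -- the difference
    have hφLC : (fun h => bb p (a (h * y)) j) * (fun h => g (h * y)) -
        (fun z => bb p (a z) j) * (fun h => g (h * y)) ∈ LC p (kerC hθ) :=
      (LC p (kerC hθ)).sub_mem (LC_mul hb (LC_anti p hEN hgy)) (hbf j _ hgy)
    obtain ⟨δ'', hδ''⟩ := hex2 x _ hφLC
    have hT : (TV p v ^ j) ((fun h => bb p (a (h * y)) j) * (fun h => g (h * y)) -
        (fun z => bb p (a z) j) * (fun h => g (h * y))) = 0 := by
      rw [map_sub, hTbf _ hgy, TVpow_mul_inv v _ (hvinv _ hgy)]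
      have e : (fun h => bb p (a (h * y)) j) = RR p y (fun h => bb p (a h) j) := rfl
      rw [e, TVpow_RR hEn (conj_v_mem hθ h1 y) (hbLC j).1, hbj]
      have e2 : RR p y (1 : F → ZMod p) = 1 := rfl
      rw [e2, one_mul, sub_self]
    have h3 : δ'' r = 0 := by
      refine hPj δ'' hδ''.isDE fun g' => ?_
      have h4 : (fun g' => (TV p v ^ j) (δ'' g')) = 0 := by
        refine IsDE.ext hp hF (hδ''.isDE.TVpow v j) IsDE.zero fun z => ?_
        obtain ⟨H', -, -, -, -, h⟩ := hδ''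
        simp only [h z]
        by_cases hz : z = x
        · rw [if_pos hz, hT]; rfl
        · rw [if_neg hz, map_zero]; rfl
      exact congrFun h4 g'
    have h5 := hτ0 _ hφLC _ hδ''
    rw [h3, map_sub] at h5
    simp only [Pi.zero_apply] at h5
    exact sub_eq_zero.1 h5
  have hτne : ∃ g ∈ LC p (ncl v), τ g ≠ 0 := by
    refine ⟨fun h => fx x (h * y), LC_rho hN (hfx x) y, ?_⟩
    rw [← hequiv _ (hfx x) _ (hD x) y]
    exact hxy
  -- surjectivity
  have hf'LC : (fun g => f (g⁻¹ * r * g)) ∈ LC p (ncl v) := by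
    obtain ⟨-, i2⟩ := hf.fun_inv (ncl_normal r) (mem_ncl r)
    refine ⟨fun g n hn => ?_, i2⟩
    have hga : g⁻¹ * r * g ∈ ncl r := by
      simpa using (ncl_normal r).conj_mem r (mem_ncl r) g⁻¹
    have e : (g * n)⁻¹ * r * (g * n) = n⁻¹ * (g⁻¹ * r * g) * n := by group
    simp only [e]
    exact hfN n hn _ hga
  obtain ⟨g1, hg1, hg1e⟩ := hgood.surj τ hτne hf'LC
  obtain ⟨δ1, hδ1⟩ := hex2 x _ (hbf j g1 hg1)
  obtain ⟨H1, hH1, hHn1, hEH1, hd1, -⟩ := id hδ1
  refine ⟨fun n => δ1 n 1, hd1.char hEH1, fun b hb => ?_⟩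
  have hle : ncl r ≤ kerC hθ := ncl_le hEn hEcl hrE
  refine char_ext_ncl ((hd1.char hEH1).mono hle) hf (fun g => ?_) b hb
  rw [hd1.conj_val hEn hEH1 hrE g, hequiv g1 hg1 δ1 hδ1 g, hg1e g]

end Pool.Agent.Serre
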