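import Pool.Agent.Work.MP_0b5d1f_al.Final2

set_option autoImplicit false
set_option linter.unusedSectionVars false
set_option linter.style.haveILetI false

/-!
# Quotients of one-relator pro-`p` groups by elements of order `p`
-/

namespace Pool.Agent.Serre

open MonoidAlgebra

section Converse

variable {F : Type} [Group F] [TopologicalSpace F] {p : ℕ}

/-- an element of `(ZMod p)[F/U]` is determined by the evaluations -/
theorem ev_ext (hp : p.Prime) {U : OpenNormalSubgroup F} {x : GA p U}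
    (hx : ∀ f : F → ZMod p, RInv U.toSubgroup f → ev f x = 0) : x = 0 := by
  classical
  have := Fact.mk hp
  apply MonoidAlgebra.coeff_injective
  ext q
  change x.coeff q = 0
  let f : F → ZMod p := fun h => if (h : F ⧸ U.toSubgroup) = q then 1 else 0
  have hfU : RInv U.toSubgroup f := by
    intro g u hu
    have : ((g * u : F) : F ⧸ U.toSubgroup) = (g : F ⧸ U.toSubgroup) := by
      rw [QuotientGroup.eq]
      simpa [mul_assoc] using hu
    simp only [f, this]
  have h1 := hx f hfU
  rw [ev, Finsupp.sum, Finset.sum_eq_single q] at h1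
  · simpa [f] using h1
  · intro q' _ hne
    simp [f, hne]
  · intro hq
    rw [Finsupp.notMem_support_iff] at hq
    rw [hq, zero_mul]

theorem ev_sum {U : Subgroup F} {J : Type} (s : Finset J) (f : F → ZMod p)
    (x : J → MonoidAlgebra (ZMod p) (F ⧸ U)) :
    ev f (∑ j ∈ s, x j) = ∑ j ∈ s, ev f (x j) := by
  classical
  induction s using Finset.induction_on with
  | empty => simp [ev_zero]
  | insert a s ha ih => rw [Finset.sum_insert ha, Finset.sum_insert ha, ev_add, ih]

variable [IsTopologicalGroup F] [CompactSpace F]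

/-- the element of the completed group algebra attached to a functional -/
theorem exists_fam (hp : p.Prime) (N : Subgroup F) (τ : (F → ZMod p) →ₗ[ZMod p] ZMod p) :
    ∃ a : Fam p N, Compat a ∧ ∀ (U : OpenOver N) (f : F → ZMod p), RInv U.1.toSubgroup f →
      ev f (a U) = τ f := by
  classical
  have hex : ∀ U : OpenOver N, ∃ x : GA p U.1, ∀ f : F → ZMod p, RInv U.1.toSubgroup f →
      ev f x = τ f := by
    intro U
    obtain ⟨J, t, ht⟩ := fin_eval U.1.isOpen' τ
    refine ⟨∑ j ∈ J, MonoidAlgebra.single (j : F ⧸ U.1.toSubgroup) (t j), fun f hf => ?_⟩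
    rw [ev_sum, ht f hf]
    refine Finset.sum_congr rfl fun j _ => ?_
    rw [ev_single]
    congr 1
    refine hf.eq_of ?_
    rw [← QuotientGroup.eq]
    simp
  choose a ha using hex
  refine ⟨a, fun U V h => ?_, fun U f hf => ha U f hf⟩
  rw [← sub_eq_zero]
  refine ev_ext hp fun f hf => ?_
  have h1 : ev f (proj p h (a U) - a V) + ev f (a V) = ev f (proj p h (a U)) := by
    rw [← ev_add, sub_add_cancel]
  rw [ev_map h hf, ha U f (hf.mono h), ha V f hf] at h1
  simpa using h1

/-- if `F_p[[F/N]]` has no zero divisors then `N` is good -/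
theorem NoZeroDiv.good (hp : p.Prime) {N : Subgroup F} (hN : N.Normal) (h : NoZeroDiv p N) :
    Good p N := by
  classical
  have hne : ∀ (σ : (F → ZMod p) →ₗ[ZMod p] ZMod p) (c : Fam p N),
      (∀ (U : OpenOver N) (f : F → ZMod p), RInv U.1.toSubgroup f → ev f (c U) = σ f) →
      (∃ f ∈ LC p N, σ f ≠ 0) → ¬ ∀ U, c U = 0 := by
    rintro σ c hc ⟨f, ⟨hfN, U, hU, hUn, hfU⟩, hf⟩ h0
    have hopen : IsOpen ((N ⊔ U : Subgroup F) : Set F) := Subgroup.isOpen_mono le_sup_right hU
    let W : OpenOver N := ⟨⟨⟨N ⊔ U, hopen⟩, inferInstance⟩, le_sup_left⟩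
    apply hf
    rw [← hc W f (RInv.sup hUn hfN hfU), h0 W, ev_zero]
  intro τ τ' hτ hτ'
  by_contra hcon
  push Not at hcon
  obtain ⟨a, ha, ha'⟩ := exists_fam hp N τ
  obtain ⟨b, hb, hb'⟩ := exists_fam hp N τ'
  have hab : ∀ U, gmul (a U) (b U) = 0 := by
    intro U
    refine ev_ext hp fun f hf => ?_
    have hfL : f ∈ LC p N := ⟨hf.mono U.2, U.1.toSubgroup, U.1.isOpen', inferInstance, hf⟩
    have hUn : U.1.toSubgroup.Normal := inferInstance
    change ev f (a U * b U) = 0
    rw [ev_mul hf]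
    have h1 : (fun g => ev (fun h => f (h * g)) (a U)) = fun g => τ (fun h => f (h * g)) :=
      funext fun g => ha' U _ (hf.rho hUn g)
    have h2 : RInv U.1.toSubgroup (fun g => τ (fun h => f (h * g))) :=
      RInv_tau τ (fun h g => f (h * g)) (fun h => hf.lam h)
    rw [h1, hb' U _ h2]
    exact hcon f hfL
  rcases h a b ha hb hab with h1 | h1
  · exact hne τ a ha' hτ h1
  · exact hne τ' b hb' hτ' h1

end Converse

section Quotient

variable {F : Type} [Group F] [TopologicalSpace F] [IsTopologicalGroup F] [CompactSpace F]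
  [T2Space F] [TotallyDisconnectedSpace F]

variable {p : ℕ} {X : Type} {ι : X → F}

/-- the structure of the minimal good subgroup containing `r` inside a good subgroup `L` -/
theorem min_struct_of (hp : p.Prime) (hF : FreeProP p ι) (r : F) {L : Subgroup F} (hLn : L.Normal)
    (hLcl : IsClosed (L : Set F)) (hLgood : Good p L) (hrL : r ∈ L) :
    ∃ (v : F) (k : ℕ), ncl v ≤ L ∧ Good p (ncl v) ∧ r ∈ ncl v ∧
      (v ^ (p ^ k))⁻¹ * r ∈ cder (ncl v) ∧
      (v = 1 ∨ ∃ ψ0 : F → ZMod p, IsChar (ncl v) p ψ0 ∧ ψ0 v ≠ 0) ∧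
      (k = 0 → ncl v = ncl r) := by
  have := Fact.mk hp
  obtain ⟨N, hNL, hN, hNcl, hgood, hrN, hmin⟩ := exists_min_good r hLn hLcl hLgood hrL
  have hstep : ∀ v ∈ N, (v = 1 ∨ ∃ ψ0 : F → ZMod p, IsChar N p ψ0 ∧ ψ0 v ≠ 0) →
      r ∈ nxt p v hN → N = ncl v := by
    intro v hv hcase hr
    have h1 := hmin (nxt p v hN) nxt_le (nxt_normal hN) (nxt_closed hNcl)
      (good_nxt hp hF hN hgood hv hcase) hr
    exact eq_ncl_of_nxt hp hF.index hN hNcl hv h1
  by_cases hA : ∃ ψ0 : F → ZMod p, IsChar N p ψ0 ∧ ψ0 r ≠ 0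
  · have hNr : N = ncl r := by
      refine hstep r hrN (Or.inr hA) ⟨hrN, fun m χ _ h0 => ?_⟩
      have := h0 1
      simpa using this
    subst hNr
    refine ⟨r, 0, hNL, hgood, hrN, ?_, Or.inr hA, fun _ => rfl⟩
    rw [pow_zero, pow_one, inv_mul_cancel]
    exact one_mem _
  · push Not at hA
    by_cases hrD : r ∈ cder N
    · have hN1 : N = ncl 1 := by
        refine hstep 1 (one_mem _) (Or.inl rfl) ⟨hrN, fun m χ hχ _ => ?_⟩
        exact hχ.kill_cder hNcl hrD
      have hNr : N = ncl r := by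
        refine le_antisymm ?_ (ncl_le hN hNcl hrN)
        rw [hN1]
        exact ncl_le (ncl_normal r) (ncl_closed r) (one_mem _)
      refine ⟨1, 0, hN1 ▸ hNL, hN1 ▸ hgood, hN1 ▸ hrN, ?_, Or.inl rfl,
        fun _ => by rw [← hN1, hNr]⟩
      rw [← hN1]
      simpa using hrD
    · obtain ⟨v, hv, k, c', hc', hr, ψ, hψ, hψv⟩ := exists_root hp hF.index hN hNcl hrN hrD
      have hcN : c' ∈ N := cder_le hN hNcl hc'
      have hNv : N = ncl v := by
        refine hstep v hv (Or.inr ⟨ψ, hψ, hψv⟩) ⟨hrN, fun m χ hχ h0 => ?_⟩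
        have h1 : χ v = 0 := by simpa using h0 1
        rw [hr, hχ.1 _ (N.pow_mem hv _) c' hcN, hχ.kill_cder hNcl hc', hχ.pow hv, h1, mul_zero,
          add_zero]
      subst hNv
      refine ⟨v, k, hNL, hgood, hrN, ?_, Or.inr ⟨ψ, hψ, hψv⟩, ?_⟩
      · rw [hr]
        have e : (v ^ p ^ k)⁻¹ * (v ^ p ^ k * c') = c' := by group
        rw [e]
        exact hc'
      · intro hk0
        exfalso
        subst hk0
        rw [pow_zero, pow_one] at hr
        apply hψv
        have h1 := hA ψ hψ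
        rw [hr, hψ.1 v hv c' hcN, hψ.kill_cder hNcl hc', add_zero] at h1
        exact h1

/-- a character of `N = v^F` which does not kill `v` kills `R [N, N]` if `r = v ^ (p ^ k) c`,
`k ≥ 1`; so `v` does not lie in `R [N, N]` -/
theorem root_not_mem (hp : p.Prime) {v r : F} {k : ℕ} (hk : 1 ≤ k) {ψ : F → ZMod p}
    (hψ : IsChar (ncl v) p ψ) (hne : ψ v ≠ 0) (hr : r ∈ ncl v)
    (hrc : (v ^ (p ^ k))⁻¹ * r ∈ cder (ncl v)) : v ∉ ncl r ⊔ cder (ncl v) := by
  intro hv
  have := Fact.mk hp
  have hN := ncl_normal v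
  have hRn := ncl_normal r
  have hcl := ncl_closed v
  have hle : ncl r ≤ ncl v := ncl_mono hr
  obtain ⟨a, ha, b, hb, hab⟩ := Subgroup.mem_sup_of_normal_left.1 hv
  have hbN : b ∈ ncl v := cder_le hN hcl hb
  have h0 : IsChar (ncl r) p (fun _ : F => (0 : ZMod p)) :=
    ⟨fun _ _ _ _ => (add_zero _).symm, ⊤, isOpen_univ, inferInstance, fun _ _ _ => rfl⟩
  have h1 : ψ a = 0 := by
    refine char_ext_ncl (hψ.mono hle) h0 (fun g => ?_) a ha
    have hc : g⁻¹ * ((v ^ (p ^ k))⁻¹ * r) * g ∈ cder (ncl v) := by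
      simpa using (cder_normal hN).conj_mem _ hrc g⁻¹
    have hgv : g⁻¹ * v * g ∈ ncl v := by simpa using hN.conj_mem v (mem_ncl v) g⁻¹
    have e : g⁻¹ * r * g = (g⁻¹ * v * g) ^ (p ^ k) * (g⁻¹ * ((v ^ (p ^ k))⁻¹ * r) * g) := by
      have e1 : (g⁻¹ * v * g) ^ (p ^ k) = g⁻¹ * v ^ (p ^ k) * g := by
        have := conj_pow (i := p ^ k) (a := g⁻¹) (b := v)
        simpa using this
      rw [e1]
      group
    rw [e, hψ.1 _ ((ncl v).pow_mem hgv _) _ (cder_le hN hcl hc), hψ.kill_cder hcl hc, hψ.pow hgv,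
      add_zero, Nat.cast_pow, CharP.cast_eq_zero, zero_pow (by omega), zero_mul]
  apply hne
  rw [← hab, hψ.1 a (hle ha) b hbN, h1, hψ.kill_cder hcl hb, add_zero]

/-- the closed normal subgroup generated by a set -/
abbrev nclS (S : Set F) : Subgroup F := (Subgroup.normalClosure S).topologicalClosure

theorem nclS_normal (S : Set F) : (nclS S).Normal := Subgroup.is_normal_topologicalClosure _

theorem nclS_closed (S : Set F) : IsClosed ((nclS S : Subgroup F) : Set F) :=
  Subgroup.isClosed_topologicalClosure _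

theorem subset_nclS (S : Set F) : S ⊆ nclS S := fun _ hx =>
  Subgroup.le_topologicalClosure _ (Subgroup.subset_normalClosure hx)

theorem nclS_le {S : Set F} {N : Subgroup F} (hN : N.Normal) (hcl : IsClosed (N : Set F))
    (hS : S ⊆ N) : nclS S ≤ N := by
  have := hN
  exact Subgroup.topologicalClosure_minimal _ (Subgroup.normalClosure_le_normal hS) hcl

/-- the theorem on quotients by elements of order `p` -/
theorem tor_quot (hp : p.Prime) (hF : FreeProP p ι) (r : F) (A : Set F)
    (hA : ∀ x ∈ A, x ^ p ∈ ncl r) (hnz : NoZeroDiv p (nclS (insert r A))) :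
    (nclS (insert r A) = ncl r ∧ TorsionFreeMod (ncl r)) ∨
      ∃ x ∈ A, x ∉ ncl r ∧ ncl (x ^ p) = ncl r := by
  have := Fact.mk hp
  set L := nclS (insert r A) with hL
  have hLn : L.Normal := nclS_normal _
  have hLcl : IsClosed (L : Set F) := nclS_closed _
  have hLgood : Good p L := hnz.good hp hLn
  have hrL : r ∈ L := subset_nclS _ (Set.mem_insert r A)
  have htfL : TorsionFreeMod L := fun g n hn h => hLgood.torsionFree hLn hLcl g n hn h
  obtain ⟨v, k, hvL, hgood, hr, hrc, hcase, hk0⟩ := min_struct_of hp hF r hLn hLcl hLgood hrL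
  have htf : TorsionFreeMod (ncl v) := fun g n hn h =>
    hgood.torsionFree (ncl_normal v) (ncl_closed v) g n hn h
  have hLv : L = ncl v := by
    refine le_antisymm (nclS_le (ncl_normal v) (ncl_closed v) ?_) hvL
    rintro x (rfl | hx)
    · exact hr
    · exact htf x p hp.pos (ncl_mono hr (hA x hx))
  rcases Nat.eq_zero_or_pos k with rfl | hk
  · left
    have h1 : L = ncl r := by rw [hLv, hk0 rfl]
    exact ⟨h1, h1 ▸ htfL⟩
  · rcases hcase with rfl | ⟨ψ0, hψ0, hne⟩
    · left
      have h1 : ncl (1 : F) = ncl r := le_antisymm (ncl_mono (one_mem _)) (ncl_mono hr)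
      have h2 : L = ncl r := by rw [hLv, h1]
      exact ⟨h2, h2 ▸ htfL⟩
    · right
      by_contra hcon
      push Not at hcon
      refine root_not_mem hp hk hψ0 hne hr hrc ?_
      have h1 : (ncl r ⊔ cder (ncl v)).Normal := by
        have := ncl_normal r
        have := cder_normal (ncl_normal v)
        infer_instance
      have h2 : IsClosed ((ncl r ⊔ cder (ncl v) : Subgroup F) : Set F) :=
        isClosed_sup (ncl_normal r) (ncl_closed r) (cder_closed _)
      have h3 : L ≤ ncl r ⊔ cder (ncl v) := by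
        refine nclS_le h1 h2 ?_
        rintro x (rfl | hx)
        · exact (le_sup_left : ncl x ≤ _) (mem_ncl x)
        · by_cases hxr : x ∈ ncl r
          · exact (le_sup_left : ncl r ≤ _) hxr
          · exact torsion_bad hp hF hk hgood hψ0 hne hr hrc
              (htf x p hp.pos (ncl_mono hr (hA x hx))) (hA x hx) (hcon x hx hxr)
      exact h3 (hLv ▸ mem_ncl v)

end Quotient

end Pool.Agent.Serre
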